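import Mathlib

/-!
# Local minimizers of the Mumford-Shah energy in the plane: definitions (MP_099f24_an)

The plane `ℝ²` is `ℂ` with its Euclidean norm, Lebesgue measure `volume` and one-dimensional
Hausdorff measure `μH[1]`.
-/

namespace Pool.Agent.MP099f24

open MeasureTheory Filter Topology Set Metric
open scoped ENNReal ContDiff

/-! ### Functions of class `SBV_loc` -/

/-- `z` is the approximate limit of `w` at `x`: the mean of `|w - z|` over `B_r(x)` tends to `0`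
as `r → 0`. -/
def IsApproxLim (w : ℂ → ℝ) (x : ℂ) (z : ℝ) : Prop :=
  Tendsto (fun r : ℝ => ⨍ y in ball x r, |w y - z|) (𝓝[>] 0) (𝓝 0)

/-- The approximate discontinuity set `S_w` of `w` in `Ω`. -/
def discSet (Ω : Set ℂ) (w : ℂ → ℝ) : Set ℂ := {x | x ∈ Ω ∧ ¬ ∃ z, IsApproxLim w x z}

/-- The half ball `{y ∈ B_r(x) : (y - x) · ν > 0}`. -/
def halfBall (x ν : ℂ) (r : ℝ) : Set ℂ := ball x r ∩ {y | 0 < inner ℝ (y - x) ν}

/-- `x` is an approximate jump point of `w`, with one-sided approximate limits `a ≠ b` on the two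
sides of the line through `x` normal to the unit vector `ν` (`a` on the side `ν` points to). -/
def IsJump (w : ℂ → ℝ) (x : ℂ) (a b : ℝ) (ν : ℂ) : Prop :=
  ‖ν‖ = 1 ∧ a ≠ b ∧
    Tendsto (fun r : ℝ => ⨍ y in halfBall x ν r, |w y - a|) (𝓝[>] 0) (𝓝 0) ∧
    Tendsto (fun r : ℝ => ⨍ y in halfBall x (-ν) r, |w y - b|) (𝓝[>] 0) (𝓝 0)

/-- `j = (w⁺ - w⁻) ν` at the approximate jump points of `w` in `Ω` and `j = 0` at all other points
of `Ω`.  (The triple `(w⁺, w⁻, ν)` is unique up to replacing it by `(w⁻, w⁺, -ν)`, so `j` is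
determined by `w`.) -/
def IsJumpField (Ω : Set ℂ) (w : ℂ → ℝ) (j : ℂ → ℂ) : Prop :=
  ∀ x ∈ Ω, (∃ a b ν, IsJump w x a b ν ∧ j x = (a - b) • ν) ∨
    ((¬ ∃ a b ν, IsJump w x a b ν) ∧ j x = 0)

/-- The distributional derivative of `w` in `Ω` is `g 𝓛² + (w⁺ - w⁻) ν 𝓗¹⌞J_w`, the two densities
being locally integrable. -/
def IsSBVGrad (Ω : Set ℂ) (w : ℂ → ℝ) (g : ℂ → ℂ) : Prop :=
  LocallyIntegrableOn g Ω ∧ ∃ j : ℂ → ℂ, IsJumpField Ω w j ∧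
    LocallyIntegrableOn j Ω (μH[1] : Measure ℂ) ∧
    ∀ φ : ℂ → ℝ, ContDiff ℝ ∞ φ → HasCompactSupport φ → tsupport φ ⊆ Ω → ∀ v : ℂ,
      ∫ x in Ω, w x * fderiv ℝ φ x v =
        - (∫ x in Ω, φ x * inner ℝ (g x) v) - ∫ x in Ω, φ x * inner ℝ (j x) v ∂(μH[1] : Measure ℂ)

/-- `w ∈ SBV_loc(Ω)`: `w` is locally integrable and `Dw = ∇w 𝓛² + (w⁺ - w⁻) ν 𝓗¹⌞J_w`. -/
def SBVloc (Ω : Set ℂ) (w : ℂ → ℝ) : Prop :=
  LocallyIntegrableOn w Ω ∧ ∃ g : ℂ → ℂ, IsSBVGrad Ω w g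

/-- The Mumford-Shah energy `E(w, A) = ∫_A |∇w|² + 𝓗¹(S_w ∩ A)`, for `w ∈ SBV_loc(Ω)`.
(`∇w` is determined by `w` almost everywhere.) -/
noncomputable def energy (Ω : Set ℂ) (w : ℂ → ℝ) (A : Set ℂ) : ℝ≥0∞ :=
  (⨅ (g : ℂ → ℂ) (_ : IsSBVGrad Ω w g), ∫⁻ x in A, ‖g x‖ₑ ^ 2) +
    (μH[1] : Measure ℂ) (discSet Ω w ∩ A)

/-- `A` is compactly contained in `B`. -/
def CompactlyIn (A B : Set ℂ) : Prop := IsCompact (closure A) ∧ closure A ⊆ B

/-- `u ∈ 𝓜(Ω)`: `u` is a local minimizer of the Mumford-Shah energy in `Ω`. -/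
def IsLocalMinimizer (Ω : Set ℂ) (u : ℂ → ℝ) : Prop :=
  SBVloc Ω u ∧
  (∀ A, IsOpen A → CompactlyIn A Ω → energy Ω u A < ⊤) ∧
  ∀ (w : ℂ → ℝ) (A : Set ℂ), SBVloc Ω w → IsOpen A → CompactlyIn A Ω →
    (∃ K, IsCompact K ∧ K ⊆ A ∧ ∀ᵐ x ∂volume.restrict Ω, x ∉ K → w x = u x) →
    energy Ω u A ≤ energy Ω w A

/-! ### Admissible families of arcs -/

/-- `γ : I → Ω` is an arc: `I` is a nondegenerate interval, `γ` is continuous and injective on `I`,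
`C¹` on the interior of `I`, and at each end of `I` that does not belong to `I`, `γ` eventually
leaves every compact subset of `Ω`. -/
structure IsArc (Ω : Set ℂ) (I : Set ℝ) (γ : ℝ → ℂ) : Prop where
  ordConnected : I.OrdConnected
  nontrivial : I.Nontrivial
  mapsTo : MapsTo γ I Ω
  continuousOn : ContinuousOn γ I
  injOn : InjOn γ I
  contDiffOn : ContDiffOn ℝ 1 γ (interior I)
  leaves_right : (∀ t ∈ I, ∃ s ∈ I, t < s) → ∀ K, IsCompact K → K ⊆ Ω →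
    ∃ t₀ ∈ I, ∀ t ∈ I, t₀ ≤ t → γ t ∉ K
  leaves_left : (∀ t ∈ I, ∃ s ∈ I, s < t) → ∀ K, IsCompact K → K ⊆ Ω →
    ∃ t₀ ∈ I, ∀ t ∈ I, t ≤ t₀ → γ t ∉ K

/-- `p` is an endpoint of the arc `γ : I → Ω` -/
def IsEndpoint (I : Set ℝ) (γ : ℝ → ℂ) (p : ℂ) : Prop :=
  ∃ m, (IsLeast I m ∨ IsGreatest I m) ∧ γ m = p

/-- `τ` is the (unit) direction in which the arc `γ : I → Ω` leaves its endpoint `p`. -/
def HasEndDirection (I : Set ℝ) (γ : ℝ → ℂ) (p τ : ℂ) : Prop :=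
  ∃ m, (IsLeast I m ∨ IsGreatest I m) ∧ γ m = p ∧
    Tendsto (fun t => (‖γ t - p‖⁻¹ : ℝ) • (γ t - p)) (𝓝[I \ {m}] m) (𝓝 τ)

/-- An admissible family of arcs `γ i : I i → Ω`. -/
structure IsAdmissible (Ω : Set ℂ) {ι : Type*} (I : ι → Set ℝ) (γ : ι → ℝ → ℂ) : Prop where
  countable : Countable ι
  isArc : ∀ i, IsArc Ω (I i) (γ i)
  /-- (c1) every compact subset of `Ω` meets only finitely many of the arcs -/
  locFinite : ∀ K, IsCompact K → K ⊆ Ω → {i | (γ i '' I i ∩ K).Nonempty}.Finite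
  /-- (c2) two distinct arcs share at most one point -/
  share : ∀ i k, i ≠ k → (γ i '' I i ∩ γ k '' I k).Subsingleton
  /-- (c2) a common point is an endpoint of both arcs -/
  share_endpoint : ∀ i k, i ≠ k → ∀ p ∈ γ i '' I i ∩ γ k '' I k,
    IsEndpoint (I i) (γ i) p ∧ IsEndpoint (I k) (γ k) p
  /-- (c2) a common point is an endpoint of exactly three arcs -/
  triple : ∀ i k, i ≠ k → ∀ p ∈ γ i '' I i ∩ γ k '' I k,
    {l | IsEndpoint (I l) (γ l) p}.encard = 3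
  /-- (c2) the three arcs form equal angles `2π/3` -/
  angles : ∀ i k, i ≠ k → ∀ p ∈ γ i '' I i ∩ γ k '' I k, ∃ τ : ι → ℂ,
    (∀ l, IsEndpoint (I l) (γ l) p → HasEndDirection (I l) (γ l) p (τ l)) ∧
    ∀ l m, IsEndpoint (I l) (γ l) p → IsEndpoint (I m) (γ m) p → l ≠ m →
      InnerProductGeometry.angle (τ l) (τ m) = 2 * Real.pi / 3

/-- `S` is the union of the images of an admissible family of arcs in `Ω`. -/
def IsAdmissibleUnion (Ω S : Set ℂ) : Prop :=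
  ∃ (ι : Type) (I : ι → Set ℝ) (γ : ι → ℝ → ℂ), IsAdmissible Ω I γ ∧ S = ⋃ i, γ i '' I i

end Pool.Agent.MP099f24
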