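import Pool.Agent.Lib.MP_099f24_an.Defs

/-!
# Jump points are not points of approximate continuity (MP_099f24_an)
-/

namespace Pool.Agent.MP099f24

open MeasureTheory Filter Topology Set Metric
open scoped ENNReal ContDiff

theorem jb_ball_subset_halfBall (x : ℂ) {ν : ℂ} (hν : ‖ν‖ = 1) {r : ℝ} (hr : 0 < r) :
    ball (x + (r / 2 : ℝ) • ν) (r / 2) ⊆ halfBall x ν r := by
  intro y hy
  rw [mem_ball, dist_eq_norm] at hy
  have hn : ‖((r / 2 : ℝ) • ν : ℂ)‖ = r / 2 := by
    rw [norm_smul, hν, mul_one, Real.norm_of_nonneg (by positivity)]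
  refine ⟨?_, ?_⟩
  · rw [mem_ball, dist_eq_norm]
    have : y - x = (y - (x + (r / 2 : ℝ) • ν)) + (r / 2 : ℝ) • ν := by ring
    rw [this]
    refine lt_of_le_of_lt (norm_add_le _ _) ?_
    rw [hn]
    linarith
  · show 0 < inner ℝ (y - x) ν
    have h1 : y - x = (y - (x + (r / 2 : ℝ) • ν)) + (r / 2 : ℝ) • ν := by ring
    rw [h1, inner_add_left, real_inner_smul_left, real_inner_self_eq_norm_sq, hν]
    have h2 := abs_real_inner_le_norm (y - (x + (r / 2 : ℝ) • ν)) ν
    rw [hν, mul_one] at h2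
    have h3 := (abs_le.1 h2).1
    linarith

theorem jb_volume_ball (x : ℂ) {r : ℝ} (hr : 0 < r) :
    (volume : Measure ℂ).real (ball x r) = Real.pi * r ^ 2 := by
  rw [measureReal_def, Complex.volume_ball, ENNReal.toReal_mul, ENNReal.toReal_pow,
    ENNReal.toReal_ofReal hr.le]
  simp [mul_comm]

theorem jb_halfBall_finite (x ν : ℂ) (r : ℝ) : (volume : Measure ℂ) (halfBall x ν r) ≠ ⊤ :=
  ne_top_of_le_ne_top measure_ball_lt_top.ne (measure_mono inter_subset_left)

theorem jb_volume_halfBall (x : ℂ) {ν : ℂ} (hν : ‖ν‖ = 1) {r : ℝ} (hr : 0 < r) :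
    Real.pi * r ^ 2 / 4 ≤ (volume : Measure ℂ).real (halfBall x ν r) := by
  have h := measureReal_mono (μ := (volume : Measure ℂ)) (jb_ball_subset_halfBall x hν hr)
    (jb_halfBall_finite x ν r)
  rw [jb_volume_ball _ (half_pos hr)] at h
  calc Real.pi * r ^ 2 / 4 = Real.pi * (r / 2) ^ 2 := by ring
    _ ≤ _ := h

theorem jb_average_half {g : ℂ → ℝ} (hg : ∀ y, 0 ≤ g y) (x : ℂ) {ν : ℂ} (hν : ‖ν‖ = 1) {r : ℝ}
    (hr : 0 < r) (hi : IntegrableOn g (ball x r)) :
    ⨍ y in halfBall x ν r, g y ≤ 4 * ⨍ y in ball x r, g y := by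
  rw [setAverage_eq, setAverage_eq, smul_eq_mul, smul_eq_mul, jb_volume_ball x hr]
  have h1 : ∫ y in halfBall x ν r, g y ≤ ∫ y in ball x r, g y :=
    setIntegral_mono_set hi (Eventually.of_forall hg)
      (LE.le.eventuallyLE inter_subset_left)
  have h2 := jb_volume_halfBall x hν hr
  have h3 : (0 : ℝ) < Real.pi * r ^ 2 / 4 := by positivity
  have h4 : ((volume : Measure ℂ).real (halfBall x ν r))⁻¹ ≤ (Real.pi * r ^ 2 / 4)⁻¹ :=
    inv_anti₀ h3 h2
  have h5 : 0 ≤ ∫ y in halfBall x ν r, g y := integral_nonneg hg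
  calc ((volume : Measure ℂ).real (halfBall x ν r))⁻¹ * ∫ y in halfBall x ν r, g y
      ≤ (Real.pi * r ^ 2 / 4)⁻¹ * ∫ y in ball x r, g y :=
        mul_le_mul h4 h1 h5 (inv_nonneg.2 h3.le)
    _ = 4 * ((Real.pi * r ^ 2)⁻¹ * ∫ y in ball x r, g y) := by
        field_simp

theorem jb_abs_sub_le {w : ℂ → ℝ} {x : ℂ} (a z : ℝ) {ν : ℂ} (hν : ‖ν‖ = 1) {r : ℝ}
    (hr : 0 < r) (hi : IntegrableOn w (ball x r)) :
    |a - z| ≤ (⨍ y in halfBall x ν r, |w y - a|) + 4 * ⨍ y in ball x r, |w y - z| := by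
  have hfin := jb_halfBall_finite x ν r
  have hpos : (0 : ℝ) < (volume : Measure ℂ).real (halfBall x ν r) :=
    lt_of_lt_of_le (by positivity) (jb_volume_halfBall x hν hr)
  have hvb : (volume : Measure ℂ) (ball x r) ≠ ⊤ := measure_ball_lt_top.ne
  have hib : IntegrableOn (fun y => |w y - z|) (ball x r) :=
    (hi.sub (integrableOn_const hvb)).abs
  have hih : IntegrableOn (fun y => |w y - z|) (halfBall x ν r) := hib.mono_set inter_subset_left
  have hia : IntegrableOn (fun y => |w y - a|) (halfBall x ν r) :=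
    ((hi.mono_set inter_subset_left).sub (integrableOn_const hfin)).abs
  have h1 := jb_average_half (fun y => abs_nonneg (w y - z)) x hν hr hib
  have h2 : |a - z| ≤ (⨍ y in halfBall x ν r, |w y - a|) + ⨍ y in halfBall x ν r, |w y - z| := by
    rw [setAverage_eq, setAverage_eq, smul_eq_mul, smul_eq_mul, ← mul_add,
      ← integral_add hia hih]
    have h3 : (volume : Measure ℂ).real (halfBall x ν r) * |a - z| ≤
        ∫ y in halfBall x ν r, (|w y - a| + |w y - z|) := by
      have h4 : ∫ y in halfBall x ν r, |a - z| =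
          (volume : Measure ℂ).real (halfBall x ν r) * |a - z| := by
        rw [setIntegral_const, smul_eq_mul]
      rw [← h4]
      refine integral_mono (integrableOn_const hfin) (hia.add hih) ?_
      intro y
      show |a - z| ≤ |w y - a| + |w y - z|
      have := abs_sub_le a (w y) z
      rw [abs_sub_comm a (w y)] at this
      exact this
    calc |a - z| = ((volume : Measure ℂ).real (halfBall x ν r))⁻¹ *
          ((volume : Measure ℂ).real (halfBall x ν r) * |a - z|) := by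
            rw [← mul_assoc, inv_mul_cancel₀ hpos.ne', one_mul]
      _ ≤ _ := mul_le_mul_of_nonneg_left h3 (inv_nonneg.2 hpos.le)
  linarith

theorem jb_eq_of_half {w : ℂ → ℝ} {x : ℂ} {a z : ℝ} {ν : ℂ} {U : Set ℂ}
    (hU : U ∈ 𝓝 x) (hw : IntegrableOn w U) (hν : ‖ν‖ = 1)
    (ha : Tendsto (fun r : ℝ => ⨍ y in halfBall x ν r, |w y - a|) (𝓝[>] 0) (𝓝 0))
    (hz : IsApproxLim w x z) : a = z := by
  have hsum : Tendsto (fun r : ℝ => (⨍ y in halfBall x ν r, |w y - a|) +
      4 * ⨍ y in ball x r, |w y - z|) (𝓝[>] 0) (𝓝 (0 + 4 * 0)) :=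
    ha.add (hz.const_mul 4)
  rw [mul_zero, add_zero] at hsum
  obtain ⟨ε, hε, hεU⟩ := Metric.mem_nhds_iff.1 hU
  have hle : |a - z| ≤ 0 := by
    refine ge_of_tendsto hsum ?_
    have hmem : Ioo (0 : ℝ) ε ∈ 𝓝[>] (0 : ℝ) := Ioo_mem_nhdsGT hε
    filter_upwards [hmem] with r hr
    exact jb_abs_sub_le a z hν hr.1 (hw.mono_set ((ball_subset_ball hr.2.le).trans hεU))
  have := abs_nonpos_iff.1 hle
  linarith

/-- An approximate jump point is not a point of approximate continuity. -/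
theorem not_isApproxLim_of_isJump {w : ℂ → ℝ} {x : ℂ} {a b : ℝ} {ν : ℂ} {U : Set ℂ}
    (hU : U ∈ 𝓝 x) (hw : IntegrableOn w U) (h : IsJump w x a b ν) (z : ℝ) :
    ¬ IsApproxLim w x z := by
  intro hz
  obtain ⟨hν, hab, h1, h2⟩ := h
  have e1 := jb_eq_of_half hU hw hν h1 hz
  have e2 := jb_eq_of_half hU hw (by rwa [norm_neg]) h2 hz
  exact hab (e1.trans e2.symm)

theorem isApproxLim_of_continuousAt {w : ℂ → ℝ} {x : ℂ} (h : ContinuousAt w x) :
    IsApproxLim w x (w x) := by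
  rw [IsApproxLim, Metric.tendsto_nhds]
  intro η hη
  obtain ⟨δ, hδ, hδw⟩ := Metric.continuousAt_iff.1 h (η / 2) (half_pos hη)
  have hmem : Ioo (0 : ℝ) δ ∈ 𝓝[>] (0 : ℝ) := Ioo_mem_nhdsGT hδ
  filter_upwards [hmem] with r hr
  have hpos : (0 : ℝ) < (volume : Measure ℂ).real (ball x r) := by
    rw [jb_volume_ball x hr.1]
    have := hr.1
    positivity
  have hb : ‖∫ y in ball x r, |w y - w x|‖ ≤ η / 2 * (volume : Measure ℂ).real (ball x r) := by
    refine norm_setIntegral_le_of_norm_le_const measure_ball_lt_top ?_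
    intro y hy
    have := hδw (lt_trans (mem_ball.1 hy) hr.2)
    rw [Real.dist_eq] at this
    rw [Real.norm_eq_abs, abs_abs]
    exact this.le
  rw [Real.dist_eq, sub_zero, setAverage_eq, smul_eq_mul, abs_mul, abs_of_pos (inv_pos.2 hpos)]
  rw [Real.norm_eq_abs] at hb
  calc ((volume : Measure ℂ).real (ball x r))⁻¹ * |∫ y in ball x r, (|w y - w x|)|
      ≤ ((volume : Measure ℂ).real (ball x r))⁻¹ *
          (η / 2 * (volume : Measure ℂ).real (ball x r)) :=
        mul_le_mul_of_nonneg_left hb (inv_nonneg.2 hpos.le)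
    _ = η / 2 := by
        field_simp
    _ < η := half_lt_self hη

end Pool.Agent.MP099f24
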