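import Pool.Agent.Lib.MP_099f24_an.ChainRule
import Pool.Agent.Lib.MP_099f24_an.JumpBasic

/-!
# The calibration theorem (MP_099f24_an)
-/

namespace Pool.Agent.MP099f24

open MeasureTheory Filter Topology Set Metric
open scoped ENNReal ContDiff Manifold

/-- A smooth cutoff function between a compact set and an open set. -/
theorem cal_cutoff {K A : Set ℂ} (hK : IsCompact K) (hA : IsOpen A) (hKA : K ⊆ A) :
    ∃ χ : ℂ → ℝ, ContDiff ℝ ∞ χ ∧ HasCompactSupport χ ∧ tsupport χ ⊆ A ∧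
      (∀ x, 0 ≤ χ x ∧ χ x ≤ 1) ∧ ∀ x ∈ K, χ =ᶠ[𝓝 x] fun _ => (1 : ℝ) := by
  obtain ⟨L, hL, hKL, hLA⟩ := exists_compact_between hK hA hKA
  obtain ⟨f, hf1, hf2, hf3⟩ :=
    exists_contMDiffMap_one_nhds_of_subset_interior (n := (⊤ : ℕ∞)) 𝓘(ℝ, ℂ) hK.isClosed hKL
  have hsub : Function.support f ⊆ L := by
    intro x hx
    by_contra h
    exact hx (hf2 x h)
  have hts : tsupport f ⊆ L := closure_minimal hsub hL.isClosed
  refine ⟨f, ?_, ?_, hts.trans hLA, fun x => hf3 x, ?_⟩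
  · exact contMDiff_iff_contDiff.1 f.contMDiff
  · exact hL.of_isClosed_subset (isClosed_tsupport _) hts
  · intro x hx
    exact (eventually_nhdsSet_iff_forall.1 hf1) x hx

/-- Approximate limits only depend on the values almost everywhere near the point. -/
theorem cal_isApproxLim_iff {w u : ℂ → ℝ} {x : ℂ} {z : ℝ} {U : Set ℂ} (hU : U ∈ 𝓝 x)
    (h : ∀ᵐ y ∂volume.restrict U, w y = u y) : IsApproxLim w x z ↔ IsApproxLim u x z :=
  ⟨fun h' => h'.congr_ae hU h, fun h' => h'.congr_ae hU (h.mono fun _ hy => hy.symm)⟩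

theorem cal_isJump_iff {w u : ℂ → ℝ} {x : ℂ} {a b : ℝ} {ν : ℂ} {U : Set ℂ} (hU : U ∈ 𝓝 x)
    (h : ∀ᵐ y ∂volume.restrict U, w y = u y) : IsJump w x a b ν ↔ IsJump u x a b ν :=
  ⟨fun h' => h'.congr_ae hU h, fun h' => h'.congr_ae hU (h.mono fun _ hy => hy.symm)⟩

/-- A point of approximate continuity is not a jump point. -/
theorem cal_not_jump {Ω : Set ℂ} (hΩ : IsOpen Ω) {w : ℂ → ℝ} (hw : LocallyIntegrableOn w Ω)
    {x : ℂ} (hx : x ∈ Ω) (hd : x ∉ discSet Ω w) : ¬ ∃ a b ν, IsJump w x a b ν := by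
  rintro ⟨a, b, ν, h⟩
  have h1 : ∃ z, IsApproxLim w x z := by
    by_contra h'
    exact hd ⟨hx, h'⟩
  obtain ⟨z, hz⟩ := h1
  obtain ⟨U, hU, hwU⟩ := hw x hx
  rw [hΩ.nhdsWithin_eq hx] at hU
  exact not_isApproxLim_of_isJump hU hwU h z hz

/-- The gradients of two functions that agree off `K` agree off `K`. -/
theorem cal_grad_eq {Ω : Set ℂ} (hΩ : IsOpen Ω) {u w : ℂ → ℝ} {g h : ℂ → ℂ}
    (hu : LocallyIntegrableOn u Ω) (hw : LocallyIntegrableOn w Ω)
    (hg : IsSBVGrad Ω u g) (hh : IsSBVGrad Ω w h)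
    {K : Set ℂ} (hK : IsCompact K)
    (heq : ∀ᵐ x ∂volume.restrict Ω, x ∉ K → w x = u x)
    (hnull : volume (Ω ∩ closure (discSet Ω u)) = 0)
    (hdisc : ∀ x ∈ Ω, x ∉ K → (x ∈ discSet Ω u ↔ x ∈ discSet Ω w)) :
    ∀ᵐ x ∂volume.restrict Ω, x ∉ K → g x = h x := by
  obtain ⟨hgi, j, hj, hji, hjf⟩ := hg
  obtain ⟨hhi, l, hl, hli, hlf⟩ := hh
  set V : Set ℂ := Ω \ (K ∪ closure (discSet Ω u)) with hV
  have hVo : IsOpen V := hΩ.sdiff (hK.isClosed.union isClosed_closure)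
  have hVΩ : V ⊆ Ω := sdiff_subset
  have hj0 : ∀ x ∈ V, j x = 0 := by
    intro x hx
    have hxd : x ∉ discSet Ω u := fun h' => hx.2 (Or.inr (subset_closure h'))
    rcases hj x hx.1 with ⟨a, b, ν, h1, -⟩ | ⟨-, h2⟩
    · exact absurd ⟨a, b, ν, h1⟩ (cal_not_jump hΩ hu hx.1 hxd)
    · exact h2
  have hl0 : ∀ x ∈ V, l x = 0 := by
    intro x hx
    have hxd : x ∉ discSet Ω u := fun h' => hx.2 (Or.inr (subset_closure h'))
    have hxK : x ∉ K := fun h' => hx.2 (Or.inl h')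
    have hxd' : x ∉ discSet Ω w := fun h' => hxd ((hdisc x hx.1 hxK).2 h')
    rcases hl x hx.1 with ⟨a, b, ν, h1, -⟩ | ⟨-, h2⟩
    · exact absurd ⟨a, b, ν, h1⟩ (cal_not_jump hΩ hw hx.1 hxd')
    · exact h2
  have key : ∀ᵐ x ∂(volume : Measure ℂ), x ∈ V → g x - h x = 0 := by
    refine hVo.ae_eq_zero_of_integral_contDiff_smul_eq_zero
      ((hgi.mono_set hVΩ).sub (hhi.mono_set hVΩ)) ?_
    intro φ hφ hφc hφV
    have hφΩ : tsupport φ ⊆ Ω := hφV.trans hVΩ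
    have hφ0 : ∀ x, x ∉ V → φ x = 0 := fun x hx =>
      image_eq_zero_of_notMem_tsupport fun h' => hx (hφV h')
    -- integrability
    have hci : ∀ {f : ℂ → ℂ}, LocallyIntegrableOn f Ω → IntegrableOn (fun x => φ x • f x) Ω := by
      intro f hf
      have h1 : IntegrableOn f (tsupport φ) := hf.integrableOn_compact_subset hφΩ hφc
      obtain ⟨C, hC⟩ := hφc.exists_bound_of_continuous hφ.continuous
      have h2 : IntegrableOn (fun x => φ x • f x) (tsupport φ) := by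
        exact Integrable.bdd_smul h1 C hφ.continuous.aestronglyMeasurable
          (Eventually.of_forall hC)
      have h3 : Integrable (fun x => φ x • f x) := by
        rw [← integrableOn_iff_integrable_of_support_subset (s := tsupport φ)]
        · exact h2
        · intro x hx
          by_contra h'
          exact hx (by simp [image_eq_zero_of_notMem_tsupport h'])
      exact h3.integrableOn
    have hgφ := hci hgi
    have hhφ := hci hhi
    have hmain : ∀ v : ℂ, ∫ x in Ω, φ x * inner ℝ (g x) v = ∫ x in Ω, φ x * inner ℝ (h x) v := by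
      intro v
      have e1 := hjf φ hφ hφc hφΩ v
      have e2 := hlf φ hφ hφc hφΩ v
      have z1 : ∫ x in Ω, φ x * inner ℝ (j x) v ∂(μH[1] : Measure ℂ) = 0 := by
        have : ∀ x, φ x * inner ℝ (j x) v = 0 := by
          intro x
          by_cases hx : x ∈ V
          · rw [hj0 x hx, inner_zero_left, mul_zero]
          · rw [hφ0 x hx, zero_mul]
        rw [integral_congr_ae (Eventually.of_forall this), integral_zero]
      have z2 : ∫ x in Ω, φ x * inner ℝ (l x) v ∂(μH[1] : Measure ℂ) = 0 := by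
        have : ∀ x, φ x * inner ℝ (l x) v = 0 := by
          intro x
          by_cases hx : x ∈ V
          · rw [hl0 x hx, inner_zero_left, mul_zero]
          · rw [hφ0 x hx, zero_mul]
        rw [integral_congr_ae (Eventually.of_forall this), integral_zero]
      have e3 : ∫ x in Ω, w x * fderiv ℝ φ x v = ∫ x in Ω, u x * fderiv ℝ φ x v := by
        refine integral_congr_ae ?_
        filter_upwards [heq] with x hx
        by_cases hxK : x ∈ K
        · have hxV : x ∉ tsupport φ := fun h' => (hφV h').2 (Or.inl hxK)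
          have : fderiv ℝ φ x = 0 := by
            have h1 : x ∉ tsupport (fderiv ℝ φ) := fun h' => hxV (tsupport_fderiv_subset ℝ h')
            exact image_eq_zero_of_notMem_tsupport h1
          simp [this]
        · rw [hx hxK]
      rw [z1] at e1
      rw [z2, e3] at e2
      linarith
    have hΩint : ∫ x, φ x • (g x - h x) = ∫ x in Ω, φ x • (g x - h x) := by
      refine (setIntegral_eq_integral_of_forall_compl_eq_zero ?_).symm
      intro x hx
      rw [hφ0 x (fun h' => hx (hVΩ h')), zero_smul]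
    rw [hΩint]
    have hsub : ∫ x in Ω, φ x • (g x - h x) = (∫ x in Ω, φ x • g x) - ∫ x in Ω, φ x • h x := by
      rw [← integral_sub hgφ hhφ]
      refine integral_congr_ae (Eventually.of_forall fun x => ?_)
      simp only [smul_sub]
    rw [hsub, sub_eq_zero]
    refine ext_inner_left ℝ fun v => ?_
    rw [← integral_inner hgφ v, ← integral_inner hhφ v]
    have c1 : ∀ f : ℂ → ℂ, (fun x => inner ℝ v (φ x • f x)) = fun x => φ x * inner ℝ (f x) v := by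
      intro f
      funext x
      rw [real_inner_smul_right, real_inner_comm]
    rw [c1, c1]
    exact hmain v
  rw [ae_restrict_iff' hΩ.measurableSet]
  have hn : ∀ᵐ x ∂(volume : Measure ℂ), x ∉ Ω ∩ closure (discSet Ω u) :=
    measure_eq_zero_iff_ae_notMem.1 hnull
  filter_upwards [key, hn] with x hx hxn hxΩ hxK
  have hxV : x ∈ V := ⟨hxΩ, fun h' => h'.elim hxK fun h'' => hxn ⟨hxΩ, h''⟩⟩
  exact sub_eq_zero.1 (hx hxV)

/-- The Hausdorff part of the comparison. -/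
theorem cal_hausdorff {μ : Measure ℂ} {A K S T : Set ℂ} (hA : MeasurableSet A)
    (hS : MeasurableSet S) (hSf : μ (S ∩ A) ≠ ⊤) (hTf : μ (T ∩ A) ≠ ⊤) {χ k : ℂ → ℝ}
    (hχc : Continuous χ) (hχ : ∀ x, 0 ≤ χ x ∧ χ x ≤ 1) (hk : IntegrableOn k A μ)
    (hK : ∀ x ∈ K, χ x = 1) (hle : ∀ x ∈ A, k x ≤ 1) (h0 : ∀ x ∈ A, x ∉ T → k x = 0)
    (h1 : ∀ x ∈ A, x ∉ K → x ∈ S → k x = 1) (hST : ∀ x ∈ A, x ∉ K → (x ∈ S ↔ x ∈ T)) :
    ∫ x in A, χ x * k x ∂μ + μ.real (S ∩ A) ≤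
      (∫ x in A, χ x * S.indicator (fun _ => (1 : ℝ)) x ∂μ) + μ.real (T ∩ A) := by
  have hbχ : ∀ᵐ x ∂μ.restrict A, ‖χ x‖ ≤ 1 := Eventually.of_forall fun x => by
    rw [Real.norm_eq_abs, abs_of_nonneg (hχ x).1]
    exact (hχ x).2
  have hi1 : IntegrableOn (fun x => χ x * k x) A μ :=
    Integrable.bdd_mul hk hχc.aestronglyMeasurable hbχ
  have hi2 : IntegrableOn (S.indicator (fun _ => (1 : ℝ))) A μ := by
    rw [IntegrableOn, integrable_indicator_iff hS, IntegrableOn, Measure.restrict_restrict hS]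
    exact integrableOn_const hSf
  have hi3 : IntegrableOn (fun x => χ x * S.indicator (fun _ => (1 : ℝ)) x) A μ :=
    Integrable.bdd_mul hi2 hχc.aestronglyMeasurable hbχ
  have e1 : ∫ x in A, S.indicator (fun _ => (1 : ℝ)) x ∂μ = μ.real (S ∩ A) := by
    rw [integral_indicator hS, Measure.restrict_restrict hS, setIntegral_const, smul_eq_mul,
      mul_one]
  set f : ℂ → ℝ := fun x => χ x * k x +
    (S.indicator (fun _ => (1 : ℝ)) x - χ x * S.indicator (fun _ => (1 : ℝ)) x) with hf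
  have hfi : IntegrableOn f A μ := Integrable.add hi1 (Integrable.sub hi2 hi3)
  have e2 : ∫ x in A, f x ∂μ = (∫ x in A, χ x * k x ∂μ) +
      (μ.real (S ∩ A) - ∫ x in A, χ x * S.indicator (fun _ => (1 : ℝ)) x ∂μ) := by
    rw [← e1, ← integral_sub hi2 hi3]
    exact integral_add hi1 (Integrable.sub hi2 hi3)
  have e3 : ∫ x in A, f x ∂μ ≤ μ.real (T ∩ A) := by
    rw [integral_eq_lintegral_pos_part_sub_lintegral_neg_part hfi]
    refine (sub_le_self _ ENNReal.toReal_nonneg).trans ?_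
    refine ENNReal.toReal_mono hTf ?_
    calc ∫⁻ x in A, ENNReal.ofReal (f x) ∂μ
        ≤ ∫⁻ x in A, (toMeasurable μ (T ∩ A)).indicator (fun _ => (1 : ℝ≥0∞)) x ∂μ := by
          refine setLIntegral_mono' hA ?_
          intro x hx
          by_cases hT : x ∈ T
          · have hmem : x ∈ toMeasurable μ (T ∩ A) := subset_toMeasurable _ _ ⟨hT, hx⟩
            rw [indicator_of_mem hmem]
            have : f x ≤ 1 := by
              by_cases hxK : x ∈ K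
              · simp only [hf, hK x hxK, one_mul, sub_self, add_zero]
                exact hle x hx
              · have hxS : x ∈ S := (hST x hx hxK).2 hT
                simp only [hf, h1 x hx hxK hxS, indicator_of_mem hxS]
                linarith
            calc ENNReal.ofReal (f x) ≤ ENNReal.ofReal 1 := ENNReal.ofReal_le_ofReal this
              _ = 1 := ENNReal.ofReal_one
          · have : f x = 0 := by
              by_cases hxK : x ∈ K
              · simp only [hf, hK x hxK, one_mul, sub_self, add_zero]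
                exact h0 x hx hT
              · have hxS : x ∉ S := fun h' => hT ((hST x hx hxK).1 h')
                simp only [hf, h0 x hx hT, indicator_of_notMem hxS]
                ring
            rw [this, ENNReal.ofReal_zero]
            exact zero_le
      _ = μ.restrict A (toMeasurable μ (T ∩ A)) := by
          rw [lintegral_indicator (measurableSet_toMeasurable _ _), setLIntegral_one]
      _ ≤ μ (toMeasurable μ (T ∩ A)) := Measure.restrict_apply_le _ _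
      _ = μ (T ∩ A) := measure_toMeasurable _
  rw [e2] at e3
  linarith

/-- The volume part of the comparison. -/
theorem cal_volume {A K : Set ℂ} {χ F G : ℂ → ℝ} (hχc : Continuous χ)
    (hχ : ∀ x, 0 ≤ χ x ∧ χ x ≤ 1) (hF : IntegrableOn F A) (hG : IntegrableOn G A)
    (hK : ∀ x ∈ K, χ x = 1) (heq : ∀ᵐ x ∂volume.restrict A, x ∉ K → F x = G x) :
    (∫ x in A, F x) - ∫ x in A, χ x * F x = (∫ x in A, G x) - ∫ x in A, χ x * G x := by
  have hbχ : ∀ᵐ x ∂volume.restrict A, ‖χ x‖ ≤ 1 := Eventually.of_forall fun x => by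
    rw [Real.norm_eq_abs, abs_of_nonneg (hχ x).1]
    exact (hχ x).2
  have hF' : IntegrableOn (fun x => χ x * F x) A :=
    Integrable.bdd_mul hF hχc.aestronglyMeasurable hbχ
  have hG' : IntegrableOn (fun x => χ x * G x) A :=
    Integrable.bdd_mul hG hχc.aestronglyMeasurable hbχ
  rw [← integral_sub hF hF', ← integral_sub hG hG']
  refine integral_congr_ae ?_
  filter_upwards [heq] with x hx
  by_cases hxK : x ∈ K
  · simp [hK x hxK]
  · rw [hx hxK]

theorem cal_conv {h : ℂ → ℂ} {A : Set ℂ} (hm : AEStronglyMeasurable h (volume.restrict A))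
    (hfin : ∫⁻ x in A, ‖h x‖ₑ ^ 2 < ⊤) :
    IntegrableOn (fun x => ‖h x‖ ^ 2) A ∧
      ∫⁻ x in A, ‖h x‖ₑ ^ 2 = ENNReal.ofReal (∫ x in A, ‖h x‖ ^ 2) := by
  have e : ∀ x, ‖h x‖ₑ ^ 2 = ENNReal.ofReal (‖h x‖ ^ 2) := by
    intro x
    rw [ENNReal.ofReal_pow (norm_nonneg _), ofReal_norm]
  have hi : IntegrableOn (fun x => ‖h x‖ ^ 2) A := by
    refine ⟨hm.norm.pow 2, ?_⟩
    rw [hasFiniteIntegral_iff_ofReal (Eventually.of_forall fun x => by positivity)]
    simpa only [e] using hfin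
  refine ⟨hi, ?_⟩
  rw [ofReal_integral_eq_lintegral_ofReal hi (Eventually.of_forall fun x => by positivity)]
  simp only [e]

/-- The comparison of the energies of `u` and `w`, for fixed gradients. -/
theorem cal_compare {Ω : Set ℂ} (hΩ : IsOpen Ω) {u w : ℂ → ℝ} {g h : ℂ → ℂ}
    (hu : LocallyIntegrableOn u Ω) (hg : IsSBVGrad Ω u g)
    (hw : LocallyIntegrableOn w Ω) (hh : IsSBVGrad Ω w h)
    (hfin : ∀ K, IsCompact K → K ⊆ Ω → ∫⁻ x in K, ‖g x‖ₑ ^ 2 < ⊤ ∧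
      (μH[1] : Measure ℂ) (discSet Ω u ∩ K) < ⊤)
    (hmeas : MeasurableSet (discSet Ω u)) (hnull : volume (Ω ∩ closure (discSet Ω u)) = 0)
    {Ψ : ℂ → ℝ → ℂ} (hΨ : ContDiffOn ℝ 1 (fun p : ℂ × ℝ => Ψ p.1 p.2) (Ω ×ˢ univ))
    (hbd : ∀ K, IsCompact K → K ⊆ Ω → ∃ C, ∀ x ∈ K, ∀ t,
      ‖Ψ x t‖ ≤ C ∧ ‖fderiv ℝ (fun p : ℂ × ℝ => Ψ p.1 p.2) (x, t)‖ ≤ C)
    (ha : ∀ x ∈ Ω, ∀ t, ‖derivt Ψ x t‖ ^ 2 / 4 ≤ - divx Ψ x t)
    (hb : ∀ x ∈ Ω, ∀ s t, ‖Ψ x s - Ψ x t‖ ≤ 1)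
    (ha' : ∀ᵐ x ∂volume.restrict Ω, derivt Ψ x (u x) = (2 : ℝ) • g x ∧
      - divx Ψ x (u x) = ‖g x‖ ^ 2)
    (hb' : ∀ x ∈ discSet Ω u, ∀ a b ν, IsJump u x a b ν → inner ℝ (Ψ x a - Ψ x b) ν = 1)
    (hjump : ∀ x ∈ discSet Ω u, ∃ a b ν, IsJump u x a b ν)
    {A K : Set ℂ} (hA : IsOpen A) (hAc : CompactlyIn A Ω) (hK : IsCompact K) (hKA : K ⊆ A)
    (heq : ∀ᵐ x ∂volume.restrict Ω, x ∉ K → w x = u x)
    (hfinw : ∫⁻ x in A, ‖h x‖ₑ ^ 2 < ⊤) (hfinT : (μH[1] : Measure ℂ) (discSet Ω w ∩ A) < ⊤) :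
    (∫⁻ x in A, ‖g x‖ₑ ^ 2) + (μH[1] : Measure ℂ) (discSet Ω u ∩ A) ≤
      (∫⁻ x in A, ‖h x‖ₑ ^ 2) + (μH[1] : Measure ℂ) (discSet Ω w ∩ A) := by
  have hAΩ : A ⊆ Ω := subset_closure.trans hAc.2
  -- (1) points off `K`
  have hnhd : ∀ x ∈ Ω, x ∉ K → Ω \ K ∈ 𝓝 x ∧ ∀ᵐ y ∂volume.restrict (Ω \ K), w y = u y := by
    intro x hx hxK
    refine ⟨(hΩ.sdiff hK.isClosed).mem_nhds ⟨hx, hxK⟩, ?_⟩
    have h1 : ∀ᵐ y ∂volume.restrict (Ω \ K), y ∉ K → w y = u y :=
      ae_restrict_of_ae_restrict_of_subset sdiff_subset heq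
    have h2 : ∀ᵐ y ∂volume.restrict (Ω \ K), y ∈ Ω \ K :=
      ae_restrict_mem (hΩ.measurableSet.diff hK.isClosed.measurableSet)
    filter_upwards [h1, h2] with y hy1 hy2
    exact hy1 hy2.2
  have hlim : ∀ x ∈ Ω, x ∉ K → ∀ z, IsApproxLim w x z ↔ IsApproxLim u x z := by
    intro x hx hxK z
    obtain ⟨h1, h2⟩ := hnhd x hx hxK
    exact cal_isApproxLim_iff h1 h2
  have hjmp : ∀ x ∈ Ω, x ∉ K → ∀ a b ν, IsJump w x a b ν ↔ IsJump u x a b ν := by
    intro x hx hxK a b ν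
    obtain ⟨h1, h2⟩ := hnhd x hx hxK
    exact cal_isJump_iff h1 h2
  have hdisc : ∀ x ∈ Ω, x ∉ K → (x ∈ discSet Ω u ↔ x ∈ discSet Ω w) := by
    intro x hx hxK
    simp only [discSet, mem_ofPred_eq, hlim x hx hxK]
  -- (2) gradients
  have hgrad := cal_grad_eq hΩ hu hw hg hh hK heq hnull hdisc
  have hgradA : ∀ᵐ x ∂volume.restrict A, x ∉ K → ‖g x‖ ^ 2 = ‖h x‖ ^ 2 := by
    filter_upwards [ae_restrict_of_ae_restrict_of_subset hAΩ hgrad] with x hx hxK
    rw [hx hxK]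
  -- (3) fluxes
  obtain ⟨ku, hku, hkui, hkuf⟩ := chain_rule hΩ hu hg hΨ hbd
  obtain ⟨kw, hkw, hkwi, hkwf⟩ := chain_rule hΩ hw hh hΨ hbd
  have hku1 : ∀ x ∈ Ω, ku x = (discSet Ω u).indicator (fun _ => (1 : ℝ)) x := by
    intro x hx
    by_cases hd : x ∈ discSet Ω u
    · rw [indicator_of_mem hd]
      rcases hku x hx with ⟨a, b, ν, h1, h2⟩ | ⟨h1, -⟩
      · rw [h2]
        exact hb' x hd a b ν h1
      · exact absurd (hjump x hd) h1
    · rw [indicator_of_notMem hd]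
      rcases hku x hx with ⟨a, b, ν, h1, h2⟩ | ⟨-, h2⟩
      · exact absurd ⟨a, b, ν, h1⟩ (cal_not_jump hΩ hu hx hd)
      · exact h2
  have hkw1 : ∀ x ∈ A, kw x ≤ 1 := by
    intro x hx
    rcases hkw x (hAΩ hx) with ⟨a, b, ν, h1, h2⟩ | ⟨-, h2⟩
    · rw [h2]
      calc inner ℝ (Ψ x a - Ψ x b) ν ≤ ‖Ψ x a - Ψ x b‖ * ‖ν‖ := real_inner_le_norm _ _
        _ ≤ 1 := by rw [h1.1, mul_one]; exact hb x (hAΩ hx) a b
    · rw [h2]; exact zero_le_one
  have hkw0 : ∀ x ∈ A, x ∉ discSet Ω w → kw x = 0 := by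
    intro x hx hd
    rcases hkw x (hAΩ hx) with ⟨a, b, ν, h1, h2⟩ | ⟨-, h2⟩
    · exact absurd ⟨a, b, ν, h1⟩ (cal_not_jump hΩ hw (hAΩ hx) hd)
    · exact h2
  have hkw2 : ∀ x ∈ A, x ∉ K → x ∈ discSet Ω u → kw x = 1 := by
    intro x hx hxK hd
    rcases hkw x (hAΩ hx) with ⟨a, b, ν, h1, h2⟩ | ⟨h1, -⟩
    · rw [h2]
      exact hb' x hd a b ν ((hjmp x (hAΩ hx) hxK a b ν).1 h1)
    · obtain ⟨a, b, ν, h2⟩ := hjump x hd
      exact absurd ⟨a, b, ν, (hjmp x (hAΩ hx) hxK a b ν).2 h2⟩ h1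
  -- cutoff
  obtain ⟨χ, hχ, hχc, hχA, hχ01, hχ1⟩ := cal_cutoff hK hA hKA
  have hχK : ∀ x ∈ K, χ x = 1 := fun x hx => (hχ1 x hx).eq_of_nhds
  have hχ0 : ∀ x, x ∉ A → χ x = 0 := fun x hx =>
    image_eq_zero_of_notMem_tsupport fun h' => hx (hχA h')
  have hχcont : Continuous χ := hχ.continuous
  -- (4) the two chain rules
  have eu := hkuf χ hχ hχc (hχA.trans hAΩ)
  have ew := hkwf χ hχ hχc (hχA.trans hAΩ)
  have elr : ∫ x in Ω, fderiv ℝ χ x (Ψ x (w x)) = ∫ x in Ω, fderiv ℝ χ x (Ψ x (u x)) := by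
    refine integral_congr_ae ?_
    filter_upwards [heq] with x hx
    by_cases hxK : x ∈ K
    · have : fderiv ℝ χ x = 0 := by
        rw [(hχ1 x hxK).fderiv_eq]
        simp
      simp [this]
    · rw [hx hxK]
  have res : ∀ (μ : Measure ℂ) (F : ℂ → ℝ), ∫ x in Ω, χ x * F x ∂μ = ∫ x in A, χ x * F x ∂μ := by
    intro μ F
    refine setIntegral_eq_of_subset_of_forall_sdiff_eq_zero hΩ.measurableSet hAΩ ?_
    intro x hx
    rw [hχ0 x hx.2, zero_mul]
  rw [res, res] at eu ew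
  rw [elr, eu] at ew
  -- the field terms
  have hgm : AEStronglyMeasurable g (volume.restrict A) :=
    ((hg.1.integrableOn_compact_subset hAc.2 hAc.1).mono_set subset_closure).aestronglyMeasurable
  have hhm : AEStronglyMeasurable h (volume.restrict A) :=
    ((hh.1.integrableOn_compact_subset hAc.2 hAc.1).mono_set subset_closure).aestronglyMeasurable
  have hfing : ∫⁻ x in A, ‖g x‖ₑ ^ 2 < ⊤ :=
    (lintegral_mono_set subset_closure).trans_lt (hfin _ hAc.1 hAc.2).1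
  have hfinS : (μH[1] : Measure ℂ) (discSet Ω u ∩ A) < ⊤ :=
    (measure_mono (inter_subset_inter_right _ subset_closure)).trans_lt (hfin _ hAc.1 hAc.2).2
  obtain ⟨hgi, hge⟩ := cal_conv hgm hfing
  obtain ⟨hhi, hhe⟩ := cal_conv hhm hfinw
  have hbχ : ∀ᵐ x ∂volume.restrict A, ‖χ x‖ ≤ 1 := Eventually.of_forall fun x => by
    rw [Real.norm_eq_abs, abs_of_nonneg (hχ01 x).1]
    exact (hχ01 x).2
  have fu : ∫ x in A, χ x * (divx Ψ x (u x) + inner ℝ (derivt Ψ x (u x)) (g x)) =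
      ∫ x in A, χ x * ‖g x‖ ^ 2 := by
    refine integral_congr_ae ?_
    filter_upwards [ae_restrict_of_ae_restrict_of_subset hAΩ ha'] with x hx
    have h1 : divx Ψ x (u x) = - ‖g x‖ ^ 2 := by linarith [hx.2]
    rw [hx.1, h1, real_inner_smul_left, real_inner_self_eq_norm_sq]
    ring
  have fw : ∫ x in A, χ x * (divx Ψ x (w x) + inner ℝ (derivt Ψ x (w x)) (h x)) ≤
      ∫ x in A, χ x * ‖h x‖ ^ 2 := by
    have hint : IntegrableOn (fun x => χ x * ‖h x‖ ^ 2) A :=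
      Integrable.bdd_mul hhi hχcont.aestronglyMeasurable hbχ
    by_cases hi : IntegrableOn
        (fun x => χ x * (divx Ψ x (w x) + inner ℝ (derivt Ψ x (w x)) (h x))) A
    · refine setIntegral_mono_on hi hint hA.measurableSet ?_
      intro x hx
      refine mul_le_mul_of_nonneg_left ?_ (hχ01 x).1
      have h1 := ha x (hAΩ hx) (w x)
      have h2 := real_inner_le_norm (derivt Ψ x (w x)) (h x)
      nlinarith [sq_nonneg (‖derivt Ψ x (w x)‖ / 2 - ‖h x‖)]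
    · rw [integral_undef hi]
      exact setIntegral_nonneg hA.measurableSet fun x hx =>
        mul_nonneg (hχ01 x).1 (by positivity)
  have hH := cal_hausdorff (μ := (μH[1] : Measure ℂ)) (A := A) (K := K) (S := discSet Ω u)
    (T := discSet Ω w) hA.measurableSet hmeas hfinS.ne hfinT.ne hχcont hχ01
    ((hkwi.integrableOn_compact_subset hAc.2 hAc.1).mono_set subset_closure) hχK hkw1 hkw0 hkw2
    (fun x hx hxK => hdisc x (hAΩ hx) hxK)
  have hV := cal_volume hχcont hχ01 hgi hhi hχK hgradA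
  have hkuint : ∫ x in A, χ x * ku x ∂(μH[1] : Measure ℂ) =
      ∫ x in A, χ x * (discSet Ω u).indicator (fun _ => (1 : ℝ)) x ∂(μH[1] : Measure ℂ) := by
    refine setIntegral_congr_fun hA.measurableSet ?_
    intro x hx
    simp only [hku1 x (hAΩ hx)]
  rw [fu, hkuint] at ew
  have hreal : (∫ x in A, ‖g x‖ ^ 2) + (μH[1] : Measure ℂ).real (discSet Ω u ∩ A) ≤
      (∫ x in A, ‖h x‖ ^ 2) + (μH[1] : Measure ℂ).real (discSet Ω w ∩ A) := by
    linarith
  have hp1 : 0 ≤ ∫ x in A, ‖g x‖ ^ 2 := integral_nonneg fun x => by positivity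
  have hp2 : 0 ≤ ∫ x in A, ‖h x‖ ^ 2 := integral_nonneg fun x => by positivity
  rw [hge, hhe, ← ofReal_measureReal hfinS.ne, ← ofReal_measureReal hfinT.ne,
    ← ENNReal.ofReal_add hp1 measureReal_nonneg, ← ENNReal.ofReal_add hp2 measureReal_nonneg]
  exact ENNReal.ofReal_le_ofReal hreal

/-- A calibration proves local minimality. -/
theorem isLocalMinimizer_of_calibration {Ω : Set ℂ} (hΩ : IsOpen Ω) {u : ℂ → ℝ} {g : ℂ → ℂ}
    (hu : LocallyIntegrableOn u Ω) (hg : IsSBVGrad Ω u g)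
    (hfin : ∀ K, IsCompact K → K ⊆ Ω → ∫⁻ x in K, ‖g x‖ₑ ^ 2 < ⊤ ∧
      (μH[1] : Measure ℂ) (discSet Ω u ∩ K) < ⊤)
    (hmeas : MeasurableSet (discSet Ω u)) (hnull : volume (Ω ∩ closure (discSet Ω u)) = 0)
    {Ψ : ℂ → ℝ → ℂ} (hΨ : ContDiffOn ℝ 1 (fun p : ℂ × ℝ => Ψ p.1 p.2) (Ω ×ˢ univ))
    (hbd : ∀ K, IsCompact K → K ⊆ Ω → ∃ C, ∀ x ∈ K, ∀ t,
      ‖Ψ x t‖ ≤ C ∧ ‖fderiv ℝ (fun p : ℂ × ℝ => Ψ p.1 p.2) (x, t)‖ ≤ C)
    (ha : ∀ x ∈ Ω, ∀ t, ‖derivt Ψ x t‖ ^ 2 / 4 ≤ - divx Ψ x t)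
    (hb : ∀ x ∈ Ω, ∀ s t, ‖Ψ x s - Ψ x t‖ ≤ 1)
    (ha' : ∀ᵐ x ∂volume.restrict Ω, derivt Ψ x (u x) = (2 : ℝ) • g x ∧
      - divx Ψ x (u x) = ‖g x‖ ^ 2)
    (hb' : ∀ x ∈ discSet Ω u, ∀ a b ν, IsJump u x a b ν → inner ℝ (Ψ x a - Ψ x b) ν = 1)
    (hjump : ∀ x ∈ discSet Ω u, ∃ a b ν, IsJump u x a b ν) :
    IsLocalMinimizer Ω u := by
  refine ⟨⟨hu, g, hg⟩, ?_, ?_⟩
  · intro A hA hAc
    have h1 : ∫⁻ x in A, ‖g x‖ₑ ^ 2 < ⊤ :=
      (lintegral_mono_set subset_closure).trans_lt (hfin _ hAc.1 hAc.2).1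
    have h2 : (μH[1] : Measure ℂ) (discSet Ω u ∩ A) < ⊤ :=
      (measure_mono (inter_subset_inter_right _ subset_closure)).trans_lt (hfin _ hAc.1 hAc.2).2
    exact ENNReal.add_lt_top.2 ⟨(iInf₂_le g hg).trans_lt h1, h2⟩
  · rintro w A ⟨hw, -⟩ hA hAc ⟨K, hK, hKA, heq⟩
    have h0 : energy Ω u A ≤ (∫⁻ x in A, ‖g x‖ₑ ^ 2) + (μH[1] : Measure ℂ) (discSet Ω u ∩ A) :=
      add_le_add (iInf₂_le g hg) le_rfl
    refine h0.trans ?_
    by_cases hT : (μH[1] : Measure ℂ) (discSet Ω w ∩ A) < ⊤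
    · unfold energy
      rw [← tsub_le_iff_right]
      refine le_iInf₂ fun h hh => ?_
      rw [tsub_le_iff_right]
      by_cases hfw : ∫⁻ x in A, ‖h x‖ₑ ^ 2 < ⊤
      · exact cal_compare hΩ hu hg hw hh hfin hmeas hnull hΨ hbd ha hb ha' hb' hjump hA hAc hK hKA
          heq hfw hT
      · rw [not_lt, top_le_iff] at hfw
        rw [hfw, top_add]
        exact le_top
    · rw [not_lt, top_le_iff] at hT
      unfold energy
      rw [hT, add_top]
      exact le_top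

end Pool.Agent.MP099f24
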