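import Pool.Agent.Lib.MP_099f24_an.ChainSmooth

/-!
# The chain rule in `SBV_loc` for `Ψ(x, w(x))` (MP_099f24_an)

It is proved by mollification: the rescaled mollifications of `w` converge at approximate limit
points and at approximate jump points (`Blowup`), and the limit at a jump point is computed in
`Step`.
-/

namespace Pool.Agent.MP099f24

open MeasureTheory Filter Topology Set Metric
open scoped ENNReal ContDiff

section Main

variable {Ω : Set ℂ} {w : ℂ → ℝ} {g j : ℂ → ℂ} {Ψ : ℂ → ℝ → ℂ}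

/-- continuity of `(x, t) ↦ Dχ(x) Ψ(x, t)` -/
theorem cr_continuous_dchi (hΩ : IsOpen Ω)
    (hΨ : ContDiffOn ℝ 1 (fun p : ℂ × ℝ => Ψ p.1 p.2) (Ω ×ˢ univ)) {χ : ℂ → ℝ}
    (hχ : ContDiff ℝ ∞ χ) (hχs : tsupport χ ⊆ Ω) :
    Continuous (fun p : ℂ × ℝ => fderiv ℝ χ p.1 (Ψ p.1 p.2)) := by
  rw [continuous_iff_continuousAt]
  rintro ⟨x, t⟩
  by_cases hx : x ∈ Ω
  · have h1 : ContinuousAt (fun p : ℂ × ℝ => fderiv ℝ χ p.1) (x, t) :=
      ((hχ.continuous_fderiv (by simp)).comp continuous_fst).continuousAt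
    have h2 : ContinuousAt (fun p : ℂ × ℝ => Ψ p.1 p.2) (x, t) :=
      hΨ.continuousOn.continuousAt ((hΩ.prod isOpen_univ).mem_nhds ⟨hx, mem_univ _⟩)
    exact h1.clm_apply h2
  · have hx' : x ∉ tsupport χ := fun h => hx (hχs h)
    have h1 : ∀ᶠ y in 𝓝 x, y ∉ tsupport χ := (isClosed_tsupport χ).isOpen_compl.mem_nhds hx'
    have h2 : ∀ᶠ p in 𝓝 ((x, t) : ℂ × ℝ), fderiv ℝ χ p.1 (Ψ p.1 p.2) = 0 := by
      have h3 : Tendsto (Prod.fst : ℂ × ℝ → ℂ) (𝓝 (x, t)) (𝓝 x) := continuous_fst.continuousAt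
      filter_upwards [h3.eventually h1] with p hp
      have h4 : p.1 ∉ tsupport (fderiv ℝ χ) := fun h => hp (tsupport_fderiv_subset ℝ h)
      rw [image_eq_zero_of_notMem_tsupport h4]
      rfl
    exact (continuousAt_const (y := (0 : ℝ))).congr (h2.mono fun p hp => hp.symm)

theorem cr_fderiv_chi_zero {χ : ℂ → ℝ} {x : ℂ} (hx : x ∉ tsupport χ) (v : ℂ) :
    fderiv ℝ χ x v = 0 := by
  have h1 : x ∉ tsupport (fderiv ℝ χ) := fun h => hx (tsupport_fderiv_subset ℝ h)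
  rw [image_eq_zero_of_notMem_tsupport h1]
  rfl

/-- The mollified blow-up field. -/
noncomputable def crQ (w : ℂ → ℝ) (H : ℂ → ℝ → ℂ) (ε : ℝ) (y : ℂ) : ℂ :=
  ∫ x, mollS ε (x - y) • H x (mol w ε x)

theorem crQ_eq {ε : ℝ} (hε : 0 < ε) (w : ℂ → ℝ) (H : ℂ → ℝ → ℂ) (y : ℂ) :
    crQ w H ε y = ∫ z, moll z • H (y + ε • z) (mol w ε (y + ε • z)) :=
  integral_mollS hε y fun x => H x (mol w ε x)

theorem crQ_bound {ε : ℝ} (hε : 0 < ε) (w : ℂ → ℝ) {H : ℂ → ℝ → ℂ} {C : ℝ}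
    (hC : ∀ x t, ‖H x t‖ ≤ C) (y : ℂ) : ‖crQ w H ε y‖ ≤ C := by
  rw [crQ_eq hε]
  have h1 : Integrable moll := moll_continuous.integrable_of_hasCompactSupport
    moll_hasCompactSupport
  have h2 : ∫ z, moll z * C = C := by
    rw [integral_mul_const, moll_integral, one_mul]
  rw [← h2]
  refine norm_integral_le_of_norm_le (h1.mul_const C) (Eventually.of_forall fun z => ?_)
  rw [norm_smul, Real.norm_eq_abs, abs_of_nonneg (moll_nonneg z)]
  exact mul_le_mul_of_nonneg_left (hC _ _) (moll_nonneg z)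

theorem crQ_continuous {ε : ℝ} (hw : Integrable w) (hε : 0 < ε) {H : ℂ → ℝ → ℂ}
    (hH : Continuous (fun p : ℂ × ℝ => H p.1 p.2)) {K₀ : Set ℂ} (hK₀ : IsCompact K₀)
    (h0 : ∀ x, x ∉ K₀ → ∀ t, H x t = 0) : Continuous (crQ w H ε) := by
  obtain ⟨M, hM0, hM⟩ := mollS_bound ε
  have h1 : Continuous (fun x => H x (mol w ε x)) :=
    hH.comp (continuous_id.prodMk (mol_contDiff hw hε).continuous)
  have h2 : Integrable (fun x => H x (mol w ε x)) :=
    h1.integrable_of_hasCompactSupport (HasCompactSupport.intro hK₀ fun x hx => h0 x hx _)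
  refine continuous_of_dominated (bound := fun x => M * ‖H x (mol w ε x)‖) ?_ ?_ ?_ ?_
  · intro y
    exact (((mollS_continuous ε).comp (continuous_id.sub continuous_const)).smul
      h1).aestronglyMeasurable
  · intro y
    refine Eventually.of_forall fun x => ?_
    rw [norm_smul]
    exact mul_le_mul_of_nonneg_right (hM _) (norm_nonneg _)
  · exact h2.norm.const_mul M
  · refine Eventually.of_forall fun x => ?_
    exact ((mollS_continuous ε).comp (continuous_const.sub continuous_id)).smul continuous_const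

theorem crQ_zero (w : ℂ → ℝ) {H : ℂ → ℝ → ℂ} {K₀ : Set ℂ} (hK₀ : IsClosed K₀)
    (h0 : ∀ x, x ∉ K₀ → ∀ t, H x t = 0) {y : ℂ} (hy : y ∉ K₀) :
    ∀ᶠ ε : ℝ in 𝓝[>] 0, crQ w H ε y = 0 := by
  obtain ⟨δ, hδ, hδK⟩ := Metric.mem_nhds_iff.1 (hK₀.isOpen_compl.mem_nhds hy)
  have h1 : ∀ᶠ ε : ℝ in 𝓝[>] 0, ε < δ := nhdsWithin_le_nhds (Iio_mem_nhds hδ)
  filter_upwards [h1, self_mem_nhdsWithin] with ε hε hε0
  rw [crQ_eq hε0]
  refine integral_eq_zero_of_ae (Eventually.of_forall fun z => ?_)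
  by_cases hz : 1 ≤ ‖z‖
  · simp only [moll_eq_zero hz, zero_smul, Pi.zero_apply]
  · have h2 : y + ε • z ∉ K₀ := by
      refine hδK ?_
      rw [mem_ball, dist_eq_norm, add_sub_cancel_left, norm_smul, Real.norm_eq_abs,
        abs_of_pos hε0]
      nlinarith [norm_nonneg z, mem_Ioi.1 hε0]
    simp only [h0 _ h2, smul_zero, Pi.zero_apply]

/-- limits of `⟪j(y), Q_ε(y)⟫` at all points of the compact set `K` -/
theorem cr_limit_jump {K : Set ℂ} (hK : IsCompact K) (hw : IntegrableOn w K) (hKΩ : K ⊆ Ω)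
    (hΩ : IsOpen Ω) (hΨ : ContDiffOn ℝ 1 (fun p : ℂ × ℝ => Ψ p.1 p.2) (Ω ×ˢ univ)) {χ : ℂ → ℝ}
    (hχ : ContDiff ℝ ∞ χ) (hχs : tsupport χ ⊆ Ω)
    (hKχ : ∀ y ∈ tsupport χ, K ∈ 𝓝 y) {k : ℂ → ℝ}
    (hk : ∀ x ∈ Ω, (∃ a b ν, IsJump w x a b ν ∧ j x = (a - b) • ν ∧
      k x = inner ℝ (Ψ x a - Ψ x b) ν) ∨ ((¬ ∃ a b ν, IsJump w x a b ν) ∧ j x = 0 ∧ k x = 0))
    {y : ℂ} (hy : y ∈ K) :
    Tendsto (fun ε => inner ℝ (j y) (crQ (K.indicator w) (fun x t => χ x • derivt Ψ x t) ε y))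
      (𝓝[>] 0) (𝓝 (χ y * k y)) := by
  have hHc : Continuous (fun p : ℂ × ℝ => χ p.1 • derivt Ψ p.1 p.2) :=
    cr_continuous_smul hΩ hχ.continuous hχs (cr_derivt_continuousOn hΩ hΨ)
  have hwi : Integrable (K.indicator w) := (integrable_indicator_iff hK.measurableSet).2 hw
  by_cases hyχ : y ∈ tsupport χ
  · rcases hk y (hKΩ hy) with ⟨a, b, ν, hJ, hj, hkk⟩ | ⟨-, hj, hkk⟩
    · have hJ' : IsJump (K.indicator w) y a b ν := by
        refine hJ.congr_ae (hKχ y hyχ) ?_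
        filter_upwards [ae_restrict_mem hK.measurableSet] with x hx
        rw [indicator_of_mem hx]
      have h1 := blowup_jump (H := fun x t => χ x • derivt Ψ x t) univ_mem hwi.integrableOn hJ' hHc
      have h2 : Tendsto (fun ε => crQ (K.indicator w) (fun x t => χ x • derivt Ψ x t) ε y)
          (𝓝[>] 0) (𝓝 (∫ z, moll z • (χ y • derivt Ψ y (b + (a - b) * halfMol ν z)))) := by
        refine h1.congr' ?_
        filter_upwards [self_mem_nhdsWithin] with ε hε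
        rw [crQ_eq hε]
      have h3 := (tendsto_const_nhds (x := j y)).inner (𝕜 := ℝ) h2
      have hτ := moll_step_integral (Φ := Ψ y) (φ := derivt Ψ y)
        (fun t => by
          rw [cr_derivt hΩ hΨ (hKΩ hy)]
          exact cr_derivt_eq hΩ hΨ (hKΩ hy) t)
        (by
          have h4 : Continuous (fun t : ℝ => ((y, t) : ℂ × ℝ)) := continuous_const.prodMk continuous_id
          exact (cr_derivt_continuousOn hΩ hΨ).comp_continuous h4
            fun t => ⟨hKΩ hy, mem_univ _⟩) a b hJ.1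
      have h5 : (inner ℝ (j y) (∫ z, moll z • (χ y • derivt Ψ y (b + (a - b) * halfMol ν z))) : ℝ)
          = χ y * k y := by
        have h6 : ∫ z, moll z • (χ y • derivt Ψ y (b + (a - b) * halfMol ν z)) =
            χ y • ∫ z, moll z • derivt Ψ y (b + (a - b) * halfMol ν z) := by
          rw [← integral_smul]
          refine integral_congr_ae (Eventually.of_forall fun z => ?_)
          exact smul_comm _ _ _
        rw [h6, hj, hkk, ← hτ, inner_smul_right, inner_smul_left, inner_smul_left]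
        simp only [conj_trivial]
        rw [real_inner_comm]
      rw [h5] at h3
      exact h3
    · rw [hj, hkk]
      simp only [inner_zero_left, mul_zero]
      exact tendsto_const_nhds
  · have h0 : ∀ x, x ∉ tsupport χ → ∀ t, χ x • derivt Ψ x t = 0 := fun x hx t => by
      rw [image_eq_zero_of_notMem_tsupport hx, zero_smul]
    have h1 := crQ_zero (K.indicator w) (H := fun x t => χ x • derivt Ψ x t)
      (isClosed_tsupport χ) h0 hyχ
    rw [image_eq_zero_of_notMem_tsupport hyχ, zero_mul]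
    refine tendsto_const_nhds.congr' ?_
    filter_upwards [h1] with ε hε
    rw [hε, inner_zero_right]

/-- limits of `⟪g(y), Q_ε(y)⟫` at almost all points of the compact set `K` -/
theorem cr_limit_grad {K : Set ℂ} (hK : IsCompact K) (hw : IntegrableOn w K)
    (hΩ : IsOpen Ω) (hΨ : ContDiffOn ℝ 1 (fun p : ℂ × ℝ => Ψ p.1 p.2) (Ω ×ˢ univ)) {χ : ℂ → ℝ}
    (hχ : ContDiff ℝ ∞ χ) (hχs : tsupport χ ⊆ Ω) :
    ∀ᵐ y ∂volume.restrict K,
      Tendsto (fun ε => inner ℝ (g y) (crQ (K.indicator w) (fun x t => χ x • derivt Ψ x t) ε y))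
      (𝓝[>] 0) (𝓝 (χ y * inner ℝ (derivt Ψ y (w y)) (g y))) := by
  have hHc : Continuous (fun p : ℂ × ℝ => χ p.1 • derivt Ψ p.1 p.2) :=
    cr_continuous_smul hΩ hχ.continuous hχs (cr_derivt_continuousOn hΩ hΨ)
  have hwi : Integrable (K.indicator w) := (integrable_indicator_iff hK.measurableSet).2 hw
  filter_upwards [ae_restrict_of_ae (ae_isApproxLim hwi), ae_restrict_mem hK.measurableSet]
    with y hy hyK
  have h1 := blowup_approxLim (H := fun x t => χ x • derivt Ψ x t) univ_mem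
    hwi.integrableOn hy hHc
  have h2 : Tendsto (fun ε => crQ (K.indicator w) (fun x t => χ x • derivt Ψ x t) ε y)
      (𝓝[>] 0) (𝓝 (χ y • derivt Ψ y (K.indicator w y))) := by
    refine h1.congr' ?_
    filter_upwards [self_mem_nhdsWithin] with ε hε
    rw [crQ_eq hε]
  have h3 := (tendsto_const_nhds (x := g y)).inner (𝕜 := ℝ) h2
  rw [indicator_of_mem hyK, inner_smul_right, real_inner_comm] at h3
  exact h3

/-- The chain rule, tested with one function `χ`. -/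
theorem cr_main (hΩ : IsOpen Ω) (hw : LocallyIntegrableOn w Ω)
    (hgi : LocallyIntegrableOn g Ω) (hji : LocallyIntegrableOn j Ω (μH[1] : Measure ℂ))
    (hform : ∀ φ : ℂ → ℝ, ContDiff ℝ ∞ φ → HasCompactSupport φ → tsupport φ ⊆ Ω → ∀ v : ℂ,
      ∫ x in Ω, w x * fderiv ℝ φ x v =
        - (∫ x in Ω, φ x * inner ℝ (g x) v) - ∫ x in Ω, φ x * inner ℝ (j x) v ∂(μH[1] : Measure ℂ))
    (hΨ : ContDiffOn ℝ 1 (fun p : ℂ × ℝ => Ψ p.1 p.2) (Ω ×ˢ univ))
    (hbd : ∀ K, IsCompact K → K ⊆ Ω → ∃ C, ∀ x ∈ K, ∀ t,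
      ‖Ψ x t‖ ≤ C ∧ ‖fderiv ℝ (fun p : ℂ × ℝ => Ψ p.1 p.2) (x, t)‖ ≤ C) {k : ℂ → ℝ}
    (hk : ∀ x ∈ Ω, (∃ a b ν, IsJump w x a b ν ∧ j x = (a - b) • ν ∧
      k x = inner ℝ (Ψ x a - Ψ x b) ν) ∨ ((¬ ∃ a b ν, IsJump w x a b ν) ∧ j x = 0 ∧ k x = 0))
    {χ : ℂ → ℝ} (hχ : ContDiff ℝ ∞ χ) (hχc : HasCompactSupport χ) (hχs : tsupport χ ⊆ Ω) :
    IntegrableOn (fun x => χ x * k x) Ω (μH[1] : Measure ℂ) ∧
    ∫ x in Ω, fderiv ℝ χ x (Ψ x (w x)) =
      - (∫ x in Ω, χ x * (divx Ψ x (w x) + inner ℝ (derivt Ψ x (w x)) (g x)))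
      - ∫ x in Ω, χ x * k x ∂(μH[1] : Measure ℂ) := by
  have hK₀ : IsCompact (tsupport χ) := hχc
  obtain ⟨r, hr, hrΩ⟩ := hK₀.exists_cthickening_subset_open hΩ hχs
  set K := cthickening r (tsupport χ) with hKdef
  have hK : IsCompact K := hK₀.cthickening
  have hsub : tsupport χ ⊆ K := self_subset_cthickening _
  have hball : ∀ x ∈ tsupport χ, ∀ ε, ε ≤ r → closedBall x ε ⊆ K := fun x hx ε hε =>
    (closedBall_subset_closedBall hε).trans (closedBall_subset_cthickening hx r)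
  have hKχ : ∀ y ∈ tsupport χ, K ∈ 𝓝 y := fun y hy =>
    mem_of_superset (closedBall_mem_nhds y hr) (hball y hy r le_rfl)
  have hwK : IntegrableOn w K := hw.integrableOn_compact_subset hrΩ hK
  have hgK : IntegrableOn g K := hgi.integrableOn_compact_subset hrΩ hK
  have hjK : IntegrableOn j K (μH[1] : Measure ℂ) := hji.integrableOn_compact_subset hrΩ hK
  have hwi : Integrable (K.indicator w) := (integrable_indicator_iff hK.measurableSet).2 hwK
  have hKm : MeasurableSet K := hK.measurableSet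
  have hχ0 : ∀ x, x ∉ tsupport χ → χ x = 0 := fun x hx => image_eq_zero_of_notMem_tsupport hx
  -- bounds
  obtain ⟨C₁, hC₁⟩ := hbd K hK hrΩ
  obtain ⟨Cχ, hCχ⟩ := hχc.exists_bound_of_continuous hχ.continuous
  have hdχc : HasCompactSupport (fderiv ℝ χ) := hχc.fderiv ℝ
  obtain ⟨Dχ, hDχ⟩ := hdχc.exists_bound_of_continuous (hχ.continuous_fderiv (by simp))
  have hC₁0 : 0 ≤ |C₁| := abs_nonneg _
  have hCχ0 : 0 ≤ Cχ := (norm_nonneg _).trans (hCχ 0)
  have hDχ0 : 0 ≤ Dχ := (norm_nonneg _).trans (hDχ 0)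
  have hderivt : ∀ x ∈ K, ∀ t, ‖derivt Ψ x t‖ ≤ |C₁| := by
    intro x hx t
    rw [cr_derivt hΩ hΨ (hrΩ hx)]
    have h1 := (fderiv ℝ (fun p : ℂ × ℝ => Ψ p.1 p.2) (x, t)).le_opNorm ((0, 1) : ℂ × ℝ)
    have h2 : ‖((0, 1) : ℂ × ℝ)‖ = 1 := by simp
    rw [h2, mul_one] at h1
    exact h1.trans ((hC₁ x hx t).2.trans (le_abs_self _))
  have hdivx : ∀ x ∈ K, ∀ t, |divx Ψ x t| ≤ 2 * |C₁| := by
    intro x hx t
    rw [cr_divx hΩ hΨ (hrΩ hx)]
    have h1 := (fderiv ℝ (fun p : ℂ × ℝ => Ψ p.1 p.2) (x, t)).le_opNorm ((1, 0) : ℂ × ℝ)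
    have h2 : ‖((1, 0) : ℂ × ℝ)‖ = 1 := by simp
    have h3 := (fderiv ℝ (fun p : ℂ × ℝ => Ψ p.1 p.2) (x, t)).le_opNorm ((Complex.I, 0) : ℂ × ℝ)
    have h4 : ‖((Complex.I, 0) : ℂ × ℝ)‖ = 1 := by simp
    rw [h2, mul_one] at h1
    rw [h4, mul_one] at h3
    have h5 := (hC₁ x hx t).2.trans (le_abs_self C₁)
    have h6 := Complex.abs_re_le_norm (fderiv ℝ (fun p : ℂ × ℝ => Ψ p.1 p.2) (x, t) (1, 0))
    have h7 := Complex.abs_im_le_norm (fderiv ℝ (fun p : ℂ × ℝ => Ψ p.1 p.2) (x, t) (Complex.I, 0))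
    refine (abs_add_le _ _).trans ?_
    linarith
  -- the blow-up field
  set H : ℂ → ℝ → ℂ := fun x t => χ x • derivt Ψ x t with hH
  have hHc : Continuous (fun p : ℂ × ℝ => H p.1 p.2) :=
    cr_continuous_smul hΩ hχ.continuous hχs (cr_derivt_continuousOn hΩ hΨ)
  have hH0 : ∀ x, x ∉ tsupport χ → ∀ t, H x t = 0 := fun x hx t => by
    simp only [hH, hχ0 x hx, zero_smul]
  have hHb : ∀ x t, ‖H x t‖ ≤ Cχ * |C₁| := by
    intro x t
    by_cases hx : x ∈ tsupport χ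
    · simp only [hH, norm_smul]
      exact mul_le_mul (hCχ x) (hderivt x (hsub hx) t) (norm_nonneg _) hCχ0
    · rw [hH0 x hx, norm_zero]; positivity
  -- limits
  have hQc : ∀ᶠ ε : ℝ in 𝓝[>] 0, Continuous (crQ (K.indicator w) H ε) := by
    filter_upwards [self_mem_nhdsWithin] with ε hε
    exact crQ_continuous hwi hε hHc hK₀ hH0
  have hQb : ∀ᶠ ε : ℝ in 𝓝[>] 0, ∀ y, ‖crQ (K.indicator w) H ε y‖ ≤ Cχ * |C₁| := by
    filter_upwards [self_mem_nhdsWithin] with ε hε y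
    exact crQ_bound hε _ hHb y
  obtain ⟨hgint, hglim⟩ := cr_limit_meas hgK hQc hQb
    (cr_limit_grad (g := g) hK hwK hΩ hΨ hχ hχs)
  obtain ⟨hjint, hjlim⟩ := cr_limit_meas hjK hQc hQb (k := fun y => χ y * k y)
    (by
      filter_upwards [ae_restrict_mem hKm] with y hy
      exact cr_limit_jump hK hwK hrΩ hΩ hΨ hχ hχs hKχ hk hy)
  -- the two other limits
  have hN1c := cr_continuous_dchi hΩ hΨ hχ hχs
  have hN1lim := cr_limit_vol hwi (N := fun x t => fderiv ℝ χ x (Ψ x t)) hN1c hK₀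
    (fun x hx t => cr_fderiv_chi_zero hx _) (C := Dχ * |C₁|) (by
      intro x t
      by_cases hx : x ∈ tsupport χ
      · have h1 := (fderiv ℝ χ x).le_opNorm (Ψ x t)
        have h2 := (hC₁ x (hsub hx) t).1.trans (le_abs_self C₁)
        rw [← Real.norm_eq_abs]
        exact h1.trans (mul_le_mul (hDχ x) h2 (norm_nonneg _) hDχ0)
      · rw [cr_fderiv_chi_zero hx, abs_zero]; positivity)
  have hN2c : Continuous (fun p : ℂ × ℝ => χ p.1 * divx Ψ p.1 p.2) :=
    cr_continuous_smul hΩ hχ.continuous hχs (cr_divx_continuousOn hΩ hΨ)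
  have hN2b : ∀ x t, |χ x * divx Ψ x t| ≤ Cχ * (2 * |C₁|) := by
    intro x t
    by_cases hx : x ∈ tsupport χ
    · rw [abs_mul]
      exact mul_le_mul (hCχ x) (hdivx x (hsub hx) t) (abs_nonneg _) hCχ0
    · rw [hχ0 x hx, zero_mul, abs_zero]; positivity
  have hN2lim := cr_limit_vol hwi (N := fun x t => χ x * divx Ψ x t) hN2c hK₀
    (fun x hx t => by simp only [hχ0 x hx, zero_mul]) hN2b
  -- the identity at scale `ε`
  have hid : ∀ᶠ ε : ℝ in 𝓝[>] 0, ∫ x, fderiv ℝ χ x (Ψ x (mol (K.indicator w) ε x)) =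
      - (∫ x, χ x * divx Ψ x (mol (K.indicator w) ε x)) -
      ((∫ y in K, inner ℝ (g y) (crQ (K.indicator w) H ε y)) +
        ∫ y in K, inner ℝ (j y) (crQ (K.indicator w) H ε y) ∂(μH[1] : Measure ℂ)) := by
    have hlt : ∀ᶠ ε : ℝ in 𝓝[>] 0, ε < r := nhdsWithin_le_nhds (Iio_mem_nhds hr)
    filter_upwards [hlt, self_mem_nhdsWithin] with ε hεr hε
    rw [mem_Ioi] at hε
    have h1 := cr_smooth hΩ hΨ hχ hχc hχs (mol_contDiff hwi hε)
    rw [h1]
    congr 1
    set S : ℂ → ℂ := fun x => H x (mol (K.indicator w) ε x) with hS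
    have hSc : Continuous S := hHc.comp (continuous_id.prodMk (mol_contDiff hwi hε).continuous)
    have hSs : HasCompactSupport S := HasCompactSupport.intro hK₀ fun x hx => hH0 x hx _
    have hgs : Integrable g (volume.restrict K) := hgK
    have hjs : Integrable j ((μH[1] : Measure ℂ).restrict K) := hjK
    have e1 := cr_swap hgs ε hSc hSs
    have e2 := cr_swap hjs ε hSc hSs
    have hcut : ∀ (μ : Measure ℂ) (G : ℂ → ℂ) (x : ℂ),
        ∫ y in Ω, mollS ε (x - y) * inner ℝ (G y) (S x) ∂μ =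
          ∫ y in K, mollS ε (x - y) * inner ℝ (G y) (S x) ∂μ := by
      intro μ G x
      refine setIntegral_eq_of_subset_of_forall_sdiff_eq_zero hΩ.measurableSet hrΩ ?_
      intro y hy
      by_cases hx : x ∈ tsupport χ
      · have h2 : ε ≤ ‖x - y‖ := by
          by_contra hcon
          apply hy.2
          refine hball x hx ε hεr.le ?_
          rw [mem_closedBall, dist_eq_norm, norm_sub_rev]
          exact (not_le.1 hcon).le
        rw [mollS_eq_zero hε h2, zero_mul]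
      · have h2 : S x = 0 := hH0 x hx _
        rw [h2, inner_zero_right, mul_zero]
    have hpt : ∀ x, fderiv ℝ (mol (K.indicator w) ε) x (S x) =
        (∫ y in K, mollS ε (x - y) * inner ℝ (g y) (S x)) +
        ∫ y in K, mollS ε (x - y) * inner ℝ (j y) (S x) ∂(μH[1] : Measure ℂ) := by
      intro x
      rw [← hcut, ← hcut]
      by_cases hx : x ∈ tsupport χ
      · exact mol_fderiv hK hrΩ hwK hform hε (hball x hx ε hεr.le) (S x)
      · have h2 : S x = 0 := hH0 x hx _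
        simp only [h2, map_zero, inner_zero_right, mul_zero, integral_zero, add_zero]
    have i1 : Integrable (fun x => ∫ y in K, mollS ε (x - y) * inner ℝ (g y) (S x)) :=
      (cr_swap' hgs ε hSc hSs).1
    have i2 : Integrable (fun x => ∫ y in K, mollS ε (x - y) * inner ℝ (j y) (S x)
        ∂(μH[1] : Measure ℂ)) :=
      (cr_swap' hjs ε hSc hSs).1
    calc ∫ x, fderiv ℝ (mol (K.indicator w) ε) x (χ x • derivt Ψ x (mol (K.indicator w) ε x))
        = ∫ x, ((∫ y in K, mollS ε (x - y) * inner ℝ (g y) (S x)) +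
          ∫ y in K, mollS ε (x - y) * inner ℝ (j y) (S x) ∂(μH[1] : Measure ℂ)) :=
          integral_congr_ae (Eventually.of_forall hpt)
      _ = (∫ x, ∫ y in K, mollS ε (x - y) * inner ℝ (g y) (S x)) +
          ∫ x, ∫ y in K, mollS ε (x - y) * inner ℝ (j y) (S x) ∂(μH[1] : Measure ℂ) :=
          integral_add i1 i2
      _ = _ := by rw [e1, e2]; rfl
  -- pass to the limit
  have hlimR : Tendsto (fun ε : ℝ => - (∫ x, χ x * divx Ψ x (mol (K.indicator w) ε x)) -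
      ((∫ y in K, inner ℝ (g y) (crQ (K.indicator w) H ε y)) +
        ∫ y in K, inner ℝ (j y) (crQ (K.indicator w) H ε y) ∂(μH[1] : Measure ℂ))) (𝓝[>] 0)
      (𝓝 (- (∫ x, χ x * divx Ψ x (K.indicator w x)) -
        ((∫ y in K, χ y * inner ℝ (derivt Ψ y (w y)) (g y)) +
          ∫ y in K, χ y * k y ∂(μH[1] : Measure ℂ)))) :=
    (hN2lim.neg).sub (hglim.add hjlim)
  have hfin : ∫ x, fderiv ℝ χ x (Ψ x (K.indicator w x)) =
      - (∫ x, χ x * divx Ψ x (K.indicator w x)) -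
        ((∫ y in K, χ y * inner ℝ (derivt Ψ y (w y)) (g y)) +
          ∫ y in K, χ y * k y ∂(μH[1] : Measure ℂ)) :=
    tendsto_nhds_unique hN1lim (hlimR.congr' (hid.mono fun ε h => h.symm))
  -- rewrite everything as integrals over `Ω`
  have hKind : ∀ {f : ℂ → ℝ → ℝ}, (∀ x, x ∉ tsupport χ → ∀ t, f x t = 0) →
      ∫ x, f x (K.indicator w x) = ∫ x in K, f x (w x) := by
    intro f hf
    rw [← setIntegral_eq_integral_of_forall_compl_eq_zero (s := K)]
    · refine setIntegral_congr_fun hKm fun x hx => ?_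
      simp only [indicator_of_mem hx]
    · intro x hx
      exact hf x (fun h => hx (hsub h)) _
  have hKΩint : ∀ (μ : Measure ℂ) {f : ℂ → ℝ}, (∀ x, x ∉ tsupport χ → f x = 0) →
      ∫ x in Ω, f x ∂μ = ∫ x in K, f x ∂μ := by
    intro μ f hf
    exact setIntegral_eq_of_subset_of_forall_sdiff_eq_zero hΩ.measurableSet hrΩ
      fun y hy => hf y fun h => hy.2 (hsub h)
  rw [hKind (f := fun x t => fderiv ℝ χ x (Ψ x t)) (fun x hx t => cr_fderiv_chi_zero hx _),
    hKind (f := fun x t => χ x * divx Ψ x t) (fun x hx t => by simp only [hχ0 x hx, zero_mul])]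
    at hfin
  constructor
  · have h1 : IntegrableOn (fun y => χ y * k y) K (μH[1] : Measure ℂ) := hjint
    have h2 : IntegrableOn (fun y => χ y * k y) (Ω \ K) (μH[1] : Measure ℂ) := by
      have h4 : IntegrableOn (fun _ : ℂ => (0 : ℝ)) (Ω \ K) (μH[1] : Measure ℂ) :=
        integrableOn_zero
      refine h4.congr_fun (fun y hy => ?_) (hΩ.measurableSet.diff hKm)
      simp only [hχ0 y (fun h => hy.2 (hsub h)), zero_mul]
    have h3 : Ω = K ∪ Ω \ K := (union_sdiff_cancel hrΩ).symm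
    rw [h3]
    exact h1.union h2
  · rw [hKΩint volume (fun x hx => cr_fderiv_chi_zero hx _),
      hKΩint volume (fun x hx => by rw [hχ0 x hx, zero_mul]),
      hKΩint (μH[1] : Measure ℂ) (fun x hx => by rw [hχ0 x hx, zero_mul]), hfin]
    have i3 : IntegrableOn (fun x => χ x * divx Ψ x (w x)) K := by
      refine Integrable.mono' (g := fun _ => Cχ * (2 * |C₁|))
        (integrableOn_const hK.measure_lt_top.ne) ?_
        (Eventually.of_forall fun x => hN2b x _)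
      have h1 : AEStronglyMeasurable (fun x => ((x, w x) : ℂ × ℝ)) (volume.restrict K) :=
        aestronglyMeasurable_id.prodMk hwK.aestronglyMeasurable
      exact hN2c.comp_aestronglyMeasurable h1
    have i4 : IntegrableOn (fun y => χ y * inner ℝ (derivt Ψ y (w y)) (g y)) K := hgint
    have h5 : ∫ x in K, χ x * (divx Ψ x (w x) + inner ℝ (derivt Ψ x (w x)) (g x)) =
        (∫ x in K, χ x * divx Ψ x (w x)) + ∫ y in K, χ y * inner ℝ (derivt Ψ y (w y)) (g y) := by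
      rw [← integral_add i3 i4]
      refine integral_congr_ae (Eventually.of_forall fun x => ?_)
      simp only [mul_add]
    rw [h5]
    ring

end Main

/-- Chain rule in `SBV_loc` for `Ψ(x, w(x))`. -/
theorem chain_rule {Ω : Set ℂ} (hΩ : IsOpen Ω) {w : ℂ → ℝ} {g : ℂ → ℂ}
    (hw : LocallyIntegrableOn w Ω) (hg : IsSBVGrad Ω w g) {Ψ : ℂ → ℝ → ℂ}
    (hΨ : ContDiffOn ℝ 1 (fun p : ℂ × ℝ => Ψ p.1 p.2) (Ω ×ˢ univ))
    (hbd : ∀ K, IsCompact K → K ⊆ Ω → ∃ C, ∀ x ∈ K, ∀ t,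
      ‖Ψ x t‖ ≤ C ∧ ‖fderiv ℝ (fun p : ℂ × ℝ => Ψ p.1 p.2) (x, t)‖ ≤ C) :
    ∃ k : ℂ → ℝ, IsJumpFlux Ω w Ψ k ∧ LocallyIntegrableOn k Ω (μH[1] : Measure ℂ) ∧
      ∀ χ : ℂ → ℝ, ContDiff ℝ ∞ χ → HasCompactSupport χ → tsupport χ ⊆ Ω →
        ∫ x in Ω, fderiv ℝ χ x (Ψ x (w x)) =
          - (∫ x in Ω, χ x * (divx Ψ x (w x) + inner ℝ (derivt Ψ x (w x)) (g x)))
          - ∫ x in Ω, χ x * k x ∂(μH[1] : Measure ℂ) := by
  classical
  obtain ⟨hgi, j, hj, hji, hform⟩ := hg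
  -- the flux
  let k : ℂ → ℝ := fun x =>
    if h : ∃ p : ℝ × ℝ × ℂ, IsJump w x p.1 p.2.1 p.2.2 ∧ j x = (p.1 - p.2.1) • p.2.2 then
      inner ℝ (Ψ x h.choose.1 - Ψ x h.choose.2.1) h.choose.2.2 else 0
  have hk : ∀ x ∈ Ω, (∃ a b ν, IsJump w x a b ν ∧ j x = (a - b) • ν ∧
      k x = inner ℝ (Ψ x a - Ψ x b) ν) ∨
      ((¬ ∃ a b ν, IsJump w x a b ν) ∧ j x = 0 ∧ k x = 0) := by
    intro x hx
    rcases hj x hx with ⟨a, b, ν, h1, h2⟩ | ⟨h1, h2⟩
    · left
      have h : ∃ p : ℝ × ℝ × ℂ, IsJump w x p.1 p.2.1 p.2.2 ∧ j x = (p.1 - p.2.1) • p.2.2 :=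
        ⟨(a, b, ν), h1, h2⟩
      refine ⟨h.choose.1, h.choose.2.1, h.choose.2.2, h.choose_spec.1, h.choose_spec.2, ?_⟩
      simp only [k, dif_pos h]
    · right
      refine ⟨h1, h2, ?_⟩
      have h : ¬ ∃ p : ℝ × ℝ × ℂ, IsJump w x p.1 p.2.1 p.2.2 ∧ j x = (p.1 - p.2.1) • p.2.2 := by
        rintro ⟨p, hp, -⟩
        exact h1 ⟨_, _, _, hp⟩
      simp only [k, dif_neg h]
  refine ⟨k, ?_, ?_, ?_⟩
  · intro x hx
    rcases hk x hx with ⟨a, b, ν, h1, h2, h3⟩ | ⟨h1, h2, h3⟩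
    · exact Or.inl ⟨a, b, ν, h1, h3⟩
    · exact Or.inr ⟨h1, h3⟩
  · intro x hx
    obtain ⟨r, hr, hrΩ⟩ := Metric.mem_nhds_iff.1 (hΩ.mem_nhds hx)
    let f : ContDiffBump x := ⟨r / 4, r / 2, by linarith, by linarith⟩
    have hf1 : ContDiff ℝ ∞ f := f.contDiff
    have hf2 : HasCompactSupport f := f.hasCompactSupport
    have hf3 : tsupport f ⊆ Ω := by
      rw [f.tsupport_eq]
      exact (closedBall_subset_ball (by change r / 2 < r; linarith)).trans hrΩ
    have h1 := (cr_main hΩ hw hgi hji hform hΨ hbd hk hf1 hf2 hf3).1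
    refine ⟨closedBall x (r / 4), mem_nhdsWithin_of_mem_nhds
      (closedBall_mem_nhds x (by linarith)), ?_⟩
    have h2 : closedBall x (r / 4) ⊆ Ω :=
      (closedBall_subset_ball (by linarith)).trans hrΩ
    refine (h1.mono_set h2).congr_fun (fun y hy => ?_) measurableSet_closedBall
    have h3 : f y = 1 := f.one_of_mem_closedBall hy
    simp [h3]
  · intro χ hχ hχc hχs
    exact (cr_main hΩ hw hgi hji hform hΨ hbd hk hχ hχc hχs).2

end Pool.Agent.MP099f24
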