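import Pool.Agent.Lib.MP_099f24_an.Blowup

/-!
# Uniqueness of the jump triple (MP_099f24_an)
-/

set_option autoImplicit false

namespace Pool.Agent.MP099f24

open MeasureTheory Filter Topology Set Metric
open scoped ENNReal ContDiff

theorem un_pos {T V : Set ℂ} (hV : IsOpen V) (hne : (V ∩ ball (0 : ℂ) 1).Nonempty)
    (hsub : V ∩ ball (0 : ℂ) 1 ⊆ T) : 0 < ∫ y in T, moll y := by
  rw [setIntegral_pos_iff_support_of_nonneg_ae (Eventually.of_forall moll_nonneg)
    bl_moll_integrable.integrableOn, moll_support]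
  have h1 : 0 < volume (V ∩ ball (0 : ℂ) 1) := (hV.inter isOpen_ball).measure_pos volume hne
  exact h1.trans_le (measure_mono fun y hy => ⟨hy.2, hsub hy⟩)

theorem un_nonneg (ν z : ℂ) : 0 ≤ halfMol ν z := by
  unfold halfMol
  exact setIntegral_nonneg (bl_measurable_pos ν z) fun y _ => moll_nonneg y

theorem un_compl (ν z : ℂ) :
    halfMol ν z + ∫ y in {y : ℂ | 0 < inner ℝ (z - y) ν}ᶜ, moll y = 1 := by
  unfold halfMol
  rw [integral_add_compl (bl_measurable_pos ν z) bl_moll_integrable, moll_integral]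

theorem un_le_one (ν z : ℂ) : halfMol ν z ≤ 1 := by
  have h1 := un_compl ν z
  have h2 : 0 ≤ ∫ y in {y : ℂ | 0 < inner ℝ (z - y) ν}ᶜ, moll y :=
    setIntegral_nonneg (bl_measurable_pos ν z).compl fun y _ => moll_nonneg y
  linarith

theorem un_inner_self {ν : ℂ} (hν : ‖ν‖ = 1) : inner ℝ ν ν = 1 := by
  rw [real_inner_self_eq_norm_sq, hν, one_pow]

theorem un_abs_inner {ν y : ℂ} (hν : ‖ν‖ = 1) : |inner ℝ y ν| ≤ ‖y‖ := by
  have := abs_real_inner_le_norm y ν
  rwa [hν, mul_one] at this

/-- a cap `{inner y ν < c}` with `c > -1` has positive mass -/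
theorem un_lt {ν z : ℂ} (hν : ‖ν‖ = 1) (h : -1 < inner ℝ z ν) : 0 < halfMol ν z := by
  unfold halfMol
  have hopen : IsOpen {y : ℂ | 0 < inner ℝ (z - y) ν} :=
    isOpen_lt continuous_const ((continuous_const.sub continuous_id).inner continuous_const)
  refine un_pos hopen ?_ inter_subset_left
  obtain ⟨t, ht1, ht2⟩ := exists_between (show -1 < min (inner ℝ z ν) 1 from
    lt_min h (by norm_num))
  refine ⟨t • ν, ?_, ?_⟩
  · have ht3 : t < inner ℝ z ν := ht2.trans_le (min_le_left _ _)
    change 0 < inner ℝ (z - t • ν) ν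
    rw [inner_sub_left, inner_smul_left, un_inner_self hν]
    simp only [conj_trivial, mul_one]
    linarith
  · have ht3 : t < 1 := ht2.trans_le (min_le_right _ _)
    rw [mem_ball_zero_iff, norm_smul, hν, mul_one, Real.norm_eq_abs, abs_lt]
    exact ⟨ht1, ht3⟩

/-- a cap `{inner y ν > c}` with `c < 1` has positive mass -/
theorem un_gt {ν z : ℂ} (hν : ‖ν‖ = 1) (h : inner ℝ z ν < 1) : halfMol ν z < 1 := by
  have h1 := un_compl ν z
  have h2 : 0 < ∫ y in {y : ℂ | 0 < inner ℝ (z - y) ν}ᶜ, moll y := by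
    have hopen : IsOpen {y : ℂ | inner ℝ (z - y) ν < 0} :=
      isOpen_lt ((continuous_const.sub continuous_id).inner continuous_const) continuous_const
    refine un_pos hopen ?_ ?_
    · obtain ⟨t, ht1, ht2⟩ := exists_between (show max (inner ℝ z ν) (-1) < 1 from
        max_lt h (by norm_num))
      refine ⟨t • ν, ?_, ?_⟩
      · have ht3 : inner ℝ z ν < t := (le_max_left _ _).trans_lt ht1
        change inner ℝ (z - t • ν) ν < 0
        rw [inner_sub_left, inner_smul_left, un_inner_self hν]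
        simp only [conj_trivial, mul_one]
        linarith
      · have ht3 : -1 < t := (le_max_right _ _).trans_lt ht1
        rw [mem_ball_zero_iff, norm_smul, hν, mul_one, Real.norm_eq_abs, abs_lt]
        exact ⟨ht3, ht2⟩
    · intro y hy
      have hy1 : inner ℝ (z - y) ν < 0 := hy.1
      change ¬ (0 < inner ℝ (z - y) ν)
      exact not_lt.2 hy1.le
  linarith

theorem un_self {ν : ℂ} (hν : ‖ν‖ = 1) : halfMol ν ν = 1 := by
  have h1 := un_compl ν ν
  have h2 : ∫ y in {y : ℂ | 0 < inner ℝ (ν - y) ν}ᶜ, moll y = 0 := by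
    refine setIntegral_eq_zero_of_forall_eq_zero fun y hy => ?_
    apply bl_moll_zero
    have hy1 : ¬ (0 < inner ℝ (ν - y) ν) := hy
    rw [inner_sub_left, un_inner_self hν] at hy1
    have h3 := un_abs_inner (y := y) hν
    have h4 := le_abs_self (inner ℝ y ν)
    linarith
  linarith

theorem un_neg {ν : ℂ} (hν : ‖ν‖ = 1) : halfMol ν (-ν) = 0 := by
  unfold halfMol
  refine setIntegral_eq_zero_of_forall_eq_zero fun y hy => ?_
  apply bl_moll_zero
  have hy1 : 0 < inner ℝ (-ν - y) ν := hy
  rw [inner_sub_left, inner_neg_left, un_inner_self hν] at hy1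
  have h3 := un_abs_inner (y := y) hν
  have h4 := neg_abs_le (inner ℝ y ν)
  linarith

/-- The jump triple is unique up to the change of orientation. -/
theorem isJump_unique {w : ℂ → ℝ} {x : ℂ} {a b a' b' : ℝ} {ν ν' : ℂ} {U : Set ℂ} (hU : U ∈ 𝓝 x)
    (hw : IntegrableOn w U) (h : IsJump w x a b ν) (h' : IsJump w x a' b' ν') :
    (a' = a ∧ b' = b ∧ ν' = ν) ∨ (a' = b ∧ b' = a ∧ ν' = -ν) := by
  have hν : ‖ν‖ = 1 := h.1
  have hν' : ‖ν'‖ = 1 := h'.1
  have hab : a ≠ b := h.2.1
  have hab' : a' ≠ b' := h'.2.1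
  have key : ∀ z : ℂ, ‖z‖ ≤ 1 → b + (a - b) * halfMol ν z = b' + (a' - b') * halfMol ν' z := by
    intro z hz
    by_contra hne
    have hpos : 0 < |(b + (a - b) * halfMol ν z) - (b' + (a' - b') * halfMol ν' z)| :=
      abs_pos.2 (sub_ne_zero.2 hne)
    obtain ⟨ε, h1, h2⟩ := ((mol_tendsto_of_jump hU hw h _ (half_pos hpos)).and
      (mol_tendsto_of_jump hU hw h' _ (half_pos hpos))).exists
    have h3 := h1 z hz
    have h4 := h2 z hz
    have h5 := abs_sub_le (b + (a - b) * halfMol ν z) (mol w ε (x + ε • z))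
      (b' + (a' - b') * halfMol ν' z)
    rw [abs_sub_comm] at h3
    linarith
  have k1 := key ν hν.le
  have k2 := key (-ν) (by rw [norm_neg]; exact hν.le)
  have k3 := key ν' hν'.le
  have k4 := key (-ν') (by rw [norm_neg]; exact hν'.le)
  rw [un_self hν, mul_one, add_sub_cancel] at k1
  rw [un_neg hν, mul_zero, add_zero] at k2
  rw [un_self hν', mul_one, add_sub_cancel] at k3
  rw [un_neg hν', mul_zero, add_zero] at k4
  have n1 := un_nonneg ν' ν
  have n2 := un_nonneg ν' (-ν)
  have n3 := un_nonneg ν ν'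
  have n4 := un_nonneg ν (-ν')
  have m1 := un_le_one ν' ν
  have m2 := un_le_one ν' (-ν)
  have m3 := un_le_one ν ν'
  have m4 := un_le_one ν (-ν')
  set p := halfMol ν' ν with hp
  set q := halfMol ν' (-ν) with hq
  set r := halfMol ν ν' with hr
  set s := halfMol ν (-ν') with hs
  -- `a - b = (a' - b') (p - q)` and `a' - b' = (a - b) (r - s)`
  have e1 : a - b = (a' - b') * (p - q) := by linear_combination k1 - k2
  have e2 : a' - b' = (a - b) * (r - s) := by linear_combination -k3 + k4
  have e3 : (p - q) * (r - s) = 1 := by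
    have h1 : (a - b) * ((p - q) * (r - s)) = (a - b) * 1 := by
      linear_combination -e1 - (p - q) * e2
    exact mul_left_cancel₀ (sub_ne_zero.2 hab) h1
  have hpq : (p = 1 ∧ q = 0) ∨ (p = 0 ∧ q = 1) := by
    have h1 : |p - q| ≤ 1 := abs_le.2 ⟨by linarith, by linarith⟩
    have h2 : |r - s| ≤ 1 := abs_le.2 ⟨by linarith, by linarith⟩
    have h3 : |p - q| * |r - s| = 1 := by rw [← abs_mul, e3, abs_one]
    have h4 : |p - q| = 1 := by
      apply le_antisymm h1
      nlinarith [abs_nonneg (p - q), abs_nonneg (r - s)]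
    rcases (abs_eq (by norm_num : (0 : ℝ) ≤ 1)).1 h4 with h5 | h5
    · left
      constructor <;> linarith
    · right
      constructor <;> linarith
  rcases hpq with ⟨hp1, hq0⟩ | ⟨hp0, hq1⟩
  · left
    rw [hp1] at k1
    rw [hq0] at k2
    refine ⟨by linarith, by linarith, ?_⟩
    by_contra hne
    have h1 : inner ℝ ν ν' < 1 := by
      refine lt_of_le_of_ne ?_ ?_
      · have := abs_real_inner_le_norm ν ν'
        rw [hν, hν', mul_one] at this
        exact (le_abs_self _).trans this
      · intro h2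
        exact hne ((inner_eq_one_iff_of_norm_eq_one hν hν').1 h2).symm
    have h2 := un_gt hν' h1
    linarith
  · right
    rw [hp0] at k1
    rw [hq1] at k2
    refine ⟨by linarith, by linarith, ?_⟩
    by_contra hne
    have h1 : -1 < inner ℝ ν ν' := by
      refine lt_of_le_of_ne ?_ ?_
      · have := abs_real_inner_le_norm ν ν'
        rw [hν, hν', mul_one] at this
        exact (neg_le_neg this).trans (neg_abs_le _)
      · intro h2
        have h3 : inner ℝ (-ν) ν' = 1 := by rw [inner_neg_left, ← h2, neg_neg]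
        exact hne ((inner_eq_one_iff_of_norm_eq_one (by rw [norm_neg]; exact hν) hν').1 h3).symm
    have h2 := un_lt hν' h1
    linarith

end Pool.Agent.MP099f24
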