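import Pool.Agent.Lib.MP_099f24_an.Defs

/-!
# The mollifier (MP_099f24_an)
-/

namespace Pool.Agent.MP099f24

open MeasureTheory Filter Topology Set Metric
open scoped ENNReal ContDiff

/-- A fixed smooth bump function. -/
noncomputable def theBump : ContDiffBump (0 : ℂ) := ⟨1 / 2, 1, by norm_num, by norm_num⟩

/-- The mollifier: smooth, nonnegative, supported in the closed unit ball, of integral `1`. -/
noncomputable def moll : ℂ → ℝ := theBump.normed volume

theorem moll_contDiff : ContDiff ℝ ∞ moll := theBump.contDiff_normed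

theorem moll_continuous : Continuous moll := moll_contDiff.continuous

theorem moll_nonneg (x : ℂ) : 0 ≤ moll x := theBump.nonneg_normed x

theorem moll_integral : ∫ x, moll x = 1 := theBump.integral_normed

theorem moll_neg (x : ℂ) : moll (-x) = moll x := theBump.normed_neg x

theorem moll_support : Function.support moll = ball 0 1 := theBump.support_normed_eq

theorem moll_tsupport : tsupport moll = closedBall 0 1 := theBump.tsupport_normed_eq

theorem moll_hasCompactSupport : HasCompactSupport moll := theBump.hasCompactSupport_normed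

/-- The mollification of `w` at scale `ε`. -/
noncomputable def mol (w : ℂ → ℝ) (ε : ℝ) (x : ℂ) : ℝ := ∫ z, moll z * w (x - ε • z)

/-- The mollification at `z` of the indicator of the half plane `{y · ν > 0}`. -/
noncomputable def halfMol (ν z : ℂ) : ℝ := ∫ y in {y : ℂ | 0 < inner ℝ (z - y) ν}, moll y

/-- The divergence in the variable `x` of a vector field `Ψ(x, t)`. -/
noncomputable def divx (Ψ : ℂ → ℝ → ℂ) (x : ℂ) (t : ℝ) : ℝ :=
  (fderiv ℝ (fun y => Ψ y t) x 1).re + (fderiv ℝ (fun y => Ψ y t) x Complex.I).im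

/-- The derivative in the variable `t` of a vector field `Ψ(x, t)`. -/
noncomputable def derivt (Ψ : ℂ → ℝ → ℂ) (x : ℂ) (t : ℝ) : ℂ := deriv (fun s => Ψ x s) t

/-- `k x = ⟪Ψ(x, w⁺) - Ψ(x, w⁻), ν⟫` at the approximate jump points of `w` in `Ω`, and `k x = 0`
at the other points of `Ω`. -/
def IsJumpFlux (Ω : Set ℂ) (w : ℂ → ℝ) (Ψ : ℂ → ℝ → ℂ) (k : ℂ → ℝ) : Prop :=
  ∀ x ∈ Ω, (∃ a b ν, IsJump w x a b ν ∧ k x = inner ℝ (Ψ x a - Ψ x b) ν) ∨
    ((¬ ∃ a b ν, IsJump w x a b ν) ∧ k x = 0)

end Pool.Agent.MP099f24
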