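import Pool.Agent.Lib.MP_099f24_an.Defs

/-!
# One-dimensional Hausdorff measure on a regular injective `C¹` curve is arc length
-/

namespace Pool.Agent.MP099f24

open MeasureTheory Filter Topology Set Metric
open scoped ENNReal ContDiff NNReal

/-- local comparison of arc length and Hausdorff measure -/
theorem curve_local {γ : ℝ → ℂ} (hγ : ContDiff ℝ 1 γ) {t₀ : ℝ} (h0 : deriv γ t₀ ≠ 0)
    {ε : ℝ} (hε : 0 < ε) (hε1 : ε < 1) :
    ∃ U ∈ 𝓝 t₀, ∀ B ⊆ U, MeasurableSet B →
      (∫⁻ t in B, ENNReal.ofReal ‖deriv γ t‖) ≤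
        ENNReal.ofReal ((1 + ε) / (1 - ε)) * (μH[1] : Measure ℂ) (γ '' B) ∧
      (μH[1] : Measure ℂ) (γ '' B) ≤
        ENNReal.ofReal ((1 + ε) / (1 - ε)) * ∫⁻ t in B, ENNReal.ofReal ‖deriv γ t‖ := by
  set l : ℝ := ‖deriv γ t₀‖ with hl
  have hl0 : 0 < l := norm_pos_iff.mpr h0
  have hstrict : HasStrictDerivAt γ (deriv γ t₀) t₀ :=
    (hγ.contDiffAt).hasStrictDerivAt (by norm_num)
  have hc : (0 : ℝ) < ε * l := mul_pos hε hl0
  obtain ⟨U₁, hU₁, happ⟩ := hstrict.hasStrictFDerivAt.approximates_deriv_on_nhds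
    (c := Real.toNNReal (ε * l)) (Or.inr (Real.toNNReal_pos.mpr hc))
  have hcont : Continuous (deriv γ) := hγ.continuous_deriv (by norm_num)
  have hU₂ : {t | |‖deriv γ t‖ - l| < ε * l} ∈ 𝓝 t₀ := by
    have h1 : Continuous (fun t => |‖deriv γ t‖ - l|) := (hcont.norm.sub continuous_const).abs
    refine (isOpen_lt h1 continuous_const).mem_nhds ?_
    simp only [mem_ofPred_eq, ← hl, sub_self, abs_zero]
    exact hc
  refine ⟨U₁ ∩ {t | |‖deriv γ t‖ - l| < ε * l}, inter_mem hU₁ hU₂, fun B hB hBm => ?_⟩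
  have hB1 : B ⊆ U₁ := fun t ht => (hB ht).1
  have hB2 : ∀ t ∈ B, |‖deriv γ t‖ - l| < ε * l := fun t ht => (hB ht).2
  -- Lipschitz bounds
  have key : ∀ s ∈ B, ∀ t ∈ B, ‖γ s - γ t - (s - t) • deriv γ t₀‖ ≤ ε * l * |s - t| := by
    intro s hs t ht
    have := happ s (hB1 hs) t (hB1 ht)
    rw [Real.coe_toNNReal _ hc.le] at this
    simpa using this
  have hup : LipschitzOnWith (Real.toNNReal ((1 + ε) * l)) γ B := by
    refine LipschitzOnWith.of_dist_le_mul fun s hs t ht => ?_
    rw [dist_eq_norm, dist_eq_norm, Real.norm_eq_abs, Real.coe_toNNReal _ (by positivity)]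
    have h1 := key s hs t ht
    have h2 : ‖γ s - γ t‖ ≤ ‖γ s - γ t - (s - t) • deriv γ t₀‖ + ‖(s - t) • deriv γ t₀‖ := by
      have := norm_add_le (γ s - γ t - (s - t) • deriv γ t₀) ((s - t) • deriv γ t₀)
      simpa using this
    rw [norm_smul, Real.norm_eq_abs, ← hl] at h2
    nlinarith
  have hlow : ∀ s ∈ B, ∀ t ∈ B, (1 - ε) * l * |s - t| ≤ ‖γ s - γ t‖ := by
    intro s hs t ht
    have h1 := key s hs t ht
    have h2 : ‖(s - t) • deriv γ t₀‖ ≤ ‖γ s - γ t‖ + ‖γ s - γ t - (s - t) • deriv γ t₀‖ := by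
      have := norm_sub_le (γ s - γ t) (γ s - γ t - (s - t) • deriv γ t₀)
      simpa using this
    rw [norm_smul, Real.norm_eq_abs, ← hl] at h2
    nlinarith
  have h1ε : 0 < 1 - ε := by linarith
  have hinv : LipschitzOnWith (Real.toNNReal (((1 - ε) * l)⁻¹)) (Function.invFunOn γ B)
      (γ '' B) := by
    refine LipschitzOnWith.of_dist_le_mul fun x hx y hy => ?_
    have hx' := Function.invFunOn_mem (f := γ) (s := B) (b := x) (by simpa using hx)
    have hy' := Function.invFunOn_mem (f := γ) (s := B) (b := y) (by simpa using hy)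
    have hxe := Function.invFunOn_eq (f := γ) (s := B) (b := x) (by simpa using hx)
    have hye := Function.invFunOn_eq (f := γ) (s := B) (b := y) (by simpa using hy)
    have h3 := hlow _ hx' _ hy'
    rw [hxe, hye] at h3
    rw [dist_eq_norm, dist_eq_norm, Real.norm_eq_abs, Real.coe_toNNReal _ (by positivity)]
    rw [← div_eq_inv_mul, le_div_iff₀ (by positivity)]
    linarith
  have hinj : InjOn γ B := by
    intro s hs t ht hst
    have h3 := hlow s hs t ht
    rw [hst, sub_self, norm_zero] at h3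
    have h4 : |s - t| ≤ 0 := by
      by_contra hcon
      push Not at hcon
      have : 0 < (1 - ε) * l * |s - t| := by positivity
      linarith
    have h5 : s - t = 0 := abs_eq_zero.mp (le_antisymm h4 (abs_nonneg _))
    linarith
  have himg : Function.invFunOn γ B '' (γ '' B) = B := by
    ext t
    constructor
    · rintro ⟨x, ⟨s, hs, rfl⟩, rfl⟩
      exact Function.invFunOn_mem ⟨s, hs, rfl⟩
    · intro ht
      refine ⟨γ t, ⟨t, ht, rfl⟩, ?_⟩
      exact hinj (Function.invFunOn_mem ⟨t, ht, rfl⟩) ht (Function.invFunOn_eq ⟨t, ht, rfl⟩)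
  have hA : (μH[1] : Measure ℂ) (γ '' B) ≤ ENNReal.ofReal ((1 + ε) * l) * volume B := by
    have h := hup.hausdorffMeasure_image_le (d := 1) zero_le_one
    rw [hausdorffMeasure_real, ENNReal.rpow_one] at h
    exact h
  have hA' : volume B ≤ ENNReal.ofReal (((1 - ε) * l)⁻¹) * (μH[1] : Measure ℂ) (γ '' B) := by
    have h := hinv.hausdorffMeasure_image_le (d := 1) zero_le_one
    rw [himg, hausdorffMeasure_real, ENNReal.rpow_one] at h
    exact h
  have hI1 : (∫⁻ t in B, ENNReal.ofReal ‖deriv γ t‖) ≤ ENNReal.ofReal ((1 + ε) * l) * volume B := by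
    rw [← setLIntegral_const]
    refine setLIntegral_mono' hBm fun t ht => ENNReal.ofReal_le_ofReal ?_
    have := abs_lt.mp (hB2 t ht)
    linarith [this.2]
  have hI2 : ENNReal.ofReal ((1 - ε) * l) * volume B ≤ ∫⁻ t in B, ENNReal.ofReal ‖deriv γ t‖ := by
    rw [← setLIntegral_const]
    refine setLIntegral_mono' hBm fun t ht => ENNReal.ofReal_le_ofReal ?_
    have := abs_lt.mp (hB2 t ht)
    linarith [this.1]
  constructor
  · calc (∫⁻ t in B, ENNReal.ofReal ‖deriv γ t‖) ≤ ENNReal.ofReal ((1 + ε) * l) * volume B := hI1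
      _ ≤ ENNReal.ofReal ((1 + ε) * l) *
          (ENNReal.ofReal (((1 - ε) * l)⁻¹) * (μH[1] : Measure ℂ) (γ '' B)) := by gcongr
      _ = ENNReal.ofReal ((1 + ε) / (1 - ε)) * (μH[1] : Measure ℂ) (γ '' B) := by
        rw [← mul_assoc, ← ENNReal.ofReal_mul (by positivity)]
        congr 2
        field_simp
  · calc (μH[1] : Measure ℂ) (γ '' B) ≤ ENNReal.ofReal ((1 + ε) * l) * volume B := hA
      _ = ENNReal.ofReal ((1 + ε) / (1 - ε)) * (ENNReal.ofReal ((1 - ε) * l) * volume B) := by
        rw [← mul_assoc, ← ENNReal.ofReal_mul (by positivity)]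
        congr 2
        field_simp
      _ ≤ _ := by gcongr

/-- `μH[1]` of the image of a measurable set under a regular injective `C¹` curve. -/
theorem hausdorff_curve_image {γ : ℝ → ℂ} (hγ : ContDiff ℝ 1 γ)
    (hreg : ∀ t, deriv γ t ≠ 0) {B : Set ℝ} (hB : MeasurableSet B) (hinj : InjOn γ B) :
    (μH[1] : Measure ℂ) (γ '' B) = ∫⁻ t in B, ENNReal.ofReal ‖deriv γ t‖ := by
  have main : ∀ ε : ℝ, 0 < ε → ε < 1 →
      (∫⁻ t in B, ENNReal.ofReal ‖deriv γ t‖) ≤
        ENNReal.ofReal ((1 + ε) / (1 - ε)) * (μH[1] : Measure ℂ) (γ '' B) ∧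
      (μH[1] : Measure ℂ) (γ '' B) ≤
        ENNReal.ofReal ((1 + ε) / (1 - ε)) * ∫⁻ t in B, ENNReal.ofReal ‖deriv γ t‖ := by
    intro ε hε hε1
    have hloc := fun t₀ => curve_local hγ (hreg t₀) hε hε1
    choose U hU hUB using hloc
    have hU' : ∀ t, interior (U t) ∈ 𝓝 t := fun t => interior_mem_nhds.mpr (hU t)
    obtain ⟨s, hsc, hs⟩ := TopologicalSpace.countable_cover_nhds hU'
    have hne : s.Nonempty := by
      by_contra h
      rw [not_nonempty_iff_eq_empty] at h
      subst h
      have h2 : (0 : ℝ) ∈ (univ : Set ℝ) := mem_univ _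
      rw [← hs] at h2
      simp at h2
    obtain ⟨e, he⟩ := hsc.exists_eq_range hne
    set V : ℕ → Set ℝ := fun n => interior (U (e n)) with hV
    have hVm : ∀ n, MeasurableSet (V n) := fun n => isOpen_interior.measurableSet
    set W : ℕ → Set ℝ := disjointed V with hW
    have hWm : ∀ n, MeasurableSet (W n) := fun n => MeasurableSet.disjointed hVm n
    have hWd : Pairwise (Function.onFun Disjoint W) := disjoint_disjointed V
    have hWu : ⋃ n, W n = univ := by
      rw [hW, iUnion_disjointed, ← hs, he, biUnion_range]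
    have hBW : B = ⋃ n, B ∩ W n := by
      rw [← inter_iUnion, hWu, inter_univ]
    have hWV : ∀ n, W n ⊆ U (e n) := fun n => (disjointed_subset V n).trans interior_subset
    have hint : (∫⁻ t in B, ENNReal.ofReal ‖deriv γ t‖) =
        ∑' n, ∫⁻ t in B ∩ W n, ENNReal.ofReal ‖deriv γ t‖ := by
      conv_lhs => rw [hBW]
      refine lintegral_iUnion (fun n => hB.inter (hWm n)) ?_ _
      intro m n hmn
      exact (hWd hmn).mono inter_subset_right inter_subset_right
    have hmea : (μH[1] : Measure ℂ) (γ '' B) = ∑' n, (μH[1] : Measure ℂ) (γ '' (B ∩ W n)) := by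
      conv_lhs => rw [hBW, image_iUnion]
      refine measure_iUnion ?_ ?_
      · intro m n hmn
        have hd := (hWd hmn)
        refine disjoint_left.mpr ?_
        rintro x ⟨p, hp, rfl⟩ ⟨q, hq, hpq⟩
        have h5 : q = p := hinj hq.1 hp.1 hpq
        subst h5
        exact disjoint_left.mp hd hp.2 hq.2
      · intro n
        exact (hB.inter (hWm n)).image_of_continuousOn_injOn hγ.continuous.continuousOn
          (hinj.mono inter_subset_left)
    rw [hint, hmea, ← ENNReal.tsum_mul_left, ← ENNReal.tsum_mul_left]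
    constructor
    · exact ENNReal.tsum_le_tsum fun n =>
        (hUB (e n) _ (inter_subset_right.trans (hWV n)) (hB.inter (hWm n))).1
    · exact ENNReal.tsum_le_tsum fun n =>
        (hUB (e n) _ (inter_subset_right.trans (hWV n)) (hB.inter (hWm n))).2
  have hlim : Tendsto (fun ε : ℝ => ENNReal.ofReal ((1 + ε) / (1 - ε))) (𝓝[>] 0) (𝓝 1) := by
    have h1 : Tendsto (fun ε : ℝ => (1 + ε) / (1 - ε)) (𝓝 0) (𝓝 ((1 + 0) / (1 - 0))) := by
      apply Tendsto.div
      · exact tendsto_const_nhds.add tendsto_id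
      · exact tendsto_const_nhds.sub tendsto_id
      · norm_num
    have h2 := (ENNReal.continuous_ofReal.tendsto _).comp h1
    simp only [add_zero, sub_zero, div_one, ENNReal.ofReal_one] at h2
    exact h2.mono_left nhdsWithin_le_nhds
  have hev : ∀ᶠ ε : ℝ in 𝓝[>] 0, 0 < ε ∧ ε < 1 := by
    have := Ioo_mem_nhdsGT (show (0 : ℝ) < 1 by norm_num)
    filter_upwards [this] with ε hε
    exact hε
  apply le_antisymm
  · have h3 := ENNReal.Tendsto.mul_const (b := ∫⁻ t in B, ENNReal.ofReal ‖deriv γ t‖) hlim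
      (Or.inl one_ne_zero)
    rw [one_mul] at h3
    refine ge_of_tendsto h3 ?_
    filter_upwards [hev] with ε hε
    exact (main ε hε.1 hε.2).2
  · have h3 := ENNReal.Tendsto.mul_const (b := (μH[1] : Measure ℂ) (γ '' B)) hlim
      (Or.inl one_ne_zero)
    rw [one_mul] at h3
    refine ge_of_tendsto h3 ?_
    filter_upwards [hev] with ε hε
    exact (main ε hε.1 hε.2).1

/-- One-dimensional Hausdorff measure on a regular injective `C¹` curve is arc length. -/
theorem hausdorff_curve {γ : ℝ → ℂ} {a b : ℝ} (hγ : ContDiff ℝ 1 γ)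
    (hreg : ∀ t, deriv γ t ≠ 0) (hinj : InjOn γ (Ico a b)) :
    (μH[1] : Measure ℂ).restrict (γ '' Ico a b) =
      Measure.map γ ((volume.restrict (Ico a b)).withDensity
        (fun t => ENNReal.ofReal ‖deriv γ t‖)) := by
  ext S hS
  have hpre : MeasurableSet (γ ⁻¹' S) := hγ.continuous.measurable hS
  rw [Measure.restrict_apply hS, Measure.map_apply hγ.continuous.measurable hS,
    withDensity_apply _ hpre, Measure.restrict_restrict hpre]
  have h1 : S ∩ γ '' Ico a b = γ '' (γ ⁻¹' S ∩ Ico a b) := by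
    rw [image_preimage_inter]
  rw [h1]
  exact hausdorff_curve_image hγ hreg (hpre.inter measurableSet_Ico) (hinj.mono inter_subset_right)

theorem integral_curve {γ : ℝ → ℂ} {a b : ℝ} (hab : a ≤ b) (hγ : ContDiff ℝ 1 γ)
    (hreg : ∀ t, deriv γ t ≠ 0) (hinj : InjOn γ (Ico a b)) {E : Type*} [NormedAddCommGroup E]
    [NormedSpace ℝ E] [CompleteSpace E] (f : ℂ → E) :
    ∫ x in γ '' Ico a b, f x ∂(μH[1] : Measure ℂ) =
      ∫ t in a..b, ‖deriv γ t‖ • f (γ t) := by
  have hcont : Continuous (deriv γ) := hγ.continuous_deriv (by norm_num)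
  rw [hausdorff_curve hγ hreg hinj]
  set ν : Measure ℝ := (volume.restrict (Ico a b)).withDensity
        (fun t => ENNReal.ofReal ‖deriv γ t‖) with hν
  have hνr : ν.restrict (Ico a b) = ν := by
    rw [hν, restrict_withDensity measurableSet_Ico, Measure.restrict_restrict measurableSet_Ico,
      inter_self]
  have hemb : MeasurableEmbedding ((Ico a b).domRestrict γ) :=
    hγ.continuous.continuousOn.measurableEmbedding measurableSet_Ico hinj
  have hmap : Measure.map γ ν =
      Measure.map ((Ico a b).domRestrict γ) (Measure.comap Subtype.val ν) := by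
    conv_lhs => rw [← hνr, ← map_comap_subtype_coe measurableSet_Ico]
    rw [Measure.map_map hγ.continuous.measurable measurable_subtype_coe]
    rfl
  rw [hmap, hemb.integral_map]
  have h2 : ∫ x : Ico a b, f ((Ico a b).domRestrict γ x) ∂(Measure.comap Subtype.val ν) =
      ∫ x in Ico a b, f (γ x) ∂ν :=
    integral_subtype_comap measurableSet_Ico (fun x => f (γ x))
  rw [h2, hνr, hν]
  have h3 : (fun t => ENNReal.ofReal ‖deriv γ t‖) = fun t => ((‖deriv γ t‖₊ : ℝ≥0) : ℝ≥0∞) := by
    ext t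
    exact ofReal_norm (deriv γ t)
  rw [h3, integral_withDensity_eq_integral_smul (hcont.measurable.nnnorm),
    intervalIntegral.integral_of_le hab, integral_Ico_eq_integral_Ioc]
  rfl

end Pool.Agent.MP099f24
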