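import Pool.Agent.Lib.MP_099f24_an.Moll

/-!
# Blow-up limits of mollifications (MP_099f24_an)
-/

set_option autoImplicit false

namespace Pool.Agent.MP099f24

open MeasureTheory Filter Topology Set Metric
open scoped ENNReal ContDiff

/-! ### Auxiliary: the mollifier applied to functions on the ball of radius two -/

theorem bl_moll_bound : ∃ M : ℝ, 0 ≤ M ∧ ∀ z, moll z ≤ M := by
  obtain ⟨M, hM⟩ := moll_hasCompactSupport.exists_bound_of_continuous moll_continuous
  refine ⟨|M|, abs_nonneg _, fun z => ?_⟩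
  have h1 := hM z
  rw [Real.norm_eq_abs, abs_of_nonneg (moll_nonneg z)] at h1
  exact h1.trans (le_abs_self M)

theorem bl_moll_integrable : Integrable moll :=
  moll_continuous.integrable_of_hasCompactSupport moll_hasCompactSupport

theorem bl_moll_zero {z : ℂ} (hz : 1 ≤ ‖z‖) : moll z = 0 := by
  by_contra h
  have h1 : z ∈ Function.support moll := h
  rw [moll_support, mem_ball_zero_iff] at h1
  exact absurd h1 (not_lt.2 hz)

/-- The mollification of the restriction of `f` to the ball of radius `2`. -/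
noncomputable def blMt (f : ℂ → ℝ) (z : ℂ) : ℝ :=
  ∫ x, moll (z - x) * (ball (0 : ℂ) 2).indicator f x

theorem bl_integrable_mul {f : ℂ → ℝ} (hf : IntegrableOn f (ball (0 : ℂ) 2)) (z : ℂ) :
    Integrable (fun x => moll (z - x) * (ball (0 : ℂ) 2).indicator f x) := by
  obtain ⟨M, hM0, hM⟩ := bl_moll_bound
  refine Integrable.bdd_mul (c := M) ?_ ?_ ?_
  · exact (integrable_indicator_iff measurableSet_ball).2 hf
  · exact (moll_continuous.comp (continuous_const.sub continuous_id)).aestronglyMeasurable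
  · refine Eventually.of_forall fun x => ?_
    rw [Real.norm_eq_abs, abs_of_nonneg (moll_nonneg _)]
    exact hM _

theorem bl_mt_continuous {f : ℂ → ℝ} (hf : IntegrableOn f (ball (0 : ℂ) 2)) :
    Continuous (blMt f) := by
  obtain ⟨M, hM0, hM⟩ := bl_moll_bound
  have hf' : Integrable ((ball (0 : ℂ) 2).indicator f) :=
    (integrable_indicator_iff measurableSet_ball).2 hf
  refine continuous_of_dominated (bound := fun x => M * ‖(ball (0 : ℂ) 2).indicator f x‖)
    (fun z => (bl_integrable_mul hf z).aestronglyMeasurable) ?_ ?_ ?_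
  · intro z
    refine Eventually.of_forall fun x => ?_
    rw [norm_mul, Real.norm_eq_abs, abs_of_nonneg (moll_nonneg _)]
    exact mul_le_mul_of_nonneg_right (hM _) (norm_nonneg _)
  · exact hf'.norm.const_mul M
  · refine Eventually.of_forall fun x => ?_
    exact (moll_continuous.comp (continuous_id.sub continuous_const)).mul continuous_const

theorem bl_mt_eq (f : ℂ → ℝ) {z : ℂ} (hz : ‖z‖ ≤ 1) :
    ∫ x, moll x * f (z - x) = blMt f z := by
  rw [blMt, ← integral_sub_left_eq_self (fun x => moll (z - x) *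
    (ball (0 : ℂ) 2).indicator f x) volume z]
  refine integral_congr_ae (Eventually.of_forall fun x => ?_)
  simp only [sub_sub_cancel]
  by_cases hx : 1 ≤ ‖x‖
  · simp [bl_moll_zero hx]
  · have h1 : z - x ∈ ball (0 : ℂ) 2 := by
      rw [mem_ball_zero_iff]
      calc ‖z - x‖ ≤ ‖z‖ + ‖x‖ := norm_sub_le _ _
        _ < 2 := by linarith [not_le.1 hx]
    rw [indicator_of_mem h1]

theorem bl_mt_sub {f g : ℂ → ℝ} (hf : IntegrableOn f (ball (0 : ℂ) 2))
    (hg : IntegrableOn g (ball (0 : ℂ) 2)) {M : ℝ} (hM0 : 0 ≤ M) (hM : ∀ z, moll z ≤ M) (z : ℂ) :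
    |blMt f z - blMt g z| ≤ M * ∫ x in ball (0 : ℂ) 2, |f x - g x| := by
  rw [blMt, blMt, ← integral_sub (bl_integrable_mul hf z) (bl_integrable_mul hg z),
    ← Real.norm_eq_abs]
  have hfg : IntegrableOn (fun x => |f x - g x|) (ball (0 : ℂ) 2) := (hf.sub hg).abs
  rw [← integral_indicator measurableSet_ball, ← integral_const_mul]
  refine norm_integral_le_of_norm_le ?_ ?_
  · exact ((integrable_indicator_iff measurableSet_ball).2 hfg).const_mul M
  · refine Eventually.of_forall fun x => ?_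
    rw [← mul_sub, norm_mul, Real.norm_eq_abs, abs_of_nonneg (moll_nonneg _)]
    refine mul_le_mul (hM _) ?_ (norm_nonneg _) hM0
    by_cases hx : x ∈ ball (0 : ℂ) 2
    · simp [indicator_of_mem hx]
    · simp [indicator_of_notMem hx]

/-! ### Scaling -/

theorem bl_scale (f : ℂ → ℝ) (y : ℂ) {ε : ℝ} (hε : 0 < ε) :
    ∫ z, f (y + ε • z) = (ε ^ 2)⁻¹ * ∫ x, f x := by
  rw [Measure.integral_comp_smul volume (fun x => f (y + x)) ε, Complex.finrank_real_complex,
    abs_of_nonneg (by positivity), smul_eq_mul, integral_add_left_eq_self]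

theorem bl_scale_integrable {f : ℂ → ℝ} (hf : Integrable f) (y : ℂ) {ε : ℝ} (hε : 0 < ε) :
    Integrable (fun z => f (y + ε • z)) := by
  have h1 : Integrable (fun x => f (y + x)) := hf.comp_add_left y
  exact (integrable_comp_smul_iff volume (fun x => f (y + x)) hε.ne').2 h1

theorem bl_scale_set (f : ℂ → ℝ) (y : ℂ) {ε : ℝ} (hε : 0 < ε) {A B : Set ℂ}
    (hA : MeasurableSet A) (hB : MeasurableSet B) (hAB : ∀ z, y + ε • z ∈ B ↔ z ∈ A) :
    ∫ z in A, f (y + ε • z) = (ε ^ 2)⁻¹ * ∫ x in B, f x := by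
  rw [← integral_indicator hA, ← integral_indicator hB, ← bl_scale _ y hε]
  refine integral_congr_ae (Eventually.of_forall fun z => ?_)
  by_cases hz : z ∈ A
  · simp only [indicator_of_mem hz, indicator_of_mem ((hAB z).2 hz)]
  · simp only [indicator_of_notMem hz, indicator_of_notMem (fun h => hz ((hAB z).1 h))]

theorem bl_scale_set_integrable {f : ℂ → ℝ} (y : ℂ) {ε : ℝ} (hε : 0 < ε) {A B : Set ℂ}
    (hA : MeasurableSet A) (hB : MeasurableSet B) (hAB : ∀ z, y + ε • z ∈ B ↔ z ∈ A)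
    (hf : IntegrableOn f B) :
    IntegrableOn (fun z => f (y + ε • z)) A := by
  rw [← integrable_indicator_iff hA]
  refine (bl_scale_integrable ((integrable_indicator_iff hB).2 hf) y hε).congr ?_
  refine Eventually.of_forall fun z => ?_
  by_cases hz : z ∈ A
  · simp only [indicator_of_mem hz, indicator_of_mem ((hAB z).2 hz)]
  · simp only [indicator_of_notMem hz, indicator_of_notMem (fun h => hz ((hAB z).1 h))]

theorem bl_mem_ball (y : ℂ) {ε : ℝ} (hε : 0 < ε) (z : ℂ) :
    y + ε • z ∈ ball y (2 * ε) ↔ z ∈ ball (0 : ℂ) 2 := by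
  rw [mem_ball, mem_ball_zero_iff, dist_eq_norm, add_sub_cancel_left, norm_smul, Real.norm_eq_abs,
    abs_of_pos hε, mul_comm 2 ε]
  exact mul_lt_mul_iff_right₀ hε

theorem bl_mem_halfBall (y ν : ℂ) {ε : ℝ} (hε : 0 < ε) (z : ℂ) :
    y + ε • z ∈ halfBall y ν (2 * ε) ↔ z ∈ halfBall 0 ν 2 := by
  rw [halfBall, halfBall, mem_inter_iff, mem_inter_iff, bl_mem_ball y hε, mem_ofPred_eq,
    mem_ofPred_eq, add_sub_cancel_left, sub_zero, real_inner_smul_left]
  rw [mul_pos_iff_of_pos_left hε]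

theorem bl_measurable_halfBall (y ν : ℂ) (r : ℝ) : MeasurableSet (halfBall y ν r) := by
  refine measurableSet_ball.inter ?_
  exact measurableSet_lt measurable_const
    ((continuous_id.sub continuous_const).inner continuous_const).measurable

/-- Nonnegative functions: the integral over a subset of a ball is at most the volume of the ball
times the average over the subset. -/
theorem bl_scaled_le_average {F : ℂ → ℝ} (hF : ∀ x, 0 ≤ F x) (y : ℂ) {ε : ℝ} (hε : 0 < ε)
    {A : Set ℂ} (hA : A ⊆ ball y (2 * ε)) :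
    (ε ^ 2)⁻¹ * ∫ x in A, F x ≤ 4 * Real.pi * ⨍ x in A, F x := by
  have hfin : volume A ≠ ⊤ := ((measure_mono hA).trans_lt measure_ball_lt_top).ne
  rw [← measure_smul_setAverage F hfin, smul_eq_mul, ← mul_assoc]
  have h0 : 0 ≤ ⨍ x in A, F x := by
    rw [setAverage_eq, smul_eq_mul]
    exact mul_nonneg (by positivity) (integral_nonneg hF)
  refine mul_le_mul_of_nonneg_right ?_ h0
  have h1 : volume.real A ≤ volume.real (ball y (2 * ε)) :=
    measureReal_mono hA measure_ball_lt_top.ne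
  have h2 : volume.real (ball y (2 * ε)) = 4 * Real.pi * ε ^ 2 := by
    rw [Measure.real, Complex.volume_ball, ENNReal.toReal_mul, ENNReal.toReal_pow,
      ENNReal.toReal_ofReal (by positivity)]
    simp only [ENNReal.coe_toReal, NNReal.coe_real_pi]
    ring
  rw [h2] at h1
  rw [inv_mul_le_iff₀ (by positivity)]
  linarith

/-! ### The general blow-up statements -/

theorem bl_mol_eq (w : ℂ → ℝ) (y : ℂ) (ε : ℝ) {z : ℂ} (hz : ‖z‖ ≤ 1) :
    mol w ε (y + ε • z) = blMt (fun x => w (y + ε • x)) z := by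
  rw [← bl_mt_eq _ hz, mol]
  refine integral_congr_ae (Eventually.of_forall fun x => ?_)
  simp only [smul_sub, add_sub_assoc]

theorem bl_uniform {w g : ℂ → ℝ} {y : ℂ} (hg : IntegrableOn g (ball (0 : ℂ) 2))
    (hI : ∀ᶠ ε : ℝ in 𝓝[>] 0, IntegrableOn (fun z => w (y + ε • z)) (ball (0 : ℂ) 2))
    (hlim : Tendsto (fun ε : ℝ => ∫ x in ball (0 : ℂ) 2, |w (y + ε • x) - g x|) (𝓝[>] 0) (𝓝 0)) :
    ∀ η > 0, ∀ᶠ ε : ℝ in 𝓝[>] 0, ∀ z : ℂ, ‖z‖ ≤ 1 → |mol w ε (y + ε • z) - blMt g z| < η := by
  intro η hη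
  obtain ⟨M, hM0, hM⟩ := bl_moll_bound
  have h1 := hlim.const_mul M
  rw [mul_zero] at h1
  filter_upwards [hI, h1.eventually_lt_const hη] with ε h2 h3 z hz
  rw [bl_mol_eq w y ε hz]
  exact (bl_mt_sub h2 hg hM0 hM z).trans_lt h3

theorem bl_blowup {w g : ℂ → ℝ} {y : ℂ} (hg : IntegrableOn g (ball (0 : ℂ) 2))
    (hI : ∀ᶠ ε : ℝ in 𝓝[>] 0, IntegrableOn (fun z => w (y + ε • z)) (ball (0 : ℂ) 2))
    (hlim : Tendsto (fun ε : ℝ => ∫ x in ball (0 : ℂ) 2, |w (y + ε • x) - g x|) (𝓝[>] 0) (𝓝 0))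
    {E : Type*} [NormedAddCommGroup E] [NormedSpace ℝ E] {H : ℂ → ℝ → E}
    (hH : Continuous (fun p : ℂ × ℝ => H p.1 p.2)) :
    Tendsto (fun ε : ℝ => ∫ z, moll z • H (y + ε • z) (mol w ε (y + ε • z))) (𝓝[>] 0)
      (𝓝 (∫ z, moll z • H y (blMt g z))) := by
  have hm := bl_mt_continuous hg
  obtain ⟨R, hR⟩ := (isCompact_closedBall (0 : ℂ) 1).exists_bound_of_continuousOn hm.continuousOn
  have hK : IsCompact ((closedBall y 1) ×ˢ (Icc (-(R + 1)) (R + 1)) : Set (ℂ × ℝ)) :=
    (isCompact_closedBall y 1).prod isCompact_Icc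
  have huc := Metric.uniformContinuousOn_iff.1
    (hK.uniformContinuousOn_of_continuous hH.continuousOn)
  rw [Metric.tendsto_nhds]
  intro η hη
  obtain ⟨δ, hδ, hδ'⟩ := huc (η / 2) (by positivity)
  have hδ1 : 0 < min δ 1 := lt_min hδ one_pos
  have hε : ∀ᶠ ε : ℝ in 𝓝[>] 0, ε ∈ Ioo (0 : ℝ) (min δ 1) := Ioo_mem_nhdsGT hδ1
  filter_upwards [hI, hε, bl_uniform hg hI hlim _ hδ1] with ε h1 h2 h3
  obtain ⟨hε0, hε1⟩ := h2
  have hint1 : Integrable (fun z => moll z • H (y + ε • z) (mol w ε (y + ε • z))) := by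
    have h4 : (fun z => moll z • H (y + ε • z) (mol w ε (y + ε • z))) =
        fun z => moll z • H (y + ε • z) (blMt (fun x => w (y + ε • x)) z) := by
      funext z
      by_cases hz : 1 ≤ ‖z‖
      · rw [bl_moll_zero hz, zero_smul, zero_smul]
      · rw [bl_mol_eq w y ε (not_le.1 hz).le]
    rw [h4]
    refine Continuous.integrable_of_hasCompactSupport ?_ moll_hasCompactSupport.smul_right
    refine moll_continuous.smul (hH.comp (Continuous.prodMk ?_ (bl_mt_continuous h1)))
    exact continuous_const.add (continuous_id.const_smul ε)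
  have hint2 : Integrable (fun z => moll z • H y (blMt g z)) := by
    refine Continuous.integrable_of_hasCompactSupport ?_ moll_hasCompactSupport.smul_right
    exact moll_continuous.smul (hH.comp (Continuous.prodMk continuous_const hm))
  rw [dist_eq_norm, ← integral_sub hint1 hint2]
  have hle : ‖∫ z, (moll z • H (y + ε • z) (mol w ε (y + ε • z)) - moll z • H y (blMt g z))‖ ≤
      ∫ z, moll z * (η / 2) := by
    refine norm_integral_le_of_norm_le (bl_moll_integrable.mul_const _) ?_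
    refine Eventually.of_forall fun z => ?_
    rw [← smul_sub, norm_smul, Real.norm_eq_abs, abs_of_nonneg (moll_nonneg z)]
    by_cases hz : 1 ≤ ‖z‖
    · rw [bl_moll_zero hz, zero_mul, zero_mul]
    · have hz' := (not_le.1 hz).le
      refine mul_le_mul_of_nonneg_left ?_ (moll_nonneg z)
      have h4 := h3 z hz'
      have h5 : |blMt g z| ≤ R := hR z (by rw [mem_closedBall_zero_iff]; exact hz')
      have h6 : ‖ε • z‖ ≤ ε := by
        rw [norm_smul, Real.norm_eq_abs, abs_of_pos hε0]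
        exact mul_le_of_le_one_right hε0.le hz'
      have h7 : dist (y + ε • z) y ≤ ε := by rw [dist_eq_norm, add_sub_cancel_left]; exact h6
      have h8 := hδ' (y + ε • z, mol w ε (y + ε • z)) ?_ (y, blMt g z) ?_ ?_
      · rw [dist_eq_norm] at h8
        exact h8.le
      · refine ⟨?_, ?_⟩
        · exact mem_closedBall.2 (h7.trans (hε1.le.trans (min_le_right _ _)))
        · have h9 := abs_le.1 h5
          have h10 := abs_lt.1 (h4.trans_le (min_le_right _ _))
          exact ⟨by simp only; linarith, by simp only; linarith⟩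
      · refine ⟨mem_closedBall_self zero_le_one, ?_⟩
        have h9 := abs_le.1 h5
        exact ⟨by simp only; linarith, by simp only; linarith⟩
      · rw [Prod.dist_eq]
        refine max_lt ?_ ?_
        · exact h7.trans_lt (hε1.trans_le (min_le_left _ _))
        · rw [Real.dist_eq]
          exact h4.trans_le (min_le_left _ _)
  rw [integral_mul_const, moll_integral, one_mul] at hle
  linarith

/-! ### Approximate limit points -/

theorem bl_small {U : Set ℂ} {y : ℂ} (hU : U ∈ 𝓝 y) :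
    ∀ᶠ ε : ℝ in 𝓝[>] 0, 0 < ε ∧ ball y (2 * ε) ⊆ U := by
  obtain ⟨r, hr, hrU⟩ := Metric.mem_nhds_iff.1 hU
  have h1 : ∀ᶠ ε : ℝ in 𝓝[>] 0, ε ∈ Ioo (0 : ℝ) (r / 2) := Ioo_mem_nhdsGT (by positivity)
  filter_upwards [h1] with ε h2
  refine ⟨h2.1, (ball_subset_ball ?_).trans hrU⟩
  linarith [h2.2]

theorem bl_two_mul : Tendsto (fun ε : ℝ => 2 * ε) (𝓝[>] 0) (𝓝[>] 0) := by
  refine tendsto_nhdsWithin_iff.2 ⟨?_, ?_⟩
  · have h1 : Tendsto (fun ε : ℝ => 2 * ε) (𝓝 0) (𝓝 (2 * 0)) := tendsto_id.const_mul 2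
    rw [mul_zero] at h1
    exact h1.mono_left nhdsWithin_le_nhds
  · filter_upwards [self_mem_nhdsWithin] with ε hε
    have : (0 : ℝ) < ε := hε
    exact mem_Ioi.2 (by positivity)

theorem bl_integrable {w : ℂ → ℝ} {y : ℂ} {U : Set ℂ} (hU : U ∈ 𝓝 y) (hw : IntegrableOn w U) :
    ∀ᶠ ε : ℝ in 𝓝[>] 0, IntegrableOn (fun z => w (y + ε • z)) (ball (0 : ℂ) 2) := by
  filter_upwards [bl_small hU] with ε h
  exact bl_scale_set_integrable y h.1 measurableSet_ball measurableSet_ball (bl_mem_ball y h.1)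
    (hw.mono_set h.2)

theorem bl_lim_approxLim {w : ℂ → ℝ} {y : ℂ} {c : ℝ} (h : IsApproxLim w y c) :
    Tendsto (fun ε : ℝ => ∫ x in ball (0 : ℂ) 2, |w (y + ε • x) - (fun _ => c) x|)
      (𝓝[>] 0) (𝓝 0) := by
  have h1 : Tendsto (fun ε : ℝ => 4 * Real.pi * ⨍ x in ball y (2 * ε), |w x - c|)
      (𝓝[>] 0) (𝓝 (4 * Real.pi * 0)) := (h.comp bl_two_mul).const_mul _
  rw [mul_zero] at h1
  refine squeeze_zero' ?_ ?_ h1
  · exact Eventually.of_forall fun ε => integral_nonneg fun x => abs_nonneg _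
  · filter_upwards [self_mem_nhdsWithin] with ε hε
    have hε' : (0 : ℝ) < ε := hε
    rw [bl_scale_set (fun x => |w x - c|) y hε' measurableSet_ball measurableSet_ball
      (bl_mem_ball y hε')]
    exact bl_scaled_le_average (fun x => abs_nonneg _) y hε' le_rfl

theorem bl_const_integrable (c : ℝ) : IntegrableOn (fun _ : ℂ => c) (ball (0 : ℂ) 2) :=
  integrableOn_const (measure_ball_lt_top.ne)

theorem bl_mt_const (c : ℝ) {z : ℂ} (hz : ‖z‖ ≤ 1) : blMt (fun _ => c) z = c := by
  rw [← bl_mt_eq _ hz, integral_mul_const, moll_integral, one_mul]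

/-- At an approximate limit point the mollifications converge, uniformly on small balls. -/
theorem mol_tendsto_of_approxLim {w : ℂ → ℝ} {y : ℂ} {c : ℝ} {U : Set ℂ} (hU : U ∈ 𝓝 y)
    (hw : IntegrableOn w U) (h : IsApproxLim w y c) :
    ∀ η > 0, ∀ᶠ ε : ℝ in 𝓝[>] 0, ∀ z : ℂ, ‖z‖ ≤ 1 → |mol w ε (y + ε • z) - c| < η := by
  intro η hη
  filter_upwards [bl_uniform (bl_const_integrable c) (bl_integrable hU hw) (bl_lim_approxLim h)
    η hη] with ε h1 z hz
  have h2 := h1 z hz
  rwa [bl_mt_const c hz] at h2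

/-- limit of the blow-up integrals at an approximate limit point -/
theorem blowup_approxLim {w : ℂ → ℝ} {y : ℂ} {c : ℝ} {U : Set ℂ} (hU : U ∈ 𝓝 y)
    (hw : IntegrableOn w U) (h : IsApproxLim w y c) {E : Type*} [NormedAddCommGroup E]
    [NormedSpace ℝ E] [CompleteSpace E] {H : ℂ → ℝ → E}
    (hH : Continuous (fun p : ℂ × ℝ => H p.1 p.2)) :
    Tendsto (fun ε : ℝ => ∫ z, moll z • H (y + ε • z) (mol w ε (y + ε • z))) (𝓝[>] 0)
      (𝓝 (H y c)) := by
  have h1 := bl_blowup (bl_const_integrable c) (bl_integrable hU hw) (bl_lim_approxLim h) hH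
  have h2 : ∫ z, moll z • H y (blMt (fun _ => c) z) = H y c := by
    have h3 : ∫ z, moll z • H y (blMt (fun _ => c) z) = ∫ z, moll z • H y c := by
      refine integral_congr_ae (Eventually.of_forall fun z => ?_)
      by_cases hz : 1 ≤ ‖z‖
      · simp only [bl_moll_zero hz, zero_smul]
      · simp only [bl_mt_const c (not_le.1 hz).le]
    rw [h3, integral_smul_const, moll_integral, one_smul]
  rwa [h2] at h1

/-! ### Jump points -/

/-- The step function. -/
noncomputable def blStep (a b : ℝ) (ν : ℂ) (x : ℂ) : ℝ := by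
  classical
  exact if 0 < inner ℝ x ν then a else b

theorem bl_step_of_pos {a b : ℝ} {ν x : ℂ} (h : 0 < inner ℝ x ν) : blStep a b ν x = a := by
  rw [blStep, if_pos h]

theorem bl_step_of_neg {a b : ℝ} {ν x : ℂ} (h : ¬ 0 < inner ℝ x ν) : blStep a b ν x = b := by
  rw [blStep, if_neg h]

theorem bl_measurable_pos (ν z : ℂ) : MeasurableSet {x : ℂ | 0 < inner ℝ (z - x) ν} :=
  measurableSet_lt measurable_const
    ((continuous_const.sub continuous_id).inner continuous_const).measurable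

theorem bl_measurable_pos' (ν : ℂ) : MeasurableSet {x : ℂ | 0 < inner ℝ x ν} :=
  measurableSet_lt measurable_const (continuous_id.inner continuous_const).measurable

theorem bl_step_integrable (a b : ℝ) (ν : ℂ) : IntegrableOn (blStep a b ν) (ball (0 : ℂ) 2) := by
  have h1 : Measurable (blStep a b ν) := by
    have : blStep a b ν = fun x => {x : ℂ | 0 < inner ℝ x ν}.indicator (fun _ => a - b) x + b := by
      funext x
      by_cases hx : 0 < inner ℝ x ν
      · rw [bl_step_of_pos hx, indicator_of_mem (show x ∈ {x : ℂ | 0 < inner ℝ x ν} from hx)]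
        ring
      · rw [bl_step_of_neg hx, indicator_of_notMem (show x ∉ {x : ℂ | 0 < inner ℝ x ν} from hx)]
        ring
    rw [this]
    exact (measurable_const.indicator (bl_measurable_pos' ν)).add_const b
  refine Integrable.mono' (bl_const_integrable (|a| + |b|)) h1.aestronglyMeasurable ?_
  refine Eventually.of_forall fun x => ?_
  by_cases hx : 0 < inner ℝ x ν
  · rw [bl_step_of_pos hx, Real.norm_eq_abs]
    linarith [abs_nonneg b]
  · rw [bl_step_of_neg hx, Real.norm_eq_abs]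
    linarith [abs_nonneg a]

theorem bl_mt_step (a b : ℝ) (ν : ℂ) {z : ℂ} (hz : ‖z‖ ≤ 1) :
    blMt (blStep a b ν) z = b + (a - b) * halfMol ν z := by
  rw [← bl_mt_eq _ hz, halfMol, ← integral_indicator (bl_measurable_pos ν z), ← integral_const_mul]
  have h1 : ∫ x, moll x * b = b := by rw [integral_mul_const, moll_integral, one_mul]
  have h2 := integral_add (bl_moll_integrable.mul_const b)
    ((bl_moll_integrable.indicator (bl_measurable_pos ν z)).const_mul (a - b))
  rw [h1] at h2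
  rw [← h2]
  refine integral_congr_ae (Eventually.of_forall fun x => ?_)
  by_cases hx : 0 < inner ℝ (z - x) ν
  · simp only [bl_step_of_pos hx]
    rw [indicator_of_mem (show x ∈ {x : ℂ | 0 < inner ℝ (z - x) ν} from hx)]
    ring
  · simp only [bl_step_of_neg hx]
    rw [indicator_of_notMem (show x ∉ {x : ℂ | 0 < inner ℝ (z - x) ν} from hx)]
    ring

theorem bl_line {ν : ℂ} (hν : ‖ν‖ = 1) : ∀ᵐ x : ℂ, inner ℝ x ν ≠ 0 := by
  have h1 : volume ((LinearMap.ker (innerSL ℝ ν).toLinearMap : Submodule ℝ ℂ) : Set ℂ) = 0 := by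
    refine Measure.addHaar_submodule volume _ ?_
    intro h
    have h2 : ν ∈ LinearMap.ker (innerSL ℝ ν).toLinearMap := by rw [h]; trivial
    have h3 : inner ℝ ν ν = (0 : ℝ) := h2
    rw [real_inner_self_eq_norm_sq, hν] at h3
    norm_num at h3
  rw [ae_iff]
  refine measure_mono_null ?_ h1
  intro x hx
  have h2 : ¬ inner ℝ x ν ≠ 0 := hx
  rw [not_not] at h2
  show inner ℝ ν x = (0 : ℝ)
  rw [real_inner_comm]
  exact h2

theorem bl_split {ν : ℂ} (hν : ‖ν‖ = 1) {G : ℂ → ℝ} (hG : IntegrableOn G (ball (0 : ℂ) 2)) :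
    ∫ x in ball (0 : ℂ) 2, G x =
      (∫ x in halfBall 0 ν 2, G x) + ∫ x in halfBall 0 (-ν) 2, G x := by
  have h1 : (ball (0 : ℂ) 2 : Set ℂ) =ᵐ[volume] (halfBall 0 ν 2 ∪ halfBall 0 (-ν) 2 : Set ℂ) := by
    filter_upwards [bl_line hν] with x hx
    refine propext ⟨fun h => ?_, fun h => ?_⟩
    · rcases lt_or_gt_of_ne hx with h2 | h2
      · refine Or.inr ⟨h, ?_⟩
        show 0 < inner ℝ (x - 0) (-ν)
        rw [sub_zero, inner_neg_right]
        linarith
      · refine Or.inl ⟨h, ?_⟩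
        show 0 < inner ℝ (x - 0) ν
        rw [sub_zero]
        exact h2
    · rcases h with h | h
      · exact h.1
      · exact h.1
  have h2 : Disjoint (halfBall 0 ν 2) (halfBall 0 (-ν) 2) := by
    rw [Set.disjoint_left]
    rintro x ⟨-, hx⟩ ⟨-, hx'⟩
    have hx1 : 0 < inner ℝ (x - 0) ν := hx
    have hx2 : 0 < inner ℝ (x - 0) (-ν) := hx'
    rw [inner_neg_right] at hx2
    linarith
  rw [setIntegral_congr_set h1, setIntegral_union h2 (bl_measurable_halfBall _ _ _)
    (hG.mono_set inter_subset_left) (hG.mono_set inter_subset_left)]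

theorem bl_lim_jump {w : ℂ → ℝ} {y : ℂ} {a b : ℝ} {ν : ℂ} {U : Set ℂ} (hU : U ∈ 𝓝 y)
    (hw : IntegrableOn w U) (h : IsJump w y a b ν) :
    Tendsto (fun ε : ℝ => ∫ x in ball (0 : ℂ) 2, |w (y + ε • x) - blStep a b ν x|)
      (𝓝[>] 0) (𝓝 0) := by
  obtain ⟨hν, -, ha, hb⟩ := h
  have h1 : Tendsto (fun ε : ℝ => 4 * Real.pi * (⨍ x in halfBall y ν (2 * ε), |w x - a|) +
      4 * Real.pi * ⨍ x in halfBall y (-ν) (2 * ε), |w x - b|)
      (𝓝[>] 0) (𝓝 (4 * Real.pi * 0 + 4 * Real.pi * 0)) :=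
    ((ha.comp bl_two_mul).const_mul _).add ((hb.comp bl_two_mul).const_mul _)
  rw [mul_zero, add_zero] at h1
  refine squeeze_zero' ?_ ?_ h1
  · exact Eventually.of_forall fun ε => integral_nonneg fun x => abs_nonneg _
  · filter_upwards [self_mem_nhdsWithin, bl_integrable hU hw] with ε hε hint
    have hε' : (0 : ℝ) < ε := hε
    have hint2 : IntegrableOn (fun x => |w (y + ε • x) - blStep a b ν x|) (ball (0 : ℂ) 2) :=
      (hint.sub (bl_step_integrable a b ν)).abs
    rw [bl_split hν hint2]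
    refine add_le_add ?_ ?_
    · have e1 : ∫ x in halfBall 0 ν 2, |w (y + ε • x) - blStep a b ν x| =
          ∫ x in halfBall 0 ν 2, |w (y + ε • x) - a| := by
        refine setIntegral_congr_fun (bl_measurable_halfBall _ _ _) fun x hx => ?_
        have h2 : 0 < inner ℝ (x - 0) ν := hx.2
        rw [sub_zero] at h2
        simp only [bl_step_of_pos h2]
      rw [e1, bl_scale_set (fun x => |w x - a|) y hε' (bl_measurable_halfBall _ _ _)
        (bl_measurable_halfBall _ _ _) (bl_mem_halfBall y ν hε')]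
      exact bl_scaled_le_average (fun x => abs_nonneg _) y hε' inter_subset_left
    · have e1 : ∫ x in halfBall 0 (-ν) 2, |w (y + ε • x) - blStep a b ν x| =
          ∫ x in halfBall 0 (-ν) 2, |w (y + ε • x) - b| := by
        refine setIntegral_congr_fun (bl_measurable_halfBall _ _ _) fun x hx => ?_
        have h2 : 0 < inner ℝ (x - 0) (-ν) := hx.2
        rw [sub_zero, inner_neg_right] at h2
        have h3 : ¬ 0 < inner ℝ x ν := by linarith
        simp only [bl_step_of_neg h3]
      rw [e1, bl_scale_set (fun x => |w x - b|) y hε' (bl_measurable_halfBall _ _ _)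
        (bl_measurable_halfBall _ _ _) (bl_mem_halfBall y (-ν) hε')]
      exact bl_scaled_le_average (fun x => abs_nonneg _) y hε' inter_subset_left

/-- At an approximate jump point the rescaled mollifications converge uniformly to the
mollification of the step function. -/
theorem mol_tendsto_of_jump {w : ℂ → ℝ} {y : ℂ} {a b : ℝ} {ν : ℂ} {U : Set ℂ} (hU : U ∈ 𝓝 y)
    (hw : IntegrableOn w U) (h : IsJump w y a b ν) :
    ∀ η > 0, ∀ᶠ ε : ℝ in 𝓝[>] 0, ∀ z : ℂ, ‖z‖ ≤ 1 →
      |mol w ε (y + ε • z) - (b + (a - b) * halfMol ν z)| < η := by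
  intro η hη
  filter_upwards [bl_uniform (bl_step_integrable a b ν) (bl_integrable hU hw)
    (bl_lim_jump hU hw h) η hη] with ε h1 z hz
  have h2 := h1 z hz
  rwa [bl_mt_step a b ν hz] at h2

/-- limit of the blow-up integrals at an approximate jump point -/
theorem blowup_jump {w : ℂ → ℝ} {y : ℂ} {a b : ℝ} {ν : ℂ} {U : Set ℂ} (hU : U ∈ 𝓝 y)
    (hw : IntegrableOn w U) (h : IsJump w y a b ν) {E : Type*} [NormedAddCommGroup E]
    [NormedSpace ℝ E] [CompleteSpace E] {H : ℂ → ℝ → E}
    (hH : Continuous (fun p : ℂ × ℝ => H p.1 p.2)) :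
    Tendsto (fun ε : ℝ => ∫ z, moll z • H (y + ε • z) (mol w ε (y + ε • z))) (𝓝[>] 0)
      (𝓝 (∫ z, moll z • H y (b + (a - b) * halfMol ν z))) := by
  have h1 := bl_blowup (bl_step_integrable a b ν) (bl_integrable hU hw) (bl_lim_jump hU hw h) hH
  have h2 : ∫ z, moll z • H y (blMt (blStep a b ν) z) =
      ∫ z, moll z • H y (b + (a - b) * halfMol ν z) := by
    refine integral_congr_ae (Eventually.of_forall fun z => ?_)
    by_cases hz : 1 ≤ ‖z‖
    · simp only [bl_moll_zero hz, zero_smul]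
    · simp only [bl_mt_step a b ν (not_le.1 hz).le]
  rwa [h2] at h1

end Pool.Agent.MP099f24
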