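import Pool.Agent.Lib.MP_099f24_an.Model

set_option autoImplicit false

/-!
# Regularity, `t`-derivative and divergence of the explicit calibration (MP_099f24_an)
-/

namespace Pool.Agent.MP099f24

open MeasureTheory Filter Topology Set Metric
open scoped ENNReal ContDiff

/-! ### Truncations -/

theorem clam_hasDerivAt {a b : ℝ} (hab : a < b) {p p' : ℝ → ℝ}
    (hp : ∀ y, HasDerivAt p (p' y) y) (ha : p' a = 0) (hb : p' b = 0) (x : ℝ) :
    HasDerivAt (fun x => p (max a (min x b))) (p' (max a (min x b))) x := by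
  have e1 : ∀ y, y ≤ a → max a (min y b) = a := fun y hy =>
    max_eq_left ((min_le_left y b).trans hy)
  have e2 : ∀ y, a ≤ y → y ≤ b → max a (min y b) = y := fun y h1 h2 => by
    rw [min_eq_left h2, max_eq_right h1]
  have e3 : ∀ y, b ≤ y → max a (min y b) = b := fun y hy => by
    rw [min_eq_right hy, max_eq_right hab.le]
  rcases lt_trichotomy x a with h | h | h
  · rw [e1 x h.le, ha]
    refine (hasDerivAt_const x (p a)).congr_of_eventuallyEq ?_
    filter_upwards [Iio_mem_nhds h] with y hy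
    rw [e1 y (le_of_lt hy)]
  · subst h
    rw [e1 x le_rfl, ha]
    have h1 : HasDerivWithinAt (fun y => p (max x (min y b))) 0 (Iic x) x :=
      (hasDerivWithinAt_const x (Iic x) (p x)).congr (fun y hy => by rw [e1 y hy])
        (by rw [e1 x le_rfl])
    have h2 : HasDerivWithinAt (fun y => p (max x (min y b))) 0 (Icc x b) x := by
      have := (hp x).hasDerivWithinAt (s := Icc x b)
      rw [ha] at this
      exact this.congr (fun y hy => by rw [e2 y hy.1 hy.2]) (by rw [e1 x le_rfl])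
    have h3 := h1.union h2
    refine h3.hasDerivAt ?_
    rw [Iic_union_Icc_eq_Iic hab.le]
    exact Iic_mem_nhds hab
  · rcases lt_trichotomy x b with h' | h' | h'
    · rw [e2 x h.le h'.le]
      refine (hp x).congr_of_eventuallyEq ?_
      filter_upwards [Ioo_mem_nhds h h'] with y hy
      rw [e2 y hy.1.le hy.2.le]
    · subst h'
      rw [e3 x le_rfl, hb]
      have h1 : HasDerivWithinAt (fun y => p (max a (min y x))) 0 (Ici x) x :=
        (hasDerivWithinAt_const x (Ici x) (p x)).congr (fun y hy => by rw [e3 y hy])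
          (by rw [e3 x le_rfl])
      have h2 : HasDerivWithinAt (fun y => p (max a (min y x))) 0 (Icc a x) x := by
        have := (hp x).hasDerivWithinAt (s := Icc a x)
        rw [hb] at this
        exact this.congr (fun y hy => by rw [e2 y hy.1 hy.2]) (by rw [e3 x le_rfl])
      have h3 := h2.union h1
      refine h3.hasDerivAt ?_
      rw [Icc_union_Ici_eq_Ici hab.le]
      exact Ici_mem_nhds hab
    · rw [e3 x h'.le, hb]
      refine (hasDerivAt_const x (p b)).congr_of_eventuallyEq ?_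
      filter_upwards [Ioi_mem_nhds h'] with y hy
      rw [e3 y (le_of_lt hy)]

theorem cl_continuous : Continuous cl := by
  unfold cl
  fun_prop

theorem cl₀_continuous : Continuous cl₀ := by
  unfold cl₀
  fun_prop

theorem fa_hasDerivAt (x : ℝ) : HasDerivAt fa (1 - cl x ^ 2) x := by
  have h := clam_hasDerivAt (a := -1) (b := 1) (by norm_num) (p := fun y => y - y ^ 3 / 3)
    (p' := fun y => 1 - y ^ 2) (fun y => by
      have h1 := (hasDerivAt_id y).sub (((hasDerivAt_id y).pow 3).div_const 3)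
      refine h1.congr_deriv ?_
      simp) (by norm_num) (by norm_num) x
  exact h

theorem fB_hasDerivAt (x : ℝ) : HasDerivAt fB (4 * cl x - 4 * cl x ^ 3) x := by
  have h := clam_hasDerivAt (a := -1) (b := 1) (by norm_num) (p := fun y => 2 * y ^ 2 - y ^ 4)
    (p' := fun y => 4 * y - 4 * y ^ 3) (fun y => by
      have h1 := (((hasDerivAt_id y).pow 2).const_mul 2).sub ((hasDerivAt_id y).pow 4)
      refine h1.congr_deriv ?_
      simp
      ring) (by norm_num) (by norm_num) x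
  exact h

theorem Lam_hasDerivAt (t : ℝ) :
    HasDerivAt Lam (cl₀ ((t + 7) / 4) - cl₀ ((t + 7) / 4) ^ 3) t := by
  have h := clam_hasDerivAt (a := 0) (b := 1) (by norm_num) (p := fun y => 2 * y ^ 2 - y ^ 4)
    (p' := fun y => 4 * y - 4 * y ^ 3) (fun y => by
      have h1 := (((hasDerivAt_id y).pow 2).const_mul 2).sub ((hasDerivAt_id y).pow 4)
      refine h1.congr_deriv ?_
      simp
      ring) (by norm_num) (by norm_num) ((t + 7) / 4)
  have h2 : HasDerivAt (fun s : ℝ => (s + 7) / 4) (1 / 4) t :=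
    ((hasDerivAt_id t).add_const 7).div_const 4
  have h3 := h.comp t h2
  refine h3.congr_deriv ?_
  change (4 * cl₀ ((t + 7) / 4) - 4 * cl₀ ((t + 7) / 4) ^ 3) * (1 / 4) = _
  ring

theorem fa_contDiff : ContDiff ℝ 1 fa := by
  rw [contDiff_one_iff_deriv]
  refine ⟨fun x => (fa_hasDerivAt x).differentiableAt, ?_⟩
  have : deriv fa = fun x => 1 - cl x ^ 2 := funext fun x => (fa_hasDerivAt x).deriv
  rw [this]
  have := cl_continuous
  fun_prop

theorem fB_contDiff : ContDiff ℝ 1 fB := by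
  rw [contDiff_one_iff_deriv]
  refine ⟨fun x => (fB_hasDerivAt x).differentiableAt, ?_⟩
  have : deriv fB = fun x => 4 * cl x - 4 * cl x ^ 3 := funext fun x => (fB_hasDerivAt x).deriv
  rw [this]
  have := cl_continuous
  fun_prop

theorem Lam_contDiff : ContDiff ℝ 1 Lam := by
  rw [contDiff_one_iff_deriv]
  refine ⟨fun x => (Lam_hasDerivAt x).differentiableAt, ?_⟩
  have : deriv Lam = fun t => cl₀ ((t + 7) / 4) - cl₀ ((t + 7) / 4) ^ 3 :=
    funext fun x => (Lam_hasDerivAt x).deriv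
  rw [this]
  have h1 := cl₀_continuous
  have h2 : Continuous (fun t : ℝ => cl₀ ((t + 7) / 4)) := h1.comp (by fun_prop)
  exact h2.sub (h2.pow 3)

/-! ### Smoothness of the data -/

theorem re_contDiff : ContDiff ℝ ∞ (fun ζ : ℂ => ζ.re) := Complex.reCLM.contDiff

theorem im_contDiff : ContDiff ℝ ∞ (fun ζ : ℂ => ζ.im) := Complex.imCLM.contDiff

theorem ofReal_contDiff : ContDiff ℝ ∞ (fun x : ℝ => (x : ℂ)) := Complex.ofRealCLM.contDiff

theorem ut_contDiff : ContDiff ℝ ∞ ut := by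
  unfold ut
  exact (contDiff_const.mul (Real.contDiff_cosh.comp re_contDiff)).mul
    (Real.contDiff_cos.comp im_contDiff)

theorem gt_eq (ζ : ℂ) : gt ζ = ((2 * Real.sinh ζ.re * Real.cos ζ.im : ℝ) : ℂ) +
    ((-(2 * Real.cosh ζ.re * Real.sin ζ.im) : ℝ) : ℂ) * Complex.I := by
  rw [gt, Complex.mk_eq_add_mul_I]

theorem gt_contDiff : ContDiff ℝ ∞ gt := by
  have : gt = fun ζ : ℂ => ((2 * Real.sinh ζ.re * Real.cos ζ.im : ℝ) : ℂ) +
    ((-(2 * Real.cosh ζ.re * Real.sin ζ.im) : ℝ) : ℂ) * Complex.I := funext gt_eq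
  rw [this]
  have h1 : ContDiff ℝ ∞ (fun ζ : ℂ => 2 * Real.sinh ζ.re * Real.cos ζ.im) :=
    (contDiff_const.mul (Real.contDiff_sinh.comp re_contDiff)).mul
      (Real.contDiff_cos.comp im_contDiff)
  have h2 : ContDiff ℝ ∞ (fun ζ : ℂ => -(2 * Real.cosh ζ.re * Real.sin ζ.im)) :=
    ((contDiff_const.mul (Real.contDiff_cosh.comp re_contDiff)).mul
      (Real.contDiff_sin.comp im_contDiff)).neg
  exact (ofReal_contDiff.comp h1).add ((ofReal_contDiff.comp h2).mul contDiff_const)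

theorem WW_contDiff : ContDiff ℝ ∞ WW := by
  unfold WW
  exact (contDiff_const.add (Real.contDiff_sinh.comp (contDiff_const.mul re_contDiff))).add
    ((contDiff_const.mul (contDiff_const.sub re_contDiff)).mul
      (Real.contDiff_cos.comp (contDiff_const.mul im_contDiff)))

theorem bb_pos' {ζ : ℂ} (hζ : ζ ∈ strip del) : 0 < 1 / 20 - 16 * ζ.re := by
  have h : |ζ.re| < del := hζ
  have h2 := (abs_lt.mp h).2
  unfold del at h2
  linarith

theorem bb_contDiffOn : ContDiffOn ℝ ∞ (fun ζ : ℂ => bb ζ.re) (strip del) := by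
  unfold bb
  refine ContDiffOn.inv ?_ ?_
  · exact (contDiff_const.sub (contDiff_const.mul re_contDiff)).contDiffOn
  · intro ζ hζ
    exact (bb_pos' hζ).ne'

theorem isOpen_strip (r : ℝ) : IsOpen (strip r) :=
  isOpen_lt (Complex.continuous_re.abs) continuous_const

theorem contDiffOn_Psis : ContDiffOn ℝ 1 (fun p : ℂ × ℝ => Psis p.1 p.2) (strip del ×ˢ univ) := by
  have hx : ContDiff ℝ 1 (fun p : ℂ × ℝ => 16 * (p.2 - ut p.1)) :=
    contDiff_const.mul (contDiff_snd.sub ((ut_contDiff.of_le (by exact_mod_cast le_top)).comp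
      contDiff_fst))
  have hfa : ContDiff ℝ 1 (fun p : ℂ × ℝ => ((fa (16 * (p.2 - ut p.1)) / 8 : ℝ) : ℂ)) :=
    (ofReal_contDiff.of_le (by exact_mod_cast le_top)).comp
      ((fa_contDiff.comp hx).div_const 8)
  have hfB : ContDiff ℝ 1 (fun p : ℂ × ℝ => fB (16 * (p.2 - ut p.1))) := fB_contDiff.comp hx
  have hbb : ContDiffOn ℝ 1 (fun p : ℂ × ℝ => bb p.1.re) (strip del ×ˢ univ) :=
    (bb_contDiffOn.of_le (by exact_mod_cast le_top)).comp contDiff_fst.contDiffOn
      (fun p hp => hp.1)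
  have hL : ContDiff ℝ 1 (fun p : ℂ × ℝ => ((Lam p.2 : ℝ) : ℂ)) :=
    (ofReal_contDiff.of_le (by exact_mod_cast le_top)).comp (Lam_contDiff.comp contDiff_snd)
  have hW : ContDiff ℝ 1 (fun p : ℂ × ℝ => ((WW p.1 : ℝ) : ℂ)) :=
    (ofReal_contDiff.of_le (by exact_mod_cast le_top)).comp
      ((WW_contDiff.of_le (by exact_mod_cast le_top)).comp contDiff_fst)
  have hg : ContDiff ℝ 1 (fun p : ℂ × ℝ => gt p.1) :=
    (gt_contDiff.of_le (by exact_mod_cast le_top)).comp contDiff_fst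
  have h3 : ContDiffOn ℝ 1 (fun p : ℂ × ℝ =>
      ((fB (16 * (p.2 - ut p.1)) * bb p.1.re / 256 : ℝ) : ℂ)) (strip del ×ˢ univ) :=
    (ofReal_contDiff.of_le (by exact_mod_cast le_top)).comp_contDiffOn
      ((hfB.contDiffOn.mul hbb).div_const 256)
  unfold Psis VV
  exact hL.contDiffOn.mul ((hW.contDiffOn.add (hfa.contDiffOn.mul hg.contDiffOn)).sub h3)

theorem derivt_Psis {ζ : ℂ} (t : ℝ) :
    derivt Psis ζ t = ((deriv Lam t : ℝ) : ℂ) * VV ζ (16 * (t - ut ζ)) +
      ((Lam t : ℝ) : ℂ) * (((2 * (1 - cl (16 * (t - ut ζ)) ^ 2) : ℝ) : ℂ) * gt ζ -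
        ((4 * cl (16 * (t - ut ζ)) - 4 * cl (16 * (t - ut ζ)) ^ 3) * bb ζ.re / 16 : ℝ)) := by
  have hx : HasDerivAt (fun s : ℝ => 16 * (s - ut ζ)) 16 t := by
    simpa using ((hasDerivAt_id t).sub_const (ut ζ)).const_mul 16
  have hfa : HasDerivAt (fun s : ℝ => fa (16 * (s - ut ζ)) / 8)
      ((1 - cl (16 * (t - ut ζ)) ^ 2) * 16 / 8) t :=
    ((fa_hasDerivAt _).comp t hx).div_const 8
  have hfB : HasDerivAt (fun s : ℝ => fB (16 * (s - ut ζ)) * bb ζ.re / 256)
      ((4 * cl (16 * (t - ut ζ)) - 4 * cl (16 * (t - ut ζ)) ^ 3) * 16 * bb ζ.re / 256) t :=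
    (((fB_hasDerivAt _).comp t hx).mul_const (bb ζ.re)).div_const 256
  have hL : HasDerivAt (fun s : ℝ => ((Lam s : ℝ) : ℂ)) ((deriv Lam t : ℝ) : ℂ) t :=
    ((Lam_hasDerivAt t).differentiableAt.hasDerivAt).ofReal_comp
  have h1 := (((hasDerivAt_const t (WW ζ : ℂ)).add (hfa.ofReal_comp.mul_const (gt ζ))).sub
    hfB.ofReal_comp)
  have h2 := hL.mul h1
  have h3 : HasDerivAt (fun s => Psis ζ s) _ t := h2
  rw [derivt, h3.deriv]
  simp only [VV, Pi.add_apply, Pi.sub_apply]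
  push_cast
  ring

/-! ### The divergence -/

theorem Psis_re (ζ : ℂ) (t : ℝ) : (Psis ζ t).re = Lam t * (WW ζ +
    fa (16 * (t - ut ζ)) / 8 * (2 * Real.sinh ζ.re * Real.cos ζ.im) -
      fB (16 * (t - ut ζ)) * bb ζ.re / 256) := by
  rw [Psis, VV, Complex.re_ofReal_mul, Complex.sub_re, Complex.add_re, Complex.re_ofReal_mul,
    Complex.ofReal_re, Complex.ofReal_re]
  rfl

theorem Psis_im (ζ : ℂ) (t : ℝ) : (Psis ζ t).im = Lam t * (
    fa (16 * (t - ut ζ)) / 8 * (-(2 * Real.cosh ζ.re * Real.sin ζ.im))) := by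
  rw [Psis, VV, Complex.im_ofReal_mul, Complex.sub_im, Complex.add_im, Complex.im_ofReal_mul,
    Complex.ofReal_im, Complex.ofReal_im, zero_add, sub_zero]
  rfl

theorem norm_gt_sq (ζ : ℂ) :
    ‖gt ζ‖ ^ 2 = 2 * Real.cosh (2 * ζ.re) - 2 * Real.cos (2 * ζ.im) := by
  rw [← Complex.normSq_eq_norm_sq, Complex.normSq_apply, gt]
  simp only
  rw [Real.cosh_two_mul, Real.cos_two_mul]
  have h1 := Real.cosh_sq ζ.re
  have h2 := Real.sin_sq_add_cos_sq ζ.im
  have h3 : Real.sin ζ.im ^ 2 = 1 - Real.cos ζ.im ^ 2 := by linarith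
  have h4 : 2 * Real.sinh ζ.re * Real.cos ζ.im * (2 * Real.sinh ζ.re * Real.cos ζ.im) +
      -(2 * Real.cosh ζ.re * Real.sin ζ.im) * -(2 * Real.cosh ζ.re * Real.sin ζ.im) =
      4 * Real.sinh ζ.re ^ 2 * Real.cos ζ.im ^ 2 +
        4 * Real.cosh ζ.re ^ 2 * Real.sin ζ.im ^ 2 := by ring
  rw [h4, h3, h1]
  ring

theorem hasDerivAt_re_Psis {ζ : ℂ} (hζ : ζ ∈ strip del) (t : ℝ) :
    HasDerivAt (fun s : ℝ => (Psis (ζ + s • (1 : ℂ)) t).re)
      (Lam t * (2 * Real.cosh (2 * ζ.re) - 2 * Real.cos (2 * ζ.im)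
        + ((1 - cl (16 * (t - ut ζ)) ^ 2) * (16 * -(gt ζ).re) / 8 * (gt ζ).re
          + fa (16 * (t - ut ζ)) / 8 * (2 * Real.cosh ζ.re * Real.cos ζ.im))
        - ((4 * cl (16 * (t - ut ζ)) - 4 * cl (16 * (t - ut ζ)) ^ 3) * (16 * -(gt ζ).re)
            * bb ζ.re
          + fB (16 * (t - ut ζ)) * (16 * bb ζ.re ^ 2)) / 256)) 0 := by
  have hre : ∀ s : ℝ, (ζ + s • (1 : ℂ)).re = ζ.re + s := fun s => by simp
  have him : ∀ s : ℝ, (ζ + s • (1 : ℂ)).im = ζ.im := fun s => by simp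
  have h0 : HasDerivAt (fun s : ℝ => ζ.re + s) 1 0 := by
    simpa using (hasDerivAt_id (0 : ℝ)).const_add ζ.re
  have hcosh : HasDerivAt (fun s : ℝ => Real.cosh (ζ.re + s)) (Real.sinh ζ.re) 0 := by
    have := (Real.hasDerivAt_cosh (ζ.re + 0)).comp (0 : ℝ) h0
    rw [add_zero, mul_one] at this
    exact this
  have hsinh : HasDerivAt (fun s : ℝ => Real.sinh (ζ.re + s)) (Real.cosh ζ.re) 0 := by
    have := (Real.hasDerivAt_sinh (ζ.re + 0)).comp (0 : ℝ) h0
    rw [add_zero, mul_one] at this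
    exact this
  have hu : HasDerivAt (fun s : ℝ => 16 * (t - ut (ζ + s • (1 : ℂ)))) (16 * -(gt ζ).re) 0 := by
    have h1 : HasDerivAt (fun s : ℝ => 2 * Real.cosh (ζ.re + s) * Real.cos ζ.im)
        (2 * Real.sinh ζ.re * Real.cos ζ.im) 0 :=
      (hcosh.const_mul 2).mul_const _
    have h2 := ((hasDerivAt_const (0 : ℝ) t).sub h1).const_mul 16
    refine (h2.congr_deriv ?_).congr_of_eventuallyEq ?_
    · simp [gt]
    · refine Eventually.of_forall fun s => ?_
      simp only [ut, hre, him, Pi.sub_apply]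
  have hz : ζ + (0 : ℝ) • (1 : ℂ) = ζ := by simp
  have hfa : HasDerivAt (fun s : ℝ => fa (16 * (t - ut (ζ + s • (1 : ℂ)))) / 8)
      ((1 - cl (16 * (t - ut ζ)) ^ 2) * (16 * -(gt ζ).re) / 8) 0 := by
    have := ((fa_hasDerivAt (16 * (t - ut (ζ + (0 : ℝ) • (1 : ℂ))))).comp (0 : ℝ) hu).div_const 8
    rw [hz] at this
    exact this
  have hfB : HasDerivAt (fun s : ℝ => fB (16 * (t - ut (ζ + s • (1 : ℂ)))))
      ((4 * cl (16 * (t - ut ζ)) - 4 * cl (16 * (t - ut ζ)) ^ 3) * (16 * -(gt ζ).re)) 0 := by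
    have := (fB_hasDerivAt (16 * (t - ut (ζ + (0 : ℝ) • (1 : ℂ))))).comp (0 : ℝ) hu
    rw [hz] at this
    exact this
  have hbb : HasDerivAt (fun s : ℝ => bb (ζ + s • (1 : ℂ)).re) (16 * bb ζ.re ^ 2) 0 := by
    have h1 : HasDerivAt (fun s : ℝ => 1 / 20 - 16 * (ζ.re + s)) (-16) 0 := by
      have := (h0.const_mul 16).const_sub (1 / 20)
      rw [mul_one] at this
      exact this
    have hne : (1 / 20 - 16 * (ζ.re + 0)) ≠ 0 := by
      rw [add_zero]
      exact (bb_pos' hζ).ne'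
    have h2 := h1.inv hne
    refine (h2.congr_deriv ?_).congr_of_eventuallyEq ?_
    · simp only [add_zero, bb]
      rw [neg_neg, inv_pow, div_eq_mul_inv]
    · refine Eventually.of_forall fun s => ?_
      simp only [bb, hre, Pi.inv_apply]
  have hW : HasDerivAt (fun s : ℝ => WW (ζ + s • (1 : ℂ)))
      (2 * Real.cosh (2 * ζ.re) - 2 * Real.cos (2 * ζ.im)) 0 := by
    have h1 : HasDerivAt (fun s : ℝ => Real.sinh (2 * (ζ.re + s))) (Real.cosh (2 * ζ.re) * 2)
        0 := by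
      have := (Real.hasDerivAt_sinh (2 * (ζ.re + 0))).comp (0 : ℝ) (h0.const_mul 2)
      rw [add_zero, mul_one] at this
      exact this
    have h2 : HasDerivAt (fun s : ℝ => 2 * (1 - (ζ.re + s)) * Real.cos (2 * ζ.im))
        (2 * (-1) * Real.cos (2 * ζ.im)) 0 :=
      ((h0.const_sub 1).const_mul 2).mul_const _
    have h3 := (h1.const_add (10 / 3)).add h2
    refine (h3.congr_deriv (by ring)).congr_of_eventuallyEq ?_
    refine Eventually.of_forall fun s => ?_
    simp only [WW, hre, him, Pi.add_apply]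
  have hg : HasDerivAt (fun s : ℝ => 2 * Real.sinh (ζ + s • (1 : ℂ)).re *
      Real.cos (ζ + s • (1 : ℂ)).im) (2 * Real.cosh ζ.re * Real.cos ζ.im) 0 := by
    refine ((hsinh.const_mul 2).mul_const (Real.cos ζ.im)).congr_of_eventuallyEq ?_
    refine Eventually.of_forall fun s => ?_
    simp only [hre, him]
  have hall := ((hW.add (hfa.mul hg)).sub ((hfB.mul hbb).div_const 256)).const_mul (Lam t)
  refine (hall.congr_deriv ?_).congr_of_eventuallyEq ?_
  · simp only [hz]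
    rfl
  · refine Eventually.of_forall fun s => ?_
    simp only [Psis_re, Pi.add_apply, Pi.sub_apply, Pi.mul_apply]

theorem hasDerivAt_im_Psis {ζ : ℂ} (t : ℝ) :
    HasDerivAt (fun s : ℝ => (Psis (ζ + s • Complex.I) t).im)
      (Lam t * ((1 - cl (16 * (t - ut ζ)) ^ 2) * (16 * -(gt ζ).im) / 8 * (gt ζ).im
          + fa (16 * (t - ut ζ)) / 8 * (-(2 * Real.cosh ζ.re * Real.cos ζ.im)))) 0 := by
  have hre : ∀ s : ℝ, (ζ + s • Complex.I).re = ζ.re := fun s => by simp
  have him : ∀ s : ℝ, (ζ + s • Complex.I).im = ζ.im + s := fun s => by simp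
  have h0 : HasDerivAt (fun s : ℝ => ζ.im + s) 1 0 := by
    simpa using (hasDerivAt_id (0 : ℝ)).const_add ζ.im
  have hcos : HasDerivAt (fun s : ℝ => Real.cos (ζ.im + s)) (-Real.sin ζ.im) 0 := by
    have := (Real.hasDerivAt_cos (ζ.im + 0)).comp (0 : ℝ) h0
    rw [add_zero, mul_one] at this
    exact this
  have hsin : HasDerivAt (fun s : ℝ => Real.sin (ζ.im + s)) (Real.cos ζ.im) 0 := by
    have := (Real.hasDerivAt_sin (ζ.im + 0)).comp (0 : ℝ) h0
    rw [add_zero, mul_one] at this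
    exact this
  have hu : HasDerivAt (fun s : ℝ => 16 * (t - ut (ζ + s • Complex.I))) (16 * -(gt ζ).im) 0 := by
    have h1 : HasDerivAt (fun s : ℝ => 2 * Real.cosh ζ.re * Real.cos (ζ.im + s))
        (2 * Real.cosh ζ.re * -Real.sin ζ.im) 0 :=
      hcos.const_mul _
    have h2 := ((hasDerivAt_const (0 : ℝ) t).sub h1).const_mul 16
    refine (h2.congr_deriv ?_).congr_of_eventuallyEq ?_
    · simp [gt]
    · refine Eventually.of_forall fun s => ?_
      simp only [ut, hre, him, Pi.sub_apply]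
  have hz : ζ + (0 : ℝ) • Complex.I = ζ := by simp
  have hfa : HasDerivAt (fun s : ℝ => fa (16 * (t - ut (ζ + s • Complex.I))) / 8)
      ((1 - cl (16 * (t - ut ζ)) ^ 2) * (16 * -(gt ζ).im) / 8) 0 := by
    have := ((fa_hasDerivAt (16 * (t - ut (ζ + (0 : ℝ) • Complex.I)))).comp (0 : ℝ)
      hu).div_const 8
    rw [hz] at this
    exact this
  have hg : HasDerivAt (fun s : ℝ => -(2 * Real.cosh (ζ + s • Complex.I).re *
      Real.sin (ζ + s • Complex.I).im)) (-(2 * Real.cosh ζ.re * Real.cos ζ.im)) 0 := by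
    refine ((hsin.const_mul (2 * Real.cosh ζ.re)).neg).congr_of_eventuallyEq ?_
    refine Eventually.of_forall fun s => ?_
    simp only [hre, him, Pi.neg_apply]
  have hall := (hfa.mul hg).const_mul (Lam t)
  refine (hall.congr_deriv ?_).congr_of_eventuallyEq ?_
  · simp only [hz]
    rfl
  · refine Eventually.of_forall fun s => ?_
    simp only [Psis_im, Pi.mul_apply]

/-- with `y = cl (16 (t - ũ))`,
`div Ψ = Λ(t) (|∇ũ|² - B(x) C b² / 256 - 2 (1 - y²) |∇ũ|² + (4y - 4y³) (b/16) ∂_τ ũ)` -/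
theorem divx_Psis {ζ : ℂ} (hζ : ζ ∈ strip del) (t : ℝ) :
    divx Psis ζ t = Lam t * (‖gt ζ‖ ^ 2 - fB (16 * (t - ut ζ)) * (16 * bb ζ.re ^ 2) / 256
      - 2 * (1 - cl (16 * (t - ut ζ)) ^ 2) * ‖gt ζ‖ ^ 2
      + (4 * cl (16 * (t - ut ζ)) - 4 * cl (16 * (t - ut ζ)) ^ 3) * bb ζ.re / 16 * (gt ζ).re) := by
  have hopen : IsOpen (strip del ×ˢ (univ : Set ℝ)) := (isOpen_strip del).prod isOpen_univ
  have hd : DifferentiableAt ℝ (fun p : ℂ × ℝ => Psis p.1 p.2) (ζ, t) :=
    (contDiffOn_Psis.differentiableOn one_ne_zero).differentiableAt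
      (hopen.mem_nhds ⟨hζ, mem_univ t⟩)
  have hd2 : DifferentiableAt ℝ (fun y : ℂ => Psis y t) ζ :=
    DifferentiableAt.comp (g := fun p : ℂ × ℝ => Psis p.1 p.2) (f := fun y : ℂ => (y, t)) ζ hd
      (differentiableAt_id.prodMk (differentiableAt_const t))
  have hline : ∀ v : ℂ, HasDerivAt (fun s : ℝ => ζ + s • v) v 0 := fun v => by
    simpa using ((hasDerivAt_id (0 : ℝ)).smul_const v).const_add ζ
  have hdir : ∀ v : ℂ, HasDerivAt (fun s : ℝ => Psis (ζ + s • v) t)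
      (fderiv ℝ (fun y : ℂ => Psis y t) ζ v) 0 := fun v => by
    have h1 : HasFDerivAt (fun y : ℂ => Psis y t) (fderiv ℝ (fun y : ℂ => Psis y t) ζ)
        (ζ + (0 : ℝ) • v) := by
      rw [zero_smul, add_zero]
      exact hd2.hasFDerivAt
    exact HasFDerivAt.comp_hasDerivAt (l := fun y : ℂ => Psis y t) (f := fun s : ℝ => ζ + s • v)
      (0 : ℝ) h1 (hline v)
  have hre : HasDerivAt (fun s : ℝ => (Psis (ζ + s • (1 : ℂ)) t).re)
      (fderiv ℝ (fun y : ℂ => Psis y t) ζ 1).re 0 :=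
    (Complex.reCLM.hasFDerivAt.comp_hasDerivAt (0 : ℝ) (hdir 1))
  have him : HasDerivAt (fun s : ℝ => (Psis (ζ + s • Complex.I) t).im)
      (fderiv ℝ (fun y : ℂ => Psis y t) ζ Complex.I).im 0 :=
    (Complex.imCLM.hasFDerivAt.comp_hasDerivAt (0 : ℝ) (hdir Complex.I))
  rw [divx, hre.unique (hasDerivAt_re_Psis hζ t), him.unique (hasDerivAt_im_Psis t)]
  have hn : ‖gt ζ‖ ^ 2 = (gt ζ).re ^ 2 + (gt ζ).im ^ 2 := by
    rw [← Complex.normSq_eq_norm_sq, Complex.normSq_apply]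
    ring
  have hn2 := norm_gt_sq ζ
  rw [← hn2, hn]
  ring

theorem Psis_period (ζ : ℂ) (n : ℤ) :
    Psis (ζ + n * (2 * Real.pi * Complex.I)) = Psis ζ := by
  have hre : (ζ + n * (2 * Real.pi * Complex.I)).re = ζ.re := by simp
  have him : (ζ + n * (2 * Real.pi * Complex.I)).im = ζ.im + n * (2 * Real.pi) := by simp
  have hu : ut (ζ + n * (2 * Real.pi * Complex.I)) = ut ζ := by
    rw [ut, ut, hre, him, Real.cos_add_int_mul_two_pi]
  have hg : gt (ζ + n * (2 * Real.pi * Complex.I)) = gt ζ := by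
    rw [gt, gt, hre, him, Real.cos_add_int_mul_two_pi, Real.sin_add_int_mul_two_pi]
  have hW : WW (ζ + n * (2 * Real.pi * Complex.I)) = WW ζ := by
    have h2 : 2 * (ζ.im + n * (2 * Real.pi)) = 2 * ζ.im + ((2 * n : ℤ) : ℝ) * (2 * Real.pi) := by
      push_cast
      ring
    rw [WW, WW, hre, him, h2, Real.cos_add_int_mul_two_pi]
  funext t
  rw [Psis, Psis, VV, VV, hu, hg, hW, hre]

end Pool.Agent.MP099f24
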