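import Pool.Agent.Lib.MP_099f24_an.Moll

/-!
# Auxiliary lemmas for the chain rule in `SBV_loc` (MP_099f24_an)
-/

namespace Pool.Agent.MP099f24

open MeasureTheory Filter Topology Set Metric
open scoped ENNReal ContDiff

section Fields

variable {Ω : Set ℂ} {Ψ : ℂ → ℝ → ℂ}

theorem cr_differentiableAt (hΩ : IsOpen Ω)
    (hΨ : ContDiffOn ℝ 1 (fun p : ℂ × ℝ => Ψ p.1 p.2) (Ω ×ˢ univ)) {x : ℂ} (hx : x ∈ Ω) (t : ℝ) :
    DifferentiableAt ℝ (fun p : ℂ × ℝ => Ψ p.1 p.2) (x, t) :=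
  (hΨ.contDiffAt ((hΩ.prod isOpen_univ).mem_nhds ⟨hx, mem_univ _⟩)).differentiableAt (by simp)

theorem cr_fderiv_continuousOn (hΩ : IsOpen Ω)
    (hΨ : ContDiffOn ℝ 1 (fun p : ℂ × ℝ => Ψ p.1 p.2) (Ω ×ˢ univ)) :
    ContinuousOn (fderiv ℝ (fun p : ℂ × ℝ => Ψ p.1 p.2)) (Ω ×ˢ univ) :=
  hΨ.continuousOn_fderiv_of_isOpen (hΩ.prod isOpen_univ) le_rfl

theorem cr_derivt_eq (hΩ : IsOpen Ω)
    (hΨ : ContDiffOn ℝ 1 (fun p : ℂ × ℝ => Ψ p.1 p.2) (Ω ×ˢ univ)) {x : ℂ} (hx : x ∈ Ω) (t : ℝ) :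
    HasDerivAt (fun s => Ψ x s) (fderiv ℝ (fun p : ℂ × ℝ => Ψ p.1 p.2) (x, t) (0, 1)) t := by
  have h1 := (cr_differentiableAt hΩ hΨ hx t).hasFDerivAt
  have h2 : HasDerivAt (fun s : ℝ => ((x, s) : ℂ × ℝ)) (0, 1) t :=
    (hasDerivAt_const t x).prodMk (hasDerivAt_id t)
  exact h1.comp_hasDerivAt t h2

theorem cr_fderivx_eq (hΩ : IsOpen Ω)
    (hΨ : ContDiffOn ℝ 1 (fun p : ℂ × ℝ => Ψ p.1 p.2) (Ω ×ˢ univ)) {x : ℂ} (hx : x ∈ Ω) (t : ℝ) :
    HasFDerivAt (fun y => Ψ y t)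
      ((fderiv ℝ (fun p : ℂ × ℝ => Ψ p.1 p.2) (x, t)).comp (ContinuousLinearMap.inl ℝ ℂ ℝ)) x := by
  have h1 := (cr_differentiableAt hΩ hΨ hx t).hasFDerivAt
  have h2 : HasFDerivAt (fun y : ℂ => ((y, t) : ℂ × ℝ)) (ContinuousLinearMap.inl ℝ ℂ ℝ) x :=
    hasFDerivAt_prodMk_left x t
  exact h1.comp x h2

theorem cr_derivt (hΩ : IsOpen Ω)
    (hΨ : ContDiffOn ℝ 1 (fun p : ℂ × ℝ => Ψ p.1 p.2) (Ω ×ˢ univ)) {x : ℂ} (hx : x ∈ Ω) (t : ℝ) :
    derivt Ψ x t = fderiv ℝ (fun p : ℂ × ℝ => Ψ p.1 p.2) (x, t) (0, 1) :=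
  (cr_derivt_eq hΩ hΨ hx t).deriv

theorem cr_divx (hΩ : IsOpen Ω)
    (hΨ : ContDiffOn ℝ 1 (fun p : ℂ × ℝ => Ψ p.1 p.2) (Ω ×ˢ univ)) {x : ℂ} (hx : x ∈ Ω) (t : ℝ) :
    divx Ψ x t = (fderiv ℝ (fun p : ℂ × ℝ => Ψ p.1 p.2) (x, t) (1, 0)).re +
      (fderiv ℝ (fun p : ℂ × ℝ => Ψ p.1 p.2) (x, t) (Complex.I, 0)).im := by
  unfold divx
  rw [(cr_fderivx_eq hΩ hΨ hx t).fderiv]
  simp

theorem cr_derivt_continuousOn (hΩ : IsOpen Ω)
    (hΨ : ContDiffOn ℝ 1 (fun p : ℂ × ℝ => Ψ p.1 p.2) (Ω ×ˢ univ)) :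
    ContinuousOn (fun p : ℂ × ℝ => derivt Ψ p.1 p.2) (Ω ×ˢ univ) := by
  have h1 : ContinuousOn (fun p : ℂ × ℝ => fderiv ℝ (fun p : ℂ × ℝ => Ψ p.1 p.2) p (0, 1))
      (Ω ×ˢ univ) := (cr_fderiv_continuousOn hΩ hΨ).clm_apply continuousOn_const
  refine h1.congr ?_
  rintro ⟨x, t⟩ ⟨hx, -⟩
  exact cr_derivt hΩ hΨ hx t

theorem cr_divx_continuousOn (hΩ : IsOpen Ω)
    (hΨ : ContDiffOn ℝ 1 (fun p : ℂ × ℝ => Ψ p.1 p.2) (Ω ×ˢ univ)) :
    ContinuousOn (fun p : ℂ × ℝ => divx Ψ p.1 p.2) (Ω ×ˢ univ) := by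
  have h1 : ContinuousOn (fun p : ℂ × ℝ => (fderiv ℝ (fun p : ℂ × ℝ => Ψ p.1 p.2) p (1, 0)).re +
      (fderiv ℝ (fun p : ℂ × ℝ => Ψ p.1 p.2) p (Complex.I, 0)).im) (Ω ×ˢ univ) := by
    refine ContinuousOn.add ?_ ?_
    · exact Complex.continuous_re.comp_continuousOn
        ((cr_fderiv_continuousOn hΩ hΨ).clm_apply continuousOn_const)
    · exact Complex.continuous_im.comp_continuousOn
        ((cr_fderiv_continuousOn hΩ hΨ).clm_apply continuousOn_const)
  refine h1.congr ?_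
  rintro ⟨x, t⟩ ⟨hx, -⟩
  exact cr_divx hΩ hΨ hx t

/-- Multiplying by a function supported in `Ω` makes a function continuous on `Ω ×ˢ univ`
globally continuous. -/
theorem cr_continuous_smul {E : Type*} [NormedAddCommGroup E] [NormedSpace ℝ E] (hΩ : IsOpen Ω)
    {χ : ℂ → ℝ} (hχ : Continuous χ) (hs : tsupport χ ⊆ Ω) {G : ℂ → ℝ → E}
    (hG : ContinuousOn (fun p : ℂ × ℝ => G p.1 p.2) (Ω ×ˢ univ)) :
    Continuous (fun p : ℂ × ℝ => χ p.1 • G p.1 p.2) := by
  rw [continuous_iff_continuousAt]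
  rintro ⟨x, t⟩
  by_cases hx : x ∈ Ω
  · exact (hχ.comp continuous_fst).continuousAt.smul
      (hG.continuousAt ((hΩ.prod isOpen_univ).mem_nhds ⟨hx, mem_univ _⟩))
  · have hx' : x ∉ tsupport χ := fun h => hx (hs h)
    have h1 : ∀ᶠ y in 𝓝 x, y ∉ tsupport χ := (isClosed_tsupport χ).isOpen_compl.mem_nhds hx'
    have h2 : ∀ᶠ p in 𝓝 ((x, t) : ℂ × ℝ), χ p.1 • G p.1 p.2 = 0 := by
      have h3 : Tendsto (Prod.fst : ℂ × ℝ → ℂ) (𝓝 (x, t)) (𝓝 x) := continuous_fst.continuousAt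
      filter_upwards [h3.eventually h1] with p hp
      rw [image_eq_zero_of_notMem_tsupport hp, zero_smul]
    exact (continuousAt_const (y := (0 : E))).congr (h2.mono fun p hp => hp.symm)

end Fields

/-- The mollifier at scale `ε`. -/
noncomputable def mollS (ε : ℝ) (z : ℂ) : ℝ := ε⁻¹ ^ 2 * moll (ε⁻¹ • z)

theorem mollS_continuous (ε : ℝ) : Continuous (mollS ε) :=
  continuous_const.mul (moll_continuous.comp (continuous_const_smul _))

theorem mollS_nonneg (ε : ℝ) (z : ℂ) : 0 ≤ mollS ε z :=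
  mul_nonneg (by positivity) (moll_nonneg _)

theorem moll_eq_zero {z : ℂ} (hz : 1 ≤ ‖z‖) : moll z = 0 := by
  have : z ∉ Function.support moll := by
    rw [moll_support]; simpa using hz
  simpa [Function.mem_support] using this

theorem mollS_eq_zero {ε : ℝ} (hε : 0 < ε) {z : ℂ} (hz : ε ≤ ‖z‖) : mollS ε z = 0 := by
  unfold mollS
  rw [moll_eq_zero, mul_zero]
  rw [norm_smul, Real.norm_eq_abs, abs_of_pos (inv_pos.2 hε)]
  rw [inv_mul_eq_div, le_div_iff₀ hε]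
  simpa using hz

/-- change of variables `x = y + ε z` -/
theorem integral_mollS {E : Type*} [NormedAddCommGroup E] [NormedSpace ℝ E] {ε : ℝ} (hε : 0 < ε)
    (y : ℂ) (G : ℂ → E) :
    ∫ x, mollS ε (x - y) • G x = ∫ z, moll z • G (y + ε • z) := by
  have h1 : ∫ x, mollS ε (x - y) • G x = ∫ x, mollS ε x • G (y + x) := by
    rw [← integral_add_right_eq_self (μ := volume) (fun x => mollS ε (x - y) • G x) y]
    refine integral_congr_ae (Eventually.of_forall fun x => ?_)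
    simp [add_comm]
  rw [h1]
  have h2 := Measure.integral_comp_smul (μ := (volume : Measure ℂ))
    (fun x => mollS ε x • G (y + x)) ε
  have h3 : Module.finrank ℝ ℂ = 2 := Complex.finrank_real_complex
  rw [h3, abs_of_pos (by positivity)] at h2
  have h4 : ∀ z : ℂ, mollS ε (ε • z) • G (y + ε • z) = (ε ^ 2)⁻¹ • (moll z • G (y + ε • z)) := by
    intro z
    unfold mollS
    rw [smul_smul ε⁻¹ ε z, inv_mul_cancel₀ hε.ne', one_smul, smul_smul, inv_pow]
  simp only [h4, integral_smul] at h2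
  have h5 : (ε ^ 2)⁻¹ ≠ (0 : ℝ) := by positivity
  exact (smul_right_injective E h5 h2).symm

theorem mollS_bound (ε : ℝ) : ∃ M, 0 ≤ M ∧ ∀ z, |mollS ε z| ≤ M := by
  obtain ⟨M, hM⟩ := moll_hasCompactSupport.exists_bound_of_continuous moll_continuous
  refine ⟨ε⁻¹ ^ 2 * M, mul_nonneg (by positivity) ((norm_nonneg _).trans (hM 0)), fun z => ?_⟩
  unfold mollS
  rw [abs_mul, abs_of_nonneg (by positivity : (0 : ℝ) ≤ ε⁻¹ ^ 2)]
  exact mul_le_mul_of_nonneg_left (hM _) (by positivity)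

/-- Fubini for integrands `m_ε(x - y) ⟪G(y), S(x)⟫` with an arbitrary (not necessarily
σ-finite) measure in the variable `y`. -/
theorem cr_swap' {μ : Measure ℂ} {G : ℂ → ℂ} (hG : Integrable G μ) (ε : ℝ) {S : ℂ → ℂ}
    (hS : Continuous S) (hSc : HasCompactSupport S) :
    Integrable (fun x => ∫ y, mollS ε (x - y) * inner ℝ (G y) (S x) ∂μ) ∧
    ∫ x, ∫ y, mollS ε (x - y) * inner ℝ (G y) (S x) ∂μ =
      ∫ y, inner ℝ (G y) (∫ x, mollS ε (x - y) • S x) ∂μ := by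
  have hfin : AEFinStronglyMeasurable G μ :=
    ⟨hG.toL1, Lp.finStronglyMeasurable _ one_ne_zero ENNReal.one_ne_top, (hG.coeFn_toL1).symm⟩
  set t := hfin.sigmaFiniteSet with ht
  have htm : MeasurableSet t := hfin.measurableSet
  have h0 : ∀ᵐ y ∂μ, y ∉ t → G y = 0 := by
    have h1 := hfin.ae_eq_zero_compl
    rw [Filter.EventuallyEq, ae_restrict_iff' htm.compl] at h1
    exact h1
  have : SigmaFinite (μ.restrict t) := hfin.sigmaFinite_restrict
  have hl : ∀ x, ∫ y, mollS ε (x - y) * inner ℝ (G y) (S x) ∂μ =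
      ∫ y in t, mollS ε (x - y) * inner ℝ (G y) (S x) ∂μ := by
    intro x
    refine (setIntegral_eq_integral_of_ae_compl_eq_zero ?_).symm
    filter_upwards [h0] with y hy hyt
    rw [hy hyt, inner_zero_left, mul_zero]
  have hr : ∫ y, inner ℝ (G y) (∫ x, mollS ε (x - y) • S x) ∂μ =
      ∫ y in t, inner ℝ (G y) (∫ x, mollS ε (x - y) • S x) ∂μ := by
    refine (setIntegral_eq_integral_of_ae_compl_eq_zero ?_).symm
    filter_upwards [h0] with y hy hyt
    rw [hy hyt, inner_zero_left]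
  obtain ⟨M, hM0, hM⟩ := mollS_bound ε
  have hGt : Integrable G (μ.restrict t) := hG.restrict
  have hSi : Integrable S volume := hS.integrable_of_hasCompactSupport hSc
  have hpt : ∀ y, ∫ x, mollS ε (x - y) * inner ℝ (G y) (S x) =
      inner ℝ (G y) (∫ x, mollS ε (x - y) • S x) := by
    intro y
    have h2 : Integrable (fun x => mollS ε (x - y) • S x) volume := by
      refine Continuous.integrable_of_hasCompactSupport ?_ ?_
      · exact ((mollS_continuous ε).comp (continuous_id.sub continuous_const)).smul hS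
      · exact hSc.mono (Function.support_subset_iff'.2 fun x hx => by
          rw [Function.notMem_support.1 hx, smul_zero])
    have h2' : (fun x => mollS ε (x - y) * inner ℝ (G y) (S x)) =
        fun x => inner ℝ (G y) (mollS ε (x - y) • S x) := by
      funext x
      rw [real_inner_smul_right]
    rw [h2']
    exact integral_inner h2 (G y)
  have hint : Integrable (Function.uncurry
      (fun x y : ℂ => mollS ε (x - y) * inner ℝ (G y) (S x))) (volume.prod (μ.restrict t)) := by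
    have h3 : Integrable (fun p : ℂ × ℂ => (M * ‖S p.1‖) * ‖G p.2‖)
        (volume.prod (μ.restrict t)) :=
      Integrable.mul_prod (hSi.norm.const_mul M) hGt.norm
    refine h3.mono' ?_ ?_
    · have h4 : AEStronglyMeasurable (fun p : ℂ × ℂ => G p.2) (volume.prod (μ.restrict t)) :=
        hGt.aestronglyMeasurable.comp_snd
      have h5 : AEStronglyMeasurable (fun p : ℂ × ℂ => S p.1) (volume.prod (μ.restrict t)) :=
        hSi.aestronglyMeasurable.comp_fst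
      have h6 : AEStronglyMeasurable (fun p : ℂ × ℂ => mollS ε (p.1 - p.2))
          (volume.prod (μ.restrict t)) :=
        ((mollS_continuous ε).comp (continuous_fst.sub continuous_snd)).aestronglyMeasurable
      exact h6.mul (h4.inner h5)
    · refine Eventually.of_forall fun p => ?_
      simp only [Function.uncurry, norm_mul]
      have h7 := norm_inner_le_norm (𝕜 := ℝ) (G p.2) (S p.1)
      have h8 := hM (p.1 - p.2)
      calc ‖mollS ε (p.1 - p.2)‖ * ‖inner ℝ (G p.2) (S p.1)‖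
          ≤ M * (‖G p.2‖ * ‖S p.1‖) := by
            refine mul_le_mul h8 h7 (norm_nonneg _) hM0
        _ = _ := by ring
  refine ⟨?_, ?_⟩
  · have h9 := hint.integral_prod_left
    refine h9.congr (Eventually.of_forall fun x => ?_)
    exact (hl x).symm
  calc ∫ x, ∫ y, mollS ε (x - y) * inner ℝ (G y) (S x) ∂μ
      = ∫ x, ∫ y in t, mollS ε (x - y) * inner ℝ (G y) (S x) ∂μ := by
        exact integral_congr_ae (Eventually.of_forall hl)
    _ = ∫ y in t, (∫ x, mollS ε (x - y) * inner ℝ (G y) (S x)) ∂μ :=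
        integral_integral_swap hint
    _ = ∫ y in t, inner ℝ (G y) (∫ x, mollS ε (x - y) • S x) ∂μ := by
        exact integral_congr_ae (Eventually.of_forall hpt)
    _ = _ := hr.symm

theorem cr_swap {μ : Measure ℂ} {G : ℂ → ℂ} (hG : Integrable G μ) (ε : ℝ) {S : ℂ → ℂ}
    (hS : Continuous S) (hSc : HasCompactSupport S) :
    ∫ x, ∫ y, mollS ε (x - y) * inner ℝ (G y) (S x) ∂μ =
      ∫ y, inner ℝ (G y) (∫ x, mollS ε (x - y) • S x) ∂μ :=
  (cr_swap' hG ε hS hSc).2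

theorem IsApproxLim.congr_ae {w w' : ℂ → ℝ} {x : ℂ} {z : ℝ} {U : Set ℂ} (hU : U ∈ 𝓝 x)
    (h : ∀ᵐ y ∂volume.restrict U, w y = w' y) (hw : IsApproxLim w x z) : IsApproxLim w' x z := by
  unfold IsApproxLim at *
  refine hw.congr' ?_
  obtain ⟨r, hr, hrU⟩ := Metric.mem_nhds_iff.1 hU
  have h1 : ∀ᶠ s : ℝ in 𝓝[>] 0, s < r := nhdsWithin_le_nhds (Iio_mem_nhds hr)
  filter_upwards [h1] with s hs
  refine average_congr ?_
  have h2 : ball x s ⊆ U := (ball_subset_ball hs.le).trans hrU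
  filter_upwards [ae_restrict_of_ae_restrict_of_subset h2 h] with y hy
  rw [hy]

theorem IsJump.congr_ae {w w' : ℂ → ℝ} {x : ℂ} {a b : ℝ} {ν : ℂ} {U : Set ℂ} (hU : U ∈ 𝓝 x)
    (h : ∀ᵐ y ∂volume.restrict U, w y = w' y) (hw : IsJump w x a b ν) : IsJump w' x a b ν := by
  obtain ⟨h1, h2, h3, h4⟩ := hw
  obtain ⟨r, hr, hrU⟩ := Metric.mem_nhds_iff.1 hU
  have hs : ∀ᶠ s : ℝ in 𝓝[>] 0, s < r := nhdsWithin_le_nhds (Iio_mem_nhds hr)
  refine ⟨h1, h2, h3.congr' ?_, h4.congr' ?_⟩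
  · filter_upwards [hs] with s hs
    refine average_congr ?_
    have h5 : halfBall x ν s ⊆ U := (inter_subset_left.trans (ball_subset_ball hs.le)).trans hrU
    filter_upwards [ae_restrict_of_ae_restrict_of_subset h5 h] with y hy
    rw [hy]
  · filter_upwards [hs] with s hs
    refine average_congr ?_
    have h5 : halfBall x (-ν) s ⊆ U := (inter_subset_left.trans (ball_subset_ball hs.le)).trans hrU
    filter_upwards [ae_restrict_of_ae_restrict_of_subset h5 h] with y hy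
    rw [hy]

/-- Almost every point is an approximate limit point of an integrable function. -/
theorem ae_isApproxLim {w : ℂ → ℝ} (hw : Integrable w) : ∀ᵐ x, IsApproxLim w x (w x) := by
  have h1 := (Besicovitch.vitaliFamily (volume : Measure ℂ)).ae_tendsto_average_norm_sub
    hw.locallyIntegrable
  filter_upwards [h1] with x hx
  have h2 := hx.comp (Besicovitch.tendsto_filterAt volume x)
  unfold IsApproxLim
  refine h2.congr' ?_
  filter_upwards [self_mem_nhdsWithin] with r hr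
  simp only [Function.comp_apply]
  have h3 : closedBall x r =ᵐ[volume] ball x r := by
    have h4 : (volume : Measure ℂ) (sphere x r) = 0 :=
      Measure.addHaar_sphere_of_ne_zero volume x (ne_of_gt hr)
    rw [← ball_union_sphere]
    exact union_ae_eq_left_of_ae_eq_empty (ae_eq_empty.2 h4)
  rw [setAverage_congr h3]
  rfl

end Pool.Agent.MP099f24
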