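import Pool.Agent.Lib.MP_099f24_an.Moll

/-!
# Smoothness of mollifications and their derivative for SBV functions (MP_099f24_an)
-/

namespace Pool.Agent.MP099f24

open MeasureTheory Filter Topology Set Metric
open scoped ENNReal ContDiff Convolution

/-- The rescaled mollifier. -/
noncomputable def md_mε (ε : ℝ) (x : ℂ) : ℝ := ε⁻¹ ^ 2 * moll (ε⁻¹ • x)

theorem md_contDiff (ε : ℝ) : ContDiff ℝ ∞ (md_mε ε) :=
  contDiff_const.mul (moll_contDiff.comp (contDiff_const_smul ε⁻¹))

theorem md_support {ε : ℝ} (hε : 0 < ε) : Function.support (md_mε ε) ⊆ ball 0 ε := by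
  intro x hx
  have h1 : moll (ε⁻¹ • x) ≠ 0 := by
    intro h
    apply hx
    change ε⁻¹ ^ 2 * moll (ε⁻¹ • x) = 0
    rw [h, mul_zero]
  have h2 : ε⁻¹ • x ∈ Function.support moll := h1
  rw [moll_support, mem_ball_zero_iff, norm_smul, Real.norm_eq_abs, abs_of_pos (inv_pos.2 hε)] at h2
  rw [mem_ball_zero_iff]
  have h3 : ε * (ε⁻¹ * ‖x‖) < ε * 1 := mul_lt_mul_of_pos_left h2 hε
  rw [← mul_assoc, mul_inv_cancel₀ hε.ne', one_mul, mul_one] at h3
  exact h3

theorem md_hasCompactSupport {ε : ℝ} (hε : 0 < ε) : HasCompactSupport (md_mε ε) :=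
  HasCompactSupport.of_support_subset_isCompact (isCompact_closedBall (0 : ℂ) ε)
    ((md_support hε).trans ball_subset_closedBall)

theorem md_mol_eq (w : ℂ → ℝ) {ε : ℝ} (hε : 0 < ε) :
    mol w ε = (w ⋆[ContinuousLinearMap.lsmul ℝ ℝ, volume] md_mε ε) := by
  funext x
  rw [convolution_def]
  have h1 : (∫ t, (ContinuousLinearMap.lsmul ℝ ℝ) (w t) (md_mε ε (x - t)))
      = ∫ y, md_mε ε y * w (x - y) := by
    rw [← integral_sub_left_eq_self (fun y => md_mε ε y * w (x - y)) volume x]
    apply integral_congr_ae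
    filter_upwards with t
    simp only [ContinuousLinearMap.lsmul_apply, smul_eq_mul, sub_sub_cancel]
    ring
  rw [h1]
  have h2 := Measure.integral_comp_smul (volume : Measure ℂ) (fun y => md_mε ε y * w (x - y)) ε
  rw [Complex.finrank_real_complex] at h2
  have h3 : ∀ z : ℂ, md_mε ε (ε • z) * w (x - ε • z) = ε⁻¹ ^ 2 * (moll z * w (x - ε • z)) := by
    intro z
    unfold md_mε
    rw [smul_smul, inv_mul_cancel₀ hε.ne', one_smul]
    ring
  simp only [h3] at h2
  rw [integral_const_mul, abs_of_pos (by positivity), smul_eq_mul, ← inv_pow] at h2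
  have h4 : ε⁻¹ ^ 2 ≠ 0 := by positivity
  exact mul_left_cancel₀ h4 h2

theorem mol_contDiff {w : ℂ → ℝ} (hw : Integrable w) {ε : ℝ} (hε : 0 < ε) :
    ContDiff ℝ ∞ (mol w ε) := by
  rw [md_mol_eq w hε]
  exact (md_hasCompactSupport hε).contDiff_convolution_right _ hw.locallyIntegrable (md_contDiff ε)

/-- The derivative of the mollification of an `SBV_loc` function (cut off outside the compact set
`K ⊆ Ω`). -/
theorem mol_fderiv {Ω : Set ℂ} {w : ℂ → ℝ} {g j : ℂ → ℂ} {K : Set ℂ}
    (hK : IsCompact K) (hKΩ : K ⊆ Ω) (hw : IntegrableOn w K)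
    (hform : ∀ φ : ℂ → ℝ, ContDiff ℝ ∞ φ → HasCompactSupport φ → tsupport φ ⊆ Ω → ∀ v : ℂ,
      ∫ x in Ω, w x * fderiv ℝ φ x v =
        - (∫ x in Ω, φ x * inner ℝ (g x) v) - ∫ x in Ω, φ x * inner ℝ (j x) v ∂(μH[1] : Measure ℂ))
    {ε : ℝ} (hε : 0 < ε) {x : ℂ} (hx : closedBall x ε ⊆ K) (v : ℂ) :
    fderiv ℝ (mol (K.indicator w) ε) x v =
      (∫ y in Ω, ε⁻¹ ^ 2 * moll (ε⁻¹ • (x - y)) * inner ℝ (g y) v) +
      ∫ y in Ω, ε⁻¹ ^ 2 * moll (ε⁻¹ • (x - y)) * inner ℝ (j y) v ∂(μH[1] : Measure ℂ) := by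
  have hKm : MeasurableSet K := hK.isClosed.measurableSet
  have hwi : Integrable (K.indicator w) := hw.integrable_indicator hKm
  have hC : ContDiff ℝ ∞ (md_mε ε) := md_contDiff ε
  have hC1 : ContDiff ℝ 1 (md_mε ε) := hC.of_le (by exact_mod_cast le_top)
  -- the test function
  set φ : ℂ → ℝ := fun y => md_mε ε (x - y) with hφ
  have hφC : ContDiff ℝ ∞ φ := hC.comp (contDiff_const.sub contDiff_id)
  have hφs : Function.support φ ⊆ closedBall x ε := by
    intro y hy
    have h1 : x - y ∈ Function.support (md_mε ε) := hy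
    have h2 := md_support hε h1
    rw [mem_ball_zero_iff] at h2
    rw [mem_closedBall, dist_comm, dist_eq_norm]
    exact h2.le
  have hφt : tsupport φ ⊆ closedBall x ε := closure_minimal hφs isClosed_closedBall
  have hφc : HasCompactSupport φ :=
    HasCompactSupport.of_support_subset_isCompact (isCompact_closedBall x ε) hφs
  have hφd : ∀ y, fderiv ℝ φ y v = - fderiv ℝ (md_mε ε) (x - y) v := by
    intro y
    have h1 : HasFDerivAt (md_mε ε) (fderiv ℝ (md_mε ε) (x - y)) (x - y) :=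
      (hC1.differentiable (by norm_num) _).hasFDerivAt
    have h2 : HasFDerivAt (fun y : ℂ => x - y) (-ContinuousLinearMap.id ℝ ℂ) y :=
      (hasFDerivAt_id y).const_sub x
    have h3 := h1.comp y h2
    have h4 : fderiv ℝ φ y = (fderiv ℝ (md_mε ε) (x - y)).comp (-ContinuousLinearMap.id ℝ ℂ) :=
      h3.fderiv
    rw [h4]
    simp
  have key := hform φ hφC hφc (hφt.trans (hx.trans hKΩ)) v
  -- the derivative of the convolution
  have hder : fderiv ℝ (mol (K.indicator w) ε) x v
      = ∫ t, K.indicator w t * fderiv ℝ (md_mε ε) (x - t) v := by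
    have h1 := (md_hasCompactSupport hε).hasFDerivAt_convolution_right
      (ContinuousLinearMap.lsmul ℝ ℝ) hwi.locallyIntegrable hC1 x (μ := volume)
    rw [← md_mol_eq _ hε] at h1
    rw [h1.fderiv, convolution_precompR_apply _ hwi.locallyIntegrable
      ((md_hasCompactSupport hε).fderiv ℝ) (hC1.continuous_fderiv (by norm_num)) x v]
    rfl
  have hzero : ∀ y, y ∉ K → fderiv ℝ φ y v = 0 := by
    intro y hy
    have h1 : y ∉ Function.support (fderiv ℝ φ) := fun h =>
      hy (hx (hφt (support_fderiv_subset ℝ h)))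
    rw [Function.notMem_support] at h1
    rw [h1]; rfl
  have h1 : ∫ t, K.indicator w t * fderiv ℝ (md_mε ε) (x - t) v
      = - ∫ y in Ω, w y * fderiv ℝ φ y v := by
    have e1 : ∀ t, K.indicator w t * fderiv ℝ (md_mε ε) (x - t) v
        = - (w t * fderiv ℝ φ t v) := by
      intro t
      by_cases ht : t ∈ K
      · rw [indicator_of_mem ht, hφd]; ring
      · rw [indicator_of_notMem ht, hzero t ht]; ring
    simp only [e1]
    rw [integral_neg]
    congr 1
    have h2 : ∀ y, y ∉ K → w y * fderiv ℝ φ y v = 0 := fun y hy => by rw [hzero y hy, mul_zero]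
    rw [← setIntegral_eq_integral_of_forall_compl_eq_zero h2,
      ← setIntegral_eq_integral_of_forall_compl_eq_zero (μ := volume.restrict Ω) h2,
      Measure.restrict_restrict hKm, inter_eq_left.mpr hKΩ]
  rw [hder, h1, key]
  simp only [hφ, md_mε]
  ring

end Pool.Agent.MP099f24
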