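import Pool.Agent.Lib.MP_099f24_an.Moll

/-!
# Profile integral of a mollified step function (MP_099f24_an)
-/

namespace Pool.Agent.MP099f24

open MeasureTheory Filter Topology Set Metric
open scoped ENNReal ContDiff

theorem st_fubini {E : Type*} [NormedAddCommGroup E] [NormedSpace ℝ E] {f : ℂ → E}
    (hf : Integrable f) : ∫ z, f z = ∫ s : ℝ, ∫ t : ℝ, f ⟨s, t⟩ := by
  have h1 : MeasurePreserving Complex.measurableEquivRealProd.symm volume volume :=
    Complex.volume_preserving_equiv_real_prod.symm _
  have h2 : ∫ z, f z = ∫ p : ℝ × ℝ, f (Complex.measurableEquivRealProd.symm p) :=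
    (h1.integral_comp' f).symm
  have h3 : Integrable (fun p : ℝ × ℝ => f (Complex.measurableEquivRealProd.symm p)) volume :=
    (h1.integrable_comp_emb (MeasurableEquiv.measurableEmbedding _)).2 hf
  rw [h2]
  rw [Measure.volume_eq_prod] at h3 ⊢
  rw [integral_prod _ h3]
  rfl

/-- one-variable density -/
noncomputable def st_mh (m : ℂ → ℝ) (s : ℝ) : ℝ := ∫ t : ℝ, m ⟨s, t⟩

theorem st_profile {E : Type*} [NormedAddCommGroup E] [NormedSpace ℝ E] [CompleteSpace E]
    {m : ℂ → ℝ} {k : ℝ → E} (hf : Integrable (fun z : ℂ => m z • k z.re)) :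
    ∫ z, m z • k z.re = ∫ s, st_mh m s • k s := by
  rw [st_fubini hf]
  congr 1
  funext s
  exact integral_smul_const (fun t : ℝ => m ⟨s, t⟩) (k s)

theorem st_main {E : Type*} [NormedAddCommGroup E] [NormedSpace ℝ E] [CompleteSpace E]
    {Φ φ : ℝ → E} (hΦ : ∀ t, HasDerivAt Φ (φ t) t) (hφ : Continuous φ) (a b : ℝ)
    {m : ℂ → ℝ} (hm : Continuous m) (hms : ∀ z, 1 ≤ ‖z‖ → m z = 0) (hm1 : ∫ z, m z = 1) :
    (a - b) • ∫ z, m z • φ (b + (a - b) * ∫ y in {y : ℂ | y.re < z.re}, m y) = Φ a - Φ b := by
  have hmc : HasCompactSupport m :=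
    HasCompactSupport.of_support_subset_isCompact (isCompact_closedBall (0 : ℂ) 1) (by
      intro z hz
      rw [mem_closedBall_zero_iff]
      by_contra h
      exact hz (hms z (le_of_lt (not_le.mp h))))
  have hmi : Integrable m := hm.integrable_of_hasCompactSupport hmc
  -- the density is continuous and compactly supported
  have hmh0 : ∀ s : ℝ, 1 ≤ |s| → st_mh m s = 0 := by
    intro s hs
    unfold st_mh
    have : ∀ t : ℝ, m ⟨s, t⟩ = 0 := fun t => hms _ (hs.trans (Complex.abs_re_le_norm ⟨s, t⟩))
    simp [this]
  have hmhc : Continuous (st_mh m) := by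
    have h1 : st_mh m = fun s => ∫ t in Icc (-1 : ℝ) 1, m ⟨s, t⟩ := by
      funext s
      unfold st_mh
      rw [setIntegral_eq_integral_of_forall_compl_eq_zero]
      intro t ht
      apply hms
      refine le_trans ?_ (Complex.abs_im_le_norm ⟨s, t⟩)
      by_contra h
      exact ht (abs_le.mp (le_of_lt (not_le.mp h)))
    rw [h1]
    apply continuous_parametric_integral_of_continuous _ isCompact_Icc
    have h2 : Continuous (fun p : ℝ × ℝ => (⟨p.1, p.2⟩ : ℂ)) :=
      Complex.equivRealProdCLM.symm.continuous
    exact hm.comp h2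
  have hmhi : Integrable (st_mh m) := by
    apply hmhc.integrable_of_hasCompactSupport
    apply HasCompactSupport.of_support_subset_isCompact (isCompact_Icc (a := (-1 : ℝ)) (b := 1))
    intro s hs
    by_contra h
    apply hs
    apply hmh0
    by_contra h2
    exact h (abs_le.mp (le_of_lt (not_le.mp h2)))
  -- the distribution function
  set G : ℝ → ℝ := fun s => ∫ y in {y : ℂ | y.re < s}, m y with hG
  have hms' : ∀ s : ℝ, MeasurableSet {y : ℂ | y.re < s} := fun s =>
    measurableSet_lt Complex.measurable_re measurable_const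
  have hG1 : ∀ s, G s = ∫ x in Iic s, st_mh m x := by
    intro s
    have h1 : G s = ∫ z, m z • (Iio s).indicator (fun _ => (1 : ℝ)) z.re := by
      change ∫ y in {y : ℂ | y.re < s}, m y = _
      rw [← integral_indicator (hms' s)]
      congr 1
      funext z
      by_cases hz : z.re < s
      · rw [indicator_of_mem (show z ∈ {y : ℂ | y.re < s} from hz),
          indicator_of_mem (show z.re ∈ Iio s from hz)]
        simp
      · rw [indicator_of_notMem (show z ∉ {y : ℂ | y.re < s} from hz),
          indicator_of_notMem (show z.re ∉ Iio s from hz)]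
        simp
    have h2 : Integrable (fun z : ℂ => m z • (Iio s).indicator (fun _ => (1 : ℝ)) z.re) := by
      have h3 : (fun z : ℂ => m z • (Iio s).indicator (fun _ => (1 : ℝ)) z.re)
          = {y : ℂ | y.re < s}.indicator m := by
        funext z
        by_cases hz : z.re < s
        · rw [indicator_of_mem (show z ∈ {y : ℂ | y.re < s} from hz),
            indicator_of_mem (show z.re ∈ Iio s from hz)]
          simp
        · rw [indicator_of_notMem (show z ∉ {y : ℂ | y.re < s} from hz),
            indicator_of_notMem (show z.re ∉ Iio s from hz)]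
          simp
      rw [h3]
      exact hmi.indicator (hms' s)
    rw [h1, st_profile h2, integral_Iic_eq_integral_Iio, ← integral_indicator measurableSet_Iio]
    congr 1
    funext x
    by_cases hx : x ∈ Iio s
    · rw [indicator_of_mem hx, indicator_of_mem hx]; simp
    · rw [indicator_of_notMem hx, indicator_of_notMem hx]; simp
  have hGd : ∀ s, HasDerivAt G (st_mh m s) s := by
    intro s
    have h1 : G = fun s => G 0 + ∫ x in (0 : ℝ)..s, st_mh m x := by
      funext r
      rw [hG1, hG1, ← intervalIntegral.integral_Iic_sub_Iic hmhi.integrableOn hmhi.integrableOn]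
      ring
    rw [h1]
    exact (intervalIntegral.integral_hasDerivAt_right hmhi.intervalIntegrable
      (hmhc.stronglyMeasurableAtFilter _ _) hmhc.continuousAt).const_add _
  have hGc : Continuous G := continuous_iff_continuousAt.mpr fun s => (hGd s).continuousAt
  have hG0 : ∀ s, s ≤ -1 → G s = 0 := by
    intro s hs
    change ∫ y in {y : ℂ | y.re < s}, m y = 0
    apply setIntegral_eq_zero_of_forall_eq_zero
    intro z hz
    apply hms
    have hz' : z.re < s := hz
    refine le_trans ?_ (Complex.abs_re_le_norm z)
    rw [le_abs]; right; linarith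
  have hGone : ∀ s, 1 ≤ s → G s = 1 := by
    intro s hs
    change ∫ y in {y : ℂ | y.re < s}, m y = 1
    rw [setIntegral_eq_integral_of_forall_compl_eq_zero, hm1]
    intro z hz
    apply hms
    have hz' : s ≤ z.re := not_lt.mp hz
    refine le_trans ?_ (Complex.abs_re_le_norm z)
    rw [le_abs]; left; linarith
  -- the profile integral
  have hint : Integrable (fun z : ℂ => m z • φ (b + (a - b) * G z.re)) := by
    apply Continuous.integrable_of_hasCompactSupport
    · exact hm.smul (hφ.comp (continuous_const.add (continuous_const.mul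
        (hGc.comp Complex.continuous_re))))
    · exact hmc.smul_right
  have h1 : ∫ z, m z • φ (b + (a - b) * G z.re)
      = ∫ s, st_mh m s • φ (b + (a - b) * G s) :=
    st_profile (k := fun s => φ (b + (a - b) * G s)) hint
  have h2 : ∀ s, HasDerivAt (fun s => Φ (b + (a - b) * G s))
      (((a - b) * st_mh m s) • φ (b + (a - b) * G s)) s := by
    intro s
    have h3 : HasDerivAt (fun s => b + (a - b) * G s) ((a - b) * st_mh m s) s :=
      ((hGd s).const_mul (a - b)).const_add b
    exact (hΦ _).scomp s h3
  have h4 : Integrable (fun s => ((a - b) * st_mh m s) • φ (b + (a - b) * G s)) := by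
    apply Continuous.integrable_of_hasCompactSupport
    · exact (continuous_const.mul hmhc).smul (hφ.comp (continuous_const.add
        (continuous_const.mul hGc)))
    · apply HasCompactSupport.of_support_subset_isCompact (isCompact_Icc (a := (-1 : ℝ)) (b := 1))
      intro s hs
      by_contra h
      apply hs
      have : st_mh m s = 0 := by
        apply hmh0
        by_contra h2
        exact h (abs_le.mp (le_of_lt (not_le.mp h2)))
      simp [this]
  have hbot : Tendsto (fun s => Φ (b + (a - b) * G s)) atBot (𝓝 (Φ b)) := by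
    apply tendsto_const_nhds.congr'
    filter_upwards [eventually_le_atBot (-1 : ℝ)] with s hs
    rw [hG0 s hs]; simp
  have htop : Tendsto (fun s => Φ (b + (a - b) * G s)) atTop (𝓝 (Φ a)) := by
    apply tendsto_const_nhds.congr'
    filter_upwards [eventually_ge_atTop (1 : ℝ)] with s hs
    rw [hGone s hs]; simp
  have h5 := integral_of_hasDerivAt_of_tendsto h2 h4 hbot htop
  change (a - b) • ∫ z, m z • φ (b + (a - b) * G z.re) = _
  rw [h1, ← h5, ← integral_smul]
  congr 1
  funext s
  rw [smul_smul]

/-- the profile integral of the mollified step function -/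
theorem moll_step_integral {E : Type*} [NormedAddCommGroup E] [NormedSpace ℝ E] [CompleteSpace E]
    {Φ φ : ℝ → E} (hΦ : ∀ t, HasDerivAt Φ (φ t) t) (hφ : Continuous φ) (a b : ℝ) {ν : ℂ}
    (hν : ‖ν‖ = 1) :
    (a - b) • ∫ z, moll z • φ (b + (a - b) * halfMol ν z) = Φ a - Φ b := by
  set c : Circle := ⟨ν, mem_sphere_zero_iff_norm.2 hν⟩ with hc
  set r : ℂ ≃ₗᵢ[ℝ] ℂ := rotation c with hr
  have hrz : ∀ z, r z = ν * z := fun z => by rw [hr, rotation_apply]
  have hmp : MeasurePreserving r volume volume := r.measurePreserving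
  have hme : MeasurableEmbedding r := r.toHomeomorph.measurableEmbedding
  set m : ℂ → ℝ := fun z => moll (r z) with hm
  have hmcont : Continuous m := moll_continuous.comp r.continuous
  have hms : ∀ z, 1 ≤ ‖z‖ → m z = 0 := by
    intro z hz
    by_contra h
    have h1 : r z ∈ Function.support moll := h
    rw [moll_support, mem_ball_zero_iff, r.norm_map] at h1
    linarith
  have hm1 : ∫ z, m z = 1 := by
    rw [← moll_integral]
    exact hmp.integral_comp hme moll
  have hhalf : ∀ z, halfMol ν (r z) = ∫ y in {y : ℂ | y.re < z.re}, m y := by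
    intro z
    unfold halfMol
    have h1 := hmp.setIntegral_preimage_emb hme moll {y : ℂ | 0 < inner ℝ (r z - y) ν}
    rw [← h1]
    congr 2
    ext y
    rw [mem_preimage, mem_ofPred_eq, mem_ofPred_eq, hrz, hrz, ← mul_sub, Complex.inner]
    have h2 : ((starRingEnd ℂ) (ν * (z - y)) * ν).re = (z - y).re := by
      have h3 : (starRingEnd ℂ) ν * ν = 1 := by
        rw [← Complex.normSq_eq_conj_mul_self, Complex.normSq_eq_norm_sq, hν]; simp
      rw [map_mul, mul_assoc, mul_comm ((starRingEnd ℂ) (z - y)), ← mul_assoc, h3, one_mul]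
      simp
    rw [mul_comm ν ((starRingEnd ℂ) (ν * (z - y))), h2, Complex.sub_re, sub_pos]
  have h1 := st_main hΦ hφ a b hmcont hms hm1
  rw [← h1]
  congr 1
  rw [← hmp.integral_comp hme (fun z => moll z • φ (b + (a - b) * halfMol ν z))]
  congr 1
  funext z
  rw [hhalf]

end Pool.Agent.MP099f24
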