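import Pool.Agent.Lib.MP_099f24_an.ChainAux
import Pool.Agent.Lib.MP_099f24_an.MolDeriv
import Pool.Agent.Lib.MP_099f24_an.Blowup
import Pool.Agent.Lib.MP_099f24_an.Step

/-!
# Limits and the smooth case of the chain rule (MP_099f24_an)

It is proved by mollification: the rescaled mollifications of `w` converge at approximate limit
points and at approximate jump points (`Blowup`), and the limit at a jump point is computed in
`Step`.
-/

namespace Pool.Agent.MP099f24

open MeasureTheory Filter Topology Set Metric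
open scoped ENNReal ContDiff

/-- dominated convergence for integrals of `N(x, w_ε(x))` -/
theorem cr_limit_vol {w : ℂ → ℝ} (hw : Integrable w) {N : ℂ → ℝ → ℝ}
    (hN : Continuous (fun p : ℂ × ℝ => N p.1 p.2)) {K₀ : Set ℂ} (hK₀ : IsCompact K₀)
    (h0 : ∀ x, x ∉ K₀ → ∀ t, N x t = 0) {C : ℝ} (hC : ∀ x t, |N x t| ≤ C) :
    Tendsto (fun ε : ℝ => ∫ x, N x (mol w ε x)) (𝓝[>] 0) (𝓝 (∫ x, N x (w x))) := by
  refine tendsto_integral_filter_of_dominated_convergence (K₀.indicator fun _ => C) ?_ ?_ ?_ ?_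
  · filter_upwards [self_mem_nhdsWithin] with ε hε
    have h1 : Continuous (mol w ε) := (mol_contDiff hw hε).continuous
    exact (hN.comp (continuous_id.prodMk h1)).aestronglyMeasurable
  · refine Eventually.of_forall fun ε => Eventually.of_forall fun x => ?_
    by_cases hx : x ∈ K₀
    · rw [indicator_of_mem hx]; exact hC _ _
    · rw [indicator_of_notMem hx, h0 x hx, norm_zero]
  · rw [integrable_indicator_iff hK₀.measurableSet]
    exact integrableOn_const hK₀.measure_lt_top.ne
  · filter_upwards [ae_isApproxLim hw] with x hx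
    have h1 : Tendsto (fun ε : ℝ => mol w ε x) (𝓝[>] 0) (𝓝 (w x)) := by
      rw [Metric.tendsto_nhds]
      intro η hη
      filter_upwards [mol_tendsto_of_approxLim univ_mem hw.integrableOn hx η hη] with ε hε
      have h2 := hε 0 (by simp)
      rw [smul_zero, add_zero] at h2
      rwa [Real.dist_eq]
    have h3 : Tendsto (fun ε : ℝ => ((x, mol w ε x) : ℂ × ℝ)) (𝓝[>] 0) (𝓝 (x, w x)) :=
      tendsto_const_nhds.prodMk_nhds h1
    exact (hN.tendsto _).comp h3

/-- dominated convergence for the measure `G μ` -/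
theorem cr_limit_meas {μ : Measure ℂ} {K : Set ℂ} {G : ℂ → ℂ} (hG : IntegrableOn G K μ)
    {Q : ℝ → ℂ → ℂ} (hQ : ∀ᶠ ε : ℝ in 𝓝[>] 0, Continuous (Q ε)) {C : ℝ}
    (hC : ∀ᶠ ε : ℝ in 𝓝[>] 0, ∀ y, ‖Q ε y‖ ≤ C) {k : ℂ → ℝ}
    (hlim : ∀ᵐ y ∂μ.restrict K, Tendsto (fun ε => inner ℝ (G y) (Q ε y)) (𝓝[>] 0) (𝓝 (k y))) :
    IntegrableOn k K μ ∧
    Tendsto (fun ε : ℝ => ∫ y in K, inner ℝ (G y) (Q ε y) ∂μ) (𝓝[>] 0) (𝓝 (∫ y in K, k y ∂μ)) := by
  have hm : ∀ᶠ ε : ℝ in 𝓝[>] 0,
      AEStronglyMeasurable (fun y => (inner ℝ (G y) (Q ε y) : ℝ)) (μ.restrict K) := by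
    filter_upwards [hQ] with ε hε
    exact hG.aestronglyMeasurable.inner hε.aestronglyMeasurable
  have hbd : ∀ᶠ ε : ℝ in 𝓝[>] 0, ∀ y, ‖(inner ℝ (G y) (Q ε y) : ℝ)‖ ≤ ‖G y‖ * C := by
    filter_upwards [hC] with ε hε y
    exact (norm_inner_le_norm _ _).trans (mul_le_mul_of_nonneg_left (hε y) (norm_nonneg _))
  have hbi : Integrable (fun y => ‖G y‖ * C) (μ.restrict K) := hG.norm.mul_const C
  constructor
  · have h1 : AEStronglyMeasurable k (μ.restrict K) := by
      -- pass to a sequence along which everything is measurable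
      obtain ⟨s, hs⟩ := exists_seq_tendsto (𝓝[>] (0 : ℝ))
      obtain ⟨N, hN⟩ := eventually_atTop.1 (hs.eventually hm)
      refine aestronglyMeasurable_of_tendsto_ae (f := fun n : ℕ => fun y =>
        (inner ℝ (G y) (Q (s (n + N)) y) : ℝ)) (u := atTop) (fun n => hN _ (by omega)) ?_
      filter_upwards [hlim] with y hy
      exact hy.comp (hs.comp (tendsto_add_atTop_nat N))
    refine hbi.mono' h1 ?_
    filter_upwards [hlim] with y hy
    refine le_of_tendsto hy.norm ?_
    filter_upwards [hbd] with ε hε using hε y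
  · refine tendsto_integral_filter_of_dominated_convergence (fun y => ‖G y‖ * C) hm ?_ hbi hlim
    filter_upwards [hbd] with ε hε
    exact Eventually.of_forall hε

section Main

variable {Ω : Set ℂ} {w : ℂ → ℝ} {g j : ℂ → ℂ} {Ψ : ℂ → ℝ → ℂ}

theorem cr_hasFDerivAt_comp (hΩ : IsOpen Ω)
    (hΨ : ContDiffOn ℝ 1 (fun p : ℂ × ℝ => Ψ p.1 p.2) (Ω ×ˢ univ)) {W : ℂ → ℝ}
    (hW : ContDiff ℝ ∞ W) {x : ℂ} (hx : x ∈ Ω) :
    HasFDerivAt (fun y => Ψ y (W y)) ((fderiv ℝ (fun p : ℂ × ℝ => Ψ p.1 p.2) (x, W x)).comp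
      ((ContinuousLinearMap.id ℝ ℂ).prod (fderiv ℝ W x))) x := by
  have h1 := (cr_differentiableAt hΩ hΨ hx (W x)).hasFDerivAt
  have h2 : HasFDerivAt (fun y : ℂ => ((y, W y) : ℂ × ℝ))
      ((ContinuousLinearMap.id ℝ ℂ).prod (fderiv ℝ W x)) x :=
    (hasFDerivAt_id x).prodMk ((hW.differentiable (by simp)) x).hasFDerivAt
  exact h1.comp x h2

/-- The divergence theorem for the smooth field `Ψ(x, W(x))`. -/
theorem cr_smooth (hΩ : IsOpen Ω)
    (hΨ : ContDiffOn ℝ 1 (fun p : ℂ × ℝ => Ψ p.1 p.2) (Ω ×ˢ univ)) {χ : ℂ → ℝ}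
    (hχ : ContDiff ℝ ∞ χ) (hχc : HasCompactSupport χ) (hχs : tsupport χ ⊆ Ω) {W : ℂ → ℝ}
    (hW : ContDiff ℝ ∞ W) :
    ∫ x, fderiv ℝ χ x (Ψ x (W x)) =
      - (∫ x, χ x * divx Ψ x (W x)) - ∫ x, fderiv ℝ W x (χ x • derivt Ψ x (W x)) := by
  have hWc : Continuous W := hW.continuous
  have hpair : Continuous (fun x : ℂ => ((x, W x) : ℂ × ℝ)) := continuous_id.prodMk hWc
  have hχcont : Continuous χ := hχ.continuous
  have hdW : Continuous (fun x => fderiv ℝ W x) := hW.continuous_fderiv (by simp)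
  have hdχ : Continuous (fun x => fderiv ℝ χ x) := hχ.continuous_fderiv (by simp)
  set D := fderiv ℝ (fun p : ℂ × ℝ => Ψ p.1 p.2) with hD
  -- continuity of the products with `χ`
  have hVcont : ContinuousOn (fun x => Ψ x (W x)) Ω := by
    have h1 : ContinuousOn (fun p : ℂ × ℝ => Ψ p.1 p.2) (Ω ×ˢ univ) := hΨ.continuousOn
    exact h1.comp hpair.continuousOn fun x hx => ⟨hx, mem_univ _⟩
  have hc1 : Continuous (fun x => χ x • derivt Ψ x (W x)) :=
    (cr_continuous_smul hΩ hχcont hχs (cr_derivt_continuousOn hΩ hΨ)).comp hpair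
  have hc2 : Continuous (fun x => χ x • divx Ψ x (W x)) :=
    (cr_continuous_smul hΩ hχcont hχs (cr_divx_continuousOn hΩ hΨ)).comp hpair
  have hc3 : Continuous (fun x => χ x • D (x, W x)) := by
    have h1 : Continuous (fun p : ℂ × ℝ => χ p.1 • D (p.1, p.2)) :=
      cr_continuous_smul (G := fun x t => D (x, t)) hΩ hχcont hχs (cr_fderiv_continuousOn hΩ hΨ)
    exact h1.comp hpair
  have hdχs : ∀ v, tsupport (fun x => fderiv ℝ χ x v) ⊆ Ω := fun v => by
    refine (closure_mono ?_).trans ((tsupport_fderiv_subset ℝ).trans hχs)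
    intro x hx
    rw [Function.mem_support] at hx ⊢
    intro h
    apply hx
    simp [h]
  -- derivative of the composition
  have hV : ∀ x ∈ Ω, HasFDerivAt (fun y => Ψ y (W y)) ((D (x, W x)).comp
      ((ContinuousLinearMap.id ℝ ℂ).prod (fderiv ℝ W x))) x := fun x hx =>
    cr_hasFDerivAt_comp hΩ hΨ hW hx
  have hre : ∀ x ∈ Ω, ∀ v, fderiv ℝ (fun y => (Ψ y (W y)).re) x v =
      (D (x, W x) (v, fderiv ℝ W x v)).re := by
    intro x hx v
    have h1 : HasFDerivAt (fun y => (Ψ y (W y)).re) (Complex.reCLM.comp ((D (x, W x)).comp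
      ((ContinuousLinearMap.id ℝ ℂ).prod (fderiv ℝ W x)))) x :=
      Complex.reCLM.hasFDerivAt.comp x (hV x hx)
    rw [h1.fderiv]
    simp
  have him : ∀ x ∈ Ω, ∀ v, fderiv ℝ (fun y => (Ψ y (W y)).im) x v =
      (D (x, W x) (v, fderiv ℝ W x v)).im := by
    intro x hx v
    have h1 : HasFDerivAt (fun y => (Ψ y (W y)).im) (Complex.imCLM.comp ((D (x, W x)).comp
      ((ContinuousLinearMap.id ℝ ℂ).prod (fderiv ℝ W x)))) x :=
      Complex.imCLM.hasFDerivAt.comp x (hV x hx)
    rw [h1.fderiv]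
    simp
  have hdiffre : ∀ x ∈ tsupport χ, DifferentiableAt ℝ (fun y => (Ψ y (W y)).re) x := fun x hx =>
    (Complex.reCLM.hasFDerivAt.comp x (hV x (hχs hx))).differentiableAt
  have hdiffim : ∀ x ∈ tsupport χ, DifferentiableAt ℝ (fun y => (Ψ y (W y)).im) x := fun x hx =>
    (Complex.imCLM.hasFDerivAt.comp x (hV x (hχs hx))).differentiableAt
  have hdiffχ : Differentiable ℝ χ := hχ.differentiable (by simp)
  have hzero : ∀ x, x ∉ Ω → χ x = 0 := fun x hx =>
    image_eq_zero_of_notMem_tsupport fun h => hx (hχs h)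
  -- real functions supported in the support of `χ`, continuous: integrable
  have hint : ∀ {f : ℂ → ℝ}, Continuous f → (∀ x, χ x = 0 → f x = 0) → Integrable f := by
    intro f hf h0
    refine hf.integrable_of_hasCompactSupport (hχc.mono fun x hx => ?_)
    rw [Function.mem_support] at hx ⊢
    exact fun h => hx (h0 x h)
  have hsmulcont : ∀ {χ' : ℂ → ℝ} (_ : Continuous χ') (_ : tsupport χ' ⊆ Ω) {f : ℂ → ℝ}
      (_ : ContinuousOn f Ω), Continuous (fun x => χ' x * f x) := by
    intro χ' h1 h2 f hf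
    have h3 : ContinuousOn (fun p : ℂ × ℝ => f p.1) (Ω ×ˢ univ) :=
      hf.comp continuous_fst.continuousOn fun p hp => hp.1
    have h4 := cr_continuous_smul (G := fun x _ => f x) hΩ h1 h2 h3
    have h5 := h4.comp (continuous_id.prodMk (continuous_const (y := (0 : ℝ))))
    exact h5
  have hVre : ContinuousOn (fun x => (Ψ x (W x)).re) Ω :=
    Complex.continuous_re.comp_continuousOn hVcont
  have hVim : ContinuousOn (fun x => (Ψ x (W x)).im) Ω :=
    Complex.continuous_im.comp_continuousOn hVcont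
  have hcs : ∀ {f : ℂ → ℝ}, Continuous f → (∀ x, x ∉ tsupport χ → f x = 0) → Integrable f := by
    intro f hf h0
    refine hf.integrable_of_hasCompactSupport ?_
    exact HasCompactSupport.intro hχc h0
  have hdχ0 : ∀ v x, x ∉ tsupport χ → fderiv ℝ χ x v = 0 := fun v x hx => by
    have h1 : x ∉ tsupport (fderiv ℝ χ) := fun h => hx (tsupport_fderiv_subset ℝ h)
    rw [image_eq_zero_of_notMem_tsupport h1]
    rfl
  -- integrate by parts in the two directions
  have e1 : ∫ x, χ x * fderiv ℝ (fun y => (Ψ y (W y)).re) x 1 =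
      - ∫ x, fderiv ℝ χ x 1 * (Ψ x (W x)).re := by
    refine integral_mul_fderiv_eq_neg_fderiv_mul_of_integrable ?_ ?_ ?_
      (fun x _ => hdiffχ x) hdiffre
    · exact hcs (hsmulcont (hdχ.clm_apply continuous_const) (hdχs 1) hVre)
        fun x hx => by rw [hdχ0 1 x hx, zero_mul]
    · have h1 : (fun x => χ x * fderiv ℝ (fun y => (Ψ y (W y)).re) x 1) =
          fun x => ((χ x • D (x, W x)) (1, fderiv ℝ W x 1)).re := by
        funext x
        by_cases hx : x ∈ Ω
        · rw [hre x hx]; simp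
        · rw [hzero x hx]; simp
      rw [h1]
      exact hint (Complex.continuous_re.comp (hc3.clm_apply
        (continuous_const.prodMk (hdW.clm_apply continuous_const)))) fun x hx => by simp [hx]
    · exact hint (hsmulcont hχcont hχs hVre) fun x hx => by rw [hx, zero_mul]
  have e2 : ∫ x, χ x * fderiv ℝ (fun y => (Ψ y (W y)).im) x Complex.I =
      - ∫ x, fderiv ℝ χ x Complex.I * (Ψ x (W x)).im := by
    refine integral_mul_fderiv_eq_neg_fderiv_mul_of_integrable ?_ ?_ ?_
      (fun x _ => hdiffχ x) hdiffim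
    · exact hcs (hsmulcont (hdχ.clm_apply continuous_const) (hdχs Complex.I) hVim)
        fun x hx => by rw [hdχ0 Complex.I x hx, zero_mul]
    · have h1 : (fun x => χ x * fderiv ℝ (fun y => (Ψ y (W y)).im) x Complex.I) =
          fun x => ((χ x • D (x, W x)) (Complex.I, fderiv ℝ W x Complex.I)).im := by
        funext x
        by_cases hx : x ∈ Ω
        · rw [him x hx]; simp
        · rw [hzero x hx]; simp
      rw [h1]
      exact hint (Complex.continuous_im.comp (hc3.clm_apply
        (continuous_const.prodMk (hdW.clm_apply continuous_const)))) fun x hx => by simp [hx]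
    · exact hint (hsmulcont hχcont hχs hVim) fun x hx => by rw [hx, zero_mul]
  -- assemble
  have i1 : Integrable (fun x => fderiv ℝ χ x 1 * (Ψ x (W x)).re) :=
    hcs (hsmulcont (hdχ.clm_apply continuous_const) (hdχs 1) hVre)
        fun x hx => by rw [hdχ0 1 x hx, zero_mul]
  have i2 : Integrable (fun x => fderiv ℝ χ x Complex.I * (Ψ x (W x)).im) :=
    hcs (hsmulcont (hdχ.clm_apply continuous_const) (hdχs Complex.I) hVim)
        fun x hx => by rw [hdχ0 Complex.I x hx, zero_mul]
  have i3 : Integrable (fun x => χ x * divx Ψ x (W x)) := by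
    have := hint hc2 fun x hx => by simp [hx]
    simpa using this
  have i4 : Integrable (fun x => fderiv ℝ W x (χ x • derivt Ψ x (W x))) :=
    hint (hdW.clm_apply hc1) fun x hx => by simp [hx]
  have p1 : ∀ x, fderiv ℝ χ x (Ψ x (W x)) =
      fderiv ℝ χ x 1 * (Ψ x (W x)).re + fderiv ℝ χ x Complex.I * (Ψ x (W x)).im := by
    intro x
    have h1 : Ψ x (W x) = (Ψ x (W x)).re • (1 : ℂ) + (Ψ x (W x)).im • Complex.I := by
      simp [Complex.re_add_im]
    conv_lhs => rw [h1]
    rw [map_add, map_smul, map_smul, smul_eq_mul, smul_eq_mul]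
    ring
  have p2 : ∀ x, χ x * fderiv ℝ (fun y => (Ψ y (W y)).re) x 1 +
      χ x * fderiv ℝ (fun y => (Ψ y (W y)).im) x Complex.I =
      χ x * divx Ψ x (W x) + fderiv ℝ W x (χ x • derivt Ψ x (W x)) := by
    intro x
    by_cases hx : x ∈ Ω
    · rw [hre x hx, him x hx, cr_divx hΩ hΨ hx, cr_derivt hΩ hΨ hx]
      have h1 : ∀ (v : ℂ) (s : ℝ), D (x, W x) (v, s) = D (x, W x) (v, 0) + s • D (x, W x) (0, 1) := by
        intro v s
        rw [← map_smul, ← map_add]
        simp
      rw [h1 1, h1 Complex.I]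
      set T := D (x, W x) (0, 1) with hT
      have h2 : fderiv ℝ W x (χ x • T) = χ x * (T.re * fderiv ℝ W x 1 +
          T.im * fderiv ℝ W x Complex.I) := by
        have h3 : T = T.re • (1 : ℂ) + T.im • Complex.I := by simp [Complex.re_add_im]
        rw [map_smul, smul_eq_mul]
        congr 1
        conv_lhs => rw [h3]
        rw [map_add, map_smul, map_smul, smul_eq_mul, smul_eq_mul]
      rw [h2]
      simp only [Complex.add_re, Complex.add_im, Complex.real_smul, Complex.mul_re, Complex.mul_im,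
        Complex.ofReal_re, Complex.ofReal_im]
      ring
    · rw [hzero x hx]; simp
  have i5 : Integrable (fun x => χ x * fderiv ℝ (fun y => (Ψ y (W y)).re) x 1) := by
    have h1 : (fun x => χ x * fderiv ℝ (fun y => (Ψ y (W y)).re) x 1) =
        fun x => ((χ x • D (x, W x)) (1, fderiv ℝ W x 1)).re := by
      funext x
      by_cases hx : x ∈ Ω
      · rw [hre x hx]; simp
      · rw [hzero x hx]; simp
    rw [h1]
    exact hint (Complex.continuous_re.comp (hc3.clm_apply
      (continuous_const.prodMk (hdW.clm_apply continuous_const)))) fun x hx => by simp [hx]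
  have i6 : Integrable (fun x => χ x * fderiv ℝ (fun y => (Ψ y (W y)).im) x Complex.I) := by
    have h1 : (fun x => χ x * fderiv ℝ (fun y => (Ψ y (W y)).im) x Complex.I) =
        fun x => ((χ x • D (x, W x)) (Complex.I, fderiv ℝ W x Complex.I)).im := by
      funext x
      by_cases hx : x ∈ Ω
      · rw [him x hx]; simp
      · rw [hzero x hx]; simp
    rw [h1]
    exact hint (Complex.continuous_im.comp (hc3.clm_apply
      (continuous_const.prodMk (hdW.clm_apply continuous_const)))) fun x hx => by simp [hx]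
  have q1 : ∫ x, fderiv ℝ χ x (Ψ x (W x)) =
      (∫ x, fderiv ℝ χ x 1 * (Ψ x (W x)).re) + ∫ x, fderiv ℝ χ x Complex.I * (Ψ x (W x)).im := by
    rw [← integral_add i1 i2]
    exact integral_congr_ae (Eventually.of_forall p1)
  have q2 : (∫ x, χ x * fderiv ℝ (fun y => (Ψ y (W y)).re) x 1) +
      ∫ x, χ x * fderiv ℝ (fun y => (Ψ y (W y)).im) x Complex.I =
      (∫ x, χ x * divx Ψ x (W x)) + ∫ x, fderiv ℝ W x (χ x • derivt Ψ x (W x)) := by
    rw [← integral_add i5 i6, ← integral_add i3 i4]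
    exact integral_congr_ae (Eventually.of_forall p2)
  rw [q1]
  linarith

end Main

end Pool.Agent.MP099f24
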