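import Pool.Agent.Lib.MP_099f24_an.Model

/-!
# The conformal map `F` (MP_099f24_an)

Injectivity of `F` modulo `2πi`, the section `sec`, and periodic functions of `ζ` as functions on
`Ω`.
-/

namespace Pool.Agent.MP099f24

open MeasureTheory Filter Topology Set Metric
open scoped ENNReal ContDiff

theorem conf_exp_period (ζ : ℂ) (n : ℤ) :
    Complex.exp (ζ + n * (2 * Real.pi * Complex.I)) = Complex.exp ζ := by
  rw [Complex.exp_add, Complex.exp_int_mul_two_pi_mul_I, mul_one]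

theorem conf_exp_neg_three (ζ : ℂ) : Complex.exp (-(3 * ζ)) = (Complex.exp ζ)⁻¹ ^ 3 := by
  rw [Complex.exp_neg, inv_pow, ← Complex.exp_nat_mul]
  norm_num

theorem conf_F_eq (ζ : ℂ) : F ζ = 3 * Complex.exp ζ - 2 * (Complex.exp ζ)⁻¹ -
    (Complex.exp ζ)⁻¹ ^ 3 / 9 := by
  rw [F, conf_exp_neg_three, Complex.exp_neg]

theorem conf_F'_eq (ζ : ℂ) : F' ζ = 3 * Complex.exp ζ + 2 * (Complex.exp ζ)⁻¹ +
    (Complex.exp ζ)⁻¹ ^ 3 / 3 := by
  rw [F', conf_exp_neg_three, Complex.exp_neg]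

theorem hasDerivAt_F (ζ : ℂ) : HasDerivAt F (F' ζ) ζ := by
  have h1 : HasDerivAt (fun z : ℂ => Complex.exp z) (Complex.exp ζ) ζ := Complex.hasDerivAt_exp ζ
  have h2 : HasDerivAt (fun z : ℂ => Complex.exp (-z)) (Complex.exp (-ζ) * (-1)) ζ :=
    (Complex.hasDerivAt_exp (-ζ)).comp ζ (hasDerivAt_neg ζ)
  have h3 : HasDerivAt (fun z : ℂ => Complex.exp (-(3 * z)))
      (Complex.exp (-(3 * ζ)) * (-(3 * 1))) ζ :=
    (Complex.hasDerivAt_exp (-(3 * ζ))).comp ζ (((hasDerivAt_id ζ).const_mul 3).neg)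
  have h := ((h1.const_mul 3).sub (h2.const_mul 2)).sub (h3.div_const 9)
  refine h.congr_deriv ?_
  rw [F']
  ring

theorem F_period (ζ : ℂ) (n : ℤ) : F (ζ + n * (2 * Real.pi * Complex.I)) = F ζ := by
  rw [conf_F_eq, conf_F_eq, conf_exp_period]

theorem F'_period (ζ : ℂ) (n : ℤ) : F' (ζ + n * (2 * Real.pi * Complex.I)) = F' ζ := by
  rw [conf_F'_eq, conf_F'_eq, conf_exp_period]

theorem norm_F' (ζ : ℂ) : ‖F' ζ‖ = rho ζ := by
  have h1 : F' ζ = Complex.exp ζ * (3 + Complex.exp (-(2 * ζ))) ^ 2 / 3 := by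
    have h2 : Complex.exp (-(2 * ζ)) = (Complex.exp ζ)⁻¹ ^ 2 := by
      rw [Complex.exp_neg, inv_pow, ← Complex.exp_nat_mul]
      norm_num
    rw [conf_F'_eq, h2]
    have h0 := Complex.exp_ne_zero ζ
    field_simp
    ring
  have h3 : ‖(3 + Complex.exp (-(2 * ζ)))‖ ^ 2 = 9 + 6 * Real.exp (-(2 * ζ.re)) *
      Real.cos (2 * ζ.im) + Real.exp (-(2 * ζ.re)) ^ 2 := by
    rw [← Complex.normSq_eq_norm_sq, Complex.normSq_apply]
    have hre : (3 + Complex.exp (-(2 * ζ))).re = 3 + Real.exp (-(2 * ζ.re)) *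
        Real.cos (2 * ζ.im) := by
      simp [Complex.exp_re]
    have him : (3 + Complex.exp (-(2 * ζ))).im = - (Real.exp (-(2 * ζ.re)) *
        Real.sin (2 * ζ.im)) := by
      simp [Complex.exp_im]
    rw [hre, him]
    have hsc := Real.sin_sq_add_cos_sq (2 * ζ.im)
    linear_combination (Real.exp (-(2 * ζ.re))) ^ 2 * hsc
  rw [h1, norm_div, norm_mul, norm_pow, h3, Complex.norm_exp, rho]
  have h4 : Real.exp (-ζ.re) = (Real.exp ζ.re)⁻¹ := Real.exp_neg _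
  have h5 : Real.exp (-(3 * ζ.re)) = (Real.exp ζ.re)⁻¹ ^ 3 := by
    rw [Real.exp_neg, inv_pow, ← Real.exp_nat_mul]
    norm_num
  have h6 : Real.exp (-(2 * ζ.re)) = (Real.exp ζ.re)⁻¹ ^ 2 := by
    rw [Real.exp_neg, inv_pow, ← Real.exp_nat_mul]
    norm_num
  rw [h4, h5, h6]
  have h0 := (Real.exp_pos ζ.re).ne'
  have h7 : ‖(3 : ℂ)‖ = 3 := by norm_num
  rw [h7]
  field_simp
  ring

theorem conf_exp_bounds {t : ℝ} (h : |t| ≤ 1 / 100) :
    (99 : ℝ) / 100 ≤ Real.exp t ∧ Real.exp (-t) ≤ 100 / 99 := by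
  rw [abs_le] at h
  have h1 : (99 : ℝ) / 100 ≤ Real.exp t := by linarith [Real.add_one_le_exp t, h.1]
  refine ⟨h1, ?_⟩
  rw [Real.exp_neg]
  rw [inv_le_comm₀ (Real.exp_pos _) (by norm_num)]
  linarith

theorem one_le_rho {ζ : ℂ} (h : |ζ.re| ≤ 1 / 100) : 1 ≤ rho ζ := by
  have hb := conf_exp_bounds h
  have hc := Real.neg_one_le_cos (2 * ζ.im)
  have h3 : (97 : ℝ) / 100 ≤ Real.exp (-(3 * ζ.re)) := by
    rw [abs_le] at h
    linarith [Real.add_one_le_exp (-(3 * ζ.re)), h.1, h.2]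
  have h2 : -(2 * Real.exp (-ζ.re)) ≤ 2 * Real.exp (-ζ.re) * Real.cos (2 * ζ.im) := by
    nlinarith [Real.exp_pos (-ζ.re)]
  rw [rho]
  linarith [hb.1, hb.2]

theorem conf_F'_ne {ζ : ℂ} (h : |ζ.re| ≤ 1 / 100) : F' ζ ≠ 0 := by
  intro h0
  have h1 := one_le_rho h
  rw [← norm_F', h0, norm_zero] at h1
  linarith

theorem conf_strip {ζ : ℂ} (h : ζ ∈ strip del) : |ζ.re| ≤ 1 / 100 := by
  have h1 : |ζ.re| < del := h
  rw [del] at h1
  linarith

theorem F_inj {ζ ζ' : ℂ} (h : |ζ.re| ≤ 1 / 100) (h' : |ζ'.re| ≤ 1 / 100) (hF : F ζ = F ζ') :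
    ∃ n : ℤ, ζ = ζ' + n * (2 * Real.pi * Complex.I) := by
  apply Complex.exp_eq_exp_iff_exists_int.1
  rw [conf_F_eq, conf_F_eq] at hF
  have hq := Complex.exp_ne_zero ζ
  have hp := Complex.exp_ne_zero ζ'
  have nq : ‖(Complex.exp ζ)⁻¹‖ ≤ 100 / 99 := by
    rw [norm_inv, Complex.norm_exp, ← Real.exp_neg]
    exact (conf_exp_bounds h).2
  have np : ‖(Complex.exp ζ')⁻¹‖ ≤ 100 / 99 := by
    rw [norm_inv, Complex.norm_exp, ← Real.exp_neg]
    exact (conf_exp_bounds h').2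
  by_contra hne
  have key : 3 + 2 * ((Complex.exp ζ)⁻¹ * (Complex.exp ζ')⁻¹) +
      ((Complex.exp ζ)⁻¹ * (Complex.exp ζ')⁻¹ ^ 3 + (Complex.exp ζ)⁻¹ ^ 2 *
      (Complex.exp ζ')⁻¹ ^ 2 + (Complex.exp ζ)⁻¹ ^ 3 * (Complex.exp ζ')⁻¹) / 9 = 0 := by
    have hs : Complex.exp ζ - Complex.exp ζ' ≠ 0 := sub_ne_zero.2 hne
    apply mul_left_cancel₀ hs
    rw [mul_zero]
    have e : (Complex.exp ζ - Complex.exp ζ') * (3 + 2 * ((Complex.exp ζ)⁻¹ * (Complex.exp ζ')⁻¹) +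
      ((Complex.exp ζ)⁻¹ * (Complex.exp ζ')⁻¹ ^ 3 + (Complex.exp ζ)⁻¹ ^ 2 *
      (Complex.exp ζ')⁻¹ ^ 2 + (Complex.exp ζ)⁻¹ ^ 3 * (Complex.exp ζ')⁻¹) / 9) =
      (3 * Complex.exp ζ - 2 * (Complex.exp ζ)⁻¹ - (Complex.exp ζ)⁻¹ ^ 3 / 9) -
      (3 * Complex.exp ζ' - 2 * (Complex.exp ζ')⁻¹ - (Complex.exp ζ')⁻¹ ^ 3 / 9) := by
      field_simp
      ring
    rw [e, hF, sub_self]
  generalize (Complex.exp ζ)⁻¹ = a at *
  generalize (Complex.exp ζ')⁻¹ = b at *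
  have e2 : (3 : ℂ) = -(2 * (a * b) + (a * b ^ 3 + a ^ 2 * b ^ 2 + a ^ 3 * b) / 9) := by
    linear_combination key
  have n3 : (3 : ℝ) = ‖(3 : ℂ)‖ := by norm_num
  have bd : ‖(3 : ℂ)‖ ≤ 2 * (‖a‖ * ‖b‖) + (‖a‖ * ‖b‖ ^ 3 + ‖a‖ ^ 2 * ‖b‖ ^ 2 + ‖a‖ ^ 3 * ‖b‖) / 9 := by
    rw [e2, norm_neg]
    refine (norm_add_le _ _).trans ?_
    refine add_le_add ?_ ?_
    · rw [norm_mul, norm_mul]
      norm_num
    · rw [norm_div]
      have h9 : ‖(9 : ℂ)‖ = 9 := by norm_num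
      rw [h9]
      refine div_le_div_of_nonneg_right ?_ (by norm_num)
      refine (norm_add_le _ _).trans ?_
      refine add_le_add ((norm_add_le _ _).trans (add_le_add ?_ ?_)) ?_
      · rw [norm_mul, norm_pow]
      · rw [norm_mul, norm_pow, norm_pow]
      · rw [norm_mul, norm_pow]
  have hA := norm_nonneg a
  have hB := norm_nonneg b
  have c1 : ‖a‖ * ‖b‖ ≤ (100 / 99) * (100 / 99) := mul_le_mul nq np hB (by norm_num)
  have c2 : ‖a‖ * ‖b‖ ^ 3 ≤ (100 / 99) * (100 / 99) ^ 3 :=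
    mul_le_mul nq (pow_le_pow_left₀ hB np 3) (by positivity) (by norm_num)
  have c3 : ‖a‖ ^ 2 * ‖b‖ ^ 2 ≤ (100 / 99) ^ 2 * (100 / 99) ^ 2 :=
    mul_le_mul (pow_le_pow_left₀ hA nq 2) (pow_le_pow_left₀ hB np 2) (by positivity) (by norm_num)
  have c4 : ‖a‖ ^ 3 * ‖b‖ ≤ (100 / 99) ^ 3 * (100 / 99) :=
    mul_le_mul (pow_le_pow_left₀ hA nq 3) np hB (by norm_num)
  norm_num at c1 c2 c3 c4
  linarith

theorem conf_contDiff_F : ContDiff ℂ ω F := by
  unfold F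
  fun_prop

theorem conf_strict (ζ : ℂ) : HasStrictDerivAt F (F' ζ) ζ :=
  (conf_contDiff_F.contDiffAt.of_le le_top).hasStrictDerivAt' (hasDerivAt_F ζ) (n := 1)
    (by norm_num)

theorem conf_isOpen_image {U : Set ℂ} (hU : IsOpen U) (hs : ∀ ζ ∈ U, |ζ.re| ≤ 1 / 100) :
    IsOpen (F '' U) := by
  rw [isOpen_iff_mem_nhds]
  rintro _ ⟨ζ, hζ, rfl⟩
  rw [← (conf_strict ζ).map_nhds_eq (conf_F'_ne (hs ζ hζ))]
  exact image_mem_map (hU.mem_nhds hζ)

theorem conf_isOpen_strip (r : ℝ) : IsOpen (strip r) :=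
  isOpen_lt (Complex.continuous_re.abs) continuous_const

theorem isOpen_Om : IsOpen Om :=
  conf_isOpen_image (conf_isOpen_strip _) fun _ h => conf_strip h

theorem isOpen_OmOut : IsOpen OmOut := by
  refine conf_isOpen_image ?_ ?_
  · exact (isOpen_lt continuous_const Complex.continuous_re).inter
      (isOpen_lt Complex.continuous_re continuous_const)
  · rintro ζ ⟨h1, h2⟩
    apply conf_strip
    show |ζ.re| < del
    rw [abs_lt]
    exact ⟨by linarith [h1], h2⟩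

theorem sec_mem {x : ℂ} (hx : x ∈ Om) : sec x ∈ strip del := by
  have h : ∃ ζ ∈ strip del, F ζ = x := hx
  rw [sec, dif_pos h]
  exact h.choose_spec.1

theorem F_sec {x : ℂ} (hx : x ∈ Om) : F (sec x) = x := by
  have h : ∃ ζ ∈ strip del, F ζ = x := hx
  rw [sec, dif_pos h]
  exact h.choose_spec.2

theorem sec_F {ζ : ℂ} (hζ : ζ ∈ strip del) :
    ∃ n : ℤ, sec (F ζ) = ζ + n * (2 * Real.pi * Complex.I) := by
  have hx : F ζ ∈ Om := mem_image_of_mem F hζ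
  exact F_inj (conf_strip (sec_mem hx)) (conf_strip hζ) (F_sec hx)

theorem conf_re_period (ζ : ℂ) (n : ℤ) :
    (ζ + n * (2 * Real.pi * Complex.I)).re = ζ.re := by
  simp

theorem mem_OmOut_iff {x : ℂ} (hx : x ∈ Om) : x ∈ OmOut ↔ 0 < (sec x).re := by
  constructor
  · rintro ⟨ζ, ⟨h1, h2⟩, rfl⟩
    have hζ : ζ ∈ strip del := by
      show |ζ.re| < del
      rw [abs_lt]
      exact ⟨by linarith, h2⟩
    obtain ⟨n, hn⟩ := sec_F hζ
    rw [hn, conf_re_period]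
    exact h1
  · intro h
    refine ⟨sec x, ⟨h, ?_⟩, F_sec hx⟩
    have h2 : |(sec x).re| < del := sec_mem hx
    exact (abs_lt.1 h2).2

theorem mem_range_loop_iff {x : ℂ} (hx : x ∈ Om) : x ∈ range loop ↔ (sec x).re = 0 := by
  constructor
  · rintro ⟨α, rfl⟩
    have hζ : (α * Complex.I : ℂ) ∈ strip del := by
      show |(α * Complex.I : ℂ).re| < del
      rw [del]
      simp
    obtain ⟨n, hn⟩ := sec_F hζ
    rw [loop, hn, conf_re_period]
    simp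
  · intro h
    refine ⟨(sec x).im, ?_⟩
    rw [loop]
    have : (((sec x).im : ℝ) * Complex.I : ℂ) = sec x := by
      apply Complex.ext <;> simp [h]
    rw [this, F_sec hx]

/-- A local inverse of `F`. -/
theorem conf_local_inverse {x : ℂ} (hx : x ∈ Om) :
    ∃ l : ℂ → ℂ, l x = sec x ∧ ContDiffAt ℂ ω l x ∧ HasDerivAt l (F' (sec x))⁻¹ x ∧
      (∀ᶠ y in 𝓝 x, ∃ n : ℤ, sec y = l y + n * (2 * Real.pi * Complex.I)) := by
  have hne : F' (sec x) ≠ 0 := conf_F'_ne (conf_strip (sec_mem hx))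
  have hs := conf_strict (sec x)
  have hfx := F_sec hx
  have hc : ContDiffAt ℂ ω F (sec x) := conf_contDiff_F.contDiffAt
  have hs' := (hs.hasStrictFDerivAt_equiv hne)
  have h1 : hc.localInverse hs'.hasFDerivAt (by simp) (F (sec x)) = sec x :=
    hc.localInverse_apply_image hs'.hasFDerivAt (by simp)
  have h2 : ContDiffAt ℂ ω (hc.localInverse hs'.hasFDerivAt (by simp)) (F (sec x)) :=
    hc.to_localInverse hs'.hasFDerivAt (by simp)
  have h3 : ∀ᶠ y in 𝓝 (F (sec x)), F (hc.localInverse hs'.hasFDerivAt (by simp) y) = y :=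
    (hc.hasStrictFDerivAt' hs'.hasFDerivAt (by simp)).eventually_right_inverse
  rw [hfx] at h1 h2 h3
  generalize hc.localInverse hs'.hasFDerivAt (by simp) = l at h1 h2 h3
  have hstr : ∀ᶠ y in 𝓝 x, l y ∈ strip del := by
    have hcont : ContinuousAt l x := h2.continuousAt
    apply hcont.eventually
    rw [h1]
    exact (conf_isOpen_strip del).mem_nhds (sec_mem hx)
  refine ⟨l, h1, h2, ?_, ?_⟩
  · have hd : HasDerivAt l (deriv l x) x := (h2.differentiableAt (by simp)).hasDerivAt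
    have hcomp : HasDerivAt (fun y => F (l y)) (F' (l x) * deriv l x) x :=
      (hasDerivAt_F (l x)).comp x hd
    have hid : HasDerivAt (fun y => F (l y)) 1 x :=
      (hasDerivAt_id x).congr_of_eventuallyEq h3
    have he := hcomp.unique hid
    rw [h1] at he
    rw [← eq_inv_of_mul_eq_one_right he]
    exact hd
  · filter_upwards [h3, hstr] with y hy hy'
    obtain ⟨n, hn⟩ := sec_F hy'
    rw [hy] at hn
    exact ⟨n, hn⟩

/-- Periodic functions of `ζ` as functions of `x ∈ Ω`: derivative. -/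
theorem hasFDerivAt_comp_sec {E : Type*} [NormedAddCommGroup E] [NormedSpace ℝ E] {G : ℂ → E}
    (hper : ∀ ζ : ℂ, ∀ n : ℤ, G (ζ + n * (2 * Real.pi * Complex.I)) = G ζ) {x : ℂ} (hx : x ∈ Om)
    {L : ℂ →L[ℝ] E} (hG : HasFDerivAt G L (sec x)) :
    HasFDerivAt (fun y => G (sec y))
      (L.comp (ContinuousLinearMap.mul ℝ ℂ (F' (sec x))⁻¹)) x := by
  obtain ⟨l, h1, h2, h3, h4⟩ := conf_local_inverse hx
  have hl : HasFDerivAt l (ContinuousLinearMap.mul ℝ ℂ (F' (sec x))⁻¹) x := by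
    have := h3.hasFDerivAt.restrictScalars ℝ
    refine this.congr_fderiv ?_
    ext v
    simp [mul_comm]
  rw [← h1] at hG
  have hcomp := hG.comp x hl
  refine hcomp.congr_of_eventuallyEq ?_
  filter_upwards [h4] with y hy
  obtain ⟨n, hn⟩ := hy
  rw [hn, hper]
  rfl

/-- Periodic functions of `ζ` (with a parameter) as functions of `x ∈ Ω`: regularity. -/
theorem contDiffOn_comp_sec {E P : Type*} [NormedAddCommGroup E] [NormedSpace ℝ E]
    [NormedAddCommGroup P] [NormedSpace ℝ P] {n : WithTop ℕ∞} {G : ℂ → P → E}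
    (hper : ∀ ζ : ℂ, ∀ n : ℤ, G (ζ + n * (2 * Real.pi * Complex.I)) = G ζ)
    (hG : ContDiffOn ℝ n (fun p : ℂ × P => G p.1 p.2) (strip del ×ˢ univ)) :
    ContDiffOn ℝ n (fun p : ℂ × P => G (sec p.1) p.2) (Om ×ˢ univ) := by
  rintro ⟨x, p⟩ ⟨hx, -⟩
  apply ContDiffAt.contDiffWithinAt
  obtain ⟨l, h1, h2, h3, h4⟩ := conf_local_inverse hx
  have hopen : IsOpen (strip del ×ˢ (univ : Set P)) := (conf_isOpen_strip del).prod isOpen_univ
  have hGat : ContDiffAt ℝ n (fun p : ℂ × P => G p.1 p.2) (l x, p) := by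
    apply hG.contDiffAt
    apply hopen.mem_nhds
    rw [h1]
    exact ⟨sec_mem hx, mem_univ _⟩
  have hlR : ContDiffAt ℝ n l x := (h2.restrict_scalars ℝ).of_le le_top
  have hmap : ContDiffAt ℝ n (fun q : ℂ × P => (l q.1, q.2)) (x, p) := by
    refine ContDiffAt.prodMk ?_ contDiffAt_snd
    exact ContDiffAt.comp (x, p) (g := l) (f := Prod.fst) hlR contDiffAt_fst
  have hcomp : ContDiffAt ℝ n (fun q : ℂ × P => G (l q.1) q.2) (x, p) :=
    ContDiffAt.comp (x, p) (g := fun p : ℂ × P => G p.1 p.2)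
      (f := fun q : ℂ × P => (l q.1, q.2)) hGat hmap
  refine hcomp.congr_of_eventuallyEq ?_
  have h5 : ∀ᶠ q : ℂ × P in 𝓝 (x, p), ∃ n : ℤ, sec q.1 = l q.1 + n * (2 * Real.pi * Complex.I) :=
    (continuous_fst.tendsto (x, p)).eventually h4
  filter_upwards [h5] with q hq
  obtain ⟨m, hm⟩ := hq
  rw [hm, hper]

end Pool.Agent.MP099f24
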