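import Pool.Agent.Lib.MP_099f24_an.Conf

/-!
# The divergence theorem on the outer side of the loop (MP_099f24_an)
-/

namespace Pool.Agent.MP099f24

open MeasureTheory Filter Topology Set Metric
open scoped ENNReal ContDiff

/-- Integral over a rectangle as an iterated integral. -/
theorem green_conv {E : Type*} [NormedAddCommGroup E] [NormedSpace ℝ E] {Φ : ℂ → E}
    (hΦ : Continuous Φ) {a b c d : ℝ} (hab : a ≤ b) (hcd : c ≤ d) :
    ∫ ζ in (Ioo a b ×ℂ Ico c d), Φ ζ =
      ∫ x in a..b, ∫ y in c..d, Φ (x + y * Complex.I) := by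
  rw [← (Complex.volume_preserving_equiv_real_prod.symm _).setIntegral_preimage_emb
    (MeasurableEquiv.measurableEmbedding _)]
  have h1 : (Complex.measurableEquivRealProd.symm ⁻¹' (Ioo a b ×ℂ Ico c d) : Set (ℝ × ℝ)) =
      Ioo a b ×ˢ Ico c d := rfl
  have h2 : ∀ p : ℝ × ℝ, Complex.measurableEquivRealProd.symm p = p.1 + p.2 * Complex.I := by
    rintro ⟨x, y⟩
    exact Complex.mk_eq_add_mul_I x y
  rw [h1]
  simp only [h2]
  have hc : Continuous fun p : ℝ × ℝ => Φ (p.1 + p.2 * Complex.I) := by fun_prop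
  have h3 : IntegrableOn (fun p : ℝ × ℝ => Φ (p.1 + p.2 * Complex.I)) (Ioo a b ×ˢ Ico c d)
      (volume.prod volume) := by
    have h4 : IntegrableOn (fun p : ℝ × ℝ => Φ (p.1 + p.2 * Complex.I)) (Icc a b ×ˢ Icc c d)
        (volume.prod volume) :=
      hc.continuousOn.integrableOn_compact (isCompact_Icc.prod isCompact_Icc)
    exact h4.mono_set (prod_mono Ioo_subset_Icc_self Ico_subset_Icc_self)
  rw [Measure.volume_eq_prod, setIntegral_prod _ h3, intervalIntegral.integral_of_le hab,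
    ← integral_Ioc_eq_integral_Ioo]
  apply setIntegral_congr_fun measurableSet_Ioc
  intro x _
  simp only
  rw [intervalIntegral.integral_of_le hcd, integral_Ico_eq_integral_Ioo,
    integral_Ioc_eq_integral_Ioo]

theorem green_det (z : ℂ) : (z • (1 : ℂ →L[ℝ] ℂ)).det = ‖z‖ ^ 2 := by
  have h1 := Algebra.norm_complex_apply z
  rw [Algebra.norm_apply, Complex.normSq_eq_norm_sq] at h1
  rw [← h1]
  rfl

theorem green_image : F '' (Ioo 0 del ×ℂ Ico 0 (2 * Real.pi)) = OmOut := by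
  apply Subset.antisymm
  · rintro _ ⟨ζ, hζ, rfl⟩
    exact ⟨ζ, ⟨hζ.1.1, hζ.1.2⟩, rfl⟩
  · rintro _ ⟨ζ, hζ, rfl⟩
    obtain ⟨n, hn⟩ : ∃ n : ℤ, n = ⌊ζ.im / (2 * Real.pi)⌋ := ⟨_, rfl⟩
    have hpi : 0 < 2 * Real.pi := by positivity
    refine ⟨ζ + ((-n : ℤ) : ℂ) * (2 * Real.pi * Complex.I), ?_, F_period ζ (-n)⟩
    have hre : (ζ + ((-n : ℤ) : ℂ) * (2 * Real.pi * Complex.I)).re = ζ.re := by simp
    have him : (ζ + ((-n : ℤ) : ℂ) * (2 * Real.pi * Complex.I)).im =
        ζ.im - n * (2 * Real.pi) := by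
      simp
      ring
    rw [Complex.mem_reProdIm, hre, him]
    refine ⟨hζ, ?_, ?_⟩
    · have h1 : (n : ℝ) ≤ ζ.im / (2 * Real.pi) := by
        rw [hn]
        exact Int.floor_le _
      rw [le_div_iff₀ hpi] at h1
      linarith
    · have h1 : ζ.im / (2 * Real.pi) < n + 1 := by
        rw [hn]
        exact Int.lt_floor_add_one _
      rw [div_lt_iff₀ hpi] at h1
      linarith

theorem green_injOn : InjOn F (Ioo 0 del ×ℂ Ico 0 (2 * Real.pi)) := by
  intro ζ hζ ζ' hζ' hF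
  have hdel : del = 1 / 10000 := rfl
  have habs : ∀ ζ : ℂ, ζ ∈ Ioo 0 del ×ℂ Ico 0 (2 * Real.pi) → |ζ.re| ≤ 1 / 100 := by
    intro ζ hζ
    rw [abs_of_pos hζ.1.1]
    have h1 := hζ.1.2
    rw [hdel] at h1
    linarith
  obtain ⟨n, hn⟩ := F_inj (habs ζ hζ) (habs ζ' hζ') hF
  have him : ζ.im = ζ'.im + n * (2 * Real.pi) := by
    rw [hn]
    simp
  have hpi : 0 < 2 * Real.pi := by positivity
  have h1 := hζ.2.1
  have h2 := hζ.2.2
  have h3 := hζ'.2.1
  have h4 := hζ'.2.2
  have hn0 : n = 0 := by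
    by_contra hne
    rcases lt_or_gt_of_ne hne with h | h
    · have h5 : (n : ℝ) ≤ -1 := by exact_mod_cast Int.le_sub_one_of_lt h
      nlinarith
    · have h5 : (1 : ℝ) ≤ n := by exact_mod_cast h
      nlinarith
  rw [hn, hn0]
  simp

theorem green_meas : MeasurableSet (Ioo 0 del ×ℂ Ico 0 (2 * Real.pi)) :=
  (measurableSet_Ioo.preimage Complex.measurable_re).inter
    (measurableSet_Ico.preimage Complex.measurable_im)

theorem green_F (ζ : ℂ) : HasFDerivAt F (F' ζ • (1 : ℂ →L[ℝ] ℂ)) ζ :=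
  (hasDerivAt_F ζ).complexToReal_fderiv

theorem green_contF : Continuous F := by
  unfold F
  fun_prop

theorem green_contF' : Continuous F' := by
  unfold F'
  fun_prop

theorem green_F' (ζ : ℂ) : HasFDerivAt F' (deriv F' ζ • (1 : ℂ →L[ℝ] ℂ)) ζ := by
  have h1 : DifferentiableAt ℂ F' ζ := by
    unfold F'
    fun_prop
  exact h1.hasDerivAt.complexToReal_fderiv

theorem green {h : ℂ → ℝ} (hh : ContDiff ℝ 1 h) (hc : HasCompactSupport h) (hs : tsupport h ⊆ Om)
    (v : ℂ) :
    ∫ x in OmOut, fderiv ℝ h x v =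
      - ∫ α in (0 : ℝ)..(2 * Real.pi), inner ℝ (F' (α * Complex.I)) v * h (loop α) := by
  have hdel : del = 1 / 10000 := rfl
  have hdel0 : 0 ≤ del := by rw [hdel]; norm_num
  have hpi : 0 ≤ 2 * Real.pi := by positivity
  -- change of variables
  have h1 : ∫ x in OmOut, fderiv ℝ h x v = ∫ ζ in (Ioo 0 del ×ℂ Ico 0 (2 * Real.pi)),
      ‖F' ζ‖ ^ 2 * fderiv ℝ h (F ζ) v := by
    rw [← green_image, integral_image_eq_integral_abs_det_fderiv_smul volume green_meas
      (fun ζ _ => (green_F ζ).hasFDerivWithinAt) green_injOn]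
    apply setIntegral_congr_fun green_meas
    intro ζ _
    simp only
    rw [green_det, abs_of_nonneg (by positivity), smul_eq_mul]
  -- the complex form
  let f : ℂ → ℂ := fun ζ => (h (F ζ) : ℂ) * ((starRingEnd ℂ) v * F' ζ)
  let L : ℂ → ℂ →L[ℝ] ℂ := fun ζ => Complex.ofRealCLM.comp
    ((fderiv ℝ h (F ζ)).comp (F' ζ • (1 : ℂ →L[ℝ] ℂ)))
  let f' : ℂ → ℂ →L[ℝ] ℂ := fun ζ => (h (F ζ) : ℂ) •
    ((starRingEnd ℂ) v • (deriv F' ζ • (1 : ℂ →L[ℝ] ℂ))) + ((starRingEnd ℂ) v * F' ζ) • L ζ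
  have hL : ∀ ζ, HasFDerivAt (fun ζ => (h (F ζ) : ℂ)) (L ζ) ζ := by
    intro ζ
    have h2 : HasFDerivAt h (fderiv ℝ h (F ζ)) (F ζ) :=
      ((hh.differentiable one_ne_zero) (F ζ)).hasFDerivAt
    exact (Complex.ofRealCLM.hasFDerivAt.comp ζ (h2.comp ζ (green_F ζ)))
  have hf : ∀ ζ, HasFDerivAt f (f' ζ) ζ := by
    intro ζ
    exact (hL ζ).mul ((green_F' ζ).const_mul ((starRingEnd ℂ) v))
  let Φ : ℂ → ℂ := fun ζ => ((starRingEnd ℂ) v * F' ζ) *
    (Complex.I * (fderiv ℝ h (F ζ) (F' ζ) : ℝ) - (fderiv ℝ h (F ζ) (F' ζ * Complex.I) : ℝ))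
  have hΦ : ∀ ζ, Complex.I • f' ζ 1 - f' ζ Complex.I = Φ ζ := by
    intro ζ
    simp only [f', L, Φ, add_apply, smul_apply, ContinuousLinearMap.comp_apply,
      one_apply_eq_self, smul_eq_mul, mul_one, Complex.ofRealCLM_apply]
    ring
  have hΦc : Continuous Φ := by
    have h2 : Continuous fun ζ => fderiv ℝ h (F ζ) (F' ζ) :=
      ((hh.continuous_fderiv one_ne_zero).comp green_contF).clm_apply green_contF'
    have h3 : Continuous fun ζ => fderiv ℝ h (F ζ) (F' ζ * Complex.I) :=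
      ((hh.continuous_fderiv one_ne_zero).comp green_contF).clm_apply
        (green_contF'.mul continuous_const)
    have h4 := green_contF'
    exact (continuous_const.mul h4).mul ((continuous_const.mul
      (Complex.continuous_ofReal.comp h2)).sub (Complex.continuous_ofReal.comp h3))
  have hΦim : ∀ ζ, (Φ ζ).im = ‖F' ζ‖ ^ 2 * fderiv ℝ h (F ζ) v := by
    intro ζ
    obtain ⟨w, hw⟩ : ∃ w, w = (starRingEnd ℂ) v * F' ζ := ⟨_, rfl⟩
    have h2 : (Φ ζ).im = w.re * fderiv ℝ h (F ζ) (F' ζ) -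
        w.im * fderiv ℝ h (F ζ) (F' ζ * Complex.I) := by
      simp only [Φ]
      rw [← hw]
      simp [Complex.mul_im, Complex.mul_re]
      ring
    have h3 : ‖F' ζ‖ ^ 2 * fderiv ℝ h (F ζ) v = fderiv ℝ h (F ζ) ((‖F' ζ‖ ^ 2 : ℝ) • v) := by
      rw [map_smul, smul_eq_mul]
    have h4 : ((‖F' ζ‖ ^ 2 : ℝ) • v : ℂ) = w.re • F' ζ - w.im • (F' ζ * Complex.I) := by
      have h5 : (w.re • F' ζ - w.im • (F' ζ * Complex.I) : ℂ) = F' ζ * (starRingEnd ℂ) w := by
        rw [Complex.real_smul, Complex.real_smul]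
        have h6 : (starRingEnd ℂ) w = w.re - w.im * Complex.I := by
          apply Complex.ext <;> simp
        rw [h6]
        ring
      rw [h5, hw, map_mul, Complex.conj_conj, Complex.real_smul]
      have h7 : F' ζ * (v * (starRingEnd ℂ) (F' ζ)) = (F' ζ * (starRingEnd ℂ) (F' ζ)) * v := by
        ring
      rw [h7, Complex.mul_conj, Complex.normSq_eq_norm_sq]
    rw [h2, h3, h4, map_sub, map_smul, map_smul, smul_eq_mul, smul_eq_mul]
  -- the rectangle
  have hfc : Continuous f := by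
    have h2 := green_contF
    have h3 := green_contF'
    have h4 := hh.continuous
    exact (Complex.continuous_ofReal.comp (h4.comp h2)).mul (continuous_const.mul h3)
  obtain ⟨w, hw⟩ : ∃ w : ℂ, w = ⟨del, 2 * Real.pi⟩ := ⟨_, rfl⟩
  have hrect := Complex.integral_boundary_rect_of_continuousOn_of_hasFDerivAt_real f f' 0 w
    hfc.continuousOn (fun x _ => hf x) (by
      simp only [hΦ]
      apply hΦc.continuousOn.integrableOn_compact
      exact isCompact_uIcc.reProdIm isCompact_uIcc)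
  simp only [hΦ] at hrect
  have hwre : w.re = del := by rw [hw]
  have hwim : w.im = 2 * Real.pi := by rw [hw]
  rw [hwre, hwim, Complex.zero_re, Complex.zero_im, ← green_conv hΦc hdel0 hpi] at hrect
  -- the boundary terms
  have hper : ∀ x : ℝ, f (x + ((2 * Real.pi : ℝ) : ℂ) * Complex.I) =
      f (x + ((0 : ℝ) : ℂ) * Complex.I) := by
    intro x
    have h2 : (x + ((2 * Real.pi : ℝ) : ℂ) * Complex.I : ℂ) =
        (x + ((0 : ℝ) : ℂ) * Complex.I) + ((1 : ℤ) : ℂ) * (2 * Real.pi * Complex.I) := by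
      push_cast
      ring
    simp only [f]
    rw [h2, F_period, F'_period]
  have hright : ∀ y : ℝ, f (del + y * Complex.I) = 0 := by
    intro y
    have h2 : F (del + y * Complex.I) ∉ Om := by
      rintro ⟨ζ', hζ', hF⟩
      have h3 : |ζ'.re| < del := hζ'
      have h4 : (del + y * Complex.I : ℂ).re = del := by simp
      obtain ⟨n, hn⟩ := F_inj (ζ := ζ') (ζ' := del + y * Complex.I) (by
        rw [hdel] at h3
        linarith) (by
        rw [h4, abs_of_nonneg hdel0, hdel]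
        norm_num) hF
      have h5 : ζ'.re = del := by
        rw [hn]
        simp
      rw [h5, abs_of_nonneg hdel0] at h3
      exact lt_irrefl _ h3
    have h3 : h (F (del + y * Complex.I)) = 0 :=
      image_eq_zero_of_notMem_tsupport fun h4 => h2 (hs h4)
    simp only [f]
    rw [h3, Complex.ofReal_zero, zero_mul]
  simp only [hper, hright, sub_self, intervalIntegral.integral_zero, smul_zero, zero_add,
    zero_sub] at hrect
  have him : (∫ ζ in (Ioo 0 del ×ℂ Ico 0 (2 * Real.pi)), Φ ζ).im =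
      ∫ ζ in (Ioo 0 del ×ℂ Ico 0 (2 * Real.pi)), (Φ ζ).im := by
    have h2 : IntegrableOn Φ (Ioo 0 del ×ℂ Ico 0 (2 * Real.pi)) := by
      have h3 : IntegrableOn Φ (Icc 0 del ×ℂ Icc 0 (2 * Real.pi)) :=
        hΦc.continuousOn.integrableOn_compact (isCompact_Icc.reProdIm isCompact_Icc)
      exact h3.mono_set (fun z hz => ⟨Ioo_subset_Icc_self hz.1, Ico_subset_Icc_self hz.2⟩)
    exact (Complex.imCLM.integral_comp_comm h2).symm
  rw [h1]
  simp only [← hΦim]
  rw [← him, ← hrect]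
  have hre : ∀ z : ℂ, (-(Complex.I • z)).im = -z.re := by
    intro z
    simp
  rw [hre]
  congr 1
  have h2 : IntervalIntegrable (fun y : ℝ => f (((0 : ℝ) : ℂ) + y * Complex.I)) volume 0
      (2 * Real.pi) := by
    apply Continuous.intervalIntegrable
    exact hfc.comp (by fun_prop)
  have h3 := Complex.reCLM.intervalIntegral_comp_comm h2
  simp only [Complex.reCLM_apply] at h3
  rw [← h3]
  apply intervalIntegral.integral_congr
  intro y _
  simp only [f]
  rw [Complex.ofReal_zero, zero_add, Complex.re_ofReal_mul, Complex.inner]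
  have h4 : ((starRingEnd ℂ) v * F' (y * Complex.I)).re =
      (v * (starRingEnd ℂ) (F' (y * Complex.I))).re := by
    simp [Complex.mul_re]
  rw [h4]
  have h5 : loop y = F (y * Complex.I) := rfl
  rw [h5, mul_comm]

end Pool.Agent.MP099f24
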