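import Pool.Agent.Lib.MP_099f24_an.JumpU
import Pool.Agent.Lib.MP_099f24_an.Green
import Pool.Agent.Lib.MP_099f24_an.Curve
import Pool.Agent.Lib.MP_099f24_an.JumpBasic

/-!
# The explicit function `uu` is in `SBV_loc`, its jump set is the loop (MP_099f24_an)
-/

namespace Pool.Agent.MP099f24

open MeasureTheory Filter Topology Set Metric
open scoped ENNReal ContDiff

/-! ### The loop -/

theorem sbvu_range_loop : range loop = loop '' Ico 0 (2 * Real.pi) := by
  apply Subset.antisymm
  · rintro _ ⟨α, rfl⟩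
    have hpi : 0 < 2 * Real.pi := by positivity
    obtain ⟨n, hn⟩ : ∃ n : ℤ, n = ⌊α / (2 * Real.pi)⌋ := ⟨_, rfl⟩
    refine ⟨α - n * (2 * Real.pi), ⟨?_, ?_⟩, ?_⟩
    · have h1 : (n : ℝ) ≤ α / (2 * Real.pi) := by
        rw [hn]
        exact Int.floor_le _
      rw [le_div_iff₀ hpi] at h1
      linarith
    · have h1 : α / (2 * Real.pi) < n + 1 := by
        rw [hn]
        exact Int.lt_floor_add_one _
      rw [div_lt_iff₀ hpi] at h1
      linarith
    · unfold loop
      rw [← F_period (α * Complex.I) (-n)]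
      congr 1
      push_cast
      ring
  · exact image_subset_range _ _

theorem sbvu_loop_hasDerivAt (α : ℝ) : HasDerivAt loop (F' (α * Complex.I) * Complex.I) α := by
  have h1 : HasDerivAt (fun t : ℝ => (t : ℂ) * Complex.I) (1 * Complex.I) α :=
    (Complex.ofRealCLM.hasDerivAt (x := α)).mul_const Complex.I
  rw [one_mul] at h1
  exact (hasDerivAt_F (α * Complex.I)).comp_of_eq α h1 rfl

theorem sbvu_deriv_loop (α : ℝ) : deriv loop α = F' (α * Complex.I) * Complex.I :=
  (sbvu_loop_hasDerivAt α).deriv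

theorem sbvu_F'_ne (α : ℝ) : F' (α * Complex.I) ≠ 0 := by
  apply conf_F'_ne
  simp

theorem sbvu_norm_deriv_loop (α : ℝ) : ‖deriv loop α‖ = ‖F' (α * Complex.I)‖ := by
  rw [sbvu_deriv_loop, norm_mul, Complex.norm_I, mul_one]

theorem sbvu_deriv_loop_ne (α : ℝ) : deriv loop α ≠ 0 := by
  rw [sbvu_deriv_loop]
  exact mul_ne_zero (sbvu_F'_ne α) Complex.I_ne_zero

theorem sbvu_loop_contDiff : ContDiff ℝ 1 loop := by
  have h1 : ContDiff ℝ 1 F := (conf_contDiff_F.restrict_scalars ℝ).of_le le_top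
  have h2 : ContDiff ℝ 1 (fun t : ℝ => (t : ℂ) * Complex.I) :=
    Complex.ofRealCLM.contDiff.mul contDiff_const
  exact h1.comp h2

theorem sbvu_loop_injOn : InjOn loop (Ico 0 (2 * Real.pi)) := by
  intro α hα β hβ h
  obtain ⟨n, hn⟩ := F_inj (ζ := α * Complex.I) (ζ' := β * Complex.I) (by simp) (by simp) h
  have him : α = β + n * (2 * Real.pi) := by
    have := congrArg Complex.im hn
    simpa using this
  have hpi : 0 < 2 * Real.pi := by positivity
  have hn0 : n = 0 := by
    by_contra h0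
    rcases lt_or_gt_of_ne h0 with h1 | h1
    · have h5 : (n : ℝ) ≤ -1 := by exact_mod_cast Int.le_sub_one_of_lt h1
      nlinarith [hα.1, hβ.2]
    · have h5 : (1 : ℝ) ≤ n := by exact_mod_cast h1
      nlinarith [hα.2, hβ.1]
  rw [him, hn0]
  simp

theorem hausdorff_loop_lt_top : (μH[1] : Measure ℂ) (range loop) < ⊤ := by
  rw [sbvu_range_loop, hausdorff_curve_image sbvu_loop_contDiff sbvu_deriv_loop_ne
    measurableSet_Ico sbvu_loop_injOn]
  have hcont : Continuous (fun t => ‖deriv loop t‖) :=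
    (sbvu_loop_contDiff.continuous_deriv (by norm_num)).norm
  have h1 : IntegrableOn (fun t => ‖deriv loop t‖) (Ico 0 (2 * Real.pi)) :=
    (hcont.integrableOn_Icc).mono_set Ico_subset_Icc_self
  exact h1.lintegral_lt_top

theorem volume_loop : (volume : Measure ℂ) (range loop) = 0 := by
  have h1 : range loop ⊆ F '' {ζ : ℂ | ζ.re = 0} := by
    rintro _ ⟨α, rfl⟩
    exact ⟨α * Complex.I, by simp, rfl⟩
  have h2 : (volume : Measure ℂ) {ζ : ℂ | ζ.re = 0} = 0 := by
    have h3 : {ζ : ℂ | ζ.re = 0} = (LinearMap.ker (Complex.reLm) : Submodule ℝ ℂ) := by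
      ext ζ
      simp
    rw [h3]
    apply Measure.addHaar_submodule
    intro h4
    have h5 : (1 : ℂ) ∈ LinearMap.ker (Complex.reLm) := by
      rw [h4]
      trivial
    simp at h5
  have h3 : DifferentiableOn ℝ F {ζ : ℂ | ζ.re = 0} := fun ζ _ =>
    ((hasDerivAt_F ζ).differentiableAt.restrictScalars ℝ).differentiableWithinAt
  exact measure_mono_null h1
    (addHaar_image_eq_zero_of_differentiableOn_of_addHaar_eq_zero volume h3 h2)

theorem sbvu_isCompact_range_loop : IsCompact (range loop) := by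
  have h : range loop = loop '' Icc 0 (2 * Real.pi) := by
    apply Subset.antisymm
    · rw [sbvu_range_loop]
      exact image_mono Ico_subset_Icc_self
    · exact image_subset_range _ _
  rw [h]
  exact isCompact_Icc.image sbvu_loop_contDiff.continuous

theorem sbvu_range_loop_subset : range loop ⊆ Om := by
  rintro _ ⟨α, rfl⟩
  exact jumpu_loop_mem α

theorem sbvu_integrableOn_uu {U : Set ℂ} (hU : volume U ≠ ⊤) : IntegrableOn uu U := by
  apply Measure.integrableOn_of_bounded (M := 8) hU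
  · exact jumpu_uu_measurable.aestronglyMeasurable
  · exact Eventually.of_forall fun x => by
      rw [Real.norm_eq_abs]
      exact jumpu_uu_bound x

theorem locallyIntegrable_uu : LocallyIntegrableOn uu Om := by
  intro x hx
  refine ⟨ball x 1, mem_nhdsWithin_of_mem_nhds (ball_mem_nhds x one_pos), ?_⟩
  exact sbvu_integrableOn_uu measure_ball_lt_top.ne

theorem discSet_uu : discSet Om uu = range loop := by
  ext x
  constructor
  · rintro ⟨hx, h⟩
    by_contra hl
    exact h ⟨_, isApproxLim_of_continuousAt (continuousAt_uu hx hl)⟩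
  · rintro ⟨α, rfl⟩
    refine ⟨jumpu_loop_mem α, ?_⟩
    rintro ⟨z, hz⟩
    exact not_isApproxLim_of_isJump (ball_mem_nhds _ one_pos)
      (sbvu_integrableOn_uu measure_ball_lt_top.ne) (isJump_loop α) z hz

/-! ### Continuity of functions of `sec` -/

theorem sbvu_continuousAt_comp_sec {E : Type*} [TopologicalSpace E] {G : ℂ → E}
    (hper : ∀ ζ : ℂ, ∀ n : ℤ, G (ζ + n * (2 * Real.pi * Complex.I)) = G ζ) {x : ℂ} (hx : x ∈ Om)
    (hG : ContinuousAt G (sec x)) : ContinuousAt (fun y => G (sec y)) x := by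
  obtain ⟨l, h1, h2, h3, h4⟩ := conf_local_inverse hx
  rw [← h1] at hG
  have hcomp : ContinuousAt (fun y => G (l y)) x :=
    ContinuousAt.comp (g := G) (f := l) hG h3.continuousAt
  refine hcomp.congr ?_
  filter_upwards [h4] with y hy
  obtain ⟨n, hn⟩ := hy
  rw [hn, hper]

theorem sbvu_gt_period (ζ : ℂ) (n : ℤ) : gt (ζ + n * (2 * Real.pi * Complex.I)) = gt ζ := by
  unfold gt
  have h1 : (ζ + n * (2 * Real.pi * Complex.I)).re = ζ.re := conf_re_period ζ n
  have h2 : (ζ + n * (2 * Real.pi * Complex.I)).im = ζ.im + n * (2 * Real.pi) := by simp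
  rw [h1, h2, Real.cos_add_int_mul_two_pi, Real.sin_add_int_mul_two_pi]

theorem sbvu_gt_continuous : Continuous gt := by
  have h : gt = fun ζ : ℂ => ((2 * Real.sinh ζ.re * Real.cos ζ.im : ℝ) : ℂ) +
      ((-(2 * Real.cosh ζ.re * Real.sin ζ.im) : ℝ) : ℂ) * Complex.I := by
    funext ζ
    exact Complex.mk_eq_add_mul_I _ _
  rw [h]
  have h1 : Continuous fun ζ : ℂ => Real.sinh ζ.re := Real.continuous_sinh.comp Complex.continuous_re
  have h2 : Continuous fun ζ : ℂ => Real.cosh ζ.re := Real.continuous_cosh.comp Complex.continuous_re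
  have h3 : Continuous fun ζ : ℂ => Real.sin ζ.im := Real.continuous_sin.comp Complex.continuous_im
  have h4 : Continuous fun ζ : ℂ => Real.cos ζ.im := Real.continuous_cos.comp Complex.continuous_im
  fun_prop

theorem sbvu_gt_bound {ζ : ℂ} (h : ζ ∈ strip del) : ‖gt ζ‖ ≤ 12 := by
  have h1 : |ζ.re| ≤ 1 := (conf_strip h).trans (by norm_num)
  have h2 : Real.cosh ζ.re ≤ Real.cosh 1 := by
    rw [Real.cosh_le_cosh, abs_one]
    exact h1
  have h3 : Real.cosh 1 ≤ 3 := by
    rw [Real.cosh_eq]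
    have h4 := Real.exp_one_lt_d9
    have h5 : Real.exp (-1) ≤ 1 := by
      rw [Real.exp_le_one_iff]
      norm_num
    linarith
  have h6 : |Real.sinh ζ.re| ≤ Real.cosh ζ.re := by
    rw [abs_le]
    constructor
    · rw [Real.cosh_eq, Real.sinh_eq]
      linarith [Real.exp_pos ζ.re]
    · rw [Real.cosh_eq, Real.sinh_eq]
      linarith [Real.exp_pos (-ζ.re)]
  have h7 := Real.abs_cos_le_one ζ.im
  have h8 := Real.abs_sin_le_one ζ.im
  refine (Complex.norm_le_abs_re_add_abs_im _).trans ?_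
  have e1 : |(gt ζ).re| ≤ 6 := by
    show |2 * Real.sinh ζ.re * Real.cos ζ.im| ≤ 6
    rw [abs_mul, abs_mul, abs_two]
    have := abs_nonneg (Real.sinh ζ.re)
    have := abs_nonneg (Real.cos ζ.im)
    nlinarith
  have e2 : |(gt ζ).im| ≤ 6 := by
    show |-(2 * Real.cosh ζ.re * Real.sin ζ.im)| ≤ 6
    rw [abs_neg, abs_mul, abs_mul, abs_two, abs_of_pos (Real.cosh_pos _)]
    have := Real.cosh_pos ζ.re
    have := abs_nonneg (Real.sin ζ.im)
    nlinarith
  linarith

theorem sbvu_gg_of_mem {x : ℂ} (hx : x ∈ OmOut) :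
    gg x = gt (sec x) / (starRingEnd ℂ) (F' (sec x)) := by
  unfold gg
  rw [if_pos hx]

theorem sbvu_gg_of_notMem {x : ℂ} (hx : x ∉ OmOut) : gg x = 0 := by
  unfold gg
  rw [if_neg hx]

theorem sbvu_one_le_norm_F' {x : ℂ} (hx : x ∈ Om) : 1 ≤ ‖F' (sec x)‖ := by
  rw [norm_F']
  exact one_le_rho (conf_strip (sec_mem hx))

theorem sbvu_gg_bound (x : ℂ) : ‖gg x‖ ≤ 12 := by
  by_cases hx : x ∈ OmOut
  · have hx' := jumpu_OmOut_subset hx
    rw [sbvu_gg_of_mem hx, norm_div, RCLike.norm_conj]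
    have h1 := sbvu_one_le_norm_F' hx'
    have h2 := sbvu_gt_bound (sec_mem hx')
    rw [div_le_iff₀ (by linarith)]
    nlinarith
  · rw [sbvu_gg_of_notMem hx, norm_zero]
    norm_num

theorem sbvu_gg_measurable : Measurable gg := by
  classical
  have h : gg = OmOut.piecewise (fun y => gt (sec y) / (starRingEnd ℂ) (F' (sec y)))
      (fun _ => (0 : ℂ)) := by
    funext x
    by_cases hx : x ∈ OmOut
    · rw [piecewise_eq_of_mem _ _ _ hx, sbvu_gg_of_mem hx]
    · rw [piecewise_eq_of_notMem _ _ _ hx, sbvu_gg_of_notMem hx]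
  rw [h]
  apply ContinuousOn.measurable_piecewise
  · intro x hx
    have hx' := jumpu_OmOut_subset hx
    apply ContinuousAt.continuousWithinAt
    apply sbvu_continuousAt_comp_sec (G := fun ζ => gt ζ / (starRingEnd ℂ) (F' ζ)) _ hx'
    · apply ContinuousAt.div
      · exact sbvu_gt_continuous.continuousAt
      · exact (Complex.continuous_conj.comp green_contF').continuousAt
      · intro h0
        have h1 : F' (sec x) = 0 := by simpa using h0
        exact conf_F'_ne (conf_strip (sec_mem hx')) h1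
    · intro ζ n
      simp only [sbvu_gt_period, F'_period]
  · exact continuousOn_const
  · exact isOpen_OmOut.measurableSet

theorem sbvu_locallyIntegrable_gg : LocallyIntegrableOn gg Om := by
  intro x hx
  refine ⟨ball x 1, mem_nhdsWithin_of_mem_nhds (ball_mem_nhds x one_pos), ?_⟩
  apply Measure.integrableOn_of_bounded (M := 12) measure_ball_lt_top.ne
  · exact sbvu_gg_measurable.aestronglyMeasurable
  · exact Eventually.of_forall sbvu_gg_bound

/-! ### The jump field -/

/-- the jump `(u⁺ - u⁻) ν` in the strip -/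
noncomputable def sbvuG (ζ : ℂ) : ℂ := (ut ζ + 8) • ((‖F' ζ‖⁻¹ : ℝ) • F' ζ)

theorem sbvuG_period (ζ : ℂ) (n : ℤ) :
    sbvuG (ζ + n * (2 * Real.pi * Complex.I)) = sbvuG ζ := by
  unfold sbvuG
  rw [jumpu_ut_period, F'_period]

/-- the jump field of `uu` -/
noncomputable def sbvuj : ℂ → ℂ := (range loop).indicator (fun x => sbvuG (sec x))

theorem sbvuG_loop (α : ℝ) : sbvuG (sec (loop α)) = sbvuG (α * Complex.I) := by
  obtain ⟨n, hn⟩ := jumpu_sec_loop α
  rw [hn, sbvuG_period]

theorem sbvu_isJumpField : IsJumpField Om uu sbvuj := by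
  intro x hx
  by_cases hl : x ∈ range loop
  · left
    obtain ⟨α, rfl⟩ := hl
    refine ⟨_, _, _, isJump_loop α, ?_⟩
    rw [sbvuj, indicator_of_mem (mem_range_self α), sbvuG_loop, sbvuG, sub_neg_eq_add]
  · right
    refine ⟨?_, ?_⟩
    · rintro ⟨a, b, ν, h⟩
      exact not_isApproxLim_of_isJump (ball_mem_nhds _ one_pos)
        (sbvu_integrableOn_uu measure_ball_lt_top.ne) h _
        (isApproxLim_of_continuousAt (continuousAt_uu hx hl))
    · rw [sbvuj, indicator_of_notMem hl]

theorem sbvuG_norm_le {ζ : ℂ} (h : ζ ∈ strip del) : ‖sbvuG ζ‖ ≤ 16 := by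
  have h0 : 0 < ‖F' ζ‖ := norm_pos_iff.2 (conf_F'_ne (conf_strip h))
  have h1 := jumpu_ut_bound h
  rw [abs_le] at h1
  rw [sbvuG, norm_smul, norm_smul, norm_inv, norm_norm, inv_mul_cancel₀ h0.ne', mul_one,
    Real.norm_eq_abs, abs_le]
  constructor <;> linarith

theorem sbvuG_continuousOn : ContinuousOn (fun x => sbvuG (sec x)) Om := by
  intro x hx
  apply ContinuousAt.continuousWithinAt
  apply sbvu_continuousAt_comp_sec sbvuG_period hx
  unfold sbvuG
  have h1 : ContinuousAt F' (sec x) := green_contF'.continuousAt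
  have h2 : ContinuousAt ut (sec x) := (jumpu_ut_differentiable (sec x)).continuousAt
  have h3 : ‖F' (sec x)‖ ≠ 0 := (norm_pos_iff.2 (conf_F'_ne (conf_strip (sec_mem hx)))).ne'
  exact (h2.add continuousAt_const).smul ((h1.norm.inv₀ h3).smul h1)

theorem sbvuj_integrable : Integrable sbvuj (μH[1] : Measure ℂ) := by
  have hm : MeasurableSet (range loop) := sbvu_isCompact_range_loop.isClosed.measurableSet
  rw [sbvuj, integrable_indicator_iff hm]
  refine IntegrableOn.of_bound hausdorff_loop_lt_top ?_ 16 ?_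
  · have h1 : ContinuousOn (fun x => sbvuG (sec x)) (range loop) :=
      sbvuG_continuousOn.mono sbvu_range_loop_subset
    exact h1.aestronglyMeasurable hm
  · rw [ae_restrict_iff' hm]
    exact Eventually.of_forall fun x hx => sbvuG_norm_le (sec_mem (sbvu_range_loop_subset hx))

theorem sbvuj_locallyIntegrableOn : LocallyIntegrableOn sbvuj Om (μH[1] : Measure ℂ) := by
  intro x hx
  exact ⟨univ, univ_mem, sbvuj_integrable.integrableOn⟩

/-! ### The derivative -/

theorem sbvu_ut_hasFDerivAt (ζ : ℂ) :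
    ∃ L : ℂ →L[ℝ] ℝ, HasFDerivAt ut L ζ ∧ ∀ w, L w = inner ℝ (gt ζ) w := by
  refine ⟨_, (jumpu_ut_differentiable ζ).hasFDerivAt, ?_⟩
  intro w
  have h1 : HasFDerivAt (fun ζ : ℂ => ζ.re) Complex.reCLM ζ := Complex.reCLM.hasFDerivAt
  have h2 : HasFDerivAt (fun ζ : ℂ => ζ.im) Complex.imCLM ζ := Complex.imCLM.hasFDerivAt
  have h3 := ((h1.cosh).const_mul 2).mul (h2.cos)
  have h4 : HasFDerivAt ut _ ζ := h3
  rw [h4.fderiv, Complex.inner]
  simp [gt]
  ring

/-- `ũ + 8` as a function on `Ω` -/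
noncomputable def sbvuQ (x : ℂ) : ℝ := ut (sec x) + 8

theorem sbvuQ_hasFDerivAt {x : ℂ} (hx : x ∈ Om) :
    ∃ L : ℂ →L[ℝ] ℝ, HasFDerivAt sbvuQ L x ∧
      ∀ v, L v = inner ℝ (gt (sec x) / (starRingEnd ℂ) (F' (sec x))) v := by
  obtain ⟨L, hL, hL'⟩ := sbvu_ut_hasFDerivAt (sec x)
  refine ⟨_, (hasFDerivAt_comp_sec (G := ut) jumpu_ut_period hx hL).add_const 8, ?_⟩
  intro v
  have h1 : L.comp (ContinuousLinearMap.mul ℝ ℂ (F' (sec x))⁻¹) v = L ((F' (sec x))⁻¹ * v) := rfl
  rw [h1, hL', Complex.inner, Complex.inner, map_div₀, Complex.conj_conj]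
  congr 1
  rw [div_eq_mul_inv]
  ring

theorem sbvu_ut_contDiff : ContDiff ℝ 1 ut := by
  have h1 : ContDiff ℝ 1 (fun ζ : ℂ => ζ.re) := Complex.reCLM.contDiff
  have h2 : ContDiff ℝ 1 (fun ζ : ℂ => ζ.im) := Complex.imCLM.contDiff
  unfold ut
  exact (contDiff_const.mul h1.cosh).mul h2.cos

theorem sbvuQ_contDiffAt {x : ℂ} (hx : x ∈ Om) : ContDiffAt ℝ 1 sbvuQ x := by
  have h1 : ContDiffOn ℝ 1 (fun p : ℂ × ℝ => (fun (ζ : ℂ) (_ : ℝ) => ut ζ) p.1 p.2)
      (strip del ×ˢ univ) := (sbvu_ut_contDiff.comp contDiff_fst).contDiffOn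
  have h2 := contDiffOn_comp_sec (P := ℝ) (G := fun ζ _ => ut ζ)
    (fun ζ n => by funext _; exact jumpu_ut_period ζ n) h1
  have h3 : ContDiffAt ℝ 1 (fun p : ℂ × ℝ => ut (sec p.1)) (x, 0) :=
    h2.contDiffAt ((isOpen_Om.prod isOpen_univ).mem_nhds ⟨hx, mem_univ _⟩)
  have h4 : ContDiffAt ℝ 1 (fun y : ℂ => ((y, 0) : ℂ × ℝ)) x :=
    contDiffAt_id.prodMk contDiffAt_const
  have h5 : ContDiffAt ℝ 1 (fun y => ut (sec y)) x :=
    ContDiffAt.comp (g := fun p : ℂ × ℝ => ut (sec p.1)) (f := fun y : ℂ => ((y, 0) : ℂ × ℝ)) x h3 h4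
  exact h5.add contDiffAt_const

section formula

variable {φ : ℂ → ℝ} (hφ : ContDiff ℝ ∞ φ) (hc : HasCompactSupport φ) (hs : tsupport φ ⊆ Om)

include hφ hs in
theorem sbvu_h_contDiff : ContDiff ℝ 1 (fun x => sbvuQ x * φ x) := by
  rw [contDiff_iff_contDiffAt]
  intro x
  by_cases hx : x ∈ tsupport φ
  · exact (sbvuQ_contDiffAt (hs hx)).mul (hφ.contDiffAt.of_le (by simp))
  · have h1 : (fun x => sbvuQ x * φ x) =ᶠ[𝓝 x] fun _ => 0 := by
      filter_upwards [(isClosed_tsupport φ).isOpen_compl.mem_nhds hx] with y hy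
      rw [image_eq_zero_of_notMem_tsupport hy, mul_zero]
    exact contDiffAt_const.congr_of_eventuallyEq h1

include hφ in
theorem sbvu_h_fderiv {x : ℂ} (hx : x ∈ Om) (v : ℂ) :
    fderiv ℝ (fun x => sbvuQ x * φ x) x v = sbvuQ x * fderiv ℝ φ x v +
      φ x * inner ℝ (gt (sec x) / (starRingEnd ℂ) (F' (sec x))) v := by
  obtain ⟨L, hL, hL'⟩ := sbvuQ_hasFDerivAt hx
  have h1 : HasFDerivAt φ (fderiv ℝ φ x) x := (hφ.differentiable (by simp) x).hasFDerivAt
  have h2 : HasFDerivAt (fun x => sbvuQ x * φ x) (sbvuQ x • fderiv ℝ φ x + φ x • L) x := hL.mul h1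
  rw [h2.fderiv, ← hL']
  simp

include hφ hc in
theorem sbvu_integrable_fderiv (v : ℂ) : Integrable fun x => fderiv ℝ φ x v := by
  apply Continuous.integrable_of_hasCompactSupport
  · exact (hφ.continuous_fderiv (by simp)).clm_apply continuous_const
  · exact hc.fderiv_apply ℝ v

include hφ hc hs in
theorem sbvu_integral_fderiv (v : ℂ) : ∫ x in Om, fderiv ℝ φ x v = 0 := by
  have h1 : ∫ x in Om, fderiv ℝ φ x v = ∫ x, fderiv ℝ φ x v := by
    apply setIntegral_eq_integral_of_forall_compl_eq_zero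
    intro x hx
    have h2 : x ∉ tsupport φ := fun h => hx (hs h)
    rw [fderiv_of_notMem_tsupport (𝕜 := ℝ) h2]
    simp
  rw [h1]
  have h3 := integral_mul_fderiv_eq_neg_fderiv_mul_of_integrable (μ := volume) (𝕜 := ℝ)
    (f := fun _ : ℂ => (1 : ℝ)) (g := φ) (v := v) (by simp)
    (by simpa using sbvu_integrable_fderiv hφ hc v)
    (by simpa using hφ.continuous.integrable_of_hasCompactSupport hc)
    (fun x _ => differentiableAt_const _) (fun x _ => hφ.differentiable (by simp) x)
  simpa using h3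

theorem sbvu_mul_eq {x : ℂ} (c : ℝ) : uu x * c + 8 * c = OmOut.indicator (fun y => sbvuQ y * c) x := by
  by_cases hx : x ∈ OmOut
  · rw [indicator_of_mem hx, jumpu_uu_of_mem hx, sbvuQ]
    ring
  · rw [indicator_of_notMem hx, jumpu_uu_of_notMem hx]
    ring

include hφ hc in
theorem sbvu_integrable_gg (v : ℂ) : Integrable fun x => φ x * inner ℝ (gg x) v := by
  have h1 : Integrable φ := hφ.continuous.integrable_of_hasCompactSupport hc
  apply h1.mul_bdd (c := 12 * ‖v‖)
  · exact (sbvu_gg_measurable.inner_const).aestronglyMeasurable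
  · refine Eventually.of_forall fun x => ?_
    exact (norm_inner_le_norm _ _).trans
      (mul_le_mul_of_nonneg_right (sbvu_gg_bound x) (norm_nonneg v))

include hφ hc in
theorem sbvu_integrable_uu (v : ℂ) : Integrable fun x => uu x * fderiv ℝ φ x v := by
  apply (sbvu_integrable_fderiv hφ hc v).bdd_mul (c := 8)
  · exact jumpu_uu_measurable.aestronglyMeasurable
  · exact Eventually.of_forall fun x => by
      rw [Real.norm_eq_abs]
      exact jumpu_uu_bound x

include hφ hc hs in
theorem sbvu_formula (v : ℂ) :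
    ∫ x in Om, uu x * fderiv ℝ φ x v =
        - (∫ x in Om, φ x * inner ℝ (gg x) v) -
          ∫ x in Om, φ x * inner ℝ (sbvuj x) v ∂(μH[1] : Measure ℂ) := by
  have hOm : MeasurableSet Om := isOpen_Om.measurableSet
  have hOut : MeasurableSet OmOut := isOpen_OmOut.measurableSet
  have hsub : Om ∩ OmOut = OmOut := inter_eq_right.2 jumpu_OmOut_subset
  have hD := sbvu_integrable_fderiv hφ hc v
  have hU := sbvu_integrable_uu hφ hc v
  have hG := sbvu_integrable_gg hφ hc v
  have hh := sbvu_h_contDiff hφ hs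
  have hhc : HasCompactSupport (fun x => sbvuQ x * φ x) := hc.mul_left
  have hhs : tsupport (fun x => sbvuQ x * φ x) ⊆ Om :=
    (tsupport_mul_subset_right).trans hs
  -- first part
  have e1 : ∫ x in Om, uu x * fderiv ℝ φ x v = ∫ x in OmOut, sbvuQ x * fderiv ℝ φ x v := by
    have h1 : ∫ x in Om, (uu x * fderiv ℝ φ x v + 8 * fderiv ℝ φ x v) =
        (∫ x in Om, uu x * fderiv ℝ φ x v) + ∫ x in Om, 8 * fderiv ℝ φ x v :=
      integral_add hU.integrableOn (hD.const_mul 8).integrableOn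
    rw [integral_const_mul, sbvu_integral_fderiv hφ hc hs v, mul_zero, add_zero] at h1
    rw [← h1]
    have h2 : ∫ x in Om, OmOut.indicator (fun x => sbvuQ x * fderiv ℝ φ x v) x =
        ∫ x in Om ∩ OmOut, sbvuQ x * fderiv ℝ φ x v := setIntegral_indicator hOut
    rw [hsub] at h2
    rw [← h2]
    congr 1
    funext x
    rw [sbvu_mul_eq]
    by_cases hx : x ∈ OmOut
    · rw [indicator_of_mem hx, indicator_of_mem hx]
    · rw [indicator_of_notMem hx, indicator_of_notMem hx]
  have e2 : ∫ x in Om, φ x * inner ℝ (gg x) v = ∫ x in OmOut, φ x * inner ℝ (gg x) v := by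
    have h2 : ∫ x in Om, OmOut.indicator (fun x => φ x * inner ℝ (gg x) v) x =
        ∫ x in Om ∩ OmOut, φ x * inner ℝ (gg x) v := setIntegral_indicator hOut
    rw [hsub] at h2
    rw [← h2]
    congr 1
    funext x
    by_cases hx : x ∈ OmOut
    · rw [indicator_of_mem hx]
    · rw [indicator_of_notMem hx, sbvu_gg_of_notMem hx]
      simp
  have e3 : ∫ x in OmOut, sbvuQ x * fderiv ℝ φ x v =
      (∫ x in OmOut, fderiv ℝ (fun x => sbvuQ x * φ x) x v) -
        ∫ x in OmOut, φ x * inner ℝ (gg x) v := by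
    have hDh : Integrable fun x => fderiv ℝ (fun x => sbvuQ x * φ x) x v := by
      apply Continuous.integrable_of_hasCompactSupport
      · exact (hh.continuous_fderiv (by simp)).clm_apply continuous_const
      · exact hhc.fderiv_apply ℝ v
    rw [← integral_sub hDh.integrableOn hG.integrableOn]
    apply setIntegral_congr_fun hOut
    intro x hx
    simp only
    rw [sbvu_h_fderiv hφ (jumpu_OmOut_subset hx), sbvu_gg_of_mem hx]
    ring
  have e4 := green hh hhc hhs v
  have e5 : ∫ x in Om, φ x * inner ℝ (sbvuj x) v ∂(μH[1] : Measure ℂ) =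
      ∫ α in (0 : ℝ)..(2 * Real.pi), inner ℝ (F' (α * Complex.I)) v *
        (sbvuQ (loop α) * φ (loop α)) := by
    have hm : MeasurableSet (range loop) := sbvu_isCompact_range_loop.isClosed.measurableSet
    have h1 : (fun x => φ x * inner ℝ (sbvuj x) v) =
        (range loop).indicator (fun x => φ x * inner ℝ (sbvuG (sec x)) v) := by
      funext x
      by_cases hx : x ∈ range loop
      · rw [indicator_of_mem hx, sbvuj, indicator_of_mem hx]
      · rw [indicator_of_notMem hx, sbvuj, indicator_of_notMem hx]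
        simp
    rw [h1, setIntegral_indicator hm, inter_eq_right.2 sbvu_range_loop_subset, sbvu_range_loop,
      integral_curve (by positivity) sbvu_loop_contDiff sbvu_deriv_loop_ne sbvu_loop_injOn]
    apply intervalIntegral.integral_congr
    intro α _
    simp only
    obtain ⟨n, hn⟩ := jumpu_sec_loop α
    have h2 : ut (sec (loop α)) = ut (α * Complex.I) := by rw [hn, jumpu_ut_period]
    have h3 : ‖F' (α * Complex.I)‖ ≠ 0 := norm_ne_zero_iff.2 (sbvu_F'_ne α)
    rw [sbvuG_loop, sbvuG, sbvu_norm_deriv_loop, sbvuQ, h2, real_inner_smul_left,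
      real_inner_smul_left, smul_eq_mul]
    field_simp
  rw [e1, e3, e4, e2, e5]
  ring

end formula

theorem isSBVGrad_uu : IsSBVGrad Om uu gg :=
  ⟨sbvu_locallyIntegrable_gg, sbvuj, sbvu_isJumpField, sbvuj_locallyIntegrableOn,
    fun _ hφ hc hs v => sbvu_formula hφ hc hs v⟩

end Pool.Agent.MP099f24
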