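import Pool.Agent.Lib.MP_099f24_an.Defs

/-!
# A Jordan curve is not the union of an admissible family of arcs
-/

set_option autoImplicit false
set_option linter.unusedVariables false

namespace Pool.Agent.MP099f24

open MeasureTheory Filter Topology Set Metric
open scoped ENNReal ContDiff

theorem topo_injOn {c : ℝ → ℂ} (hper : ∀ t, c (t + 2 * Real.pi) = c t)
    (hinj : InjOn c (Ico 0 (2 * Real.pi))) (s₀ : ℝ) : InjOn c (Ico s₀ (s₀ + 2 * Real.pi)) := by
  have hp : Function.Periodic c (2 * Real.pi) := hper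
  have h2 : (0 : ℝ) < 2 * Real.pi := Real.two_pi_pos
  intro s hs t ht hst
  have e1 : ∀ u, c (toIcoMod h2 0 u) = c u := fun u => by
    unfold toIcoMod
    exact hp.sub_zsmul_eq _
  have m1 : ∀ u, toIcoMod h2 0 u ∈ Ico (0 : ℝ) (2 * Real.pi) := fun u => by
    have := toIcoMod_mem_Ico h2 0 u
    rwa [zero_add] at this
  have h3 := hinj (m1 s) (m1 t) (by rw [e1, e1, hst])
  obtain ⟨n, hn⟩ := toIcoMod_eq_toIcoMod h2 |>.1 h3
  have hn' : t - s = n * (2 * Real.pi) := by rw [hn]; simp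
  have hlt : |t - s| < 2 * Real.pi := by
    rw [abs_lt]
    constructor <;> linarith [hs.1, hs.2, ht.1, ht.2]
  have hn0 : n = 0 := by
    by_contra hne
    have h4 : (1 : ℝ) ≤ |(n : ℝ)| := by
      have := Int.one_le_abs hne
      exact_mod_cast this
    rw [hn', abs_mul, abs_of_pos h2] at hlt
    nlinarith
  rw [hn0] at hn'
  simp at hn'
  linarith

theorem topo_exists {c : ℝ → ℂ} (hper : ∀ t, c (t + 2 * Real.pi) = c t) (s₀ : ℝ) {p : ℂ}
    (hp : p ∈ range c) : ∃ t ∈ Ico s₀ (s₀ + 2 * Real.pi), c t = p := by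
  obtain ⟨u, rfl⟩ := hp
  have h2 : (0 : ℝ) < 2 * Real.pi := Real.two_pi_pos
  refine ⟨toIcoMod h2 s₀ u, toIcoMod_mem_Ico h2 s₀ u, ?_⟩
  unfold toIcoMod
  exact (show Function.Periodic c (2 * Real.pi) from hper).sub_zsmul_eq _

/-- A preconnected subset of the loop avoiding `c s₀` has a convex parameter set. -/
theorem topo_ordConnected {c : ℝ → ℂ} (hc : Continuous c)
    (hper : ∀ t, c (t + 2 * Real.pi) = c t) (hinj : InjOn c (Ico 0 (2 * Real.pi))) (s₀ : ℝ)
    {K : Set ℂ} (hK : IsPreconnected K) (hKr : K ⊆ range c) (hK0 : c s₀ ∉ K) {a b d : ℝ}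
    (ha : s₀ < a) (hab : a < b) (hbd : b < d) (hd : d < s₀ + 2 * Real.pi) (haK : c a ∈ K)
    (hdK : c d ∈ K) : c b ∈ K := by
  have hI := topo_injOn hper hinj s₀
  by_contra hb
  have h1 := isPreconnected_closed_iff.1 hK (c '' Icc s₀ b) (c '' Icc b (s₀ + 2 * Real.pi))
    (isCompact_Icc.image hc).isClosed (isCompact_Icc.image hc).isClosed
    (by
      intro z hz
      obtain ⟨t, ht, rfl⟩ := topo_exists hper s₀ (hKr hz)
      rcases le_total t b with h | h
      · exact Or.inl ⟨t, ⟨ht.1, h⟩, rfl⟩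
      · exact Or.inr ⟨t, ⟨h, ht.2.le⟩, rfl⟩)
    ⟨c a, haK, a, ⟨ha.le, hab.le⟩, rfl⟩ ⟨c d, hdK, d, ⟨hbd.le, hd.le⟩, rfl⟩
  obtain ⟨z, hz, ⟨s, hs, hs'⟩, ⟨t, ht, ht'⟩⟩ := h1
  rcases eq_or_lt_of_le ht.2 with h | h
  · -- t = s₀ + 2π
    rw [h, hper] at ht'
    exact hK0 (by rw [ht']; exact hz)
  · have : s = t := hI ⟨hs.1, by linarith [hs.2]⟩ ⟨by linarith [ht.1], h⟩ (hs'.trans ht'.symm)
    have hsb : s = b := le_antisymm hs.2 (by rw [this]; exact ht.1)
    rw [hsb] at hs'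
    exact hb (by rw [hs']; exact hz)

/-- Points of `K` accumulate at `c s₀` from one of the two sides. -/
theorem topo_side {c : ℝ → ℂ} (hc : Continuous c)
    (hper : ∀ t, c (t + 2 * Real.pi) = c t) (hinj : InjOn c (Ico 0 (2 * Real.pi))) (s₀ : ℝ)
    {K : Set ℂ} (hKr : K ⊆ range c) (hK0 : c s₀ ∉ K) (hcl : c s₀ ∈ closure K) :
    (∀ δ > 0, ∃ t, s₀ < t ∧ t < s₀ + δ ∧ t < s₀ + 2 * Real.pi ∧ c t ∈ K) ∨
    (∀ δ > 0, ∃ t, s₀ < t ∧ s₀ + 2 * Real.pi - δ < t ∧ t < s₀ + 2 * Real.pi ∧ c t ∈ K) := by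
  have hI := topo_injOn hper hinj s₀
  by_contra hcon
  push Not at hcon
  obtain ⟨⟨δ, hδ, h1⟩, ⟨ε, hε, h2⟩⟩ := hcon
  have hsub : K ⊆ c '' Icc (s₀ + δ) (s₀ + 2 * Real.pi - ε) := by
    intro z hz
    obtain ⟨t, ht, rfl⟩ := topo_exists hper s₀ (hKr hz)
    have hne : s₀ < t := lt_of_le_of_ne ht.1 (fun h => hK0 (by rw [h]; exact hz))
    refine ⟨t, ⟨?_, ?_⟩, rfl⟩
    · by_contra h
      exact h1 t hne (not_le.1 h) ht.2 hz
    · by_contra h
      exact h2 t hne (not_le.1 h) ht.2 hz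
  have hcl' : c s₀ ∈ c '' Icc (s₀ + δ) (s₀ + 2 * Real.pi - ε) :=
    closure_minimal hsub (isCompact_Icc.image hc).isClosed hcl
  obtain ⟨t, ht, h3⟩ := hcl'
  have : t = s₀ := hI ⟨by linarith [ht.1], by linarith [ht.2]⟩
    ⟨le_rfl, by linarith [Real.two_pi_pos]⟩ h3
  linarith [ht.1]

theorem not_isAdmissibleUnion_loop {Ω : Set ℂ} {c : ℝ → ℂ} (hc : Continuous c)
    (hper : ∀ t, c (t + 2 * Real.pi) = c t) (hinj : InjOn c (Ico 0 (2 * Real.pi)))
    (hΩ : range c ⊆ Ω) : ¬ IsAdmissibleUnion Ω (range c) := by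
  rintro ⟨ι, I, γ, hadm, hU⟩
  have hπ : (0 : ℝ) < 2 * Real.pi := Real.two_pi_pos
  have hcomp : IsCompact (range c) := by
    have : range c = c '' Icc 0 (2 * Real.pi) := by
      apply Subset.antisymm
      · intro z hz
        obtain ⟨t, ht, rfl⟩ := topo_exists hper 0 hz
        rw [zero_add] at ht
        exact ⟨t, ⟨ht.1, ht.2.le⟩, rfl⟩
      · exact image_subset_range _ _
    rw [this]
    exact isCompact_Icc.image hc
  have hsub : ∀ i, γ i '' I i ⊆ range c := fun i => by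
    rw [hU]; exact subset_iUnion (fun i => γ i '' I i) i
  -- finiteness
  have hfin : Finite ι := by
    have h1 := hadm.locFinite (range c) hcomp hΩ
    have h2 : {i | (γ i '' I i ∩ range c).Nonempty} = univ := by
      apply eq_univ_of_forall
      intro i
      obtain ⟨t, ht⟩ := (hadm.isArc i).nontrivial.nonempty
      exact ⟨γ i t, ⟨t, ht, rfl⟩, hsub i ⟨t, ht, rfl⟩⟩
    rw [h2] at h1
    exact Set.finite_univ_iff.1 h1
  -- the parameter intervals are compact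
  have hIcc : ∀ i, ∃ p q, p < q ∧ I i = Icc p q := by
    intro i
    have hA := hadm.isArc i
    have hgr : ∃ q, IsGreatest (I i) q := by
      by_contra hno
      have h1 : ∀ t ∈ I i, ∃ s ∈ I i, t < s := by
        intro t ht
        by_contra h2
        push Not at h2
        exact hno ⟨t, ht, h2⟩
      obtain ⟨t₀, ht₀, h2⟩ := hA.leaves_right h1 (range c) hcomp hΩ
      exact h2 t₀ ht₀ le_rfl (hsub i ⟨t₀, ht₀, rfl⟩)
    have hle : ∃ q, IsLeast (I i) q := by
      by_contra hno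
      have h1 : ∀ t ∈ I i, ∃ s ∈ I i, s < t := by
        intro t ht
        by_contra h2
        push Not at h2
        exact hno ⟨t, ht, h2⟩
      obtain ⟨t₀, ht₀, h2⟩ := hA.leaves_left h1 (range c) hcomp hΩ
      exact h2 t₀ ht₀ le_rfl (hsub i ⟨t₀, ht₀, rfl⟩)
    obtain ⟨q, hq⟩ := hgr
    obtain ⟨p, hp⟩ := hle
    refine ⟨p, q, ?_, ?_⟩
    · obtain ⟨x, hx, y, hy, hxy⟩ := hA.nontrivial
      by_contra hpq
      rw [not_lt] at hpq
      exact hxy (le_antisymm (by linarith [hq.2 hx, hp.2 hy]) (by linarith [hq.2 hy, hp.2 hx]))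
    · apply Subset.antisymm
      · intro x hx; exact ⟨hp.2 hx, hq.2 hx⟩
      · exact hA.ordConnected.out hp.1 hq.1
  choose p q hpq hIeq using hIcc
  have hAcomp : ∀ i, IsCompact (γ i '' I i) := fun i => by
    rw [hIeq i]
    exact isCompact_Icc.image_of_continuousOn (by
      have := (hadm.isArc i).continuousOn
      rwa [hIeq i] at this)
  -- the arcs are pairwise disjoint
  have hdisj : ∀ i k, i ≠ k → Disjoint (γ i '' I i) (γ k '' I k) := by
    intro i k hik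
    rw [Set.disjoint_iff_inter_eq_empty, ← Set.not_nonempty_iff_eq_empty]
    rintro ⟨p0, hp0⟩
    have htr := hadm.triple i k hik p0 hp0
    obtain ⟨s₀, hs₀⟩ := hsub i hp0.1
    -- the punctured arcs
    let K : ι → Set ℂ := fun l => γ l '' I l \ {p0}
    have hside : ∀ l, IsEndpoint (I l) (γ l) p0 →
        (IsPreconnected (K l) ∧ K l ⊆ range c ∧ c s₀ ∉ K l ∧ c s₀ ∈ closure (K l)) := by
      intro l hl
      have hcont := (hadm.isArc l).continuousOn
      have hinjl := (hadm.isArc l).injOn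
      rw [hIeq l] at hcont hinjl
      obtain ⟨m, hm, hmp⟩ := hl
      rw [hIeq l] at hm
      have hmm : m = p l ∨ m = q l := by
        rcases hm with h | h
        · exact Or.inl (h.unique (isLeast_Icc (hpq l).le))
        · exact Or.inr (h.unique (isGreatest_Icc (hpq l).le))
      have hmI : m ∈ Icc (p l) (q l) := by
        rcases hmm with h | h <;> rw [h]
        · exact left_mem_Icc.2 (hpq l).le
        · exact right_mem_Icc.2 (hpq l).le
      have hKeq : K l = γ l '' (Icc (p l) (q l) \ {m}) := by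
        change γ l '' I l \ {p0} = _
        rw [hIeq l]
        apply Subset.antisymm
        · rintro _ ⟨⟨t, ht, rfl⟩, hne⟩
          refine ⟨t, ⟨ht, fun h => hne ?_⟩, rfl⟩
          rw [mem_singleton_iff] at h
          rw [h, hmp]; rfl
        · rintro _ ⟨t, ⟨ht, hne⟩, rfl⟩
          refine ⟨⟨t, ht, rfl⟩, fun h => hne ?_⟩
          rw [mem_singleton_iff, ← hmp] at h
          exact hinjl ht hmI h
      refine ⟨?_, fun z hz => hsub l hz.1, fun h => h.2 (by rw [hs₀]; rfl), ?_⟩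
      · rw [hKeq]
        rcases hmm with h | h
        · rw [h, Icc_diff_left]
          exact isPreconnected_Ioc.image _ (hcont.mono Ioc_subset_Icc_self)
        · rw [h, Icc_sdiff_right]
          exact isPreconnected_Ico.image _ (hcont.mono Ico_subset_Icc_self)
      · rw [hKeq, hs₀, ← hmp]
        have hmcl : m ∈ closure (Icc (p l) (q l) \ {m}) := by
          rcases hmm with h | h
          · rw [h, Icc_diff_left, closure_Ioc (hpq l).ne]
            exact left_mem_Icc.2 (hpq l).le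
          · rw [h, Icc_sdiff_right, closure_Ico (hpq l).ne]
            exact right_mem_Icc.2 (hpq l).le
        have hcw : ContinuousWithinAt (γ l) (Icc (p l) (q l) \ {m}) m :=
          (hcont m hmI).mono diff_subset
        exact hcw.mem_closure_image hmcl
    have hpt : ∀ l, IsEndpoint (I l) (γ l) p0 → p0 ∈ γ l '' I l := by
      rintro l ⟨m, hm, hmp⟩
      refine ⟨m, ?_, hmp⟩
      rcases hm with h | h <;> exact h.1
    have contra : ∀ l k, l ≠ k → IsEndpoint (I l) (γ l) p0 → IsEndpoint (I k) (γ k) p0 →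
        ∀ y, c y ∈ K l → c y ∈ K k → False := by
      intro l k hlk hl hk y hy1 hy2
      exact hy1.2 (hadm.share l k hlk ⟨hy1.1, hy2.1⟩ ⟨hpt l hl, hpt k hk⟩)
    have hLR : ∀ l, IsEndpoint (I l) (γ l) p0 →
      (∀ δ > 0, ∃ t, s₀ < t ∧ t < s₀ + δ ∧ t < s₀ + 2 * Real.pi ∧ c t ∈ K l) ∨
      (∀ δ > 0, ∃ t, s₀ < t ∧ s₀ + 2 * Real.pi - δ < t ∧ t < s₀ + 2 * Real.pi ∧ c t ∈ K l) := by
      intro l hl
      obtain ⟨h1, h2, h3, h4⟩ := hside l hl
      exact topo_side hc hper hinj s₀ h2 h3 h4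
    have hLL : ∀ l k, l ≠ k → IsEndpoint (I l) (γ l) p0 → IsEndpoint (I k) (γ k) p0 →
        (∀ δ > 0, ∃ t, s₀ < t ∧ t < s₀ + δ ∧ t < s₀ + 2 * Real.pi ∧ c t ∈ K l) →
        (∀ δ > 0, ∃ t, s₀ < t ∧ t < s₀ + δ ∧ t < s₀ + 2 * Real.pi ∧ c t ∈ K k) → False := by
      intro l k hlk hl hk h1 h2
      obtain ⟨x, hx1, hx2, hx3, hx4⟩ := h1 1 one_pos
      obtain ⟨y, hy1, hy2, hy3, hy4⟩ := h2 (x - s₀) (by linarith)
      obtain ⟨z, hz1, hz2, hz3, hz4⟩ := h1 (y - s₀) (by linarith)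
      obtain ⟨g1, g2, g3, g4⟩ := hside l hl
      exact contra l k hlk hl hk y (topo_ordConnected hc hper hinj s₀ g1 g2 g3 hz1
        (by linarith) (by linarith) hx3 hz4 hx4) hy4
    have hRR : ∀ l k, l ≠ k → IsEndpoint (I l) (γ l) p0 → IsEndpoint (I k) (γ k) p0 →
        (∀ δ > 0, ∃ t, s₀ < t ∧ s₀ + 2 * Real.pi - δ < t ∧ t < s₀ + 2 * Real.pi ∧ c t ∈ K l) →
        (∀ δ > 0, ∃ t, s₀ < t ∧ s₀ + 2 * Real.pi - δ < t ∧ t < s₀ + 2 * Real.pi ∧ c t ∈ K k) →
        False := by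
      intro l k hlk hl hk h1 h2
      obtain ⟨x, hx1, hx2, hx3, hx4⟩ := h1 1 one_pos
      obtain ⟨y, hy1, hy2, hy3, hy4⟩ := h2 (s₀ + 2 * Real.pi - x) (by linarith)
      obtain ⟨z, hz1, hz2, hz3, hz4⟩ := h1 (s₀ + 2 * Real.pi - y) (by linarith)
      obtain ⟨g1, g2, g3, g4⟩ := hside l hl
      exact contra l k hlk hl hk y (topo_ordConnected hc hper hinj s₀ g1 g2 g3 hx1
        (by linarith) (by linarith) hz3 hx4 hz4) hy4
    obtain ⟨x, y, z, hxy, hxz, hyz, hset⟩ := Set.encard_eq_three.1 htr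
    have hx : IsEndpoint (I x) (γ x) p0 := by
      have : x ∈ {l | IsEndpoint (I l) (γ l) p0} := by rw [hset]; simp
      exact this
    have hy : IsEndpoint (I y) (γ y) p0 := by
      have : y ∈ {l | IsEndpoint (I l) (γ l) p0} := by rw [hset]; simp
      exact this
    have hz : IsEndpoint (I z) (γ z) p0 := by
      have : z ∈ {l | IsEndpoint (I l) (γ l) p0} := by rw [hset]; simp
      exact this
    rcases hLR x hx with h1 | h1 <;> rcases hLR y hy with h2 | h2 <;> rcases hLR z hz with h3 | h3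
    · exact hLL x y hxy hx hy h1 h2
    · exact hLL x y hxy hx hy h1 h2
    · exact hLL x z hxz hx hz h1 h3
    · exact hRR y z hyz hy hz h2 h3
    · exact hLL y z hyz hy hz h2 h3
    · exact hRR x z hxz hx hz h1 h3
    · exact hRR x y hxy hx hy h1 h2
    · exact hRR x y hxy hx hy h1 h2
  -- only one arc
  have hconn : IsPreconnected (range c) := isPreconnected_range hc
  have hne : Nonempty ι := by
    by_contra hemp
    rw [not_nonempty_iff] at hemp
    have : c 0 ∈ ⋃ i, γ i '' I i := by rw [← hU]; exact ⟨0, rfl⟩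
    rw [mem_iUnion] at this
    obtain ⟨i, _⟩ := this
    exact hemp.false i
  obtain ⟨i₀⟩ := hne
  have hone : range c = γ i₀ '' I i₀ := by
    by_contra hnot
    have h1 : ∃ z ∈ range c, z ∉ γ i₀ '' I i₀ := by
      by_contra h2
      push Not at h2
      exact hnot (Subset.antisymm h2 (hsub i₀))
    obtain ⟨z, hz, hz'⟩ := h1
    have hz2 : z ∈ ⋃ i, ⋃ (_ : i ≠ i₀), γ i '' I i := by
      have := hz
      rw [hU, mem_iUnion] at this
      obtain ⟨i, hi⟩ := this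
      simp only [mem_iUnion]
      exact ⟨i, fun h => hz' (by rw [← h]; exact hi), hi⟩
    obtain ⟨t0, ht0⟩ := (hadm.isArc i₀).nontrivial.nonempty
    obtain ⟨w, hw, hw1, hw2⟩ := isPreconnected_closed_iff.1 hconn (γ i₀ '' I i₀)
      (⋃ i, ⋃ (_ : i ≠ i₀), γ i '' I i) (hAcomp i₀).isClosed
      (isClosed_iUnion_of_finite fun i => isClosed_iUnion_of_finite fun _ => (hAcomp i).isClosed)
      (by
        intro w hw
        rw [hU, mem_iUnion] at hw
        obtain ⟨i, hi⟩ := hw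
        by_cases h : i = i₀
        · left; rw [← h]; exact hi
        · right; simp only [mem_iUnion]; exact ⟨i, h, hi⟩)
      ⟨_, hsub i₀ ⟨t0, ht0, rfl⟩, t0, ht0, rfl⟩ ⟨z, hz, hz2⟩
    simp only [mem_iUnion] at hw2
    obtain ⟨i, hi, hwi⟩ := hw2
    exact Set.disjoint_left.1 (hdisj i₀ i hi.symm) hw1 hwi
  -- cut point argument
  have hcont := (hadm.isArc i₀).continuousOn
  have hinj0 := (hadm.isArc i₀).injOn
  rw [hIeq i₀] at hcont hinj0 hone
  set P := p i₀
  set Q := q i₀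
  have hPQ : P < Q := hpq i₀
  set m := (P + Q) / 2 with hm
  have hPm : P < m := by rw [hm]; linarith
  have hmQ : m < Q := by rw [hm]; linarith
  have hmI : m ∈ Icc P Q := ⟨hPm.le, hmQ.le⟩
  obtain ⟨s₀, hs₀⟩ : γ i₀ m ∈ range c := by rw [hone]; exact ⟨m, hmI, rfl⟩
  have hpre : IsPreconnected (c '' Ioo s₀ (s₀ + 2 * Real.pi)) :=
    isPreconnected_Ioo.image _ hc.continuousOn
  have hI := topo_injOn hper hinj s₀
  have hmem : ∀ t ∈ Icc P Q, t ≠ m → γ i₀ t ∈ c '' Ioo s₀ (s₀ + 2 * Real.pi) := by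
    intro t ht hne
    have : γ i₀ t ∈ range c := by rw [hone]; exact ⟨t, ht, rfl⟩
    obtain ⟨u, hu, hu'⟩ := topo_exists hper s₀ this
    refine ⟨u, ⟨lt_of_le_of_ne hu.1 ?_, hu.2⟩, hu'⟩
    intro h
    apply hne
    apply hinj0 ht hmI
    rw [← hu', ← h, hs₀]
  obtain ⟨w, hw, ⟨t, ht, htw⟩, ⟨u, hu, huw⟩⟩ := isPreconnected_closed_iff.1 hpre
    (γ i₀ '' Icc P m) (γ i₀ '' Icc m Q)
    (isCompact_Icc.image_of_continuousOn (hcont.mono (Icc_subset_Icc le_rfl hmQ.le))).isClosed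
    (isCompact_Icc.image_of_continuousOn (hcont.mono (Icc_subset_Icc hPm.le le_rfl))).isClosed
    (by
      rintro _ ⟨u, hu, rfl⟩
      have : c u ∈ range c := ⟨u, rfl⟩
      rw [hone] at this
      obtain ⟨t, ht, htu⟩ := this
      rcases le_total t m with h | h
      · exact Or.inl ⟨t, ⟨ht.1, h⟩, htu⟩
      · exact Or.inr ⟨t, ⟨h, ht.2⟩, htu⟩)
    ⟨γ i₀ P, hmem P ⟨le_rfl, hPQ.le⟩ hPm.ne, P, ⟨le_rfl, hPm.le⟩, rfl⟩
    ⟨γ i₀ Q, hmem Q ⟨hPQ.le, le_rfl⟩ hmQ.ne', Q, ⟨hmQ.le, le_rfl⟩, rfl⟩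
  have htu : t = u := hinj0 ⟨ht.1, ht.2.trans hmQ.le⟩ ⟨hPm.le.trans hu.1, hu.2⟩
    (htw.trans huw.symm)
  have htm : t = m := le_antisymm ht.2 (by rw [htu]; exact hu.1)
  obtain ⟨v, hv, hvw⟩ := hw
  have : c v = c s₀ := by rw [hvw, ← htw, htm, hs₀]
  have hvs : v = s₀ := hI ⟨hv.1.le, hv.2⟩ ⟨le_rfl, by linarith⟩ this
  exact absurd hv.1 (by rw [hvs]; exact lt_irrefl _)

end Pool.Agent.MP099f24
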