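import Pool.Agent.Lib.MP_099f24_an.Calc

set_option autoImplicit false

/-!
# The explicit calibration inequalities (MP_099f24_an)
-/

namespace Pool.Agent.MP099f24

open MeasureTheory Filter Topology Set Metric
open scoped ENNReal ContDiff

/-! ### Elementary bounds in the strip -/

theorem exp_bd {x : ℝ} (hx : |x| ≤ 1) :
    |Real.exp x - (1 + x + x ^ 2 / 2)| ≤ |x| ^ 3 * (2 / 9) := by
  have h := Real.exp_bound hx (n := 3) (by norm_num)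
  have e1 : ∑ m ∈ Finset.range 3, x ^ m / (m.factorial : ℝ) = 1 + x + x ^ 2 / 2 := by
    simp [Finset.sum_range_succ, Nat.factorial]
  rw [e1] at h
  refine h.trans (le_of_eq ?_)
  norm_num [Nat.factorial]

theorem exp_bd_strip {τ : ℝ} (hτ : |τ| < del) {k : ℝ} (hk : |k| ≤ 3) :
    |Real.exp (k * τ) - (1 + k * τ + k ^ 2 * τ ^ 2 / 2)| ≤ τ ^ 2 / 1000 := by
  unfold del at hτ
  have h0 := abs_nonneg τ
  have h0' := abs_nonneg k
  have h1 : |k * τ| ≤ 3 / 10000 := by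
    rw [abs_mul]
    calc |k| * |τ| ≤ 3 * (1 / 10000) := mul_le_mul hk hτ.le h0 (by norm_num)
      _ = 3 / 10000 := by norm_num
  have h2 := exp_bd (x := k * τ) (h1.trans (by norm_num))
  have e1 : 1 + k * τ + (k * τ) ^ 2 / 2 = 1 + k * τ + k ^ 2 * τ ^ 2 / 2 := by ring
  rw [e1] at h2
  refine h2.trans ?_
  have h3 : |k * τ| ^ 3 = |k * τ| * (|k| ^ 2 * τ ^ 2) := by
    rw [pow_succ', abs_mul]
    rw [← sq_abs τ]
    ring
  have h4 : |k| ^ 2 ≤ 9 := by nlinarith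
  have h5 : |k| ^ 2 * τ ^ 2 ≤ 9 * τ ^ 2 := mul_le_mul_of_nonneg_right h4 (sq_nonneg τ)
  have h6 : |k * τ| * (|k| ^ 2 * τ ^ 2) ≤ 3 / 10000 * (9 * τ ^ 2) :=
    mul_le_mul h1 h5 (by positivity) (by norm_num)
  rw [h3]
  nlinarith [sq_nonneg τ]

/-- All the exponential estimates used below. -/
theorem strip_exp {τ : ℝ} (hτ : |τ| < del) :
    |Real.exp τ - (1 + τ + τ ^ 2 / 2)| ≤ τ ^ 2 / 1000 ∧
    |Real.exp (-τ) - (1 - τ + τ ^ 2 / 2)| ≤ τ ^ 2 / 1000 ∧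
    |Real.exp (-(3 * τ)) - (1 - 3 * τ + 9 * τ ^ 2 / 2)| ≤ τ ^ 2 / 1000 ∧
    |Real.exp (2 * τ) - (1 + 2 * τ + 2 * τ ^ 2)| ≤ τ ^ 2 / 1000 ∧
    |Real.exp (-(2 * τ)) - (1 - 2 * τ + 2 * τ ^ 2)| ≤ τ ^ 2 / 1000 := by
  refine ⟨?_, ?_, ?_, ?_, ?_⟩
  · have h := exp_bd_strip hτ (k := 1) (by norm_num)
    have e1 : (1 : ℝ) * τ = τ := by ring
    have e2 : (1 : ℝ) ^ 2 * τ ^ 2 / 2 = τ ^ 2 / 2 := by ring
    rwa [e1, e2] at h
  · have h := exp_bd_strip hτ (k := -1) (by norm_num)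
    have e1 : (-1 : ℝ) * τ = -τ := by ring
    have e2 : 1 + -τ + (-1 : ℝ) ^ 2 * τ ^ 2 / 2 = 1 - τ + τ ^ 2 / 2 := by ring
    rwa [e1, e2] at h
  · have h := exp_bd_strip hτ (k := -3) (by norm_num)
    have e1 : (-3 : ℝ) * τ = -(3 * τ) := by ring
    have e2 : 1 + -(3 * τ) + (-3 : ℝ) ^ 2 * τ ^ 2 / 2 = 1 - 3 * τ + 9 * τ ^ 2 / 2 := by ring
    rwa [e1, e2] at h
  · have h := exp_bd_strip hτ (k := 2) (by norm_num)
    have e2 : 1 + 2 * τ + (2 : ℝ) ^ 2 * τ ^ 2 / 2 = 1 + 2 * τ + 2 * τ ^ 2 := by ring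
    rwa [e2] at h
  · have h := exp_bd_strip hτ (k := -2) (by norm_num)
    have e1 : (-2 : ℝ) * τ = -(2 * τ) := by ring
    have e2 : 1 + -(2 * τ) + (-2 : ℝ) ^ 2 * τ ^ 2 / 2 = 1 - 2 * τ + 2 * τ ^ 2 := by ring
    rwa [e1, e2] at h

theorem strip_sq {τ : ℝ} (hτ : |τ| < del) : τ ^ 2 ≤ 1 / 10 ^ 8 := by
  unfold del at hτ
  have h0 := abs_nonneg τ
  rw [← sq_abs]
  have : |τ| ^ 2 ≤ (1 / 10000) ^ 2 := pow_le_pow_left₀ h0 hτ.le 2
  norm_num at this ⊢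
  linarith

theorem cl_le (x : ℝ) : cl x ≤ 1 := by
  unfold cl
  exact max_le (by norm_num) (min_le_right _ _)

theorem neg_one_le_cl (x : ℝ) : -1 ≤ cl x := le_max_left _ _

theorem cl_sq_le (x : ℝ) : cl x ^ 2 ≤ 1 := by
  have h1 := cl_le x
  have h2 := neg_one_le_cl x
  nlinarith

theorem cl_of_le {x : ℝ} (hx : x ≤ -1) : cl x = -1 := by
  unfold cl
  rw [min_eq_left (by linarith), max_eq_left hx]

theorem cl_of_ge {x : ℝ} (hx : 1 ≤ x) : cl x = 1 := by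
  unfold cl
  rw [min_eq_right hx, max_eq_right (by norm_num)]

theorem cl_zero : cl 0 = 0 := by
  unfold cl
  norm_num

theorem cl₀_mem (x : ℝ) : 0 ≤ cl₀ x ∧ cl₀ x ≤ 1 := by
  unfold cl₀
  exact ⟨le_max_left _ _, max_le (by norm_num) (min_le_right _ _)⟩

theorem cl₀_of_le {x : ℝ} (hx : x ≤ 0) : cl₀ x = 0 := by
  unfold cl₀
  rw [min_eq_left (by linarith), max_eq_left hx]

theorem cl₀_of_ge {x : ℝ} (hx : 1 ≤ x) : cl₀ x = 1 := by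
  unfold cl₀
  rw [min_eq_right hx, max_eq_right (by norm_num)]

theorem Lam_of_ge {t : ℝ} (ht : -3 ≤ t) : Lam t = 1 := by
  unfold Lam
  rw [cl₀_of_ge (by linarith)]
  norm_num

theorem Lam_of_le {t : ℝ} (ht : t ≤ -7) : Lam t = 0 := by
  unfold Lam
  rw [cl₀_of_le (by linarith)]
  norm_num

theorem deriv_Lam_of_ge {t : ℝ} (ht : -3 ≤ t) : deriv Lam t = 0 := by
  rw [(Lam_hasDerivAt t).deriv, cl₀_of_ge (by linarith)]
  norm_num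

theorem Lam_mem (t : ℝ) : 0 ≤ Lam t ∧ Lam t ≤ 1 := by
  obtain ⟨h1, h2⟩ := cl₀_mem ((t + 7) / 4)
  unfold Lam
  set z := cl₀ ((t + 7) / 4)
  have h3 : 0 ≤ z ^ 2 := sq_nonneg z
  have h4 : z ^ 2 ≤ 1 := by nlinarith
  constructor
  · nlinarith
  · nlinarith [sq_nonneg (1 - z ^ 2)]

theorem ut_bounds {ζ : ℂ} (hζ : ζ ∈ strip del) : |ut ζ| ≤ 201 / 100 := by
  have hτ : |ζ.re| < del := hζ
  obtain ⟨h1, h2, -, -, -⟩ := strip_exp hτ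
  have hs := strip_sq hτ
  have hc : Real.cosh ζ.re ≤ 1 + 1 / 1000 := by
    rw [Real.cosh_eq]
    have a1 := (abs_le.mp h1).2
    have a2 := (abs_le.mp h2).2
    linarith
  have hc0 : 0 < Real.cosh ζ.re := Real.cosh_pos _
  have hcos := Real.abs_cos_le_one ζ.im
  unfold ut
  rw [abs_mul, abs_mul, abs_of_pos hc0, abs_of_pos (by norm_num : (0 : ℝ) < 2)]
  have : 2 * Real.cosh ζ.re * |Real.cos ζ.im| ≤ 2 * Real.cosh ζ.re * 1 :=
    mul_le_mul_of_nonneg_left hcos (by positivity)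
  linarith

theorem bb_bounds {ζ : ℂ} (hζ : ζ ∈ strip del) : 193 / 10 ≤ bb ζ.re ∧ bb ζ.re ≤ 207 / 10 := by
  have hτ : |ζ.re| < del := hζ
  have h0 := bb_pos' hζ
  unfold del at hτ
  obtain ⟨h1, h2⟩ := abs_lt.mp hτ
  unfold bb
  constructor
  · rw [← one_div, le_div_iff₀ h0]
    linarith
  · rw [← one_div, div_le_iff₀ h0]
    linarith

theorem norm_gt_sq_le {ζ : ℂ} (hζ : ζ ∈ strip del) : ‖gt ζ‖ ^ 2 ≤ 401 / 100 := by
  have hτ : |ζ.re| < del := hζ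
  obtain ⟨-, -, -, h1, h2⟩ := strip_exp hτ
  have hs := strip_sq hτ
  rw [norm_gt_sq, Real.cosh_eq]
  have a1 := (abs_le.mp h1).2
  have a2 := (abs_le.mp h2).2
  have a3 := Real.neg_one_le_cos (2 * ζ.im)
  linarith

theorem gt_re_sq_le {ζ : ℂ} (hζ : ζ ∈ strip del) : (gt ζ).re ^ 2 ≤ 404 / 100 * ζ.re ^ 2 := by
  have hτ : |ζ.re| < del := hζ
  obtain ⟨h1, h2, -, -, -⟩ := strip_exp hτ
  have h3 : |ζ.re| ≤ 1 / 10000 := le_of_lt hτ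
  have hs : |Real.sinh ζ.re| ≤ 1001 / 1000 * |ζ.re| := by
    have e1 : Real.sinh ζ.re = ζ.re + ((Real.exp ζ.re - (1 + ζ.re + ζ.re ^ 2 / 2)) -
        (Real.exp (-ζ.re) - (1 - ζ.re + ζ.re ^ 2 / 2))) / 2 := by
      rw [Real.sinh_eq]
      ring
    rw [e1]
    refine (abs_add_le _ _).trans ?_
    rw [abs_div, abs_of_pos (by norm_num : (0 : ℝ) < 2)]
    have h4 := abs_sub (Real.exp ζ.re - (1 + ζ.re + ζ.re ^ 2 / 2))
      (Real.exp (-ζ.re) - (1 - ζ.re + ζ.re ^ 2 / 2))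
    have h5 : ζ.re ^ 2 ≤ |ζ.re| := by
      rw [← sq_abs]
      nlinarith [abs_nonneg ζ.re]
    linarith
  have hc : Real.cos ζ.im ^ 2 ≤ 1 := Real.cos_sq_le_one _
  have hsq : Real.sinh ζ.re ^ 2 ≤ 101 / 100 * ζ.re ^ 2 := by
    rw [← sq_abs (Real.sinh ζ.re), ← sq_abs ζ.re]
    have := pow_le_pow_left₀ (abs_nonneg _) hs 2
    refine this.trans ?_
    nlinarith [sq_nonneg |ζ.re|]
  have e2 : (gt ζ).re ^ 2 = 4 * (Real.sinh ζ.re ^ 2 * Real.cos ζ.im ^ 2) := by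
    rw [gt]
    ring
  rw [e2]
  have h6 : Real.sinh ζ.re ^ 2 * Real.cos ζ.im ^ 2 ≤ (101 / 100 * ζ.re ^ 2) * 1 :=
    mul_le_mul hsq hc (sq_nonneg _) (by positivity)
  linarith

theorem gt_re_sq_le' {ζ : ℂ} (hζ : ζ ∈ strip del) : (gt ζ).re ^ 2 ≤ 1 / 10 ^ 7 := by
  have h1 := gt_re_sq_le hζ
  have h2 := strip_sq (show |ζ.re| < del from hζ)
  linarith

theorem rho_bounds {ζ : ℂ} (hζ : ζ ∈ strip del) : 1 ≤ rho ζ ∧ rho ζ ≤ 54 / 10 := by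
  have hτ : |ζ.re| < del := hζ
  obtain ⟨h1, h2, h3, -, -⟩ := strip_exp hτ
  have hs := strip_sq hτ
  obtain ⟨c1, c2⟩ := abs_le.mp h1
  obtain ⟨c3, c4⟩ := abs_le.mp h2
  obtain ⟨c5, c6⟩ := abs_le.mp h3
  unfold del at hτ
  obtain ⟨b1, b2⟩ := abs_lt.mp hτ
  have hcos1 := Real.neg_one_le_cos (2 * ζ.im)
  have hcos2 := Real.cos_le_one (2 * ζ.im)
  have he := Real.exp_pos (-ζ.re)
  have m1 : Real.exp (-ζ.re) * -1 ≤ Real.exp (-ζ.re) * Real.cos (2 * ζ.im) :=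
    mul_le_mul_of_nonneg_left hcos1 he.le
  have m2 : Real.exp (-ζ.re) * Real.cos (2 * ζ.im) ≤ Real.exp (-ζ.re) * 1 :=
    mul_le_mul_of_nonneg_left hcos2 he.le
  unfold rho
  constructor
  · nlinarith [sq_nonneg ζ.re]
  · nlinarith [sq_nonneg ζ.re]

/-- `ρ - W ≥ τ²`. -/
theorem rho_sub_WW {ζ : ℂ} (hζ : ζ ∈ strip del) : ζ.re ^ 2 ≤ rho ζ - WW ζ := by
  have hτ : |ζ.re| < del := hζ
  obtain ⟨h1, h2, h3, h4, h5⟩ := strip_exp hτ
  obtain ⟨c1, c2⟩ := abs_le.mp h1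
  obtain ⟨c3, c4⟩ := abs_le.mp h2
  obtain ⟨c5, c6⟩ := abs_le.mp h3
  obtain ⟨c7, c8⟩ := abs_le.mp h4
  obtain ⟨c9, c10⟩ := abs_le.mp h5
  have hcos1 := Real.neg_one_le_cos (2 * ζ.im)
  have h6 : 0 ≤ Real.exp (-ζ.re) - 1 + ζ.re := by
    have := Real.add_one_le_exp (-ζ.re)
    linarith
  have m1 : (Real.exp (-ζ.re) - 1 + ζ.re) * -1 ≤
      (Real.exp (-ζ.re) - 1 + ζ.re) * Real.cos (2 * ζ.im) :=
    mul_le_mul_of_nonneg_left hcos1 h6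
  have e1 : rho ζ - WW ζ = 3 * Real.exp ζ.re + Real.exp (-(3 * ζ.re)) / 3 - 10 / 3 -
      (Real.exp (2 * ζ.re) - Real.exp (-(2 * ζ.re))) / 2 +
      2 * ((Real.exp (-ζ.re) - 1 + ζ.re) * Real.cos (2 * ζ.im)) := by
    rw [rho, WW, Real.sinh_eq]
    ring
  rw [e1]
  linarith

theorem WW_ge {ζ : ℂ} (hζ : ζ ∈ strip del) : 133 / 100 ≤ WW ζ := by
  have hτ : |ζ.re| < del := hζ
  obtain ⟨-, -, -, h4, h5⟩ := strip_exp hτ
  have hs := strip_sq hτ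
  obtain ⟨c7, c8⟩ := abs_le.mp h4
  obtain ⟨c9, c10⟩ := abs_le.mp h5
  have hcos1 := Real.neg_one_le_cos (2 * ζ.im)
  unfold del at hτ
  obtain ⟨b1, b2⟩ := abs_lt.mp hτ
  have h6 : 0 ≤ 1 - ζ.re := by linarith
  have m1 : (1 - ζ.re) * -1 ≤ (1 - ζ.re) * Real.cos (2 * ζ.im) :=
    mul_le_mul_of_nonneg_left hcos1 h6
  rw [WW, Real.sinh_eq]
  linarith

theorem fa_sq_le (x : ℝ) : fa x ^ 2 ≤ cl x ^ 2 := by
  have h1 := cl_sq_le x
  have e1 : fa x = cl x * (1 - cl x ^ 2 / 3) := by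
    rw [fa]
    ring
  rw [e1, mul_pow]
  have h2 := sq_nonneg (cl x)
  have h3 : (1 - cl x ^ 2 / 3) ^ 2 ≤ 1 := by nlinarith
  calc cl x ^ 2 * (1 - cl x ^ 2 / 3) ^ 2 ≤ cl x ^ 2 * 1 := mul_le_mul_of_nonneg_left h3 h2
    _ = cl x ^ 2 := mul_one _

theorem fa_abs_le (x : ℝ) : |fa x| ≤ 2 / 3 := by
  have h1 := cl_le x
  have h2 := neg_one_le_cl x
  rw [fa, abs_le]
  constructor
  · nlinarith [mul_nonneg (mul_nonneg (by linarith : (0 : ℝ) ≤ 1 + cl x)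
      (by linarith : (0 : ℝ) ≤ 1 + cl x)) (by linarith : (0 : ℝ) ≤ 2 - cl x)]
  · nlinarith [mul_nonneg (mul_nonneg (by linarith : (0 : ℝ) ≤ 1 - cl x)
      (by linarith : (0 : ℝ) ≤ 1 - cl x)) (by linarith : (0 : ℝ) ≤ 2 + cl x)]

theorem fB_bounds (x : ℝ) : cl x ^ 2 ≤ fB x ∧ fB x ≤ 1 := by
  have h1 := cl_sq_le x
  have h2 := sq_nonneg (cl x)
  rw [fB]
  constructor
  · nlinarith
  · nlinarith [sq_nonneg (1 - cl x ^ 2)]

theorem VV_re (ζ : ℂ) (x : ℝ) :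
    (VV ζ x).re = WW ζ + fa x / 8 * (gt ζ).re - fB x * bb ζ.re / 256 := by
  rw [VV, Complex.sub_re, Complex.add_re, Complex.re_ofReal_mul, Complex.ofReal_re,
    Complex.ofReal_re]

theorem VV_im (ζ : ℂ) (x : ℝ) : (VV ζ x).im = fa x / 8 * (gt ζ).im := by
  rw [VV, Complex.sub_im, Complex.add_im, Complex.im_ofReal_mul, Complex.ofReal_im,
    Complex.ofReal_im, zero_add, sub_zero]

theorem norm_sq_eq (z : ℂ) : ‖z‖ ^ 2 = z.re ^ 2 + z.im ^ 2 := by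
  rw [← Complex.normSq_eq_norm_sq, Complex.normSq_apply]
  ring

/-- the key lower bound for `ρ - Re V` -/
theorem X_lower {τ q g a y B b r : ℝ} (hq : q = τ ^ 2) (hr : q ≤ r)
    (hg : g ^ 2 ≤ 404 / 100 * τ ^ 2) (ha : a ^ 2 ≤ y ^ 2) (hB : y ^ 2 ≤ B)
    (hb : 193 / 10 ≤ b) : 59 / 1000 * y ^ 2 ≤ r - a / 8 * g + B * b / 256 := by
  have h1 : y ^ 2 * (193 / 10) ≤ B * b := mul_le_mul hB hb (by norm_num) ((sq_nonneg y).trans hB)
  have h2 : a / 8 * g ≤ a ^ 2 / 62 + g ^ 2 * (62 / 256) := by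
    nlinarith [sq_nonneg (a / 8 - g * (62 / 64) / 2), sq_nonneg a, sq_nonneg (a * 2 - g * 31)]
  nlinarith [sq_nonneg y, sq_nonneg τ]

theorem VV_re_ge {ζ : ℂ} (hζ : ζ ∈ strip del) (x : ℝ) : 12 / 10 ≤ (VV ζ x).re := by
  have h1 := WW_ge hζ
  have h2 := abs_le.mp (fa_abs_le x)
  obtain ⟨h3, h4⟩ := fB_bounds x
  obtain ⟨h5, h6⟩ := bb_bounds hζ
  have h7 : |(gt ζ).re| ≤ 1 / 1000 := by
    apply abs_le_of_sq_le_sq _ (by norm_num)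
    have := gt_re_sq_le' hζ
    norm_num at this ⊢
    linarith
  have h8 : |fa x / 8 * (gt ζ).re| ≤ 1 / 8 * (1 / 1000) := by
    rw [abs_mul]
    refine mul_le_mul ?_ h7 (abs_nonneg _) (by norm_num)
    rw [abs_div, abs_of_pos (by norm_num : (0 : ℝ) < 8)]
    have := fa_abs_le x
    linarith
  have h9 := (abs_le.mp h8).1
  have h0 : 0 ≤ fB x := (sq_nonneg _).trans h3
  have h10 : fB x * bb ζ.re ≤ 1 * (207 / 10) := mul_le_mul h4 h6 (by linarith) (by norm_num)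
  rw [VV_re]
  linarith

theorem norm_VV_le {ζ : ℂ} (hζ : ζ ∈ strip del) (x : ℝ) : ‖VV ζ x‖ ≤ rho ζ := by
  obtain ⟨r1, r2⟩ := rho_bounds hζ
  have hre := VV_re_ge hζ x
  rw [← pow_le_pow_iff_left₀ (norm_nonneg _) (by linarith) two_ne_zero, norm_sq_eq]
  have hX : 59 / 1000 * cl x ^ 2 ≤ rho ζ - (VV ζ x).re := by
    have := X_lower rfl (rho_sub_WW hζ) (gt_re_sq_le hζ) (fa_sq_le x) (fB_bounds x).1
      (bb_bounds hζ).1
    rw [VV_re]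
    linarith
  have hI : (VV ζ x).im ^ 2 ≤ 63 / 1000 * cl x ^ 2 := by
    have h1 : (gt ζ).im ^ 2 ≤ 401 / 100 := by
      have h2 := norm_gt_sq_le hζ
      rw [norm_sq_eq] at h2
      nlinarith [sq_nonneg (gt ζ).re]
    have h3 : fa x ^ 2 * (gt ζ).im ^ 2 ≤ cl x ^ 2 * (401 / 100) :=
      mul_le_mul (fa_sq_le x) h1 (sq_nonneg _) (sq_nonneg _)
    rw [VV_im]
    have e1 : (fa x / 8 * (gt ζ).im) ^ 2 = fa x ^ 2 * (gt ζ).im ^ 2 / 64 := by ring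
    rw [e1]
    nlinarith [sq_nonneg (cl x)]
  have h2 : 59 / 1000 * cl x ^ 2 * (22 / 10) ≤ (rho ζ - (VV ζ x).re) * (rho ζ + (VV ζ x).re) := by
    refine mul_le_mul hX (by linarith) (by norm_num) ?_
    refine le_trans ?_ hX
    have := sq_nonneg (cl x)
    linarith
  nlinarith [sq_nonneg (cl x)]

theorem norm_VV_sub_le {ζ : ℂ} (hζ : ζ ∈ strip del) (x x' : ℝ) : ‖VV ζ x - VV ζ x'‖ ≤ 1 := by
  have e1 : VV ζ x - VV ζ x' = (((fa x - fa x') / 8 : ℝ) : ℂ) * gt ζ -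
      (((fB x - fB x') * bb ζ.re / 256 : ℝ) : ℂ) := by
    rw [VV, VV]
    push_cast
    ring
  have hg : ‖gt ζ‖ ≤ 201 / 100 := by
    rw [← pow_le_pow_iff_left₀ (norm_nonneg _) (by norm_num) two_ne_zero]
    have := norm_gt_sq_le hζ
    norm_num at this ⊢
    linarith
  have h1 : |(fa x - fa x') / 8| ≤ 1 / 6 := by
    rw [abs_div, abs_of_pos (by norm_num : (0 : ℝ) < 8)]
    have := abs_sub (fa x) (fa x')
    have := fa_abs_le x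
    have := fa_abs_le x'
    linarith
  have h2 : |(fB x - fB x') * bb ζ.re / 256| ≤ 207 / 2560 := by
    obtain ⟨b1, b2⟩ := bb_bounds hζ
    obtain ⟨c1, c2⟩ := fB_bounds x
    obtain ⟨c3, c4⟩ := fB_bounds x'
    have c5 := sq_nonneg (cl x)
    have c6 := sq_nonneg (cl x')
    have h3 : |fB x - fB x'| ≤ 1 := by
      rw [abs_le]
      constructor <;> linarith
    rw [abs_div, abs_mul, abs_of_pos (by norm_num : (0 : ℝ) < 256),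
      abs_of_pos (by linarith : 0 < bb ζ.re)]
    have : |fB x - fB x'| * bb ζ.re ≤ 1 * (207 / 10) :=
      mul_le_mul h3 b2 (by linarith) (by norm_num)
    linarith
  rw [e1]
  refine (norm_sub_le _ _).trans ?_
  rw [norm_mul, Complex.norm_real, Complex.norm_real, Real.norm_eq_abs, Real.norm_eq_abs]
  have h4 : |(fa x - fa x') / 8| * ‖gt ζ‖ ≤ 1 / 6 * (201 / 100) :=
    mul_le_mul h1 hg (norm_nonneg _) (by norm_num)
  linarith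

theorem norm_Psis_sub_le_aux {ζ : ℂ} (hζ : ζ ∈ strip del) {s t : ℝ} (h : Lam s ≤ Lam t) :
    ‖Psis ζ t - Psis ζ s‖ ≤ rho ζ := by
  obtain ⟨r1, r2⟩ := rho_bounds hζ
  obtain ⟨l1, l2⟩ := Lam_mem s
  obtain ⟨l3, l4⟩ := Lam_mem t
  have e1 : Psis ζ t - Psis ζ s = ((Lam t - Lam s : ℝ) : ℂ) * VV ζ (16 * (t - ut ζ)) +
      ((Lam s : ℝ) : ℂ) * (VV ζ (16 * (t - ut ζ)) - VV ζ (16 * (s - ut ζ))) := by
    rw [Psis, Psis]
    push_cast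
    ring
  rw [e1]
  refine (norm_add_le _ _).trans ?_
  rw [norm_mul, norm_mul, Complex.norm_real, Complex.norm_real, Real.norm_eq_abs,
    Real.norm_eq_abs, abs_of_nonneg (by linarith : 0 ≤ Lam t - Lam s), abs_of_nonneg l1]
  have h1 : (Lam t - Lam s) * ‖VV ζ (16 * (t - ut ζ))‖ ≤ (Lam t - Lam s) * rho ζ :=
    mul_le_mul_of_nonneg_left (norm_VV_le hζ _) (by linarith)
  have h2 : Lam s * ‖VV ζ (16 * (t - ut ζ)) - VV ζ (16 * (s - ut ζ))‖ ≤ Lam s * rho ζ :=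
    mul_le_mul_of_nonneg_left ((norm_VV_sub_le hζ _ _).trans r1) l1
  have h3 : Lam t * rho ζ ≤ 1 * rho ζ := mul_le_mul_of_nonneg_right l4 (by linarith)
  nlinarith

theorem norm_Psis_sub_le {ζ : ℂ} (hζ : ζ ∈ strip del) (s t : ℝ) :
    ‖Psis ζ s - Psis ζ t‖ ≤ rho ζ := by
  rcases le_total (Lam s) (Lam t) with h | h
  · rw [norm_sub_rev]
    exact norm_Psis_sub_le_aux hζ h
  · exact norm_Psis_sub_le_aux hζ h

/-- the polynomial inequality behind the calibration for `t ≥ -3` -/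
theorem calib_poly {y h2 β g : ℝ} (hy : y ^ 2 ≤ 1) (hh : h2 ≤ 401 / 100) (hβ : 12 / 10 ≤ β)
    (hβ' : β ≤ 13 / 10) (hg : |g| ≤ 1 / 1000) (hh0 : 0 ≤ h2) :
    0 ≤ y ^ 2 * (16 * (2 - y ^ 2) * β ^ 2 - y ^ 2 * h2 - 4 * y * (1 - y ^ 2) * β * g
      - 4 * (1 - y ^ 2) ^ 2 * β ^ 2) := by
  apply mul_nonneg (sq_nonneg y)
  have hy0 := sq_nonneg y
  have hyabs : |y| ≤ 1 := by
    apply abs_le_of_sq_le_sq _ (by norm_num)
    linarith
  have hβ2 : 144 / 100 ≤ β ^ 2 := by nlinarith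
  have h1 : |4 * y * (1 - y ^ 2) * β * g| ≤ 4 * 1 * 1 * (13 / 10) * (1 / 1000) := by
    rw [abs_mul, abs_mul, abs_mul, abs_mul, abs_of_pos (by norm_num : (0 : ℝ) < 4),
      abs_of_nonneg (by linarith : 0 ≤ 1 - y ^ 2), abs_of_nonneg (by linarith : 0 ≤ β)]
    have a1 : 4 * |y| ≤ 4 * 1 := by linarith
    have a2 : 4 * |y| * (1 - y ^ 2) ≤ 4 * 1 * 1 :=
      mul_le_mul a1 (by linarith) (by linarith) (by norm_num)
    have a3 : 4 * |y| * (1 - y ^ 2) * β ≤ 4 * 1 * 1 * (13 / 10) :=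
      mul_le_mul a2 hβ' (by linarith) (by norm_num)
    exact mul_le_mul a3 hg (abs_nonneg _) (by norm_num)
  have h2' := (abs_le.mp h1).2
  have h3 : y ^ 2 * h2 ≤ 1 * (401 / 100) := mul_le_mul hy hh hh0 (by norm_num)
  have h4 : 4 * (1 - y ^ 2) ^ 2 * β ^ 2 ≤ 4 * β ^ 2 := by
    have : (1 - y ^ 2) ^ 2 ≤ 1 := by nlinarith
    nlinarith [sq_nonneg β]
  have h5 : 16 * β ^ 2 ≤ 16 * (2 - y ^ 2) * β ^ 2 := by
    nlinarith [sq_nonneg β]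
  linarith

theorem gt_re_abs_le {ζ : ℂ} (hζ : ζ ∈ strip del) : |(gt ζ).re| ≤ 1 / 1000 := by
  apply abs_le_of_sq_le_sq _ (by norm_num)
  have := gt_re_sq_le' hζ
  norm_num at this ⊢
  linarith

theorem calib_ineq {ζ : ℂ} (hζ : ζ ∈ strip del) (t : ℝ) :
    ‖derivt Psis ζ t‖ ^ 2 / 4 ≤ - divx Psis ζ t := by
  obtain ⟨b1, b2⟩ := bb_bounds hζ
  rcases le_total (-3) t with ht | ht
  · rw [divx_Psis hζ, derivt_Psis, deriv_Lam_of_ge ht, Lam_of_ge ht]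
    set y := cl (16 * (t - ut ζ)) with hy
    have hy1 : y ^ 2 ≤ 1 := cl_sq_le _
    have hpoly := calib_poly (y := y) (h2 := ‖gt ζ‖ ^ 2) (β := bb ζ.re / 16) (g := (gt ζ).re) hy1
      (norm_gt_sq_le hζ) (by linarith) (by linarith) (gt_re_abs_le hζ) (sq_nonneg _)
    have e1 : ((0 : ℝ) : ℂ) * VV ζ (16 * (t - ut ζ)) + ((1 : ℝ) : ℂ) *
        (((2 * (1 - y ^ 2) : ℝ) : ℂ) * gt ζ - ((4 * y - 4 * y ^ 3) * bb ζ.re / 16 : ℝ)) =
        (((2 * (1 - y ^ 2) : ℝ) : ℂ) * gt ζ - (((4 * y - 4 * y ^ 3) * bb ζ.re / 16 : ℝ) : ℂ)) := by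
      push_cast
      ring
    rw [e1, norm_sq_eq, Complex.sub_re, Complex.sub_im, Complex.re_ofReal_mul,
      Complex.im_ofReal_mul, Complex.ofReal_re, Complex.ofReal_im]
    rw [norm_sq_eq] at hpoly ⊢
    have hB : fB (16 * (t - ut ζ)) = 2 * y ^ 2 - y ^ 4 := rfl
    rw [hB]
    nlinarith [hpoly]
  · have hu := (abs_le.mp (ut_bounds hζ)).1
    have hc : cl (16 * (t - ut ζ)) = -1 := cl_of_le (by linarith)
    rw [divx_Psis hζ, derivt_Psis, (Lam_hasDerivAt t).deriv, hc]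
    have hB : fB (16 * (t - ut ζ)) = 1 := by
      rw [fB, hc]
      norm_num
    rw [hB]
    have hL : Lam t = 2 * cl₀ ((t + 7) / 4) ^ 2 - cl₀ ((t + 7) / 4) ^ 4 := rfl
    obtain ⟨z0, z1⟩ := cl₀_mem ((t + 7) / 4)
    rw [hL]
    set z := cl₀ ((t + 7) / 4) with hz
    obtain ⟨r1, r2⟩ := rho_bounds hζ
    have hV := norm_VV_le hζ (16 * (t - ut ζ))
    have e1 : (((z - z ^ 3 : ℝ)) : ℂ) * VV ζ (16 * (t - ut ζ)) +
        (((2 * z ^ 2 - z ^ 4 : ℝ)) : ℂ) * (((2 * (1 - (-1) ^ 2) : ℝ) : ℂ) * gt ζ -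
          (((4 * (-1) - 4 * (-1) ^ 3) * bb ζ.re / 16 : ℝ) : ℂ)) =
        (((z - z ^ 3 : ℝ)) : ℂ) * VV ζ (16 * (t - ut ζ)) := by
      push_cast
      ring
    rw [e1, norm_mul, mul_pow, Complex.norm_real, Real.norm_eq_abs, sq_abs]
    have hz2 : z ^ 2 ≤ 1 := by nlinarith
    have hV2 : ‖VV ζ (16 * (t - ut ζ))‖ ^ 2 ≤ (54 / 10) ^ 2 :=
      pow_le_pow_left₀ (norm_nonneg _) (hV.trans r2) 2
    have hz3 : (z - z ^ 3) ^ 2 ≤ z ^ 2 := by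
      have : (z - z ^ 3) ^ 2 = z ^ 2 * (1 - z ^ 2) ^ 2 := by ring
      rw [this]
      have h5 : (1 - z ^ 2) ^ 2 ≤ 1 := by nlinarith [sq_nonneg z]
      nlinarith [sq_nonneg z]
    have h6 : (z - z ^ 3) ^ 2 * ‖VV ζ (16 * (t - ut ζ))‖ ^ 2 ≤ z ^ 2 * (54 / 10) ^ 2 :=
      mul_le_mul hz3 hV2 (sq_nonneg _) (sq_nonneg _)
    have h7 : z ^ 2 ≤ 2 * z ^ 2 - z ^ 4 := by nlinarith [sq_nonneg z]
    have hg := norm_gt_sq_le hζ
    have hbb : (193 / 10) ^ 2 ≤ bb ζ.re ^ 2 := pow_le_pow_left₀ (by norm_num) b1 2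
    have h8 : 19 ≤ -(‖gt ζ‖ ^ 2 - 1 * (16 * bb ζ.re ^ 2) / 256 -
        2 * (1 - (-1 : ℝ) ^ 2) * ‖gt ζ‖ ^ 2 +
        (4 * (-1) - 4 * (-1 : ℝ) ^ 3) * bb ζ.re / 16 * (gt ζ).re) := by
      norm_num at hbb ⊢
      linarith
    have h9 : (2 * z ^ 2 - z ^ 4) * 19 ≤ (2 * z ^ 2 - z ^ 4) * -(‖gt ζ‖ ^ 2 -
        1 * (16 * bb ζ.re ^ 2) / 256 - 2 * (1 - (-1 : ℝ) ^ 2) * ‖gt ζ‖ ^ 2 +
        (4 * (-1) - 4 * (-1 : ℝ) ^ 3) * bb ζ.re / 16 * (gt ζ).re) :=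
      mul_le_mul_of_nonneg_left h8 ((sq_nonneg z).trans h7)
    rw [neg_mul_eq_mul_neg]
    refine le_trans ?_ h9
    nlinarith [sq_nonneg z]

theorem calib_eq {ζ : ℂ} (hζ : ζ ∈ strip del) :
    derivt Psis ζ (ut ζ) = (2 : ℝ) • gt ζ ∧ - divx Psis ζ (ut ζ) = ‖gt ζ‖ ^ 2 := by
  have hu := (abs_le.mp (ut_bounds hζ)).1
  have ht : -3 ≤ ut ζ := by linarith
  have h0 : cl (16 * (ut ζ - ut ζ)) = 0 := by rw [sub_self, mul_zero, cl_zero]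
  constructor
  · rw [derivt_Psis, deriv_Lam_of_ge ht, Lam_of_ge ht, h0, Complex.real_smul]
    push_cast
    ring
  · rw [divx_Psis hζ, Lam_of_ge ht, h0, fB, h0]
    ring

theorem Psis_loop (α : ℝ) : Psis (α * Complex.I) (ut (α * Complex.I)) = rho (α * Complex.I) := by
  have hζ : ((α : ℂ) * Complex.I) ∈ strip del := by
    change |((α : ℂ) * Complex.I).re| < del
    simp [del]
  have hu := (abs_le.mp (ut_bounds hζ)).1
  have h0 : cl (16 * (ut (α * Complex.I) - ut (α * Complex.I))) = 0 := by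
    rw [sub_self, mul_zero, cl_zero]
  rw [Psis, Lam_of_ge (by linarith), VV, fa, fB, h0, WW, rho]
  simp
  ring

theorem Psis_low {ζ : ℂ} {t : ℝ} (ht : t ≤ -7) : Psis ζ t = 0 := by
  rw [Psis, Lam_of_le ht, Complex.ofReal_zero, zero_mul]

theorem Psis_stable {ζ : ℂ} (hζ : ζ ∈ strip del) {t : ℝ} :
    Psis ζ t = Psis ζ (max (-7) (min t 3)) := by
  rcases le_total t (-7) with h | h
  · rw [Psis_low h, min_eq_left (by linarith), max_eq_left h, Psis_low le_rfl]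
  · rcases le_total t 3 with h' | h'
    · rw [min_eq_left h', max_eq_right h]
    · rw [min_eq_right h', max_eq_right (by norm_num)]
      have hu := (abs_le.mp (ut_bounds hζ)).2
      have c1 : cl (16 * (t - ut ζ)) = 1 := cl_of_ge (by linarith)
      have c2 : cl (16 * (3 - ut ζ)) = 1 := cl_of_ge (by linarith)
      rw [Psis, Psis, Lam_of_ge (by linarith), Lam_of_ge (by norm_num), VV, VV, fa, fa, fB, fB,
        c1, c2]

end Pool.Agent.MP099f24
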