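import Pool.Agent.Lib.MP_099f24_an.Conf
import Pool.Agent.Lib.MP_099f24_an.Ineq

/-!
# The calibration in the domain `Ω` (MP_099f24_an)
-/

namespace Pool.Agent.MP099f24

open MeasureTheory Filter Topology Set Metric
open scoped ENNReal ContDiff

theorem tr_sec_small {ζ : ℂ} (h : ζ ∈ strip del) : |ζ.re| ≤ 1 / 100 := by
  have h1 : |ζ.re| < del := h
  have h2 : del ≤ 1 / 100 := by rw [del]; norm_num
  linarith

theorem tr_F'_ne {ζ : ℂ} (h : ζ ∈ strip del) : F' ζ ≠ 0 := by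
  intro h0
  have h1 := one_le_rho (tr_sec_small h)
  rw [← norm_F', h0, norm_zero] at h1
  linarith

theorem tr_contDiff_F' {n : WithTop ℕ∞} : ContDiff ℂ n F' := by
  unfold F'
  fun_prop

/-- the factor `1 / conj F'` -/
theorem tr_contDiffOn_inv {n : WithTop ℕ∞} :
    ContDiffOn ℝ n (fun p : ℂ × ℝ => (starRingEnd ℂ) (F' p.1)⁻¹) (strip del ×ˢ univ) := by
  have h1 : ContDiffOn ℂ n (fun ζ : ℂ => (F' ζ)⁻¹) (strip del) :=
    tr_contDiff_F'.contDiffOn.inv (fun ζ hζ => tr_F'_ne hζ)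
  have h2 : ContDiffOn ℝ n (fun ζ : ℂ => (F' ζ)⁻¹) (strip del) := h1.restrict_scalars ℝ
  have h3 : ContDiffOn ℝ n (fun p : ℂ × ℝ => (F' p.1)⁻¹) (strip del ×ˢ univ) :=
    h2.comp contDiff_fst.contDiffOn (fun p hp => hp.1)
  exact Complex.conjCLE.contDiff.comp_contDiffOn h3

theorem tr_Psi_eq (x : ℂ) (t : ℝ) :
    Psi x t = Psis (sec x) t * (starRingEnd ℂ) (F' (sec x))⁻¹ := by
  rw [Psi, div_eq_mul_inv, map_inv₀]

theorem contDiffOn_Psi : ContDiffOn ℝ 1 (fun p : ℂ × ℝ => Psi p.1 p.2) (Om ×ˢ univ) := by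
  have h1 : ContDiffOn ℝ 1 (fun p : ℂ × ℝ => Psis p.1 p.2 * (starRingEnd ℂ) (F' p.1)⁻¹)
      (strip del ×ˢ univ) := contDiffOn_Psis.mul tr_contDiffOn_inv
  have h2 := contDiffOn_comp_sec (P := ℝ) (E := ℂ) (n := 1)
    (G := fun ζ t => Psis ζ t * (starRingEnd ℂ) (F' ζ)⁻¹)
    (fun ζ n => by funext t; rw [Psis_period, F'_period]) h1
  refine h2.congr fun p _ => ?_
  exact tr_Psi_eq p.1 p.2

set_option linter.unusedVariables false in
theorem derivt_Psi {x : ℂ} (hx : x ∈ Om) (t : ℝ) :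
    derivt Psi x t = derivt Psis (sec x) t / (starRingEnd ℂ) (F' (sec x)) := by
  unfold derivt Psi
  exact deriv_div_const _

theorem tr_isOpen_strip (r : ℝ) : IsOpen (strip r) := by
  have : strip r = (fun s : ℂ => |s.re|) ⁻¹' (Iio r) := rfl
  rw [this]
  exact isOpen_Iio.preimage (by fun_prop)

theorem tr_differentiableAt_Psis {ζ : ℂ} (hζ : ζ ∈ strip del) (t : ℝ) :
    DifferentiableAt ℝ (fun y : ℂ => Psis y t) ζ := by
  have h1 : DifferentiableAt ℝ (fun p : ℂ × ℝ => Psis p.1 p.2) (ζ, t) :=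
    (contDiffOn_Psis.differentiableOn one_ne_zero).differentiableAt
      (((tr_isOpen_strip del).prod isOpen_univ).mem_nhds ⟨hζ, mem_univ t⟩)
  have h2 : DifferentiableAt ℝ (fun y : ℂ => (y, t)) ζ := by fun_prop
  exact DifferentiableAt.comp ζ (g := fun p : ℂ × ℝ => Psis p.1 p.2) (f := fun y : ℂ => (y, t)) h1 h2

theorem divx_Psi {x : ℂ} (hx : x ∈ Om) (t : ℝ) :
    divx Psi x t = divx Psis (sec x) t / ‖F' (sec x)‖ ^ 2 := by
  set ζ := sec x with hζdef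
  have hζ : ζ ∈ strip del := sec_mem hx
  have hf : F' ζ ≠ 0 := tr_F'_ne hζ
  set L : ℂ →L[ℝ] ℂ := fderiv ℝ (fun y : ℂ => Psis y t) ζ with hL
  have hV : HasFDerivAt (fun y : ℂ => Psis y t) L ζ := (tr_differentiableAt_Psis hζ t).hasFDerivAt
  have hinv : DifferentiableAt ℂ (fun y : ℂ => (F' y)⁻¹) ζ :=
    ((tr_contDiff_F' (n := 1)).differentiable one_ne_zero ζ).inv hf
  set e : ℂ := deriv (fun y : ℂ => (F' y)⁻¹) ζ with he
  have hinv' : HasFDerivAt (fun y : ℂ => (F' y)⁻¹)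
      ((ContinuousLinearMap.toSpanSingleton ℂ e).restrictScalars ℝ) ζ :=
    hinv.hasDerivAt.hasFDerivAt.restrictScalars ℝ
  have hconj : HasFDerivAt (fun y : ℂ => (starRingEnd ℂ) (F' y)⁻¹)
      ((Complex.conjCLE : ℂ →L[ℝ] ℂ).comp
        ((ContinuousLinearMap.toSpanSingleton ℂ e).restrictScalars ℝ)) ζ :=
    (Complex.conjCLE.hasFDerivAt (x := (F' ζ)⁻¹)).comp ζ hinv'
  have hG := hV.mul hconj
  have hD := hasFDerivAt_comp_sec
    (G := fun ζ => Psis ζ t * (starRingEnd ℂ) (F' ζ)⁻¹)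
    (fun ζ n => by simp only [Psis_period, F'_period]) hx hG
  have hfd := hD.fderiv
  have e1 : (fun y => Psis (sec y) t * (starRingEnd ℂ) (F' (sec y))⁻¹) = fun y => Psi y t := by
    funext y; exact (tr_Psi_eq y t).symm
  rw [e1, ← hζdef] at hfd
  have hadd : ∀ w : ℂ, L w = w.re • L 1 + w.im • L Complex.I := by
    intro w
    have e1 : w = w.re • (1 : ℂ) + w.im • Complex.I := by
      apply Complex.ext <;> simp
    conv_lhs => rw [e1]
    rw [map_add, map_smul, map_smul]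
  unfold divx
  rw [hfd]
  rw [← hL]
  set c : ℂ := (F' ζ)⁻¹ with hc
  simp only [ContinuousLinearMap.comp_apply, _root_.add_apply,
    ContinuousLinearMap.mul_apply', _root_.smul_apply, smul_eq_mul, mul_one,
    ContinuousLinearMap.coe_restrictScalars', ContinuousLinearMap.toSpanSingleton_apply]
  rw [hadd c, hadd (c * Complex.I)]
  have hn : ‖F' ζ‖ ^ 2 = (Complex.normSq c)⁻¹ := by
    rw [hc, Complex.normSq_inv, inv_inv, Complex.normSq_eq_norm_sq]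
  rw [hn, div_inv_eq_mul, Complex.normSq_apply]
  generalize L 1 = l
  generalize L Complex.I = m
  generalize Psis ζ t = V
  simp
  ring

theorem bounded_Psi : ∀ K, IsCompact K → K ⊆ Om → ∃ C, ∀ x ∈ K, ∀ t,
      ‖Psi x t‖ ≤ C ∧ ‖fderiv ℝ (fun p : ℂ × ℝ => Psi p.1 p.2) (x, t)‖ ≤ C := by
  intro K hK hKΩ
  have hcont : ContinuousOn (fun p : ℂ × ℝ => Psi p.1 p.2) (Om ×ˢ univ) :=
    contDiffOn_Psi.continuousOn
  have hopen : IsOpen (Om ×ˢ (univ : Set ℝ)) := isOpen_Om.prod isOpen_univ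
  have hcontd : ContinuousOn (fderiv ℝ (fun p : ℂ × ℝ => Psi p.1 p.2)) (Om ×ˢ univ) :=
    contDiffOn_Psi.continuousOn_fderiv_of_isOpen hopen le_rfl
  have hKI : IsCompact (K ×ˢ Icc (-10 : ℝ) 10) := hK.prod isCompact_Icc
  have hsub : K ×ˢ Icc (-10 : ℝ) 10 ⊆ Om ×ˢ univ := fun p hp => ⟨hKΩ hp.1, mem_univ _⟩
  obtain ⟨C₁, hC₁⟩ := (hKI.exists_bound_of_continuousOn (hcont.mono hsub))
  obtain ⟨C₂, hC₂⟩ := (hKI.exists_bound_of_continuousOn (hcontd.mono hsub))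
  have hstab : ∀ x ∈ Om, ∀ t, Psi x t = Psi x (max (-7) (min t 3)) := by
    intro x hx t
    rw [Psi, Psi, ← Psis_stable (sec_mem hx)]
  have hfar : ∀ x ∈ K, ∀ t t₀ : ℝ, t₀ ∈ Icc (-10 : ℝ) 10 →
      (∀ᶠ p : ℂ × ℝ in 𝓝 (x, t), Psi p.1 p.2 = Psi p.1 t₀) →
      ‖fderiv ℝ (fun p : ℂ × ℝ => Psi p.1 p.2) (x, t)‖ ≤ C₂ := by
    intro x hx t t₀ ht₀ h
    have h1 : DifferentiableAt ℝ (fun p : ℂ × ℝ => Psi p.1 p.2) (x, t₀) :=
      (contDiffOn_Psi.differentiableOn one_ne_zero).differentiableAt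
        (hopen.mem_nhds ⟨hKΩ hx, mem_univ _⟩)
    have h2 : HasFDerivAt (fun p : ℂ × ℝ => (p.1, t₀))
        ((ContinuousLinearMap.inl ℝ ℂ ℝ).comp (ContinuousLinearMap.fst ℝ ℂ ℝ)) (x, t) := by
      have h3 : HasFDerivAt (fun p : ℂ × ℝ => (p.1, t₀))
          ((ContinuousLinearMap.fst ℝ ℂ ℝ).prod 0) (x, t) :=
        hasFDerivAt_fst.prodMk (hasFDerivAt_const t₀ (x, t))
      convert h3 using 1
      ext <;> simp
    have h3 : HasFDerivAt (fun p : ℂ × ℝ => Psi p.1 t₀)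
        ((fderiv ℝ (fun p : ℂ × ℝ => Psi p.1 p.2) (x, t₀)).comp
        ((ContinuousLinearMap.inl ℝ ℂ ℝ).comp (ContinuousLinearMap.fst ℝ ℂ ℝ))) (x, t) :=
      HasFDerivAt.comp (x, t) (g := fun p : ℂ × ℝ => Psi p.1 p.2)
        (f := fun p : ℂ × ℝ => (p.1, t₀)) h1.hasFDerivAt h2
    have h4 := h3.congr_of_eventuallyEq h
    rw [h4.fderiv]
    set A := fderiv ℝ (fun p : ℂ × ℝ => Psi p.1 p.2) (x, t₀) with hA
    have hA2 : ‖A‖ ≤ C₂ := hC₂ (x, t₀) ⟨hx, ht₀⟩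
    have hi : ‖ContinuousLinearMap.inl ℝ ℂ ℝ‖ ≤ 1 := ContinuousLinearMap.norm_inl_le_one ℝ ℂ ℝ
    have hf : ‖ContinuousLinearMap.fst ℝ ℂ ℝ‖ ≤ 1 := ContinuousLinearMap.norm_fst_le ℝ ℂ ℝ
    have h5 : ‖(ContinuousLinearMap.inl ℝ ℂ ℝ).comp (ContinuousLinearMap.fst ℝ ℂ ℝ)‖ ≤ 1 := by
      refine (ContinuousLinearMap.opNorm_comp_le _ _).trans ?_
      have h6 : ‖ContinuousLinearMap.inl ℝ ℂ ℝ‖ * ‖ContinuousLinearMap.fst ℝ ℂ ℝ‖ ≤ 1 * 1 :=
        mul_le_mul hi hf (norm_nonneg _) zero_le_one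
      linarith
    refine (ContinuousLinearMap.opNorm_comp_le _ _).trans ?_
    have h6 : 0 ≤ ‖A‖ := norm_nonneg _
    nlinarith
  refine ⟨max C₁ C₂, fun x hx t => ⟨?_, ?_⟩⟩
  · rw [hstab x (hKΩ hx) t]
    refine (hC₁ (x, max (-7) (min t 3)) ⟨hx, ?_⟩).trans (le_max_left _ _)
    have e1 : -7 ≤ max (-7) (min t 3) := le_max_left _ _
    have e2 : max (-7) (min t 3) ≤ 3 := max_le (by norm_num) (min_le_right _ _)
    exact ⟨by linarith, by linarith⟩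
  · refine le_trans ?_ (le_max_right _ _)
    rcases le_or_gt t 10 with h1 | h1
    · rcases le_or_gt (-10) t with h2 | h2
      · exact hC₂ (x, t) ⟨hx, h2, h1⟩
      · refine hfar x hx t (-8) ⟨by norm_num, by norm_num⟩ ?_
        have hn : (Om ×ˢ Iio (-9 : ℝ)) ∈ 𝓝 (x, t) :=
          (isOpen_Om.prod isOpen_Iio).mem_nhds ⟨hKΩ hx, by simp only [mem_Iio]; linarith⟩
        filter_upwards [hn] with p hp
        have hp2 : p.2 < -9 := hp.2
        rw [hstab p.1 hp.1 p.2, hstab p.1 hp.1 (-8)]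
        congr 1
        rw [min_eq_left (by linarith), min_eq_left (by norm_num), max_eq_left (by linarith),
          max_eq_left (by norm_num)]
    · refine hfar x hx t 5 ⟨by norm_num, by norm_num⟩ ?_
      have hn : (Om ×ˢ Ioi (9 : ℝ)) ∈ 𝓝 (x, t) :=
        (isOpen_Om.prod isOpen_Ioi).mem_nhds ⟨hKΩ hx, by simp only [mem_Ioi]; linarith⟩
      filter_upwards [hn] with p hp
      have hp2 : 9 < p.2 := hp.2
      rw [hstab p.1 hp.1 p.2, hstab p.1 hp.1 5]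
      congr 1
      rw [min_eq_right (by linarith), min_eq_right (by norm_num)]

end Pool.Agent.MP099f24
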