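import Pool.Agent.Lib.MP_099f24_an.Calibration
import Pool.Agent.Lib.MP_099f24_an.Transfer
import Pool.Agent.Lib.MP_099f24_an.SBVu
import Pool.Agent.Lib.MP_099f24_an.Topo
import Pool.Agent.Lib.MP_099f24_an.Unique

/-!
# The closed loop is the discontinuity set of a local minimizer (MP_099f24_an)
-/

namespace Pool.Agent.MP099f24

open MeasureTheory Filter Topology Set Metric
open scoped ENNReal ContDiff

theorem fin_norm_pos {x : ℂ} (hx : x ∈ Om) : 0 < ‖F' (sec x)‖ := by
  rw [norm_F']
  have h1 : |(sec x).re| ≤ 1 / 100 := by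
    have h2 : |(sec x).re| < del := sec_mem hx
    unfold del at h2
    linarith
  exact lt_of_lt_of_le one_pos (one_le_rho h1)

theorem fin_norm_conj (z : ℂ) : ‖(starRingEnd ℂ) z‖ = ‖z‖ := by simp

theorem fin_ha {x : ℂ} (hx : x ∈ Om) (t : ℝ) : ‖derivt Psi x t‖ ^ 2 / 4 ≤ - divx Psi x t := by
  rw [derivt_Psi hx, divx_Psi hx, norm_div, fin_norm_conj, div_pow]
  have h1 := calib_ineq (sec_mem hx) t
  have h2 : 0 < ‖F' (sec x)‖ ^ 2 := by
    have := fin_norm_pos hx
    positivity
  rw [← neg_div, div_right_comm]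
  exact div_le_div_of_nonneg_right h1 h2.le

theorem fin_hb {x : ℂ} (hx : x ∈ Om) (s t : ℝ) : ‖Psi x s - Psi x t‖ ≤ 1 := by
  unfold Psi
  rw [← sub_div, norm_div, fin_norm_conj, div_le_one (fin_norm_pos hx), norm_F']
  exact norm_Psis_sub_le (sec_mem hx) s t

theorem fin_ha' {x : ℂ} (hx : x ∈ Om) : derivt Psi x (uu x) = (2 : ℝ) • gg x ∧
    - divx Psi x (uu x) = ‖gg x‖ ^ 2 := by
  rw [derivt_Psi hx, divx_Psi hx]
  by_cases hxo : x ∈ OmOut
  · have hu : uu x = ut (sec x) := by unfold uu; rw [if_pos hxo]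
    have hg : gg x = gt (sec x) / (starRingEnd ℂ) (F' (sec x)) := by unfold gg; rw [if_pos hxo]
    obtain ⟨h1, h2⟩ := calib_eq (sec_mem hx)
    rw [hu, hg, h1]
    constructor
    · rw [smul_div_assoc]
    · rw [norm_div, fin_norm_conj, div_pow, ← h2, neg_div]
  · have hu : uu x = -8 := by unfold uu; rw [if_neg hxo]
    have hg : gg x = 0 := by unfold gg; rw [if_neg hxo]
    rw [hu, hg]
    have hev : ∀ᶠ t : ℝ in 𝓝 (-8), Psis (sec x) t = 0 := by
      filter_upwards [Iio_mem_nhds (show (-8 : ℝ) < -7 by norm_num)] with t ht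
      exact Psis_low (le_of_lt ht)
    have h1 : derivt Psis (sec x) (-8) = 0 := by
      unfold derivt
      have h2 : (fun s => Psis (sec x) s) =ᶠ[𝓝 (-8)] fun _ => (0 : ℂ) := hev
      rw [h2.deriv_eq, deriv_const]
    have h2 : divx Psis (sec x) (-8) = 0 := by
      unfold divx
      have h3 : (fun y => Psis y (-8)) = fun _ => (0 : ℂ) := by
        funext y
        exact Psis_low (by norm_num)
      rw [h3]
      simp
    rw [h1, h2]
    simp

theorem fin_flux (α : ℝ) : inner ℝ (Psi (loop α) (ut (α * Complex.I)) - Psi (loop α) (-8))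
    ((‖F' (α * Complex.I)‖⁻¹ : ℝ) • F' (α * Complex.I)) = 1 := by
  have hmem : ((α : ℂ) * Complex.I) ∈ strip del := by
    unfold strip del
    simp only [mem_ofPred_eq, Complex.mul_re, Complex.ofReal_re, Complex.I_re, mul_zero,
      Complex.ofReal_im, Complex.I_im, zero_mul, sub_zero, abs_zero]
    norm_num
  obtain ⟨n, hn⟩ := sec_F hmem
  have h0 : 0 < ‖F' (α * Complex.I)‖ := norm_pos_iff.2 (sbvu_F'_ne α)
  have h1 : ∀ t, Psi (loop α) t =
      Psis (α * Complex.I) t / (starRingEnd ℂ) (F' (α * Complex.I)) := by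
    intro t
    unfold Psi loop
    rw [hn, F'_period, Psis_period]
  rw [h1, h1, Psis_loop, Psis_low (by norm_num), zero_div, sub_zero, ← norm_F', Complex.inner,
    map_div₀, Complex.conj_conj, Complex.conj_ofReal, Complex.real_smul]
  have h2 : (F' (α * Complex.I)) ≠ 0 := sbvu_F'_ne α
  have h3 : ((‖F' (α * Complex.I)‖ : ℝ) : ℂ) / F' (α * Complex.I) *
      (((‖F' (α * Complex.I)‖⁻¹ : ℝ) : ℂ) * F' (α * Complex.I)) = 1 := by
    have h4 : ((‖F' (α * Complex.I)‖ : ℝ) : ℂ) ≠ 0 := by exact_mod_cast h0.ne'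
    push_cast
    field_simp
  rw [mul_comm, h3, Complex.one_re]

theorem fin_hb' {x : ℂ} (hx : x ∈ range loop) {a b : ℝ} {ν : ℂ} (h : IsJump uu x a b ν) :
    inner ℝ (Psi x a - Psi x b) ν = 1 := by
  obtain ⟨α, rfl⟩ := hx
  have hU : IntegrableOn uu (ball (loop α) 1) := sbvu_integrableOn_uu measure_ball_lt_top.ne
  rcases isJump_unique (ball_mem_nhds (loop α) one_pos) hU (isJump_loop α) h with
    ⟨rfl, rfl, rfl⟩ | ⟨rfl, rfl, rfl⟩
  · exact fin_flux α
  · rw [inner_neg_right, ← inner_neg_left, neg_sub]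
    exact fin_flux α

theorem isLocalMinimizer_uu : IsLocalMinimizer Om uu := by
  refine isLocalMinimizer_of_calibration isOpen_Om locallyIntegrable_uu isSBVGrad_uu ?_ ?_ ?_
    contDiffOn_Psi bounded_Psi (fun x hx t => fin_ha hx t) (fun x hx s t => fin_hb hx s t) ?_ ?_ ?_
  · intro K hK hKΩ
    constructor
    · have h1 : ∀ x, ‖gg x‖ₑ ^ 2 ≤ ENNReal.ofReal (12 ^ 2) := by
        intro x
        rw [← ofReal_norm, ← ENNReal.ofReal_pow (norm_nonneg _)]
        exact ENNReal.ofReal_le_ofReal (pow_le_pow_left₀ (norm_nonneg _) (sbvu_gg_bound x) 2)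
      calc ∫⁻ x in K, ‖gg x‖ₑ ^ 2 ≤ ∫⁻ _ in K, ENNReal.ofReal (12 ^ 2) :=
            lintegral_mono h1
        _ = ENNReal.ofReal (12 ^ 2) * volume K := setLIntegral_const _ _
        _ < ⊤ := ENNReal.mul_lt_top ENNReal.ofReal_lt_top hK.measure_lt_top
    · rw [discSet_uu]
      exact (measure_mono inter_subset_left).trans_lt hausdorff_loop_lt_top
  · rw [discSet_uu]; exact sbvu_isCompact_range_loop.measurableSet
  · rw [discSet_uu, sbvu_isCompact_range_loop.isClosed.closure_eq]
    exact measure_mono_null inter_subset_right volume_loop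
  · filter_upwards [ae_restrict_mem isOpen_Om.measurableSet] with x hx
    exact fin_ha' hx
  · intro x hx a b ν h
    rw [discSet_uu] at hx
    exact fin_hb' hx h
  · intro x hx
    rw [discSet_uu] at hx
    obtain ⟨α, rfl⟩ := hx
    exact ⟨_, _, _, isJump_loop α⟩

theorem closure_discSet_uu : Om ∩ closure (discSet Om uu) = range loop := by
  rw [discSet_uu, sbvu_isCompact_range_loop.isClosed.closure_eq]
  exact inter_eq_right.2 sbvu_range_loop_subset

theorem loop_period (t : ℝ) : loop (t + 2 * Real.pi) = loop t := by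
  unfold loop
  have h := F_period (t * Complex.I) 1
  rw [← h]
  congr 1
  push_cast
  ring

theorem not_admissible_uu : ¬ IsAdmissibleUnion Om (Om ∩ closure (discSet Om uu)) := by
  rw [closure_discSet_uu]
  exact not_isAdmissibleUnion_loop sbvu_loop_contDiff.continuous loop_period sbvu_loop_injOn
    sbvu_range_loop_subset

theorem loop_contDiff : ContDiff ℝ ∞ loop := by
  have h1 : ContDiff ℝ ∞ (fun α : ℝ => (α : ℂ) * Complex.I) :=
    Complex.ofRealCLM.contDiff.mul contDiff_const
  have h2 : ContDiff ℝ ∞ F := by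
    unfold F
    have h3 : ContDiff ℝ ∞ Complex.exp := Complex.contDiff_exp
    exact ((contDiff_const.mul h3).sub (contDiff_const.mul (h3.comp contDiff_neg))).sub
      ((h3.comp ((contDiff_const.mul contDiff_id).neg)).div_const 9)
  exact h2.comp h1

theorem isConnected_Om : IsConnected Om := by
  have h1 : IsConnected (strip del) := by
    have h2 : strip del = Complex.re ⁻¹' (Ioo (-del) del) := by
      ext ζ
      simp only [strip, mem_ofPred_eq, mem_preimage, mem_Ioo, abs_lt]
    have h3 : Convex ℝ (strip del) := by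
      rw [h2]
      exact (convex_Ioo _ _).is_linear_preimage Complex.reLm.isLinear
    refine ⟨⟨0, ?_⟩, h3.isPreconnected⟩
    rw [h2]
    simp only [mem_preimage, Complex.zero_re, mem_Ioo]
    unfold del
    norm_num
  have h4 : Continuous F := by
    rw [continuous_iff_continuousAt]
    exact fun ζ => (hasDerivAt_F ζ).continuousAt
  exact h1.image F h4.continuousOn

end Pool.Agent.MP099f24
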