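import Pool.Agent.Lib.MP_099f24_an.Conf

/-!
# Jump points of the explicit function `uu` (MP_099f24_an)
-/

namespace Pool.Agent.MP099f24

open MeasureTheory Filter Topology Set Metric
open scoped ENNReal ContDiff

/-! ### Averages over half balls -/

theorem jumpu_preimage (x ν : ℂ) (hν : ‖ν‖ = 1) {r : ℝ} (hr : 0 < r) :
    (fun z : ℂ => x + ((r : ℂ) * ν) * z) '' halfBall 0 1 1 = halfBall x ν r := by
  have hν0 : ν ≠ 0 := by
    intro h
    rw [h] at hν
    simp at hν
  have hr0 : (r : ℂ) ≠ 0 := by exact_mod_cast hr.ne'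
  have key : ∀ z : ℂ, (x + ((r : ℂ) * ν) * z ∈ halfBall x ν r ↔ z ∈ halfBall 0 1 1) := by
    intro z
    have hn : ‖((r : ℂ) * ν) * z‖ = r * ‖z‖ := by
      rw [norm_mul, norm_mul, hν, Complex.norm_real, Real.norm_eq_abs, abs_of_pos hr, mul_one]
    have hi : inner ℝ (((r : ℂ) * ν) * z) ν = r * z.re := by
      have h1 : ν.re * ν.re + ν.im * ν.im = 1 := by
        have := Complex.normSq_apply ν
        rw [← this, Complex.normSq_eq_norm_sq, hν, one_pow]
      rw [Complex.inner]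
      simp only [Complex.mul_re, Complex.mul_im, Complex.conj_re, Complex.conj_im,
        Complex.ofReal_re, Complex.ofReal_im]
      have : r * z.re = r * z.re * (ν.re * ν.re + ν.im * ν.im) := by rw [h1, mul_one]
      rw [this]
      ring
    have hi1 : inner ℝ z (1 : ℂ) = z.re := by
      rw [Complex.inner]
      simp
    simp only [halfBall, mem_inter_iff, mem_ball, mem_ofPred_eq, dist_eq_norm, add_sub_cancel_left,
      sub_zero, hn, hi, hi1]
    constructor
    · rintro ⟨h1, h2⟩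
      refine ⟨?_, ?_⟩
      · by_contra h
        push Not at h
        nlinarith
      · exact (mul_pos_iff_of_pos_left hr).1 h2
    · rintro ⟨h1, h2⟩
      exact ⟨by nlinarith, mul_pos hr h2⟩
  ext y
  constructor
  · rintro ⟨z, hz, rfl⟩
    exact (key z).2 hz
  · intro hy
    have hyz : x + ((r : ℂ) * ν) * (((r : ℂ) * ν)⁻¹ * (y - x)) = y := by
      rw [← mul_assoc, mul_inv_cancel₀ (mul_ne_zero hr0 hν0)]
      ring
    refine ⟨((r : ℂ) * ν)⁻¹ * (y - x), ?_, hyz⟩
    rw [← key, hyz]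
    exact hy

theorem jumpu_measurableSet (x ν : ℂ) (r : ℝ) : MeasurableSet (halfBall x ν r) := by
  apply IsOpen.measurableSet
  apply isOpen_ball.inter
  exact isOpen_lt continuous_const (by fun_prop)

theorem jumpu_average (x ν : ℂ) (hν : ‖ν‖ = 1) {r : ℝ} (hr : 0 < r) (g : ℂ → ℝ) :
    ⨍ y in halfBall x ν r, g y = ⨍ z in halfBall 0 1 1, g (x + ((r : ℂ) * ν) * z) := by
  have hν0 : ν ≠ 0 := by
    intro h
    rw [h] at hν
    simp at hν
  have hr0 : (r : ℂ) ≠ 0 := by exact_mod_cast hr.ne'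
  have hc : (r : ℂ) * ν ≠ 0 := mul_ne_zero hr0 hν0
  let A : ℂ →L[ℝ] ℂ := ContinuousLinearMap.mul ℝ ℂ ((r : ℂ) * ν)
  have hA : A.det ≠ 0 := by
    intro h0
    have hb : (LinearMap.det (A : ℂ →ₗ[ℝ] ℂ)) = 0 := h0
    have hinj : Function.Injective (A : ℂ →ₗ[ℝ] ℂ) := by
      intro u v huv
      have : ((r : ℂ) * ν) * u = ((r : ℂ) * ν) * v := huv
      exact mul_left_cancel₀ hc this
    have hk := LinearMap.bot_lt_ker_of_det_eq_zero hb
    rw [LinearMap.ker_eq_bot.2 hinj] at hk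
    exact lt_irrefl _ hk
  have hint : ∀ g : ℂ → ℝ, ∫ y in halfBall x ν r, g y =
      |A.det| * ∫ z in halfBall 0 1 1, g (x + ((r : ℂ) * ν) * z) := by
    intro g
    rw [← jumpu_preimage x ν hν hr]
    rw [integral_image_eq_integral_abs_det_fderiv_smul (μ := volume)
      (jumpu_measurableSet 0 1 1) (f' := fun _ => A)]
    · simp only [smul_eq_mul]
      rw [integral_const_mul]
    · intro z _
      apply HasFDerivAt.hasFDerivWithinAt
      have := A.hasFDerivAt (x := z)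
      exact this.const_add x
    · intro u _ v _ huv
      have : ((r : ℂ) * ν) * u = ((r : ℂ) * ν) * v := add_left_cancel huv
      exact mul_left_cancel₀ hc this
  have hvol : volume.real (halfBall x ν r) = |A.det| * volume.real (halfBall 0 1 1) := by
    have := hint (fun _ => 1)
    simpa using this
  rw [setAverage_eq, setAverage_eq, hint, hvol, smul_eq_mul, smul_eq_mul, mul_inv, mul_mul_mul_comm,
    inv_mul_cancel₀ (abs_ne_zero.2 hA), one_mul]

theorem jumpu_tendsto (x ν : ℂ) (hν : ‖ν‖ = 1) (a : ℝ) (g : ℂ → ℝ) (hg : Measurable g) {M : ℝ}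
    (hM : ∀ y, |g y| ≤ M)
    (hlim : ∀ z : ℂ, 0 < z.re →
      Tendsto (fun r : ℝ => g (x + ((r : ℂ) * ν) * z)) (𝓝[>] 0) (𝓝 a)) :
    Tendsto (fun r : ℝ => ⨍ y in halfBall x ν r, |g y - a|) (𝓝[>] 0) (𝓝 0) := by
  have hcongr : (fun r : ℝ => ⨍ y in halfBall x ν r, |g y - a|) =ᶠ[𝓝[>] 0]
      fun r : ℝ => (volume.real (halfBall 0 1 1))⁻¹ *
        ∫ z in halfBall 0 1 1, |g (x + ((r : ℂ) * ν) * z) - a| := by
    filter_upwards [self_mem_nhdsWithin] with r hr
    rw [jumpu_average x ν hν hr, setAverage_eq, smul_eq_mul]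
  rw [tendsto_congr' hcongr]
  have hfin : volume (halfBall 0 1 1) ≠ ⊤ :=
    ((measure_mono inter_subset_left).trans_lt measure_ball_lt_top).ne
  have hdom : Tendsto (fun r : ℝ => ∫ z in halfBall 0 1 1, |g (x + ((r : ℂ) * ν) * z) - a|)
      (𝓝[>] 0) (𝓝 (∫ z in halfBall 0 1 1, (0 : ℝ))) := by
    apply tendsto_integral_filter_of_dominated_convergence (fun _ => M + |a|)
    · refine Eventually.of_forall fun r => ?_
      apply Measurable.aestronglyMeasurable
      have h1 : Measurable (fun z : ℂ => x + ((r : ℂ) * ν) * z) := by fun_prop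
      have h2 : Measurable (fun z : ℂ => g (x + ((r : ℂ) * ν) * z)) := hg.comp h1
      exact (h2.sub_const a).abs
    · refine Eventually.of_forall fun r => ?_
      refine Eventually.of_forall fun z => ?_
      rw [Real.norm_eq_abs, abs_abs]
      exact (abs_sub _ _).trans (add_le_add (hM _) le_rfl)
    · exact integrableOn_const hfin
    · rw [ae_restrict_iff' (jumpu_measurableSet 0 1 1)]
      refine Eventually.of_forall fun z hz => ?_
      have hz' : 0 < z.re := by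
        have := hz.2
        simp only [mem_ofPred_eq, sub_zero] at this
        rw [Complex.inner] at this
        simpa using this
      have h1 := hlim z hz'
      have h2 : Tendsto (fun r : ℝ => |g (x + ((r : ℂ) * ν) * z) - a|) (𝓝[>] 0) (𝓝 |a - a|) :=
        (h1.sub_const a).abs
      rwa [sub_self, abs_zero] at h2
  have := hdom.const_mul (volume.real (halfBall 0 1 1))⁻¹
  simpa using this

/-! ### The function `uu` -/

theorem jumpu_ut_period (ζ : ℂ) (n : ℤ) :
    ut (ζ + n * (2 * Real.pi * Complex.I)) = ut ζ := by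
  unfold ut
  have h1 : (ζ + n * (2 * Real.pi * Complex.I)).re = ζ.re := conf_re_period ζ n
  have h2 : (ζ + n * (2 * Real.pi * Complex.I)).im = ζ.im + n * (2 * Real.pi) := by simp
  rw [h1, h2, Real.cos_add_int_mul_two_pi]

theorem jumpu_ut_differentiable : Differentiable ℝ ut := by
  have h1 : Differentiable ℝ (fun ζ : ℂ => ζ.re) := Complex.reCLM.differentiable
  have h2 : Differentiable ℝ (fun ζ : ℂ => ζ.im) := Complex.imCLM.differentiable
  unfold ut
  exact ((Real.differentiable_cosh.comp h1).const_mul 2).mul (Real.differentiable_cos.comp h2)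

theorem jumpu_ut_sec_continuousAt {x : ℂ} (hx : x ∈ Om) : ContinuousAt (fun y => ut (sec y)) x :=
  (hasFDerivAt_comp_sec (G := ut) jumpu_ut_period hx
    (jumpu_ut_differentiable (sec x)).hasFDerivAt).continuousAt

theorem jumpu_re_hasFDerivAt {x : ℂ} (hx : x ∈ Om) :
    HasFDerivAt (fun y => (sec y).re)
      (Complex.reCLM.comp (ContinuousLinearMap.mul ℝ ℂ (F' (sec x))⁻¹)) x :=
  hasFDerivAt_comp_sec (G := fun ζ => ζ.re) conf_re_period hx
    (Complex.reCLM.hasFDerivAt (x := sec x))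

theorem jumpu_OmOut_subset : OmOut ⊆ Om := by
  rintro x ⟨ζ, ⟨h1, h2⟩, rfl⟩
  refine ⟨ζ, ?_, rfl⟩
  show |ζ.re| < del
  rw [abs_lt]
  exact ⟨by linarith, h2⟩

theorem jumpu_uu_of_mem {x : ℂ} (hx : x ∈ OmOut) : uu x = ut (sec x) := by
  unfold uu
  rw [if_pos hx]

theorem jumpu_uu_of_notMem {x : ℂ} (hx : x ∉ OmOut) : uu x = -8 := by
  unfold uu
  rw [if_neg hx]

theorem jumpu_uu_measurable : Measurable uu := by
  classical
  have h : uu = OmOut.piecewise (fun y => ut (sec y)) (fun _ => (-8 : ℝ)) := by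
    funext x
    by_cases hx : x ∈ OmOut
    · rw [piecewise_eq_of_mem _ _ _ hx, jumpu_uu_of_mem hx]
    · rw [piecewise_eq_of_notMem _ _ _ hx, jumpu_uu_of_notMem hx]
  rw [h]
  apply ContinuousOn.measurable_piecewise
  · intro x hx
    exact (jumpu_ut_sec_continuousAt (jumpu_OmOut_subset hx)).continuousWithinAt
  · exact continuousOn_const
  · exact isOpen_OmOut.measurableSet

theorem jumpu_ut_bound {ζ : ℂ} (h : ζ ∈ strip del) : |ut ζ| ≤ 8 := by
  have h1 : |ζ.re| ≤ 1 := (conf_strip h).trans (by norm_num)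
  have h2 : Real.cosh ζ.re ≤ Real.cosh 1 := by
    rw [Real.cosh_le_cosh, abs_one]
    exact h1
  have h3 : Real.cosh 1 ≤ 3 := by
    rw [Real.cosh_eq]
    have h4 := Real.exp_one_lt_d9
    have h5 : Real.exp (-1) ≤ 1 := by
      rw [Real.exp_le_one_iff]
      norm_num
    linarith
  have h6 : 0 ≤ Real.cosh ζ.re := (Real.cosh_pos _).le
  have h7 := Real.abs_cos_le_one ζ.im
  unfold ut
  rw [abs_mul, abs_mul, abs_of_nonneg h6, abs_two]
  have h8 : 0 ≤ |Real.cos ζ.im| := abs_nonneg _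
  nlinarith

theorem jumpu_uu_bound (x : ℂ) : |uu x| ≤ 8 := by
  by_cases hx : x ∈ OmOut
  · rw [jumpu_uu_of_mem hx]
    exact jumpu_ut_bound (sec_mem (jumpu_OmOut_subset hx))
  · rw [jumpu_uu_of_notMem hx]
    norm_num

theorem jumpu_loop_mem (α : ℝ) : loop α ∈ Om := by
  refine ⟨α * Complex.I, ?_, rfl⟩
  show |(α * Complex.I : ℂ).re| < del
  rw [del]
  simp

theorem jumpu_sec_loop (α : ℝ) :
    ∃ n : ℤ, sec (loop α) = α * Complex.I + n * (2 * Real.pi * Complex.I) := by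
  apply sec_F
  show |(α * Complex.I : ℂ).re| < del
  rw [del]
  simp

theorem jumpu_ray_deriv (x w : ℂ) : HasDerivAt (fun r : ℝ => x + (r : ℂ) * w) w 0 := by
  have h1 : HasDerivAt (fun r : ℝ => (r : ℂ)) 1 0 := Complex.ofRealCLM.hasDerivAt
  have h2 := (h1.mul_const w).const_add x
  simpa using h2

theorem jumpu_re_ray {x : ℂ} (hx : x ∈ Om) (w : ℂ) :
    HasDerivAt (fun r : ℝ => (sec (x + (r : ℂ) * w)).re) ((F' (sec x))⁻¹ * w).re 0 := by
  have h1 := jumpu_re_hasFDerivAt hx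
  have h2 := jumpu_ray_deriv x w
  have hx0 : x = x + ((0 : ℝ) : ℂ) * w := by simp
  have h1' : HasFDerivAt (fun y => (sec y).re)
      (Complex.reCLM.comp (ContinuousLinearMap.mul ℝ ℂ (F' (sec x))⁻¹))
      (x + ((0 : ℝ) : ℂ) * w) := by
    rw [← hx0]
    exact h1
  exact h1'.comp_hasDerivAt (0 : ℝ) h2

theorem jumpu_ray_tendsto (x w : ℂ) :
    Tendsto (fun r : ℝ => x + (r : ℂ) * w) (𝓝[>] 0) (𝓝 x) := by
  have h := (jumpu_ray_deriv x w).continuousAt.tendsto
  have hx0 : x + ((0 : ℝ) : ℂ) * w = x := by simp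
  rw [hx0] at h
  exact h.mono_left nhdsWithin_le_nhds

theorem jumpu_eventually_pos {f : ℝ → ℝ} {f' : ℝ} (hf : HasDerivAt f f' 0) (h0 : f 0 = 0)
    (hpos : 0 < f') : ∀ᶠ r in 𝓝[>] (0 : ℝ), 0 < f r := by
  have h1 := hf.tendsto_slope_zero_right
  have h2 : ∀ᶠ t in 𝓝[>] (0 : ℝ), 0 < t⁻¹ • (f (0 + t) - f 0) := h1.eventually (lt_mem_nhds hpos)
  filter_upwards [h2, self_mem_nhdsWithin] with t ht ht0
  rw [zero_add, h0, sub_zero, smul_eq_mul] at ht
  exact (mul_pos_iff_of_pos_left (inv_pos.2 ht0)).1 ht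

theorem isJump_loop (α : ℝ) :
    IsJump uu (loop α) (ut (α * Complex.I)) (-8)
      ((‖F' (α * Complex.I)‖⁻¹ : ℝ) • F' (α * Complex.I)) := by
  obtain ⟨n, hn⟩ := jumpu_sec_loop α
  have hx := jumpu_loop_mem α
  set x := loop α with hxdef
  set D := F' (α * Complex.I) with hD
  have hD' : F' (sec x) = D := by rw [hn, F'_period]
  have hD0 : D ≠ 0 := by
    apply conf_F'_ne
    simp
  have hre0 : (sec x).re = 0 := by
    rw [hn, conf_re_period]
    simp
  have hut : ut (sec x) = ut (α * Complex.I) := by rw [hn, jumpu_ut_period]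
  have hnD : 0 < ‖D‖ := norm_pos_iff.2 hD0
  have hcastn : ((‖D‖ : ℝ) : ℂ) ≠ 0 := by exact_mod_cast hnD.ne'
  have hν : ‖(‖D‖⁻¹ : ℝ) • D‖ = 1 := by
    rw [norm_smul, norm_inv, norm_norm, inv_mul_cancel₀ hnD.ne']
  have hνz : ∀ z : ℂ, (D⁻¹ * (((‖D‖⁻¹ : ℝ) • D) * z)).re = ‖D‖⁻¹ * z.re := by
    intro z
    have : D⁻¹ * (((‖D‖⁻¹ : ℝ) • D) * z) = ((‖D‖⁻¹ : ℝ) : ℂ) * z := by
      rw [Complex.real_smul]
      field_simp
    rw [this, Complex.re_ofReal_mul]
  refine ⟨hν, ?_, ?_, ?_⟩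
  · intro h
    have h1 : |ut (α * Complex.I)| ≤ 6 := by
      unfold ut
      simp only [Complex.mul_re, Complex.ofReal_re, Complex.I_re, mul_zero, Complex.ofReal_im,
        Complex.I_im, mul_one, sub_self, Real.cosh_zero, Complex.mul_im, add_zero]
      rw [abs_mul, abs_two]
      have := Real.abs_cos_le_one α
      linarith
    rw [h] at h1
    norm_num at h1
  · apply jumpu_tendsto x _ hν _ uu jumpu_uu_measurable jumpu_uu_bound
    intro z hz
    have hev : ∀ᶠ r : ℝ in 𝓝[>] (0 : ℝ),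
        0 < (sec (x + (r : ℂ) * (((‖D‖⁻¹ : ℝ) • D) * z))).re := by
      apply jumpu_eventually_pos (jumpu_re_ray hx _)
      · simpa using hre0
      · rw [hD', hνz]
        exact mul_pos (inv_pos.2 hnD) hz
    have hev2 : ∀ᶠ r : ℝ in 𝓝[>] (0 : ℝ), x + (r : ℂ) * (((‖D‖⁻¹ : ℝ) • D) * z) ∈ Om :=
      (jumpu_ray_tendsto x _).eventually (isOpen_Om.mem_nhds hx)
    have ht : Tendsto (fun r : ℝ => ut (sec (x + (r : ℂ) * (((‖D‖⁻¹ : ℝ) • D) * z))))
        (𝓝[>] 0) (𝓝 (ut (α * Complex.I))) := by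
      rw [← hut]
      exact (jumpu_ut_sec_continuousAt hx).tendsto.comp (jumpu_ray_tendsto x _)
    refine ht.congr' ?_
    filter_upwards [hev, hev2] with r hr1 hr2
    rw [mul_assoc, jumpu_uu_of_mem ((mem_OmOut_iff hr2).2 hr1)]
  · apply jumpu_tendsto x _ (by rw [norm_neg]; exact hν) _ uu jumpu_uu_measurable jumpu_uu_bound
    intro z hz
    have hev : ∀ᶠ r : ℝ in 𝓝[>] (0 : ℝ),
        0 < -(sec (x + (r : ℂ) * (-((‖D‖⁻¹ : ℝ) • D) * z))).re := by
      apply jumpu_eventually_pos (jumpu_re_ray hx _).neg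
      · simpa using hre0
      · rw [hD', neg_mul, mul_neg, Complex.neg_re, neg_neg, hνz]
        exact mul_pos (inv_pos.2 hnD) hz
    have hev2 : ∀ᶠ r : ℝ in 𝓝[>] (0 : ℝ), x + (r : ℂ) * (-((‖D‖⁻¹ : ℝ) • D) * z) ∈ Om :=
      (jumpu_ray_tendsto x _).eventually (isOpen_Om.mem_nhds hx)
    refine (tendsto_const_nhds (x := (-8 : ℝ))).congr' ?_
    filter_upwards [hev, hev2] with r hr1 hr2
    rw [mul_assoc, jumpu_uu_of_notMem]
    rw [mem_OmOut_iff hr2]
    linarith

theorem continuousAt_uu {x : ℂ} (hx : x ∈ Om) (h : x ∉ range loop) : ContinuousAt uu x := by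
  rw [mem_range_loop_iff hx] at h
  have hre : ContinuousAt (fun y => (sec y).re) x := (jumpu_re_hasFDerivAt hx).continuousAt
  rcases lt_or_gt_of_ne h with h1 | h1
  · have hev : ∀ᶠ y in 𝓝 x, (sec y).re < 0 := hre.eventually (gt_mem_nhds h1)
    have : (fun _ : ℂ => (-8 : ℝ)) =ᶠ[𝓝 x] uu := by
      filter_upwards [hev, isOpen_Om.mem_nhds hx] with y hy1 hy2
      rw [jumpu_uu_of_notMem]
      rw [mem_OmOut_iff hy2]
      linarith
    exact continuousAt_const.congr this
  · have hev : ∀ᶠ y in 𝓝 x, 0 < (sec y).re := hre.eventually (lt_mem_nhds h1)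
    have : (fun y : ℂ => ut (sec y)) =ᶠ[𝓝 x] uu := by
      filter_upwards [hev, isOpen_Om.mem_nhds hx] with y hy1 hy2
      rw [jumpu_uu_of_mem ((mem_OmOut_iff hy2).2 hy1)]
    exact (jumpu_ut_sec_continuousAt hx).congr this

end Pool.Agent.MP099f24
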