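import Pool.Agent.Lib.MP_099f24_an.Moll

/-!
# The closed loop: explicit data (MP_099f24_an)

The domain is the image of the strip `|Re ζ| < del` under the `2πi`-periodic entire function
`F ζ = 3 exp ζ - 2 exp (-ζ) - exp (-3 ζ) / 9`, the loop is the image of the imaginary axis.
We write `ζ = τ + i α`.
-/

namespace Pool.Agent.MP099f24

open MeasureTheory Filter Topology Set Metric
open scoped ENNReal ContDiff

/-- The uniformisation. -/
noncomputable def F (ζ : ℂ) : ℂ :=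
  3 * Complex.exp ζ - 2 * Complex.exp (-ζ) - Complex.exp (-(3 * ζ)) / 9

/-- Its derivative `F' = exp ζ (3 + exp (-2ζ))² / 3`. -/
noncomputable def F' (ζ : ℂ) : ℂ :=
  3 * Complex.exp ζ + 2 * Complex.exp (-ζ) + Complex.exp (-(3 * ζ)) / 3

/-- The strip `|Re ζ| < r`. -/
def strip (r : ℝ) : Set ℂ := {ζ | |ζ.re| < r}

/-- Half the width of the strip. -/
noncomputable def del : ℝ := 1 / 10000

/-- The annular domain `Ω`. -/
noncomputable def Om : Set ℂ := F '' strip del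

/-- The part of `Ω` outside the loop. -/
noncomputable def OmOut : Set ℂ := F '' {ζ | 0 < ζ.re ∧ ζ.re < del}

/-- The loop, parametrised by `α`. -/
noncomputable def loop (α : ℝ) : ℂ := F (α * Complex.I)

/-- A section of `F` over `Ω`. -/
noncomputable def sec (x : ℂ) : ℂ := by
  classical
  exact if h : ∃ ζ ∈ strip del, F ζ = x then h.choose else 0

/-- `ũ = 2 cosh τ cos α` in the strip. -/
noncomputable def ut (ζ : ℂ) : ℝ := 2 * Real.cosh ζ.re * Real.cos ζ.im

/-- The gradient of `ũ` in the strip. -/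
noncomputable def gt (ζ : ℂ) : ℂ :=
  ⟨2 * Real.sinh ζ.re * Real.cos ζ.im, -(2 * Real.cosh ζ.re * Real.sin ζ.im)⟩

/-- The local minimizer: `ũ` outside the loop, `-8` on the loop and inside. -/
noncomputable def uu (x : ℂ) : ℝ := by
  classical
  exact if x ∈ OmOut then ut (sec x) else -8

/-- Its gradient. -/
noncomputable def gg (x : ℂ) : ℂ := by
  classical
  exact if x ∈ OmOut then gt (sec x) / (starRingEnd ℂ) (F' (sec x)) else 0

/-- The weight `ρ = |F'|`. -/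
noncomputable def rho (ζ : ℂ) : ℝ :=
  3 * Real.exp ζ.re + 2 * Real.exp (-ζ.re) * Real.cos (2 * ζ.im) + Real.exp (-(3 * ζ.re)) / 3

/-! ### The calibration, in the strip -/

/-- truncation to `[-1, 1]` -/
noncomputable def cl (x : ℝ) : ℝ := max (-1) (min x 1)

/-- `a(x) = x - x³/3` on `[-1, 1]`, constant outside -/
noncomputable def fa (x : ℝ) : ℝ := cl x - cl x ^ 3 / 3

/-- `B(x) = 2x² - x⁴` on `[-1, 1]`, `1` outside -/
noncomputable def fB (x : ℝ) : ℝ := 2 * cl x ^ 2 - cl x ^ 4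

/-- truncation to `[0, 1]` -/
noncomputable def cl₀ (x : ℝ) : ℝ := max 0 (min x 1)

/-- the cut-off in `t`: `0` for `t ≤ -7`, `1` for `t ≥ -3` -/
noncomputable def Lam (t : ℝ) : ℝ := 2 * cl₀ ((t + 7) / 4) ^ 2 - cl₀ ((t + 7) / 4) ^ 4

/-- `b = 1 / (κ - C τ)` with `κ = 1/20`, `C = 16` -/
noncomputable def bb (τ : ℝ) : ℝ := (1 / 20 - 16 * τ)⁻¹

/-- the radial field `W`, with `div W = |∇ũ|²` and `W = ρ` on the imaginary axis -/
noncomputable def WW (ζ : ℂ) : ℝ :=
  10 / 3 + Real.sinh (2 * ζ.re) + 2 * (1 - ζ.re) * Real.cos (2 * ζ.im)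

/-- `V(ζ, x) = W + 2 ε a(x) ∇ũ - ε² B(x) b`, `ε = 1/16` -/
noncomputable def VV (ζ : ℂ) (x : ℝ) : ℂ :=
  (WW ζ : ℂ) + ((fa x / 8 : ℝ) : ℂ) * gt ζ - ((fB x * bb ζ.re / 256 : ℝ) : ℂ)

/-- the calibration in the strip -/
noncomputable def Psis (ζ : ℂ) (t : ℝ) : ℂ := ((Lam t : ℝ) : ℂ) * VV ζ (16 * (t - ut ζ))

/-- the calibration in `Ω` -/
noncomputable def Psi (x : ℂ) (t : ℝ) : ℂ :=
  Psis (sec x) t / (starRingEnd ℂ) (F' (sec x))

end Pool.Agent.MP099f24
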